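import Pool.Agent.X79.BC8

/-!
# Random unions of bicliques: the growth rate
-/

namespace Pool.Agent.X79.BC

open Finset Classical

/-- **Lower bound for the growth rate.** -/
theorem rate_lower (ε : ℝ) (hε0 : 0 < ε) (hε1 : ε < 1) : ∃ γ₀ : ℝ, 0 < γ₀ ∧
    ∀ γ : ℝ, 0 < γ → γ < γ₀ → ∃ K : ℕ, ∀ k : ℕ, K ≤ k →
      ∃ (n t : ℕ) (F : SimpleGraph (Fin n)) (A B : Fin t → Finset (Fin n)), 1 ≤ t ∧
        (t : ℝ) ≤ Real.exp (γ * k) ∧ F.CliqueFree k ∧ Fᶜ.CliqueFree k ∧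
        (∀ x y, F.Adj x y ↔ ∃ i, (x ∈ A i ∧ y ∈ B i) ∨ (x ∈ B i ∧ y ∈ A i)) ∧
        (1 - ε) * (γ / 2 * Real.logb 2 (1 / γ)) * k ≤ Real.log n := by
  set Λ : ℝ := 1000000 / ε ^ 4 with hΛ
  have hε4 : ε ^ 4 ≤ 1 := pow_le_one₀ hε0.le hε1.le
  have hΛ6 : 1000000 ≤ Λ := by
    rw [hΛ, le_div_iff₀ (by positivity)]
    nlinarith
  refine ⟨(2 : ℝ) ^ (-Λ), by positivity, fun γ hγ0 hγ => ?_⟩
  have hl2 : 0 < Real.log 2 := Real.log_pos (by norm_num)
  have hl2a := Real.log_two_gt_d9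
  set lam : ℝ := Real.logb 2 (1 / γ) with hlam
  have hlamΛ : Λ < lam := by
    rw [hlam, one_div, Real.logb_inv]
    have := Real.logb_lt_logb (b := 2) (by norm_num) hγ0 hγ
    rw [Real.logb_rpow (by norm_num) (by norm_num)] at this
    linarith
  have hlam6 : 1000000 < lam := hΛ6.trans_lt hlamΛ
  have hlam0 : 0 < lam := by linarith
  have h2lam : (2 : ℝ) ^ (-lam) = γ := by
    rw [hlam, one_div, Real.logb_inv, neg_neg]
    exact Real.rpow_logb (by norm_num) (by norm_num) hγ0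
  -- exponential decay
  have hdecay : ∀ x : ℝ, 0 < x → (2 : ℝ) ^ (-x) * x ^ 2 ≤ 5 := by
    intro x hx
    rw [Real.rpow_def_of_pos (by norm_num)]
    have h1 := Real.pow_div_factorial_le_exp (x := Real.log 2 * x) (by positivity) 2
    have h2 : ((Nat.factorial 2 : ℕ) : ℝ) = 2 := by norm_num [Nat.factorial]
    rw [h2] at h1
    have h3 : Real.exp (Real.log 2 * -x) * Real.exp (Real.log 2 * x) = 1 := by
      rw [← Real.exp_add]; simp
    have h4 : x ^ 2 ≤ 5 * Real.exp (Real.log 2 * x) := by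
      have h5 : (0.48 : ℝ) ≤ Real.log 2 ^ 2 := by nlinarith
      have h6 : (Real.log 2 * x) ^ 2 = Real.log 2 ^ 2 * x ^ 2 := by ring
      rw [h6] at h1
      have h7 : 0.48 * x ^ 2 ≤ Real.log 2 ^ 2 * x ^ 2 := by gcongr
      have h8 : 0 ≤ x ^ 2 := sq_nonneg x
      linarith
    calc Real.exp (Real.log 2 * -x) * x ^ 2 ≤
          Real.exp (Real.log 2 * -x) * (5 * Real.exp (Real.log 2 * x)) := by gcongr
      _ = 5 * (Real.exp (Real.log 2 * -x) * Real.exp (Real.log 2 * x)) := by ring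
      _ = 5 := by rw [h3, mul_one]
  have hθ' : 48 * (γ * lam) ≤ 1 := by
    have h1 := hdecay lam hlam0
    rw [h2lam] at h1
    have h2 : γ * lam * lam ≤ 5 := by
      calc γ * lam * lam = γ * lam ^ 2 := by ring
        _ ≤ 5 := h1
    have h3 : 0 < γ * lam := by positivity
    have h4 : γ * lam * 1000000 ≤ γ * lam * lam := by gcongr
    linarith
  have hsmall : 4 * lam * γ ^ (ε / 4) < ε ^ 2 / 2048 := by
    have h1 := hdecay (lam * (ε / 4)) (by positivity)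
    have h2 : (2 : ℝ) ^ (-(lam * (ε / 4))) = γ ^ (ε / 4) := by
      rw [← h2lam, ← Real.rpow_mul (by norm_num)]
      congr 1
      ring
    rw [h2] at h1
    have h3 : γ ^ (ε / 4) * (lam * (ε / 4)) ^ 2 = (4 * lam * γ ^ (ε / 4)) * (lam * ε ^ 2 / 64) := by
      ring
    rw [h3] at h1
    have h4 : 1000000 < lam * ε ^ 4 := by
      have := hlamΛ
      rw [hΛ, div_lt_iff₀ (by positivity)] at this
      exact this
    by_contra hcon
    push Not at hcon
    have h5 : ε ^ 2 / 2048 * (lam * ε ^ 2 / 64) ≤ (4 * lam * γ ^ (ε / 4)) * (lam * ε ^ 2 / 64) :=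
      mul_le_mul_of_nonneg_right hcon (by positivity)
    have h6 : ε ^ 2 / 2048 * (lam * ε ^ 2 / 64) = lam * ε ^ 4 / 131072 := by ring
    rw [h6] at h5
    have h7 : (1000000 : ℝ) / 131072 < lam * ε ^ 4 / 131072 := by gcongr
    norm_num at h7
    linarith
  obtain ⟨K, hK⟩ := lower_aux hε0 hε1 hγ0 (by linarith : (1 : ℝ) ≤ lam) h2lam hsmall hθ'
  refine ⟨K, fun k hk => ?_⟩
  obtain ⟨n, t, Q, x, ht1, ht, h1, h2, hn⟩ := hK k hk
  refine ⟨n, t, Gx x, fun i => univ.filter (fun w => sg (x i w) = 1),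
    fun i => univ.filter (fun w => sg (x i w) = -1), ht1, ht, h1, h2, Gx_adj x, ?_⟩
  rw [Real.le_log_iff_exp_le ((Real.exp_pos _).trans_le hn)]
  exact hn

end Pool.Agent.X79.BC
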