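import Mathlib

/-!
# The finite theorem of Folkman, Rado and Sanders, from Hindman's theorem by compactness
-/

namespace Pool.Agent.X79.DC

open Filter

/-- Elements of `FS` of the image of a stream of positive integers. -/
lemma FS_map (a : Stream' ℕ+) (m : ℕ) (hm : m ∈ Hindman.FS (a.map (fun x : ℕ+ => (x : ℕ)))) :
    ∃ m' ∈ Hindman.FS a, m = (m' : ℕ) := by
  generalize hb : a.map (fun x : ℕ+ => (x : ℕ)) = b at hm
  induction hm generalizing a with
  | head' b =>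
    subst hb
    exact ⟨a.head, Hindman.FS.head a, rfl⟩
  | tail' b m _ ih =>
    subst hb
    obtain ⟨m', h1, h2⟩ := ih a.tail rfl
    exact ⟨m', Hindman.FS.tail a m' h1, h2⟩
  | cons' b m _ ih =>
    subst hb
    obtain ⟨m', h1, h2⟩ := ih a.tail rfl
    refine ⟨a.head + m', Hindman.FS.cons a m' h1, ?_⟩
    rw [h2]
    rfl

/-- Infinite version: in every finite colouring of the positive integers there is a sequence of
positive integers all of whose finite sums have the same colour. -/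
lemma hindman (κ : Type) [Finite κ] (c : ℕ → κ) :
    ∃ (u : ℕ → ℕ) (b : κ), (∀ i, 1 ≤ u i) ∧
      ∀ I : Finset ℕ, I.Nonempty → c (∑ i ∈ I, u i) = b := by
  obtain ⟨s, hs, a, ha⟩ := Hindman.exists_FS_of_finite_cover
    (Set.range (fun b : κ => {m : ℕ+ | c (m : ℕ) = b})) (Set.finite_range _)
    (by
      intro m _
      exact ⟨_, ⟨c (m : ℕ), rfl⟩, rfl⟩)
  obtain ⟨b, rfl⟩ := hs
  refine ⟨fun i => (a.get i : ℕ), b, fun i => (a.get i).pos, fun I hI => ?_⟩
  have h1 := Hindman.FS.finsetSum (a.map (fun x : ℕ+ => (x : ℕ))) I hI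
  obtain ⟨m', h2, h3⟩ := FS_map a _ h1
  have h4 : (∑ i ∈ I, (a.get i : ℕ)) = (m' : ℕ) := by
    rw [← h3]
    rfl
  rw [h4]
  exact ha h2

/-- **Folkman–Rado–Sanders**: finite version. -/
theorem folkman (κ : Type) [Finite κ] (r : ℕ) : ∃ F : ℕ, 1 ≤ F ∧ ∀ c : ℕ → κ,
    ∃ u : Fin r → ℕ, (∀ i, 1 ≤ u i ∧ u i ≤ F) ∧ ∃ b : κ, ∀ I : Finset (Fin r), I.Nonempty →
      c (∑ i ∈ I, u i) = b := by
  classical
  by_contra hcon
  push Not at hcon
  have h0 : ∀ F : ℕ, ∃ c : ℕ → κ, ∀ u : Fin r → ℕ, (∀ i, 1 ≤ u i ∧ u i ≤ F + 1) →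
      ∀ b : κ, ∃ I : Finset (Fin r), I.Nonempty ∧ c (∑ i ∈ I, u i) ≠ b := by
    intro F
    obtain ⟨c, hc⟩ := hcon (F + 1) (by omega)
    exact ⟨c, hc⟩
  choose C hC using h0
  have hlim : ∀ n : ℕ, ∃ b : κ, ∀ᶠ F in (hyperfilter ℕ : Filter ℕ), C F n = b := by
    intro n
    obtain ⟨b, hb⟩ := Ultrafilter.eq_pure_of_finite ((hyperfilter ℕ).map (fun F => C F n))
    refine ⟨b, ?_⟩
    have h1 : ({b} : Set κ) ∈ (hyperfilter ℕ).map (fun F => C F n) := by
      rw [hb]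
      simp
    exact h1
  choose c hc using hlim
  obtain ⟨u, b, hu, hI⟩ := hindman κ c
  have h1 : ∀ᶠ F in (hyperfilter ℕ : Filter ℕ), ∀ I : Finset (Fin r),
      C F (∑ i ∈ I, u i.val) = c (∑ i ∈ I, u i.val) := by
    rw [Filter.eventually_all]
    exact fun I => hc _
  have h2 : ∀ᶠ F in (hyperfilter ℕ : Filter ℕ), ∀ i : Fin r, u i.val ≤ F + 1 := by
    rw [Filter.eventually_all]
    intro i
    apply Nat.hyperfilter_le_atTop
    filter_upwards [Filter.eventually_ge_atTop (u i.val)] with F hF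
    omega
  obtain ⟨F, hF1, hF2⟩ := (h1.and h2).exists
  obtain ⟨I, hI0, hI1⟩ := hC F (fun i => u i.val) (fun i => ⟨hu _, hF2 i⟩) b
  apply hI1
  rw [hF1 I]
  have h3 := hI (I.map Fin.valEmbedding) (by simpa using hI0)
  rw [Finset.sum_map] at h3
  exact h3

end Pool.Agent.X79.DC
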