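import Mathlib
import Pool.Agent.X79.Folk

/-!
# Distance colourings: large homogeneous sets
-/

namespace Pool.Agent.X79.DC

open Finset

/-- index set of the petals -/
abbrev K (r q F : ℕ) : Type := Fin r × Fin q × Fin F

/-- the set chosen by `J` -/
def A {r q F : ℕ} (u : Fin r → ℕ) (J : Fin r → Fin q) : Finset (K r q F) :=
  univ.filter (fun p => p.2.1 = J p.1 ∧ p.2.2.val < u p.1)

lemma card_lt {F u : ℕ} (h : u ≤ F) : (univ.filter (fun t : Fin F => t.val < u)).card = u := by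
  rw [Fin.card_filter_val_lt]
  omega

lemma card_gen {r q F : ℕ} (u : Fin r → ℕ) (hu : ∀ i, u i ≤ F) (J : Fin r → Fin q)
    (Q : Fin r → Prop) [DecidablePred Q] :
    (univ.filter (fun p : K r q F => (p.2.1 = J p.1 ∧ p.2.2.val < u p.1) ∧ Q p.1)).card =
      ∑ i ∈ univ.filter Q, u i := by
  rw [card_filter, Fintype.sum_prod_type, sum_filter]
  refine sum_congr rfl fun i _ => ?_
  rw [Fintype.sum_prod_type]
  by_cases hQ : Q i
  · simp only [hQ, and_true, if_true]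
    rw [sum_eq_single (J i)]
    · simp only [true_and]
      rw [← card_filter, card_lt (hu i)]
    · intro j _ hj
      simp [hj]
    · simp
  · simp [hQ]

lemma card_A {r q F : ℕ} (u : Fin r → ℕ) (hu : ∀ i, u i ≤ F) (J : Fin r → Fin q) :
    (A u J : Finset (K r q F)).card = ∑ i, u i := by
  have := card_gen u hu J (fun _ => True)
  simpa [A] using this

lemma card_diff {r q F : ℕ} (u : Fin r → ℕ) (hu : ∀ i, u i ≤ F) (J J' : Fin r → Fin q) :
    (A u J \ A u J' : Finset (K r q F)).card = ∑ i ∈ univ.filter (fun i => J i ≠ J' i), u i := by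
  rw [← card_gen u hu J (fun i => J i ≠ J' i)]
  congr 1
  ext p
  simp only [A, mem_sdiff, mem_filter, mem_univ, true_and]
  constructor
  · rintro ⟨⟨h1, h2⟩, h3⟩
    refine ⟨⟨h1, h2⟩, fun h => h3 ⟨h1.trans h, h2⟩⟩
  · rintro ⟨⟨h1, h2⟩, h3⟩
    exact ⟨⟨h1, h2⟩, fun h => h3 (h1.symm.trans h.1)⟩

lemma A_inj {r q F : ℕ} (u : Fin r → ℕ) (hu : ∀ i, 1 ≤ u i ∧ u i ≤ F) :
    Function.Injective (fun J : Fin r → Fin q => (A u J : Finset (K r q F))) := by
  intro J J' h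
  have h1 := card_diff u (fun i => (hu i).2) J J'
  simp only at h
  rw [h, sdiff_self] at h1
  have h1' : 0 = ∑ i ∈ univ.filter (fun i => J i ≠ J' i), u i := by
    rw [← h1]; rfl
  funext i
  by_contra hne
  have h2 : u i ≤ ∑ i ∈ univ.filter (fun i => J i ≠ J' i), u i :=
    single_le_sum (f := u) (fun _ _ => Nat.zero_le _) (by simpa using hne)
  have := (hu i).1
  omega

/-- The family of all `A J`, in a form that can be transported: there are `q ^ r` sets, each with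
`∑ u` elements, and the sizes of the differences of two of them are sums over non-empty sets. -/
theorem family {κ : Type} [Finite κ] (r : ℕ) : ∃ F : ℕ, 1 ≤ F ∧ ∀ (q : ℕ) (c : ℕ → κ),
    ∃ (𝒜 : Finset (Finset (K r q F))) (s : ℕ) (b : κ), 𝒜.card = q ^ r ∧ s ≤ r * F ∧
      (∀ X ∈ 𝒜, X.card = s) ∧
      ∀ X ∈ 𝒜, ∀ Y ∈ 𝒜, X ≠ Y → (X \ Y).card = (Y \ X).card ∧ 1 ≤ (X \ Y).card ∧
        c (X \ Y).card = b := by
  classical
  obtain ⟨F, hF, h⟩ := folkman κ r
  refine ⟨F, hF, fun q c => ?_⟩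
  obtain ⟨u, hu, b, hb⟩ := h c
  refine ⟨univ.image (fun J : Fin r → Fin q => (A u J : Finset (K r q F))), ∑ i, u i, b,
    ?_, ?_, ?_, ?_⟩
  · rw [card_image_of_injective _ (A_inj u hu), card_univ, Fintype.card_fun, Fintype.card_fin,
      Fintype.card_fin]
  · calc ∑ i, u i ≤ ∑ _i : Fin r, F := sum_le_sum fun i _ => (hu i).2
      _ = r * F := by simp
  · intro X hX
    rw [mem_image] at hX
    obtain ⟨J, -, rfl⟩ := hX
    exact card_A u (fun i => (hu i).2) J
  · intro X hX Y hY hXY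
    rw [mem_image] at hX hY
    obtain ⟨J, -, rfl⟩ := hX
    obtain ⟨J', -, rfl⟩ := hY
    have hne : ∃ i, J i ≠ J' i := by
      by_contra hcon
      push Not at hcon
      exact hXY (by rw [funext hcon])
    obtain ⟨i0, hi0⟩ := hne
    have h1 := card_diff u (fun i => (hu i).2) J J'
    have h2 := card_diff u (fun i => (hu i).2) J' J
    have h3 : (univ.filter (fun i => J' i ≠ J i)) = univ.filter (fun i => J i ≠ J' i) := by
      ext i
      simp [ne_comm]
    rw [h3] at h2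
    refine ⟨by rw [h1, h2], ?_, ?_⟩
    · rw [h1]
      have : u i0 ≤ ∑ i ∈ univ.filter (fun i => J i ≠ J' i), u i :=
        single_le_sum (f := u) (fun _ _ => Nat.zero_le _) (by simpa using hi0)
      have := (hu i0).1
      omega
    · rw [h1]
      exact hb _ ⟨i0, by simpa using hi0⟩

/-- `q = ⌊M / (r F)⌋` is large enough. -/
lemma pow_bound (r F : ℕ) (hF : 1 ≤ F) : ∃ M0 : ℕ, ∀ M ≥ M0,
    M ^ r ≤ (M / ((r + 1) * F)) ^ (r + 1) := by
  set D := (r + 1) * F with hD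
  have hD1 : 1 ≤ D := Nat.mul_pos (Nat.succ_pos r) hF
  refine ⟨(2 * D) ^ (r + 1), fun M hM => ?_⟩
  have hMD : 2 * D ≤ M := by
    calc 2 * D = (2 * D) ^ 1 := (pow_one _).symm
      _ ≤ (2 * D) ^ (r + 1) := Nat.pow_le_pow_right (by omega) (by omega)
      _ ≤ M := hM
  have h1 : M ≤ 2 * D * (M / D) := by
    have h2 := Nat.div_add_mod M D
    have h3 := Nat.mod_lt M (show D > 0 by omega)
    have h4 : 1 ≤ M / D := (Nat.one_le_div_iff (by omega)).2 (by omega)
    nlinarith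
  have h5 : M ^ r * (2 * D) ^ (r + 1) ≤ (M / D) ^ (r + 1) * (2 * D) ^ (r + 1) := by
    calc M ^ r * (2 * D) ^ (r + 1) ≤ M ^ r * M := Nat.mul_le_mul_left _ hM
      _ = M ^ (r + 1) := (pow_succ _ _).symm
      _ ≤ (2 * D * (M / D)) ^ (r + 1) := Nat.pow_le_pow_left h1 _
      _ = (M / D) ^ (r + 1) * (2 * D) ^ (r + 1) := by rw [mul_pow, mul_comm]
  exact Nat.le_of_mul_le_mul_right h5 (pow_pos (by omega) _)

/-- Sets in `Fin M`. -/
theorem family_fin {κ : Type} [Finite κ] (r : ℕ) : ∃ (F M0 : ℕ), 1 ≤ F ∧ ∀ M ≥ M0,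
    ∀ (α : Type) [DecidableEq α] (Z : Finset α), M ≤ Z.card → ∀ (c : ℕ → κ),
    ∃ (𝒜 : Finset (Finset α)) (s : ℕ) (b : κ), M ^ r ≤ 𝒜.card ∧ s ≤ F ∧
      (∀ X ∈ 𝒜, X ⊆ Z ∧ X.card = s) ∧
      ∀ X ∈ 𝒜, ∀ Y ∈ 𝒜, X ≠ Y → (X \ Y).card = (Y \ X).card ∧ 1 ≤ (X \ Y).card ∧
        c (X \ Y).card = b := by
  classical
  obtain ⟨F, hF, h⟩ := family (κ := κ) (r + 1)
  obtain ⟨M0, hM0⟩ := pow_bound r F hF
  refine ⟨(r + 1) * F, M0, Nat.mul_pos (Nat.succ_pos r) hF, fun M hM α _ Z hZ c => ?_⟩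
  set q := M / ((r + 1) * F) with hq
  obtain ⟨𝒜, s, b, h1, h2, h3, h4⟩ := h q c
  have hcard : Fintype.card (K (r + 1) q F) ≤ Fintype.card Z := by
    rw [Fintype.card_coe]
    simp only [Fintype.card_prod, Fintype.card_fin]
    calc (r + 1) * (q * F) = ((r + 1) * F) * (M / ((r + 1) * F)) := by rw [hq]; ring
      _ ≤ M := Nat.mul_div_le _ _
      _ ≤ Z.card := hZ
  obtain ⟨ι0⟩ : Nonempty (K (r + 1) q F ↪ Z) := Function.Embedding.nonempty_of_card_le hcard
  set ι : K (r + 1) q F ↪ α := ι0.trans (Function.Embedding.subtype _) with hι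
  have hinj : Function.Injective (fun X : Finset (K (r + 1) q F) => X.map ι) :=
    Finset.map_injective ι
  have hsd : ∀ X Y : Finset (K (r + 1) q F), (X.map ι \ Y.map ι).card = (X \ Y).card := by
    intro X Y
    rw [← Finset.map_sdiff, card_map]
  refine ⟨𝒜.image (fun X => X.map ι), s, b, ?_, h2, ?_, ?_⟩
  · rw [card_image_of_injective _ hinj, h1]
    exact hM0 M hM
  · intro X hX
    rw [mem_image] at hX
    obtain ⟨X', hX', rfl⟩ := hX
    refine ⟨?_, by rw [card_map]; exact h3 X' hX'⟩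
    intro z hz
    rw [mem_map] at hz
    obtain ⟨w, -, rfl⟩ := hz
    exact (ι0 w).2
  · intro X hX Y hY hXY
    rw [mem_image] at hX hY
    obtain ⟨X', hX', rfl⟩ := hX
    obtain ⟨Y', hY', rfl⟩ := hY
    have hne : X' ≠ Y' := fun h => hXY (by rw [h])
    obtain ⟨e1, e2, e3⟩ := h4 X' hX' Y' hY' hne
    rw [hsd, hsd]
    exact ⟨e1, e2, e3⟩

end Pool.Agent.X79.DC
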