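import Mathlib
import Pool.Agent.X79.DistCol

/-!
# Distance colourings: hypercubes and Johnson schemes
-/

namespace Pool.Agent.X79.DC

open Finset

/-- indicator word of a set -/
def ind {M : ℕ} (X : Finset (Fin M)) : Fin M → Bool := fun x => decide (x ∈ X)

lemma ind_inj {M : ℕ} : Function.Injective (ind (M := M)) := by
  intro X Y h
  ext x
  have := congrFun h x
  simpa [ind] using this

lemma dist_ind {M : ℕ} (X Y : Finset (Fin M)) :
    hammingDist (ind X) (ind Y) = (X \ Y).card + (Y \ X).card := by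
  unfold hammingDist
  rw [← card_union_of_disjoint]
  · congr 1
    ext x
    simp only [ind, mem_filter, mem_univ, true_and, mem_union, mem_sdiff, ne_eq, decide_eq_decide]
    tauto
  · rw [disjoint_left]
    intro x hx hy
    rw [mem_sdiff] at hx hy
    exact hx.2 hy.1

/-- **Hypercubes.** -/
theorem cube (κ : Type) [Finite κ] (r : ℕ) : ∃ M0 : ℕ, ∀ M ≥ M0, ∀ (V : Type) (χ : V → V → κ)
    (ψ : (Fin M → Bool) → V), Function.Injective ψ → ∀ c : ℕ → κ,
    (∀ a b, a ≠ b → χ (ψ a) (ψ b) = c (hammingDist a b)) →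
    ∃ S : Finset V, M ^ r ≤ S.card ∧ ∃ t : κ, ∀ x ∈ S, ∀ y ∈ S, x ≠ y → χ x y = t := by
  classical
  obtain ⟨F, M0, hF, h⟩ := family_fin (κ := κ) r
  refine ⟨M0, fun M hM V χ ψ hψ c hc => ?_⟩
  obtain ⟨𝒜, s, b, h1, -, h3, h4⟩ := h M hM (Fin M) Finset.univ (by simp)
    (fun t => c (t + t))
  refine ⟨𝒜.image (fun X => ψ (ind X)), ?_, b, ?_⟩
  · rw [card_image_of_injective 𝒜 (f := fun X => ψ (ind X)) (hψ.comp ind_inj)]
    exact h1
  · intro x hx y hy hxy
    rw [mem_image] at hx hy
    obtain ⟨X, hX, rfl⟩ := hx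
    obtain ⟨Y, hY, rfl⟩ := hy
    have hne : X ≠ Y := fun h => hxy (by rw [h])
    obtain ⟨e1, -, e3⟩ := h4 X hX Y hY hne
    rw [hc _ _ (fun h => hne (ind_inj h)), dist_ind, ← e1]
    exact e3

/-- a growth comparison -/
lemma log_small (r F : ℕ) : ∃ N0 : ℕ, 1 ≤ N0 ∧ ∀ N : ℕ, N0 ≤ N →
    ((F : ℝ) * Real.log N) ^ r * (2 * F) + 2 * F ≤ N := by
  have h1 : Filter.Tendsto (fun N : ℝ => Real.log N ^ r / N) Filter.atTop (nhds 0) := by
    have := (isLittleO_log_rpow_rpow_atTop (r : ℝ) (s := 1) one_pos).tendsto_div_nhds_zero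
    simpa using this
  have h2 : Filter.Tendsto (fun N : ℕ => Real.log N ^ r / (N : ℝ)) Filter.atTop (nhds 0) :=
    h1.comp tendsto_natCast_atTop_atTop
  have h3 : ∀ᶠ N : ℕ in Filter.atTop,
      Real.log N ^ r / (N : ℝ) < 1 / (2 * ((F : ℝ) ^ r * (2 * F) + 1)) :=
    h2.eventually (gt_mem_nhds (by positivity))
  obtain ⟨N1, hN1⟩ := Filter.eventually_atTop.1 h3
  refine ⟨max (max N1 1) (4 * F), by omega, fun N hN => ?_⟩
  have hNpos : (0 : ℝ) < N := by
    have : 1 ≤ N := by omega
    exact_mod_cast this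
  have h4 := hN1 N (by omega)
  rw [div_lt_div_iff₀ hNpos (by positivity)] at h4
  have h5 : (4 * F : ℝ) ≤ N := by exact_mod_cast (by omega : 4 * F ≤ N)
  rw [mul_pow]
  have h6 : 0 ≤ Real.log N ^ r := pow_nonneg (Real.log_natCast_nonneg N) r
  have h7 : (F : ℝ) ^ r * Real.log N ^ r * (2 * F) * 2 ≤ N := by nlinarith
  linarith

/-- **Johnson schemes**, `m ≤ N / 2`. -/
theorem johnson_half (κ : Type) [Finite κ] (r : ℕ) : ∃ N0 : ℕ, ∀ N ≥ N0, ∀ m : ℕ, 1 ≤ m →
    2 * m ≤ N → ∀ c : ℕ → κ, ∃ S : Finset (Finset (Fin N)), (∀ X ∈ S, X.card = m) ∧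
      (Real.log (N.choose m)) ^ r ≤ S.card ∧
      ∃ t : κ, ∀ X ∈ S, ∀ Y ∈ S, X ≠ Y → c (X ∩ Y).card = t := by
  classical
  obtain ⟨F, M0, hF, h⟩ := family_fin (κ := κ) (r + 1)
  obtain ⟨N1, hN11, hN1⟩ := log_small r F
  refine ⟨max (max (2 * M0) (2 ^ (r + 1))) N1, fun N hN m hm hmN c => ?_⟩
  have hNpos : 1 ≤ N := by omega
  by_cases hmF : F ≤ m
  · obtain ⟨Z, -, hZ⟩ := Finset.exists_subset_card_eq (s := (Finset.univ : Finset (Fin N)))
      (n := N - m) (by simp)
    have hZc : (Zᶜ).card = m := by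
      rw [card_compl, Fintype.card_fin, hZ]; omega
    obtain ⟨𝒜, s, b, h1, h2, h3, h4⟩ := h (N - m) (by omega) (Fin N) Z (by omega)
      (fun t => c (m - t))
    obtain ⟨P, hP, hPc⟩ := Finset.exists_subset_card_eq (s := Zᶜ) (n := m - s) (by omega)
    have hdisj : ∀ X ∈ 𝒜, Disjoint X P := by
      intro X hX
      rw [disjoint_left]
      intro x hx hx'
      have := hP hx'
      rw [mem_compl] at this
      exact this ((h3 X hX).1 hx)
    have hinj : Set.InjOn (fun X : Finset (Fin N) => X ∪ P) (𝒜 : Set (Finset (Fin N))) := by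
      intro X hX Y hY hXY
      simp only at hXY
      have e1 : (X ∪ P) \ P = X := union_sdiff_cancel_right (hdisj X hX)
      have e2 : (Y ∪ P) \ P = Y := union_sdiff_cancel_right (hdisj Y hY)
      rw [← e1, hXY, e2]
    refine ⟨𝒜.image (fun X => X ∪ P), ?_, ?_, b, ?_⟩
    · intro X hX
      rw [mem_image] at hX
      obtain ⟨X', hX', rfl⟩ := hX
      rw [card_union_of_disjoint (hdisj X' hX'), (h3 X' hX').2, hPc]
      omega
    · rw [card_image_of_injOn hinj]
      have e1 : Real.log (N.choose m) ≤ N := by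
        have : (N.choose m : ℝ) ≤ (2 : ℝ) ^ N := by
          exact_mod_cast Nat.choose_le_two_pow N m
        have hpos : (0 : ℝ) < (N.choose m : ℝ) := by
          exact_mod_cast Nat.choose_pos (by omega)
        calc Real.log (N.choose m) ≤ Real.log ((2 : ℝ) ^ N) := Real.log_le_log hpos this
          _ = N * Real.log 2 := by rw [Real.log_pow]
          _ ≤ N * 1 := by
              apply mul_le_mul_of_nonneg_left _ (Nat.cast_nonneg N)
              have := Real.log_two_lt_d9
              linarith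
          _ = N := mul_one _
      have e2 : (0 : ℝ) ≤ Real.log (N.choose m) := Real.log_natCast_nonneg _
      have e3 : N ^ r ≤ (N - m) ^ (r + 1) := by
        have h5 : N ≤ 2 * (N - m) := by omega
        have h6 : N ^ r * 2 ^ (r + 1) ≤ (N - m) ^ (r + 1) * 2 ^ (r + 1) := by
          calc N ^ r * 2 ^ (r + 1) ≤ N ^ r * N := Nat.mul_le_mul_left _ (by omega)
            _ = N ^ (r + 1) := (pow_succ _ _).symm
            _ ≤ (2 * (N - m)) ^ (r + 1) := Nat.pow_le_pow_left h5 _
            _ = (N - m) ^ (r + 1) * 2 ^ (r + 1) := by rw [mul_pow, mul_comm]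
        exact Nat.le_of_mul_le_mul_right h6 (by positivity)
      calc (Real.log (N.choose m)) ^ r ≤ (N : ℝ) ^ r := pow_le_pow_left₀ e2 e1 r
        _ ≤ ((N - m : ℕ) : ℝ) ^ (r + 1) := by exact_mod_cast e3
        _ ≤ (𝒜.card : ℝ) := by exact_mod_cast h1
    · intro X hX Y hY hXY
      rw [mem_image] at hX hY
      obtain ⟨X', hX', rfl⟩ := hX
      obtain ⟨Y', hY', rfl⟩ := hY
      have hne : X' ≠ Y' := fun h => hXY (by rw [h])
      obtain ⟨e1, e2, e3⟩ := h4 X' hX' Y' hY' hne
      have e4 : ((X' ∪ P) ∩ (Y' ∪ P)).card = m - (X' \ Y').card := by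
        have e0 : (X' ∪ P) ∩ (Y' ∪ P) = (X' ∩ Y') ∪ P := by
          ext x
          simp only [mem_inter, mem_union]
          tauto
        rw [e0, card_union_of_disjoint, hPc]
        · have e5 := card_sdiff_add_card_inter X' Y'
          have e6 := (h3 X' hX').2
          omega
        · exact disjoint_of_subset_left inter_subset_left (hdisj X' hX')
      rw [e4]
      exact e3
  · -- small m: disjoint sets
    have hblock : ∀ i < N / m, ((Finset.univ : Finset (Fin N)).filter
        (fun x => x.val / m = i)).card = m := by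
      intro i hi
      have h5 : (i + 1) * m ≤ N := by
        calc (i + 1) * m ≤ (N / m) * m := Nat.mul_le_mul_right _ hi
          _ ≤ N := Nat.div_mul_le_self _ _
      have h6 : ((Finset.univ : Finset (Fin N)).filter (fun x => x.val / m = i)).map
          Fin.valEmbedding = Finset.Ico (i * m) ((i + 1) * m) := by
        ext x
        simp only [mem_map, mem_filter, mem_univ, true_and, Fin.valEmbedding_apply, mem_Ico]
        constructor
        · rintro ⟨y, hy, rfl⟩
          rw [Nat.div_eq_iff (by omega)] at hy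
          obtain ⟨hy1, hy2⟩ := hy
          have : (i + 1) * m = i * m + m := by ring
          omega
        · rintro ⟨hx1, hx2⟩
          refine ⟨⟨x, by omega⟩, ?_, rfl⟩
          rw [Nat.div_eq_iff (by omega)]
          have : (i + 1) * m = i * m + m := by ring
          simp only
          omega
      rw [← card_map Fin.valEmbedding, h6, Nat.card_Ico]
      have : (i + 1) * m = i * m + m := by ring
      omega
    have hdis : ∀ i j, i ≠ j → (((Finset.univ : Finset (Fin N)).filter
        (fun x => x.val / m = i)) ∩ ((Finset.univ : Finset (Fin N)).filter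
        (fun x => x.val / m = j))) = ∅ := by
      intro i j hij
      ext x
      simp only [mem_inter, mem_filter, mem_univ, true_and, notMem_empty, iff_false]
      rintro ⟨h1, h2⟩
      exact hij (h1.symm.trans h2)
    have hinj : Set.InjOn (fun i => (Finset.univ : Finset (Fin N)).filter
        (fun x => x.val / m = i)) (Finset.range (N / m) : Set ℕ) := by
      intro i hi j hj hij
      by_contra hne
      have h5 := hdis i j hne
      simp only at hij
      rw [hij, inter_self] at h5
      have h6 := hblock j (by simpa using hj)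
      rw [h5, card_empty] at h6
      omega
    refine ⟨(Finset.range (N / m)).image (fun i => (Finset.univ : Finset (Fin N)).filter
        (fun x => x.val / m = i)), ?_, ?_, c 0, ?_⟩
    · intro X hX
      rw [mem_image] at hX
      obtain ⟨i, hi, rfl⟩ := hX
      exact hblock i (by simpa using hi)
    · rw [card_image_of_injOn hinj, card_range]
      have e1 : Real.log (N.choose m) ≤ F * Real.log N := by
        have h5 : (N.choose m : ℝ) ≤ (N : ℝ) ^ m := by
          exact_mod_cast Nat.choose_le_pow N m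
        have hpos : (0 : ℝ) < (N.choose m : ℝ) := by
          exact_mod_cast Nat.choose_pos (by omega)
        calc Real.log (N.choose m) ≤ Real.log ((N : ℝ) ^ m) := Real.log_le_log hpos h5
          _ = m * Real.log N := by rw [Real.log_pow]
          _ ≤ F * Real.log N := by
              apply mul_le_mul_of_nonneg_right _ (Real.log_natCast_nonneg N)
              exact_mod_cast (by omega : m ≤ F)
      have e2 : (0 : ℝ) ≤ Real.log (N.choose m) := Real.log_natCast_nonneg _
      have e3 := hN1 N (by omega)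
      have hFpos : (0 : ℝ) < F := by exact_mod_cast hF
      have e4 : ((F : ℝ) * Real.log N) ^ r ≤ (N : ℝ) / F - 1 := by
        rw [le_sub_iff_add_le, le_div_iff₀ hFpos]
        have : 0 ≤ ((F : ℝ) * Real.log N) ^ r :=
          pow_nonneg (mul_nonneg hFpos.le (Real.log_natCast_nonneg N)) r
        nlinarith
      have e5 : (N : ℝ) / F - 1 ≤ ((N / m : ℕ) : ℝ) := by
        have h5 : N / F ≤ N / m := Nat.div_le_div_left (by omega) (by omega)
        have h6 : (N : ℝ) / F < ((N / F : ℕ) : ℝ) + 1 := by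
          rw [div_lt_iff₀ hFpos]
          have := Nat.lt_div_mul_add (a := N) (b := F) (by omega)
          have h7 : N < (N / F + 1) * F := by
            have : (N / F + 1) * F = N / F * F + F := by ring
            omega
          exact_mod_cast h7
        have h8 : ((N / F : ℕ) : ℝ) ≤ ((N / m : ℕ) : ℝ) := by exact_mod_cast h5
        linarith
      calc (Real.log (N.choose m)) ^ r ≤ ((F : ℝ) * Real.log N) ^ r := pow_le_pow_left₀ e2 e1 r
        _ ≤ _ := e4
        _ ≤ _ := e5
    · intro X hX Y hY hXY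
      rw [mem_image] at hX hY
      obtain ⟨i, hi, rfl⟩ := hX
      obtain ⟨j, hj, rfl⟩ := hY
      have hne : i ≠ j := fun h => hXY (by rw [h])
      rw [hdis i j hne, card_empty]

/-- **Johnson schemes.** -/
theorem johnson (κ : Type) [Finite κ] (r : ℕ) : ∃ N0 : ℕ, ∀ N ≥ N0, ∀ m : ℕ, 1 ≤ m →
    m < N → ∀ c : ℕ → κ, ∃ S : Finset (Finset (Fin N)), (∀ X ∈ S, X.card = m) ∧
      (Real.log (N.choose m)) ^ r ≤ S.card ∧
      ∃ t : κ, ∀ X ∈ S, ∀ Y ∈ S, X ≠ Y → c (X ∩ Y).card = t := by
  classical
  obtain ⟨N0, h⟩ := johnson_half κ r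
  refine ⟨N0, fun N hN m hm hmN c => ?_⟩
  by_cases h2 : 2 * m ≤ N
  · exact h N hN m hm h2 c
  · obtain ⟨S, h3, h4, t, h5⟩ := h N hN (N - m) (by omega) (by omega)
      (fun i => c (i + (2 * m - N)))
    refine ⟨S.image (fun X => Xᶜ), ?_, ?_, t, ?_⟩
    · intro X hX
      rw [mem_image] at hX
      obtain ⟨X', hX', rfl⟩ := hX
      rw [card_compl, Fintype.card_fin, h3 X' hX']
      omega
    · rw [card_image_of_injective _ compl_injective]
      rw [Nat.choose_symm hmN.le] at h4
      exact h4
    · intro X hX Y hY hXY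
      rw [mem_image] at hX hY
      obtain ⟨X', hX', rfl⟩ := hX
      obtain ⟨Y', hY', rfl⟩ := hY
      have hne : X' ≠ Y' := fun h => hXY (by rw [h])
      have e1 := h5 X' hX' Y' hY' hne
      have e2 : (X'ᶜ ∩ Y'ᶜ).card = (X' ∩ Y').card + (2 * m - N) := by
        have e3 : X'ᶜ ∩ Y'ᶜ = (X' ∪ Y')ᶜ := by
          ext x; simp
        rw [e3, card_compl, Fintype.card_fin]
        have e4 := card_union_add_card_inter X' Y'
        have e5 := h3 X' hX'
        have e6 := h3 Y' hY'
        have e7 : (X' ∪ Y').card ≤ N := by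
          have := card_le_univ (X' ∪ Y')
          simpa using this
        omega
      rw [e2]
      exact e1

end Pool.Agent.X79.DC
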