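import Mathlib

/-!
# A typed Nešetřil–Rödl theorem

The edges of the graphs carry types `t : τ`; the type `t` graph of the starting structure is
`K_{m t + 1}`-free, and the same holds for the structure that is constructed.  In every colouring
of the constructed structure there is a copy of the starting structure in which the colour of an
edge depends only on its type.  The proof is the partite construction, as in
`H267R3.Folk`, with the Hales–Jewett theorem of Mathlib as the partite lemma.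
-/

open Combinatorics

namespace Pool.Agent.X79.TF

/-- A typed system with `N` parts. -/
structure Sys (τ : Type) (N : ℕ) where
  X : Type
  fin : Finite X
  Γ : τ → SimpleGraph X
  π : X → Fin N
  part : ∀ i x y, (Γ i).Adj x y → π x ≠ π y
  disj : ∀ i j x y, (Γ i).Adj x y → (Γ j).Adj x y → i = j

/-- A part-preserving and type-preserving homomorphism of systems. -/
structure Emb {τ : Type} {N : ℕ} (P Q : Sys τ N) where
  f : P.X → Q.X
  adj : ∀ i x y, (P.Γ i).Adj x y → (Q.Γ i).Adj (f x) (f y)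
  part : ∀ x, Q.π (f x) = P.π x

section Step

variable {τ : Type} {N : ℕ} (P : Sys τ N) (i : τ) (a b : Fin N)

/-- Edges of type `i` between part `a` and part `b`. -/
abbrev E : Type := {e : P.X × P.X // P.π e.1 = a ∧ P.π e.2 = b ∧ (P.Γ i).Adj e.1 e.2}

variable {P i a b} {ι : Type}

open Classical in
/-- The copy of `P` belonging to the line `l`. -/
noncomputable def F (l : Line (E P i a b) ι) (x : P.X) :
    Option (Line (E P i a b) ι) × (ι → P.X) :=
  if P.π x = a then (none, fun t => (l.idxFun t).elim x (fun e => e.1.1))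
  else if P.π x = b then (none, fun t => (l.idxFun t).elim x (fun e => e.1.2))
  else (some l, fun _ => x)

lemma F_a (l : Line (E P i a b) ι) {x : P.X} (h : P.π x = a) :
    F l x = (none, fun t => (l.idxFun t).elim x (fun e => e.1.1)) := by
  simp [F, h]

lemma F_b (hab : a ≠ b) (l : Line (E P i a b) ι) {x : P.X} (h : P.π x = b) :
    F l x = (none, fun t => (l.idxFun t).elim x (fun e => e.1.2)) := by
  have : P.π x ≠ a := by rw [h]; exact hab.symm
  simp [F, h, hab.symm]

lemma F_z (l : Line (E P i a b) ι) {x : P.X} (h : P.π x ≠ a) (h' : P.π x ≠ b) :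
    F l x = (some l, fun _ => x) := by
  simp [F, h, h']

lemma π_F (hab : a ≠ b) (l : Line (E P i a b) ι) (x : P.X) (t : ι) :
    P.π ((F l x).2 t) = P.π x := by
  by_cases h : P.π x = a
  · rw [F_a l h]
    cases ht : l.idxFun t with
    | none => simp [ht]
    | some e => simp [ht, h, e.2.1]
  · by_cases h' : P.π x = b
    · rw [F_b hab l h']
      cases ht : l.idxFun t with
      | none => simp [ht]
      | some e => simp [ht, h', e.2.2.1]
    · rw [F_z l h h']

lemma F_at (hab : a ≠ b) (l : Line (E P i a b) ι) (x : P.X) {t : ι} (ht : l.idxFun t = none) :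
    (F l x).2 t = x := by
  by_cases h : P.π x = a
  · rw [F_a l h]; simp [ht]
  · by_cases h' : P.π x = b
    · rw [F_b hab l h']; simp [ht]
    · rw [F_z l h h']

lemma F_inj (hab : a ≠ b) (l : Line (E P i a b) ι) {x y : P.X} (h : F l x = F l y) : x = y := by
  obtain ⟨t, ht⟩ := l.proper
  rw [← F_at hab l x ht, h, F_at hab l y ht]

lemma F_some (hab : a ≠ b) {l l0 : Line (E P i a b) ι} {x : P.X} (h : (F l x).1 = some l0) :
    l = l0 ∧ P.π x ≠ a ∧ P.π x ≠ b := by
  by_cases h1 : P.π x = a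
  · rw [F_a l h1] at h; simp at h
  · by_cases h2 : P.π x = b
    · rw [F_b hab l h2] at h; simp at h
    · rw [F_z l h1 h2] at h
      exact ⟨by simpa using h, h1, h2⟩

lemma F_none {l : Line (E P i a b) ι} {x : P.X} (h : (F l x).1 = none) :
    P.π x = a ∨ P.π x = b := by
  by_contra hc
  push Not at hc
  rw [F_z l hc.1 hc.2] at h
  simp at h

/-- The new graph of type `j`. -/
def G' (hab : a ≠ b) (j : τ) : SimpleGraph (Option (Line (E P i a b) ι) × (ι → P.X)) where
  Adj p q := ∃ l x y, (P.Γ j).Adj x y ∧ F l x = p ∧ F l y = q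
  symm := ⟨by
    rintro p q ⟨l, x, y, h, h1, h2⟩
    exact ⟨l, y, x, h.symm, h2, h1⟩⟩
  loopless := ⟨by
    rintro p ⟨l, x, y, h, h1, h2⟩
    have := F_inj hab l (h1.trans h2.symm)
    exact h.ne this⟩

/-- At a non-active coordinate of `l`, two `none` vertices of the copy `l` that lie in different
parts are joined by an edge of type `i`. -/
lemma coord_off (hab : a ≠ b) (l : Line (E P i a b) ι) {x y : P.X}
    (hx : P.π x = a ∨ P.π x = b) (hy : P.π y = a ∨ P.π y = b) (hne : P.π x ≠ P.π y)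
    {t : ι} (ht : l.idxFun t ≠ none) :
    (P.Γ i).Adj ((F l x).2 t) ((F l y).2 t) := by
  rcases hx with hx | hx
  · rcases hy with hy | hy
    · exact absurd (hx.trans hy.symm) hne
    · rw [F_a l hx, F_b hab l hy]
      cases ht' : l.idxFun t with
      | none => exact absurd ht' ht
      | some e => simpa [ht'] using e.2.2.2
  · rcases hy with hy | hy
    · rw [F_b hab l hx, F_a l hy]
      cases ht' : l.idxFun t with
      | none => exact absurd ht' ht
      | some e => simpa [ht'] using e.2.2.2.symm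
    · exact absurd (hx.trans hy.symm) hne

lemma coord (hab : a ≠ b) {j : τ} {p q : Option (Line (E P i a b) ι) × (ι → P.X)}
    (h : (G' hab j).Adj p q) (hp : p.1 = none) (hq : q.1 = none) (t : ι) :
    (P.Γ j).Adj (p.2 t) (q.2 t) ∨ (P.Γ i).Adj (p.2 t) (q.2 t) := by
  obtain ⟨l, x, y, h, rfl, rfl⟩ := h
  have hx := F_none hp
  have hy := F_none hq
  have hne := P.part j x y h
  by_cases ht : l.idxFun t = none
  · left
    rw [F_at hab l x ht, F_at hab l y ht]
    exact h
  · right
    exact coord_off hab l hx hy hne ht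

lemma coord_ex (hab : a ≠ b) {j : τ} {p q : Option (Line (E P i a b) ι) × (ι → P.X)}
    (h : (G' hab j).Adj p q) : ∃ t, (P.Γ j).Adj (p.2 t) (q.2 t) := by
  obtain ⟨l, x, y, h, rfl, rfl⟩ := h
  obtain ⟨t, ht⟩ := l.proper
  refine ⟨t, ?_⟩
  rw [F_at hab l x ht, F_at hab l y ht]
  exact h

lemma disj' (hab : a ≠ b) {j j' : τ} {p q : Option (Line (E P i a b) ι) × (ι → P.X)}
    (h : (G' hab j).Adj p q) (h' : (G' hab j').Adj p q) : j = j' := by
  by_cases hp : ∃ l0, p.1 = some l0
  · obtain ⟨l0, hl0⟩ := hp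
    obtain ⟨l, x, y, h, rfl, rfl⟩ := h
    obtain ⟨l', x', y', h', h1, h2⟩ := h'
    obtain ⟨rfl, -, -⟩ := F_some hab hl0
    rw [← h1] at hl0
    obtain ⟨rfl, -, -⟩ := F_some hab hl0
    have hx := F_inj hab l' h1
    have hy := F_inj hab l' h2
    subst hx hy
    exact P.disj _ _ _ _ h h'
  · by_cases hq : ∃ l0, q.1 = some l0
    · obtain ⟨l0, hl0⟩ := hq
      obtain ⟨l, x, y, h, rfl, rfl⟩ := h
      obtain ⟨l', x', y', h', h1, h2⟩ := h'
      obtain ⟨rfl, -, -⟩ := F_some hab hl0
      rw [← h2] at hl0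
      obtain ⟨rfl, -, -⟩ := F_some hab hl0
      have hx := F_inj hab l' h1
      have hy := F_inj hab l' h2
      subst hx hy
      exact P.disj _ _ _ _ h h'
    · have hp' : p.1 = none := by
        cases h0 : p.1 with
        | none => rfl
        | some l => exact absurd ⟨l, h0⟩ hp
      have hq' : q.1 = none := by
        cases h0 : q.1 with
        | none => rfl
        | some l => exact absurd ⟨l, h0⟩ hq
      obtain ⟨t, ht⟩ := coord_ex hab h
      obtain ⟨t', ht'⟩ := coord_ex hab h'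
      by_contra hne
      rcases coord hab h' hp' hq' t with h1 | h1
      · exact hne (P.disj _ _ _ _ ht h1)
      · have e1 := P.disj _ _ _ _ ht h1
        rcases coord hab h hp' hq' t' with h2 | h2
        · exact hne (P.disj _ _ _ _ h2 ht')
        · have e2 := P.disj _ _ _ _ ht' h2
          exact hne (e1.trans e2.symm)

instance finLine [Finite ι] [Finite P.X] : Finite (Line (E P i a b) ι) :=
  Finite.of_injective (fun l : Line (E P i a b) ι => l.idxFun) (by
    intro l l' h
    ext1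
    exact h)

lemma cliqueFree (hab : a ≠ b) (j : τ) {n : ℕ} (hn : 1 ≤ n) (hP : (P.Γ j).CliqueFree (n + 1))
    (t0 : ι) : (G' (P := P) (i := i) (ι := ι) hab j).CliqueFree (n + 1) := by
  classical
  intro s hs
  have hcl := hs.isClique
  have hcard := hs.card_eq
  have hother : ∀ p ∈ s, ∃ q ∈ s, q ≠ p := by
    intro p hp
    apply Finset.exists_mem_ne (by omega)
  by_cases hn1 : n = 1
  · subst hn1
    obtain ⟨p, hp⟩ : s.Nonempty := by rw [← Finset.card_pos]; omega
    obtain ⟨q, hq, hqp⟩ := hother p hp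
    obtain ⟨l, x, y, h, -, -⟩ := hcl hp hq hqp.symm
    apply hP {x, y}
    refine ⟨?_, by rw [Finset.card_pair h.ne]⟩
    intro u hu v hv huv
    simp only [Finset.coe_insert, Finset.coe_singleton, Set.mem_insert_iff,
      Set.mem_singleton_iff] at hu hv
    rcases hu with rfl | rfl <;> rcases hv with rfl | rfl
    · exact absurd rfl huv
    · exact h
    · exact h.symm
    · exact absurd rfl huv
  -- some vertex of `s` is of the form `(some l0, z)`
  have hex : ∃ p ∈ s, ∃ l0, p.1 = some l0 := by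
    by_contra hc
    push Not at hc
    have hnone : ∀ p ∈ s, p.1 = none := by
      intro p hp
      cases h : p.1 with
      | none => rfl
      | some l => exact absurd h (hc p hp l)
    have hmaps : ∀ p ∈ s, P.π (p.2 t0) ∈ ({a, b} : Finset (Fin N)) := by
      intro p hp
      obtain ⟨q, hq, hqp⟩ := hother p hp
      obtain ⟨l, x, y, h, h1, h2⟩ := hcl hp hq hqp.symm
      have h3 : (F l x).1 = none := by rw [h1]; exact hnone p hp
      have h4 := F_none h3
      have h5 := π_F hab l x t0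
      rw [h1] at h5
      rw [h5]
      simpa using h4
    have hinj : Set.InjOn
        (fun p : Option (Line (E P i a b) ι) × (ι → P.X) => P.π (p.2 t0)) s := by
      intro p hp q hq hpq
      by_contra hne
      have := hcl hp hq hne
      rcases coord hab this (hnone p hp) (hnone q hq) t0 with h | h
      · exact P.part _ _ _ h hpq
      · exact P.part _ _ _ h hpq
    have h1 := Finset.card_le_card_of_injOn _ hmaps hinj
    have h2 : ({a, b} : Finset (Fin N)).card ≤ 2 := Finset.card_le_two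
    omega
  obtain ⟨p, hp, l0, hpl⟩ := hex
  obtain ⟨t1, ht1⟩ := l0.proper
  have himg : ∀ q ∈ s, F l0 (q.2 t1) = q := by
    have key : ∀ q, (∃ l x y, (P.Γ j).Adj x y ∧ F l x = p ∧ F l y = q) →
        F l0 (q.2 t1) = q ∧ F l0 (p.2 t1) = p := by
      rintro q ⟨l, x, y, h, h1, h2⟩
      have h3 : (F l x).1 = some l0 := by rw [h1]; exact hpl
      obtain ⟨rfl, -, -⟩ := F_some hab h3
      constructor
      · rw [← h2, F_at hab l y ht1]
      · rw [← h1, F_at hab l x ht1]
    intro q hq
    by_cases hqp : q = p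
    · subst hqp
      obtain ⟨q', hq', hne⟩ := hother q hq
      exact (key q' (hcl hq hq' hne.symm)).2
    · exact (key q (hcl hp hq (Ne.symm hqp))).1
  apply hP (s.image (fun q => q.2 t1))
  have hinj : Set.InjOn (fun q : Option (Line (E P i a b) ι) × (ι → P.X) => q.2 t1) s := by
    intro q hq q' hq' h
    have h1 := himg q hq
    have h2 := himg q' hq'
    simp only at h
    rw [← h1, ← h2, h]
  refine ⟨?_, by rw [Finset.card_image_of_injOn hinj, hcard]⟩
  intro u hu v hv huv
  simp only [Finset.coe_image, Set.mem_image, Finset.mem_coe] at hu hv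
  obtain ⟨q, hq, rfl⟩ := hu
  obtain ⟨q', hq', rfl⟩ := hv
  have hne : q ≠ q' := fun h => huv (by rw [h])
  have hadj := hcl hq hq' hne
  cases hq1 : q.1 with
  | some l1 =>
    obtain ⟨l, x, y, h, h1, h2⟩ := hadj
    have h3 : (F l x).1 = some l1 := by rw [h1]; exact hq1
    have h4 : (F l0 (q.2 t1)).1 = some l1 := by rw [himg q hq]; exact hq1
    obtain ⟨rfl, -, -⟩ := F_some hab h3
    obtain ⟨rfl, -, -⟩ := F_some hab h4
    rw [← h1, ← h2, F_at hab _ x ht1, F_at hab _ y ht1]
    exact h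
  | none =>
    cases hq1' : q'.1 with
    | none =>
      by_cases hji : j = i
      · subst hji
        rcases coord hab hadj hq1 hq1' t1 with h | h <;> exact h
      · obtain ⟨t', ht'⟩ := coord_ex hab hadj
        have e1 := himg q hq
        have e2 := himg q' hq'
        by_cases hact : l0.idxFun t' = none
        · rw [← e1, ← e2, F_at hab _ _ hact, F_at hab _ _ hact] at ht'
          exact ht'
        · exfalso
          have hp1 : (F l0 (q.2 t1)).1 = none := by rw [e1]; exact hq1
          have hp2 : (F l0 (q'.2 t1)).1 = none := by rw [e2]; exact hq1'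
          have hne' : P.π (q.2 t1) ≠ P.π (q'.2 t1) := by
            rcases coord hab hadj hq1 hq1' t1 with h | h
            · exact P.part _ _ _ h
            · exact P.part _ _ _ h
          have h6 := coord_off hab l0 (F_none hp1) (F_none hp2) hne' hact
          rw [e1, e2] at h6
          exact hji (P.disj _ _ _ _ ht' h6)
    | some l1 =>
      obtain ⟨l, x, y, h, h1, h2⟩ := hadj
      have h3 : (F l y).1 = some l1 := by rw [h2]; exact hq1'
      have h4 : (F l0 (q'.2 t1)).1 = some l1 := by rw [himg q' hq']; exact hq1'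
      obtain ⟨rfl, -, -⟩ := F_some hab h3
      obtain ⟨rfl, -, -⟩ := F_some hab h4
      rw [← h1, ← h2, F_at hab _ x ht1, F_at hab _ y ht1]
      exact h

end Step

/-- One step of the partite construction. -/
theorem step {τ : Type} {N : ℕ} (m : τ → ℕ) (hm : ∀ j, 1 ≤ m j) (κ : Type) [Finite κ]
    [Nonempty κ] (P : Sys τ N)
    (hP : ∀ j, (P.Γ j).CliqueFree (m j + 1)) (i : τ) (a b : Fin N) (hab : a ≠ b) :
    ∃ Q : Sys τ N, (∀ j, (Q.Γ j).CliqueFree (m j + 1)) ∧
      ∀ χ : Q.X → Q.X → κ, ∃ f : Emb P Q, ∃ c : κ,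
      ∀ x y, P.π x = a → P.π y = b → (P.Γ i).Adj x y → χ (f.f x) (f.f y) = c := by
  classical
  have := P.fin
  obtain ⟨ι, hι, hHJ⟩ := Line.exists_mono_in_high_dimension (E P i a b) κ
  have ht0 : ∃ t : ι, True := by
    obtain ⟨l, -⟩ := hHJ (fun _ => Classical.arbitrary κ)
    obtain ⟨i, -⟩ := l.proper
    exact ⟨i, trivial⟩
  obtain ⟨t0, -⟩ := ht0
  have : Finite (Option (Line (E P i a b) ι) × (ι → P.X)) := inferInstance
  refine ⟨⟨Option (Line (E P i a b) ι) × (ι → P.X), inferInstance, G' hab,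
    fun p => P.π (p.2 t0), ?_, fun j j' p q h h' => disj' hab h h'⟩,
    fun j => cliqueFree hab j (hm j) (hP j) t0, ?_⟩
  · rintro j p q ⟨l, x, y, h, rfl, rfl⟩
    simp only [π_F hab]
    exact P.part j x y h
  · intro χ
    obtain ⟨l, c, hc⟩ := hHJ (fun w => χ (none, fun t => (w t).1.1) (none, fun t => (w t).1.2))
    refine ⟨⟨F l, fun j x y h => ⟨l, x, y, h, rfl, rfl⟩, fun x => π_F hab l x t0⟩, c, ?_⟩
    intro x y hx hy h
    have := hc ⟨(x, y), hx, hy, h⟩
    rw [← this]
    simp only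
    congr 1
    · rw [F_a l hx]
      congr 1
      funext t
      rw [Line.coe_apply]
      cases l.idxFun t <;> simp
    · rw [F_b hab l hy]
      congr 1
      funext t
      rw [Line.coe_apply]
      cases l.idxFun t <;> simp

/-- Iterating over a list of types and pairs of parts. -/
theorem steps {τ : Type} {N : ℕ} (m : τ → ℕ) (hm : ∀ j, 1 ≤ m j) (κ : Type) [Finite κ]
    [Nonempty κ]
    (L : List (τ × Fin N × Fin N)) (hL : ∀ p ∈ L, p.2.1 ≠ p.2.2) :
    ∀ (P : Sys τ N), (∀ j, (P.Γ j).CliqueFree (m j + 1)) →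
    ∃ Q : Sys τ N, (∀ j, (Q.Γ j).CliqueFree (m j + 1)) ∧
      ∀ χ : Q.X → Q.X → κ, ∃ f : Emb P Q,
      ∀ p ∈ L, ∃ c : κ,
      ∀ x y, P.π x = p.2.1 → P.π y = p.2.2 → (P.Γ p.1).Adj x y → χ (f.f x) (f.f y) = c := by
  induction L with
  | nil =>
    intro P hP
    exact ⟨P, hP, fun χ => ⟨⟨id, fun i x y h => h, fun x => rfl⟩, by simp⟩⟩
  | cons p L ih =>
    intro P hP
    obtain ⟨Q1, hQ1, h1⟩ := step m hm κ P hP p.1 p.2.1 p.2.2 (hL p (by simp))
    obtain ⟨Q2, hQ2, h2⟩ := ih (fun p hp => hL p (by simp [hp])) Q1 hQ1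
    refine ⟨Q2, hQ2, fun χ => ?_⟩
    obtain ⟨g, hg⟩ := h2 χ
    obtain ⟨f, c, hf⟩ := h1 (fun x y => χ (g.f x) (g.f y))
    refine ⟨⟨fun x => g.f (f.f x), fun i x y h => g.adj _ _ _ (f.adj _ _ _ h),
      fun x => (g.part _).trans (f.part x)⟩, ?_⟩
    intro p' hp'
    rcases List.mem_cons.1 hp' with rfl | hp'
    · exact ⟨c, hf⟩
    · obtain ⟨c', hc'⟩ := hg p' hp'
      refine ⟨c', fun x y hx hy h => ?_⟩
      exact hc' _ _ ((f.part x).trans hx) ((f.part y).trans hy) (f.adj _ _ _ h)

/-- End-homogeneous sets. -/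
lemma endHom (κ : Type) [Fintype κ] (m : ℕ) : ∃ M : ℕ, ∀ (N : ℕ) (c : Fin N → Fin N → κ)
    (S : Finset (Fin N)), M ≤ S.card → ∃ T ⊆ S, T.card = m ∧ ∃ d : Fin N → κ,
      ∀ i ∈ T, ∀ j ∈ T, i < j → c i j = d i := by
  classical
  induction m with
  | zero =>
    refine ⟨0, fun N c S _ => ⟨∅, by simp, rfl, ?_⟩⟩
    by_cases h : Nonempty (Fin N)
    · obtain ⟨x⟩ := h
      exact ⟨fun _ => c x x, by simp⟩
    · exact ⟨fun x => absurd ⟨x⟩ h, by simp⟩
  | succ m ih =>
    obtain ⟨M, hM⟩ := ih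
    refine ⟨Fintype.card κ * M + 1, fun N c S hS => ?_⟩
    have hne : S.Nonempty := by
      rw [← Finset.card_pos]; omega
    set x := S.min' hne with hx
    have hxS : x ∈ S := S.min'_mem hne
    have hcard : (S.erase x).card = S.card - 1 := Finset.card_erase_of_mem hxS
    by_cases hM0 : M = 0
    · obtain ⟨T, hT, hTc, d, hd⟩ := hM N c ∅ (by simp [hM0])
      have hT0 : T = ∅ := Finset.subset_empty.1 hT
      have hm : m = 0 := by rw [← hTc, hT0]; rfl
      refine ⟨{x}, by simpa using hxS, by simp [hm], fun _ => c x x, ?_⟩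
      intro i hi j hj hij
      simp only [Finset.mem_singleton] at hi hj
      subst hi
      exact absurd hij (by rw [hj]; exact lt_irrefl _)
    have hpig : ∃ y ∈ (Finset.univ : Finset κ),
        M ≤ ((S.erase x).filter (fun z => c x z = y)).card := by
      have : Nonempty κ := ⟨c x x⟩
      apply Finset.exists_le_card_fiber_of_mul_le_card_of_maps_to
      · intro z _; exact Finset.mem_univ _
      · exact Finset.univ_nonempty
      · rw [Finset.card_univ, hcard]; omega
    obtain ⟨y, -, hy⟩ := hpig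
    obtain ⟨T, hT, hTc, d, hd⟩ := hM N c _ hy
    have hxT : x ∉ T := fun h => by
      have := hT h
      simp at this
    refine ⟨insert x T, ?_, by rw [Finset.card_insert_of_notMem hxT, hTc],
      fun i => if i = x then y else d i, ?_⟩
    · intro z hz
      rcases Finset.mem_insert.1 hz with rfl | hz
      · exact hxS
      · exact Finset.mem_of_mem_erase (Finset.mem_filter.1 (hT hz)).1
    · intro i hi j hj hij
      rcases Finset.mem_insert.1 hi with rfl | hi'
      · rcases Finset.mem_insert.1 hj with rfl | hj'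
        · exact absurd hij (lt_irrefl _)
        · simp [(Finset.mem_filter.1 (hT hj')).2]
      · have hix : i ≠ x := fun h => hxT (h ▸ hi')
        rcases Finset.mem_insert.1 hj with rfl | hj'
        · have hiS : i ∈ S := Finset.mem_of_mem_erase (Finset.mem_filter.1 (hT hi')).1
          exact absurd hij (not_lt.2 (S.min'_le i hiS))
        · simp only [hix, if_false]
          exact hd i hi' j hj' hij

/-- Ramsey's theorem for pairs. -/
lemma ramseyPairs (κ : Type) [Finite κ] (n : ℕ) : ∃ N : ℕ, ∀ (c : Fin N → Fin N → κ),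
    ∃ S : Fin n ↪o Fin N, ∃ y : κ, ∀ i j, i < j → c (S i) (S j) = y := by
  classical
  have := Fintype.ofFinite κ
  obtain ⟨M, hM⟩ := endHom κ (Fintype.card κ * n + 1)
  refine ⟨M, fun c => ?_⟩
  obtain ⟨T, -, hTc, d, hd⟩ := hM M c Finset.univ (by simp)
  have hTne : T.Nonempty := by rw [← Finset.card_pos]; omega
  obtain ⟨x0, hx0⟩ := hTne
  have : Nonempty κ := ⟨c x0 x0⟩
  have hpig : ∃ y ∈ (Finset.univ : Finset κ), n ≤ (T.filter (fun z => d z = y)).card := by
    apply Finset.exists_le_card_fiber_of_mul_le_card_of_maps_to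
    · intro z _; exact Finset.mem_univ _
    · exact Finset.univ_nonempty
    · rw [Finset.card_univ, hTc]; omega
  obtain ⟨y, -, hy⟩ := hpig
  obtain ⟨U, hU, hUc⟩ := Finset.exists_subset_card_eq hy
  refine ⟨U.orderEmbOfFin hUc, y, fun i j hij => ?_⟩
  have hi := hU (U.orderEmbOfFin_mem hUc i)
  have hj := hU (U.orderEmbOfFin_mem hUc j)
  rw [Finset.mem_filter] at hi hj
  rw [hd _ hi.1 _ hj.1 ((U.orderEmbOfFin hUc).lt_iff_lt.2 hij), hi.2]

/-- The starting system: disjoint copies of `D`, one over each `n`-set of parts. -/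
def P0 {τ : Type} (n N : ℕ) (D : τ → SimpleGraph (Fin n))
    (hD : ∀ i j x y, (D i).Adj x y → (D j).Adj x y → i = j) : Sys τ N where
  X := (Fin n ↪o Fin N) × Fin n
  fin := by
    have : Finite (Fin n ↪o Fin N) := Finite.of_injective (fun f => (f : Fin n → Fin N))
      (fun f g h => by ext x; exact congrArg Fin.val (congrFun h x))
    infer_instance
  Γ i :=
    { Adj := fun p q => p.1 = q.1 ∧ (D i).Adj p.2 q.2
      symm := ⟨fun p q h => ⟨h.1.symm, h.2.symm⟩⟩
      loopless := ⟨fun p h => h.2.ne rfl⟩ }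
  π p := p.1 p.2
  part := by
    rintro t ⟨S, i⟩ ⟨T, j⟩ ⟨h1, h2⟩ h
    simp only at h1 h2 h
    subst h1
    exact h2.ne (S.injective h)
  disj := by
    rintro i j ⟨S, x⟩ ⟨T, y⟩ ⟨h1, h2⟩ ⟨h3, h4⟩
    exact hD i j x y h2 h4

/-- Second coordinate. -/
def snd0 {τ : Type} (n N : ℕ) (D : τ → SimpleGraph (Fin n))
    (hD : ∀ i j x y, (D i).Adj x y → (D j).Adj x y → i = j) : (P0 n N D hD).X → Fin n :=
  fun p => Prod.snd (α := Fin n ↪o Fin N) p

lemma P0_cliqueFree {τ : Type} (n N : ℕ) (D : τ → SimpleGraph (Fin n))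
    (hD : ∀ i j x y, (D i).Adj x y → (D j).Adj x y → i = j) (i : τ) (m : ℕ)
    (hm : (D i).CliqueFree m) : ((P0 n N D hD).Γ i).CliqueFree m := by
  classical
  intro s hs
  have hcl := hs.isClique
  have hcard := hs.card_eq
  have hinj : Set.InjOn (snd0 n N D hD) (s : Set (P0 n N D hD).X) := by
    intro p hp q hq h
    by_contra hne
    exact (hcl hp hq hne).2.ne h
  apply hm (s.image (snd0 n N D hD))
  refine ⟨?_, by rw [Finset.card_image_of_injOn hinj, hcard]⟩
  intro u hu v hv huv
  simp only [Finset.coe_image, Set.mem_image, Finset.mem_coe] at hu hv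
  obtain ⟨q, hq, rfl⟩ := hu
  obtain ⟨q', hq', rfl⟩ := hv
  have hne : q ≠ q' := fun h => huv (by rw [h])
  exact (hcl hq hq' hne).2

/-- **Typed Nešetřil–Rödl theorem** on `Fin n`. -/
theorem typedFin {τ : Type} [Finite τ] (m : τ → ℕ) (hm : ∀ j, 1 ≤ m j) (κ : Type) [Finite κ]
    [Nonempty κ] (n : ℕ) (D : τ → SimpleGraph (Fin n))
    (hD : ∀ i j x y, (D i).Adj x y → (D j).Adj x y → i = j)
    (hcf : ∀ i, (D i).CliqueFree (m i + 1)) :
    ∃ (X : Type) (_ : Finite X) (Γ : τ → SimpleGraph X),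
      (∀ i, (Γ i).CliqueFree (m i + 1)) ∧
      (∀ i j x y, (Γ i).Adj x y → (Γ j).Adj x y → i = j) ∧
      ∀ χ : X → X → κ, ∃ (e : Fin n → X) (φ : τ → κ),
        ∀ t i j, i < j → (D t).Adj i j → (Γ t).Adj (e i) (e j) ∧ χ (e i) (e j) = φ t := by
  classical
  have := Fintype.ofFinite τ
  obtain ⟨N, hN⟩ := ramseyPairs (τ → κ) n
  obtain ⟨Q, hQ, h⟩ := steps m hm κ
    ((Finset.univ.filter (fun p : τ × Fin N × Fin N => p.2.1 ≠ p.2.2)).toList) (by simp)
    (P0 n N D hD) (fun i => P0_cliqueFree n N D hD i _ (hcf i))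
  refine ⟨Q.X, Q.fin, Q.Γ, hQ, Q.disj, fun χ => ?_⟩
  obtain ⟨f, hf⟩ := h χ
  have hf' : ∀ (a b : Fin N) (t : τ), ∃ c : κ, a ≠ b → ∀ x y, (P0 n N D hD).π x = a →
      (P0 n N D hD).π y = b →
      ((P0 n N D hD).Γ t).Adj x y → χ (f.f x) (f.f y) = c := by
    intro a b t
    by_cases hab : a = b
    · exact ⟨Classical.arbitrary κ, fun h => absurd hab h⟩
    · obtain ⟨c, hc⟩ := hf (t, a, b) (by simpa using hab)
      exact ⟨c, fun _ => hc⟩
  choose c hc using hf'
  obtain ⟨S, y, hS⟩ := hN c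
  refine ⟨fun i => f.f (S, i), y, fun t i j hij hadj' => ?_⟩
  have hadj : ((P0 n N D hD).Γ t).Adj (S, i) (S, j) := ⟨rfl, hadj'⟩
  refine ⟨f.adj _ _ _ hadj, ?_⟩
  have h2 := hS i j hij
  rw [← h2]
  exact hc (S i) (S j) t (fun h => hij.ne (S.injective h)) (S, i) (S, j) rfl rfl hadj

/-- **Typed Nešetřil–Rödl theorem**, for symmetric colourings. -/
theorem typed {τ : Type} [Finite τ] (m : τ → ℕ) (hm : ∀ j, 1 ≤ m j) (κ : Type) [Finite κ]
    [Nonempty κ] {V : Type} [Finite V] (D : τ → SimpleGraph V)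
    (hD : ∀ i j x y, (D i).Adj x y → (D j).Adj x y → i = j)
    (hcf : ∀ i, (D i).CliqueFree (m i + 1)) :
    ∃ (X : Type) (_ : Finite X) (Γ : τ → SimpleGraph X),
      (∀ i, (Γ i).CliqueFree (m i + 1)) ∧
      (∀ i j x y, (Γ i).Adj x y → (Γ j).Adj x y → i = j) ∧
      ∀ χ : X → X → κ, (∀ x y, χ x y = χ y x) → ∃ (e : V → X) (φ : τ → κ),
        ∀ t u v, (D t).Adj u v → (Γ t).Adj (e u) (e v) ∧ χ (e u) (e v) = φ t := by
  classical
  have := Fintype.ofFinite V
  obtain ⟨ε⟩ : Nonempty (V ≃ Fin (Fintype.card V)) := ⟨Fintype.equivFin V⟩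
  obtain ⟨X, hX, Γ, h1, h2, h3⟩ := typedFin m hm κ (Fintype.card V)
    (fun t => (D t).comap ε.symm) (fun i j x y h h' => hD i j _ _ h h')
    (fun i => (hcf i).comap ⟨(SimpleGraph.Embedding.comap ε.symm.toEmbedding (D i)).toCopy⟩)
  refine ⟨X, hX, Γ, h1, h2, fun χ hχ => ?_⟩
  obtain ⟨e, φ, he⟩ := h3 χ
  refine ⟨fun v => e (ε v), φ, fun t u v huv => ?_⟩
  have hne : ε u ≠ ε v := fun h => huv.ne (ε.injective h)
  rcases lt_or_gt_of_ne hne with hlt | hlt
  · exact he t _ _ hlt (by simpa using huv)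
  · have := he t _ _ hlt (by simpa using huv.symm)
    exact ⟨this.1.symm, by rw [hχ]; exact this.2⟩

end Pool.Agent.X79.TF
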