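import Mathlib
import Pool.Agent.X79.TypedFolk

/-!
# A family of typed cliques

The typed structure used below is the disjoint union, over the ordered pairs `(a, b)` of different
types, of a `K_{k+1}` in which two disjoint edges have type `b` and all other edges have type `a`.
-/

namespace Pool.Agent.X79.TU

/-- The two special edges `{0,1}` and `{2,3}`. -/
def Sp {n : ℕ} (x y : Fin n) : Prop := x.val / 2 = y.val / 2 ∧ x.val < 4

lemma Sp.symm {n : ℕ} {x y : Fin n} (h : Sp x y) : Sp y x := by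
  unfold Sp at *
  omega

/-- The typed graph: vertices are triples `(a, b, x)`. -/
def D {τ : Type} (k : ℕ) (t : τ) : SimpleGraph (τ × τ × Fin (k + 1)) where
  Adj p q := p.1 = q.1 ∧ p.2.1 = q.2.1 ∧ p.1 ≠ p.2.1 ∧ p.2.2 ≠ q.2.2 ∧
    ((Sp p.2.2 q.2.2 ∧ t = p.2.1) ∨ (¬ Sp p.2.2 q.2.2 ∧ t = p.1))
  symm := ⟨by
    rintro ⟨a, b, x⟩ ⟨a', b', y⟩ ⟨h1, h2, h3, h4, h5⟩
    simp only at h1 h2 h3 h4 h5 ⊢
    subst h1 h2
    refine ⟨rfl, rfl, h3, h4.symm, ?_⟩
    rcases h5 with ⟨h5, h6⟩ | ⟨h5, h6⟩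
    · exact Or.inl ⟨h5.symm, h6⟩
    · exact Or.inr ⟨fun h => h5 h.symm, h6⟩⟩
  loopless := ⟨by
    rintro ⟨a, b, x⟩ ⟨h1, h2, h3, h4, h5⟩
    exact h4 rfl⟩

lemma D_disj {τ : Type} (k : ℕ) (t t' : τ) (p q : τ × τ × Fin (k + 1))
    (h : (D k t).Adj p q) (h' : (D k t').Adj p q) : t = t' := by
  obtain ⟨h1, h2, h3, h4, h5⟩ := h
  obtain ⟨g1, g2, g3, g4, g5⟩ := h'
  rcases h5 with ⟨h5, h6⟩ | ⟨h5, h6⟩ <;> rcases g5 with ⟨g5, g6⟩ | ⟨g5, g6⟩
  · rw [h6, g6]
  · exact absurd h5 g5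
  · exact absurd g5 h5
  · rw [h6, g6]

lemma D_cliqueFree {τ : Type} (k : ℕ) (hk : 3 ≤ k) (t : τ) : (D k t).CliqueFree k := by
  classical
  intro s hs
  have hcl := hs.isClique
  have hcard := hs.card_eq
  have hne : s.Nonempty := by rw [← Finset.card_pos]; omega
  obtain ⟨p0, hp0⟩ := hne
  have hsame : ∀ q ∈ s, q.1 = p0.1 ∧ q.2.1 = p0.2.1 := by
    intro q hq
    by_cases h : q = p0
    · subst h; exact ⟨rfl, rfl⟩
    · obtain ⟨h1, h2, -⟩ := hcl hq hp0 h
      exact ⟨h1, h2⟩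
  have hinj : Set.InjOn (fun p : τ × τ × Fin (k + 1) => p.2.2) s := by
    intro p hp q hq h
    obtain ⟨h1, h2⟩ := hsame p hp
    obtain ⟨h3, h4⟩ := hsame q hq
    exact Prod.ext (h1.trans h3.symm) (Prod.ext (h2.trans h4.symm) h)
  set T := s.image (fun p : τ × τ × Fin (k + 1) => p.2.2) with hT
  have hTc : T.card = k := by rw [hT, Finset.card_image_of_injOn hinj, hcard]
  obtain ⟨q0, hq0, hq0p⟩ : ∃ q ∈ s, q ≠ p0 := Finset.exists_mem_ne (by omega) _
  have hab := (hcl hp0 hq0 hq0p.symm).2.2.1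
  by_cases ht : t = p0.1
  · -- all edges are non-special
    have hns : ∀ x ∈ T, ∀ y ∈ T, x ≠ y → ¬ Sp x y := by
      intro x hx y hy hxy
      simp only [hT, Finset.mem_image] at hx hy
      obtain ⟨p, hp, rfl⟩ := hx
      obtain ⟨q, hq, rfl⟩ := hy
      have hpq : p ≠ q := fun h => hxy (by rw [h])
      obtain ⟨h1, h2, h3, h4, h5⟩ := hcl hp hq hpq
      rcases h5 with ⟨h5, h6⟩ | ⟨h5, h6⟩
      · obtain ⟨g1, g2⟩ := hsame p hp
        exact absurd (ht.symm.trans (h6.trans g2)) hab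
      · exact h5
    have h0 : (⟨0, by omega⟩ : Fin (k + 1)) ∉ T ∨ (⟨1, by omega⟩ : Fin (k + 1)) ∉ T := by
      by_contra hc
      push Not at hc
      exact hns _ hc.1 _ hc.2 (by simp) (by simp [Sp])
    have h2 : (⟨2, by omega⟩ : Fin (k + 1)) ∉ T ∨ (⟨3, by omega⟩ : Fin (k + 1)) ∉ T := by
      by_contra hc
      push Not at hc
      exact hns _ hc.1 _ hc.2 (by simp) (by simp [Sp])
    have key : ∀ x y : Fin (k + 1), x ≠ y → x ∉ T → y ∉ T → False := by
      intro x y hxy hx hy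
      have hsub : T ⊆ (Finset.univ.erase x).erase y := by
        intro z hz
        rw [Finset.mem_erase, Finset.mem_erase]
        exact ⟨fun h => hy (h ▸ hz), fun h => hx (h ▸ hz), Finset.mem_univ _⟩
      have := Finset.card_le_card hsub
      rw [Finset.card_erase_of_mem (by simp [hxy.symm]), Finset.card_erase_of_mem (by simp),
        Finset.card_univ, Fintype.card_fin] at this
      omega
    rcases h0 with h0 | h0 <;> rcases h2 with h2 | h2
    · exact key _ _ (by simp) h0 h2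
    · exact key _ _ (by simp) h0 h2
    · exact key _ _ (by simp) h0 h2
    · exact key _ _ (by simp) h0 h2
  · -- all edges are special
    have hsp : ∀ x ∈ T, ∀ y ∈ T, x ≠ y → Sp x y := by
      intro x hx y hy hxy
      simp only [hT, Finset.mem_image] at hx hy
      obtain ⟨p, hp, rfl⟩ := hx
      obtain ⟨q, hq, rfl⟩ := hy
      have hpq : p ≠ q := fun h => hxy (by rw [h])
      obtain ⟨h1, h2, h3, h4, h5⟩ := hcl hp hq hpq
      rcases h5 with ⟨h5, h6⟩ | ⟨h5, h6⟩
      · exact h5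
      · obtain ⟨g1, g2⟩ := hsame p hp
        exact absurd (h6.trans g1) ht
    have hinj2 : Set.InjOn (fun x : Fin (k + 1) => x.val % 2) T := by
      intro x hx y hy h
      by_contra hxy
      have := hsp x hx y hy hxy
      unfold Sp at this
      apply hxy
      ext
      simp only at h
      omega
    have := Finset.card_le_card_of_injOn (s := T) (t := Finset.range 2)
      (fun x : Fin (k + 1) => x.val % 2)
      (fun x _ => by simp only [Finset.coe_range, Set.mem_Iio]; omega) hinj2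
    rw [Finset.card_range] at this
    omega

/-- The Ramsey statement used in the applications. -/
theorem main (τ : Type) [Finite τ] (κ : Type) [Finite κ] [Nonempty κ] (k : ℕ) (hk : 3 ≤ k) :
    ∃ (X : Type) (_ : Finite X) (Γ : τ → SimpleGraph X),
      (∀ i, (Γ i).CliqueFree k) ∧
      (∀ i j x y, (Γ i).Adj x y → (Γ j).Adj x y → i = j) ∧
      ∀ χ : X → X → κ, (∀ x y, χ x y = χ y x) → ∃ φ : τ → κ,
        (∀ t t' : τ, t ≠ t' → ∃ s : Finset X, s.card = k - 1 ∧
          ∀ x ∈ s, ∀ y ∈ s, x ≠ y → (Γ t).Adj x y ∧ χ x y = φ t) ∧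
        (∀ t t' : τ, t ≠ t' → ∃ s : Finset X, s.card = k + 1 ∧
          ∀ x ∈ s, ∀ y ∈ s, x ≠ y →
            ((Γ t).Adj x y ∧ χ x y = φ t) ∨ ((Γ t').Adj x y ∧ χ x y = φ t')) := by
  classical
  have h3 : ∀ i : τ, (D (τ := τ) k i).CliqueFree ((k - 1) + 1) := by
    intro i
    have := D_cliqueFree k hk i
    rwa [show k - 1 + 1 = k by omega]
  obtain ⟨X, hX, Γ, h1, h2, h⟩ := TF.typed (τ := τ) (fun _ => k - 1) (fun _ => by omega) κ
    (D k) (D_disj k) h3
  refine ⟨X, hX, Γ, ?_, h2, ?_⟩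
  · intro i
    have := h1 i
    rwa [show k - 1 + 1 = k by omega] at this
  intro χ hχ
  obtain ⟨e, φ, he⟩ := h χ hχ
  refine ⟨φ, ?_, ?_⟩
  · intro t t' htt
    have hadj : ∀ x y : Fin (k + 1), x ≠ y → ¬ Sp x y →
        (Γ t).Adj (e (t, t', x)) (e (t, t', y)) ∧ χ (e (t, t', x)) (e (t, t', y)) = φ t := by
      intro x y hxy hsp
      exact he t _ _ ⟨rfl, rfl, htt, hxy, Or.inr ⟨hsp, rfl⟩⟩
    set A : Finset (Fin (k + 1)) :=
      (Finset.univ.erase (⟨0, by omega⟩ : Fin (k + 1))).erase (⟨2, by omega⟩ : Fin (k + 1))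
      with hA
    have hAc : A.card = k - 1 := by
      rw [hA, Finset.card_erase_of_mem (by simp), Finset.card_erase_of_mem (by simp),
        Finset.card_univ, Fintype.card_fin]
      omega
    have hAsp : ∀ x ∈ A, ∀ y ∈ A, x ≠ y → ¬ Sp x y := by
      intro x hx y hy hxy hsp
      rw [hA, Finset.mem_erase, Finset.mem_erase, Ne, Ne, Fin.ext_iff, Fin.ext_iff] at hx hy
      unfold Sp at hsp
      apply hxy
      ext
      simp only at hx hy
      omega
    have hinj : Set.InjOn (fun x => e (t, t', x)) (A : Set (Fin (k + 1))) := by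
      intro x hx y hy hxy
      by_contra hne
      have := (hadj x y hne (hAsp x hx y hy hne)).1
      simp only at hxy
      rw [hxy] at this
      exact this.ne rfl
    refine ⟨A.image (fun x => e (t, t', x)), by rw [Finset.card_image_of_injOn hinj, hAc], ?_⟩
    intro u hu v hv huv
    rw [Finset.mem_image] at hu hv
    obtain ⟨x, hx, rfl⟩ := hu
    obtain ⟨y, hy, rfl⟩ := hv
    have hxy : x ≠ y := fun h => huv (by rw [h])
    exact hadj x y hxy (hAsp x hx y hy hxy)
  · intro t t' htt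
    have hadj : ∀ x y : Fin (k + 1), x ≠ y →
        ((Γ t).Adj (e (t, t', x)) (e (t, t', y)) ∧ χ (e (t, t', x)) (e (t, t', y)) = φ t) ∨
        ((Γ t').Adj (e (t, t', x)) (e (t, t', y)) ∧
          χ (e (t, t', x)) (e (t, t', y)) = φ t') := by
      intro x y hxy
      by_cases hsp : Sp x y
      · exact Or.inr (he t' _ _ ⟨rfl, rfl, htt, hxy, Or.inl ⟨hsp, rfl⟩⟩)
      · exact Or.inl (he t _ _ ⟨rfl, rfl, htt, hxy, Or.inr ⟨hsp, rfl⟩⟩)
    have hinj : Function.Injective (fun x : Fin (k + 1) => e (t, t', x)) := by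
      intro x y hxy
      by_contra hne
      simp only at hxy
      rcases hadj x y hne with ⟨h, -⟩ | ⟨h, -⟩
      · rw [hxy] at h
        exact h.ne rfl
      · rw [hxy] at h
        exact h.ne rfl
    refine ⟨Finset.univ.image (fun x => e (t, t', x)),
      by rw [Finset.card_image_of_injective _ hinj, Finset.card_univ, Fintype.card_fin], ?_⟩
    intro u hu v hv huv
    rw [Finset.mem_image] at hu hv
    obtain ⟨x, hx, rfl⟩ := hu
    obtain ⟨y, hy, rfl⟩ := hv
    have hxy : x ≠ y := fun h => huv (by rw [h])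
    exact hadj x y hxy

end Pool.Agent.X79.TU
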