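import Pool.Agent.X79.CU2

/-!
# Red graphs that are unions of few bicliques: upper bound
-/

namespace Pool.Agent.X79.BC

open Finset Classical Pool.Agent.X79.CU

set_option linter.unusedSectionVars false

variable {V : Type} [Fintype V]

/-- greedy independent sets -/
lemma greedy (F : SimpleGraph V) (d : ℕ) : ∀ (N : ℕ) (T : Finset V), T.card ≤ N →
    (∀ x ∈ T, dg F x T ≤ d) → ∃ I ⊆ T, Fᶜ.IsClique (I : Set V) ∧ T.card ≤ (d + 1) * I.card := by
  intro N
  induction N with
  | zero =>
    intro T hT _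
    refine ⟨∅, by simp, by simp, by simpa using hT⟩
  | succ N ih =>
    intro T hT hd
    rcases T.eq_empty_or_nonempty with rfl | ⟨x, hx⟩
    · exact ⟨∅, by simp, by simp, by simp⟩
    set T' := (T.erase x).filter (fun y => ¬ F.Adj x y) with hT'
    have hT'T : T' ⊆ T := (filter_subset _ _).trans (erase_subset _ _)
    have h1 : ((T.erase x).filter (fun y => F.Adj x y)).card + T'.card = (T.erase x).card :=
      card_filter_add_card_filter_not _
    have h2 : ((T.erase x).filter (fun y => F.Adj x y)).card ≤ dg F x T :=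
      card_le_card (filter_subset_filter _ (erase_subset _ _))
    have h3 := hd x hx
    have h4 : (T.erase x).card = T.card - 1 := card_erase_of_mem hx
    have h5 : 0 < T.card := card_pos.2 ⟨x, hx⟩
    obtain ⟨I, hI, hIc, hIs⟩ := ih T' (by omega) (fun y hy => (dg_mono F y hT'T).trans
      (hd y (hT'T hy)))
    have hxI : x ∉ I := fun h => by
      have := mem_of_mem_filter x (hI h)
      exact (notMem_erase x T) this
    refine ⟨insert x I, ?_, ?_, ?_⟩
    · intro z hz
      rcases mem_insert.1 hz with rfl | hz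
      · exact hx
      · exact hT'T (hI hz)
    · rw [coe_insert]
      refine hIc.insert fun z hz hne => ?_
      rw [SimpleGraph.compl_adj]
      exact ⟨hne, (mem_filter.1 (hI hz)).2⟩
    · rw [card_insert_of_notMem hxI]
      have : (d + 1) * (I.card + 1) = (d + 1) * I.card + (d + 1) := by ring
      omega

/-- a large set contains many edges -/
lemma many_edges (F : SimpleGraph V) {k : ℕ} (hk : 1 ≤ k) (h2 : Fᶜ.CliqueFree k) (S : Finset V)
    (hS : 4 * k ≤ S.card) : S.card * S.card ≤ 8 * k * ee F S S := by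
  set d := S.card / (2 * k) with hd
  have hd2 : 2 ≤ d := by
    rw [hd, Nat.le_div_iff_mul_le (by omega)]
    omega
  have hd1 : 2 * k * d ≤ S.card := Nat.mul_div_le _ _
  have hd3 : S.card < 2 * k * (d + 1) := Nat.lt_mul_div_succ _ (by omega)
  set low := S.filter (fun x => dg F x S < d) with hlow
  set high := S.filter (fun x => ¬ dg F x S < d) with hhigh
  have hlh : low.card + high.card = S.card := card_filter_add_card_filter_not _
  obtain ⟨I, -, hIc, hIs⟩ := greedy F (d - 1) low.card low le_rfl (fun x hx => by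
    have h3 := (mem_filter.1 hx).2
    have h4 : dg F x low ≤ dg F x S := dg_mono F x (filter_subset _ _)
    omega)
  have hIk : I.card < k := by
    by_contra hge
    push Not at hge
    obtain ⟨J, hJ, hJc⟩ := exists_subset_card_eq hge
    exact h2 J ⟨hIc.subset (by exact_mod_cast hJ), hJc⟩
  have e1 : d - 1 + 1 = d := by omega
  rw [e1] at hIs
  have h3 : d * I.card ≤ d * k := Nat.mul_le_mul_left _ hIk.le
  have h4 : 2 * (d * k) = 2 * k * d := by ring
  have h5 : S.card ≤ 2 * high.card := by omega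
  have h6 : high.card * d ≤ ee F S S := by
    unfold ee
    calc high.card * d = ∑ _x ∈ high, d := by rw [sum_const, smul_eq_mul]
      _ ≤ ∑ x ∈ high, dg F x S := sum_le_sum fun x hx => not_lt.1 (mem_filter.1 hx).2
      _ ≤ ∑ x ∈ S, dg F x S := sum_le_sum_of_subset (filter_subset _ _)
  have h7 : S.card ≤ 4 * k * d := by nlinarith
  calc S.card * S.card ≤ (4 * k * d) * (2 * high.card) := Nat.mul_le_mul h7 h5
    _ = 8 * k * (high.card * d) := by ring
    _ ≤ 8 * k * ee F S S := Nat.mul_le_mul_left _ h6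

/-- one of the bicliques is large -/
lemma large_biclique (F : SimpleGraph V) {k t : ℕ} (hk : 1 ≤ k) (h2 : Fᶜ.CliqueFree k)
    (A B : Fin t → Finset V)
    (hc : ∀ x y, F.Adj x y → ∃ i, (x ∈ A i ∧ y ∈ B i) ∨ (x ∈ B i ∧ y ∈ A i)) (S : Finset V)
    (hS : 4 * k ≤ S.card) :
    ∃ i, S.card * S.card ≤ 16 * k * t * ((A i ∩ S).card * (B i ∩ S).card) := by
  have h1 := many_edges F hk h2 S hS
  have h3 : ee F S S ≤ ∑ i, 2 * ((A i ∩ S).card * (B i ∩ S).card) := by
    have e1 : ee F S S = ((S ×ˢ S).filter (fun p => F.Adj p.1 p.2)).card := by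
      unfold ee dg
      rw [card_filter, sum_product]
      refine sum_congr rfl fun x _ => ?_
      rw [card_filter]
    rw [e1]
    have e2 : (S ×ˢ S).filter (fun p => F.Adj p.1 p.2) ⊆ univ.biUnion (fun i =>
        ((A i ∩ S) ×ˢ (B i ∩ S)) ∪ ((B i ∩ S) ×ˢ (A i ∩ S))) := by
      rintro ⟨x, y⟩ hp
      rw [mem_filter, mem_product] at hp
      obtain ⟨i, hi⟩ := hc x y hp.2
      rw [mem_biUnion]
      refine ⟨i, mem_univ _, ?_⟩
      simp only [mem_union, mem_product, mem_inter]
      rcases hi with hi | hi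
      · exact Or.inl ⟨⟨hi.1, hp.1.1⟩, ⟨hi.2, hp.1.2⟩⟩
      · exact Or.inr ⟨⟨hi.1, hp.1.1⟩, ⟨hi.2, hp.1.2⟩⟩
    refine (card_le_card e2).trans (card_biUnion_le.trans (sum_le_sum fun i _ => ?_))
    refine (card_union_le _ _).trans ?_
    rw [card_product, card_product]
    apply le_of_eq
    ring
  by_contra hcon
  push Not at hcon
  have hS0 : 0 < S.card := by omega
  rcases Nat.eq_zero_or_pos t with rfl | ht
  · rw [Finset.univ_eq_empty, sum_empty] at h3
    have : ee F S S = 0 := by omega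
    rw [this] at h1
    nlinarith
  have h4 : ∑ _i : Fin t, S.card * S.card > ∑ i : Fin t, 16 * k * t *
      ((A i ∩ S).card * (B i ∩ S).card) := by
    refine sum_lt_sum_of_nonempty ⟨⟨0, ht⟩, mem_univ _⟩ fun i _ => hcon i
  rw [sum_const, card_univ, Fintype.card_fin, smul_eq_mul, ← mul_sum] at h4
  rw [← mul_sum] at h3
  have h5 : t * (S.card * S.card) ≤ t * (8 * k * (2 * ∑ i, (A i ∩ S).card * (B i ∩ S).card)) :=
    Nat.mul_le_mul_left _ (h1.trans (Nat.mul_le_mul_left _ h3))
  have h6 : t * (8 * k * (2 * ∑ i, (A i ∩ S).card * (B i ∩ S).card)) =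
      16 * k * t * ∑ i, (A i ∩ S).card * (B i ∩ S).card := by ring
  omega

/-- the comparison function -/
noncomputable def gf (q a0 a : ℕ) : ℝ :=
  if a ≤ a0 then 1 else (4 * (a : ℝ) / a0) ^ (Real.logb 4 q)

lemma gf_ineq {q a0 a x y : ℕ} (hq : 1 ≤ q) (ha0 : 1 ≤ a0) (ha : a0 < a) (hx : 1 ≤ x)
    (hy : 1 ≤ y) (hxy : x + y ≤ a) : (q : ℝ) * (gf q a0 x * gf q a0 y) ≤ gf q a0 a ^ 2 := by
  have hq0 : (0 : ℝ) < q := by exact_mod_cast hq
  have hq1 : (1 : ℝ) ≤ q := by exact_mod_cast hq
  have ha0' : (0 : ℝ) < a0 := by exact_mod_cast ha0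
  set c := Real.logb 4 q with hc
  have hc0 : 0 ≤ c := Real.logb_nonneg (by norm_num) hq1
  have h4c : (4 : ℝ) ^ c = q := Real.rpow_logb (by norm_num) (by norm_num) hq0
  have hga : gf q a0 a = (4 * (a : ℝ) / a0) ^ c := by
    unfold gf
    rw [if_neg (by omega)]
  have hqa : (q : ℝ) ≤ (4 * (a : ℝ) / a0) ^ c := by
    rw [← h4c]
    refine Real.rpow_le_rpow (by norm_num) ?_ hc0
    rw [le_div_iff₀ ha0']
    have : (a0 : ℝ) ≤ a := by exact_mod_cast ha.le
    linarith
  have hmono : ∀ z : ℕ, z ≤ a → (4 * (z : ℝ) / a0) ^ c ≤ (4 * (a : ℝ) / a0) ^ c := by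
    intro z hz
    refine Real.rpow_le_rpow (by positivity) ?_ hc0
    have : (z : ℝ) ≤ a := by exact_mod_cast hz
    gcongr
  rw [hga]
  have hP : 0 ≤ (4 * (a : ℝ) / a0) ^ c := by positivity
  unfold gf
  rw [← hc]
  split_ifs with h1 h2 h2
  · nlinarith
  · have := hmono y (by omega)
    have h3 : 0 ≤ (4 * (y : ℝ) / a0) ^ c := by positivity
    nlinarith
  · have := hmono x (by omega)
    have h3 : 0 ≤ (4 * (x : ℝ) / a0) ^ c := by positivity
    nlinarith
  · rw [← Real.mul_rpow (by positivity) (by positivity)]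
    nth_rewrite 1 [← h4c]
    rw [← Real.mul_rpow (by norm_num) (by positivity), sq, ← Real.mul_rpow (by positivity)
      (by positivity)]
    refine Real.rpow_le_rpow (by positivity) ?_ hc0
    have hxy' : (x : ℝ) + y ≤ a := by exact_mod_cast hxy
    have h3 : 4 * ((x : ℝ) * y) ≤ a * a := by
      have hx0 : (0 : ℝ) ≤ x := Nat.cast_nonneg _
      have hy0 : (0 : ℝ) ≤ y := Nat.cast_nonneg _
      nlinarith [sq_nonneg ((x : ℝ) - y)]
    have e1 : 4 * (4 * (x : ℝ) / a0 * (4 * y / a0)) = 16 * (4 * (x * y)) / (a0 * a0) := by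
      field_simp
      ring
    have e2 : 4 * (a : ℝ) / a0 * (4 * a / a0) = 16 * (a * a) / (a0 * a0) := by
      field_simp
      ring
    rw [e1, e2]
    gcongr

lemma exists_omega (F : SimpleGraph V) (A : Finset V) : ∃ T ⊆ A, F.IsClique (T : Set V) ∧
    ∀ T' ⊆ A, F.IsClique (T' : Set V) → T'.card ≤ T.card := by
  obtain ⟨I, hI, hmax⟩ := exists_max_image (A.powerset.filter
    (fun I : Finset V => F.IsClique (I : Set V))) (fun I : Finset V => I.card) ⟨∅, by simp⟩
  rw [mem_filter, mem_powerset] at hI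
  refine ⟨I, hI.1, hI.2, fun J hJ hJc => hmax J ?_⟩
  rw [mem_filter, mem_powerset]
  exact ⟨hJ, hJc⟩

/-- **Upper bound.** -/
lemma upper_aux (F : SimpleGraph V) {k t a0 : ℕ} (hk : 1 ≤ k) (ht : 1 ≤ t) (ha0 : 1 ≤ a0)
    (h2 : Fᶜ.CliqueFree k) (A B : Fin t → Finset V)
    (hc : ∀ x y, F.Adj x y ↔ ∃ i, (x ∈ A i ∧ y ∈ B i) ∨ (x ∈ B i ∧ y ∈ A i)) {M : ℕ}
    (hM1 : (a0 + (k - 1)).choose a0 ≤ M) (hM2 : 4 * k ≤ M) :
    ∀ (a : ℕ) (S : Finset V), (∀ T ⊆ S, F.IsClique (T : Set V) → T.card ≤ a) →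
      (S.card : ℝ) ≤ M * gf (16 * k * t) a0 a := by
  intro a
  induction a using Nat.strong_induction_on with
  | _ a ih =>
    intro S hS
    by_contra hlt
    push Not at hlt
    by_cases ha : a ≤ a0
    · have hg : gf (16 * k * t) a0 a = 1 := by unfold gf; rw [if_pos ha]
      rw [hg, mul_one] at hlt
      have h3 : M < S.card := by exact_mod_cast hlt
      have h4 : (a + (k - 1)).choose a ≤ (a0 + (k - 1)).choose a0 := by
        rw [Nat.choose_symm_add, Nat.choose_symm_add]
        exact Nat.choose_le_choose _ (by omega)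
      rcases es F _ a (k - 1) rfl S (by omega) with ⟨T, hT, hTc⟩ | ⟨T, -, hTc⟩
      · have := hS T hT hTc.isClique
        rw [hTc.card_eq] at this
        omega
      · rw [Nat.sub_add_cancel hk] at hTc
        exact h2 T hTc
    · push Not at ha
      have hq : 1 ≤ 16 * k * t := by
        have : 0 < 16 * k * t := by positivity
        omega
      have hg1 : 1 ≤ gf (16 * k * t) a0 a := by
        unfold gf
        rw [if_neg (by omega)]
        refine Real.one_le_rpow ?_ (Real.logb_nonneg (by norm_num) (by exact_mod_cast hq))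
        have ha0' : (0 : ℝ) < a0 := by exact_mod_cast ha0
        rw [le_div_iff₀ ha0']
        have : (a0 : ℝ) ≤ a := by exact_mod_cast ha.le
        linarith
      have hM0 : (0 : ℝ) ≤ M := Nat.cast_nonneg _
      have h3 : (M : ℝ) < S.card := by nlinarith
      have h4 : M < S.card := by exact_mod_cast h3
      obtain ⟨i, hi⟩ := large_biclique F hk h2 A B (fun x y h => (hc x y).1 h) S (by omega)
      obtain ⟨TA, hTA, hTAc, hTAm⟩ := exists_omega F (A i ∩ S)
      obtain ⟨TB, hTB, hTBc, hTBm⟩ := exists_omega F (B i ∩ S)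
      have hadj : ∀ x ∈ A i, ∀ y ∈ B i, F.Adj x y := fun x hx y hy =>
        (hc x y).2 ⟨i, Or.inl ⟨hx, hy⟩⟩
      have hdisj : Disjoint TA TB := by
        rw [disjoint_left]
        intro z hz1 hz2
        exact (hadj z (mem_inter.1 (hTA hz1)).1 z (mem_inter.1 (hTB hz2)).1).ne rfl
      have hun : F.IsClique ((TA ∪ TB : Finset V) : Set V) := by
        intro u hu v hv huv
        rw [mem_coe, mem_union] at hu hv
        rcases hu with hu | hu <;> rcases hv with hv | hv
        · exact hTAc hu hv huv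
        · exact hadj _ (mem_inter.1 (hTA hu)).1 _ (mem_inter.1 (hTB hv)).1
        · exact (hadj _ (mem_inter.1 (hTA hv)).1 _ (mem_inter.1 (hTB hu)).1).symm
        · exact hTBc hu hv huv
      have hsum : TA.card + TB.card ≤ a := by
        rw [← card_union_of_disjoint hdisj]
        exact hS _ (union_subset (hTA.trans inter_subset_right) (hTB.trans inter_subset_right)) hun
      have hpos : 0 < (A i ∩ S).card * (B i ∩ S).card := by
        by_contra h0
        have h0' : (A i ∩ S).card * (B i ∩ S).card = 0 := by omega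
        rw [h0', mul_zero] at hi
        have : 0 < S.card := by omega
        nlinarith
      have hne : ∀ (C : Finset V), 0 < (C ∩ S).card → ∀ T : Finset V,
          (∀ T' ⊆ C ∩ S, F.IsClique (T' : Set V) → T'.card ≤ T.card) → 1 ≤ T.card := by
        intro C hC T hT
        obtain ⟨z, hz⟩ := card_pos.1 hC
        have := hT {z} (by simpa using hz) (by simp)
        simpa using this
      have hA0 : 0 < (A i ∩ S).card := Nat.pos_of_mul_pos_right hpos
      have hB0 : 0 < (B i ∩ S).card := Nat.pos_of_mul_pos_left hpos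
      have hx1 := hne (A i) hA0 TA hTAm
      have hy1 := hne (B i) hB0 TB hTBm
      have hA := ih TA.card (by omega) (A i ∩ S) hTAm
      have hB := ih TB.card (by omega) (B i ∩ S) hTBm
      have hgi := gf_ineq hq ha0 ha hx1 hy1 hsum
      have hi' : (S.card : ℝ) * S.card ≤ ((16 * k * t : ℕ) : ℝ) *
          (((A i ∩ S).card : ℝ) * ((B i ∩ S).card : ℝ)) := by exact_mod_cast hi
      have hq0 : (0 : ℝ) ≤ ((16 * k * t : ℕ) : ℝ) := Nat.cast_nonneg _
      have h5 : (S.card : ℝ) * S.card ≤ (M * gf (16 * k * t) a0 a) ^ 2 := by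
        calc (S.card : ℝ) * S.card ≤ ((16 * k * t : ℕ) : ℝ) *
              (((A i ∩ S).card : ℝ) * ((B i ∩ S).card : ℝ)) := hi'
          _ ≤ ((16 * k * t : ℕ) : ℝ) * ((M * gf (16 * k * t) a0 TA.card) *
              (M * gf (16 * k * t) a0 TB.card)) := by
              refine mul_le_mul_of_nonneg_left ?_ hq0
              exact mul_le_mul hA hB (Nat.cast_nonneg _) ((Nat.cast_nonneg _).trans hA)
          _ = (M : ℝ) ^ 2 * (((16 * k * t : ℕ) : ℝ) * (gf (16 * k * t) a0 TA.card *
              gf (16 * k * t) a0 TB.card)) := by ring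
          _ ≤ (M : ℝ) ^ 2 * gf (16 * k * t) a0 a ^ 2 :=
              mul_le_mul_of_nonneg_left hgi (by positivity)
          _ = _ := by ring
      have h6 : 0 ≤ M * gf (16 * k * t) a0 a := by positivity
      nlinarith

/-- **Upper bound.** -/
theorem upper (F : SimpleGraph V) {k t a0 : ℕ} (hk : 1 ≤ k) (ht : 1 ≤ t) (ha0 : 1 ≤ a0)
    (ha0k : a0 ≤ k) (h1 : F.CliqueFree k) (h2 : Fᶜ.CliqueFree k) (A B : Fin t → Finset V)
    (hc : ∀ x y, F.Adj x y ↔ ∃ i, (x ∈ A i ∧ y ∈ B i) ∨ (x ∈ B i ∧ y ∈ A i)) :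
    (Fintype.card V : ℝ) ≤ ((a0 + (k - 1)).choose a0 + 4 * k : ℕ) *
      (4 * (k : ℝ) / a0) ^ (Real.logb 4 ((16 * k * t : ℕ) : ℝ)) := by
  have h3 := upper_aux F hk ht ha0 h2 A B hc (M := (a0 + (k - 1)).choose a0 + 4 * k) (by omega)
    (by omega) k univ (fun T _ hT => by
      by_contra hlt
      push Not at hlt
      obtain ⟨J, hJ, hJc⟩ := exists_subset_card_eq hlt.le
      exact h1 J ⟨hT.subset (by exact_mod_cast hJ), hJc⟩)
  rw [card_univ] at h3
  refine h3.trans (mul_le_mul_of_nonneg_left ?_ (Nat.cast_nonneg _))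
  have hq : (1 : ℝ) ≤ ((16 * k * t : ℕ) : ℝ) := by
    have : 0 < 16 * k * t := by positivity
    exact_mod_cast this
  unfold gf
  split_ifs with h
  · refine Real.one_le_rpow ?_ (Real.logb_nonneg (by norm_num) hq)
    have ha0' : (0 : ℝ) < a0 := by exact_mod_cast ha0
    rw [le_div_iff₀ ha0']
    have : (a0 : ℝ) ≤ k := by exact_mod_cast ha0k
    linarith
  · exact le_rfl

end Pool.Agent.X79.BC
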