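import Mathlib

/-!
# Bicliques covering the edges of a complete graph: the deterministic part
-/

namespace Pool.Agent.X79.BC

open Finset Classical

set_option linter.unusedSectionVars false

/-- the sign of a symbol: `0` and `1` are the two sides, the others are neutral -/
def sg {Q : ℕ} (a : Fin Q) : ℤ := if a.val = 0 then 1 else if a.val = 1 then -1 else 0

lemma sg_cases {Q : ℕ} (a : Fin Q) : sg a = 1 ∨ sg a = -1 ∨ sg a = 0 := by
  unfold sg
  split_ifs <;> simp

/-- `z` separates `u` and `v` -/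
def Sp {k Q : ℕ} (z : Fin k → Fin Q) (u v : Fin k) : Prop := sg (z u) * sg (z v) = -1

lemma Sp_symm {k Q : ℕ} {z : Fin k → Fin Q} {u v : Fin k} (h : Sp z u v) : Sp z v u := by
  unfold Sp at *
  rw [mul_comm]
  exact h

lemma Sp_irrefl {k Q : ℕ} {z : Fin k → Fin Q} {u : Fin k} : ¬ Sp z u u := by
  unfold Sp
  rcases sg_cases (z u) with h | h | h <;> rw [h] <;> norm_num

lemma Sp_ne {k Q : ℕ} {z : Fin k → Fin Q} {u v : Fin k} (h : Sp z u v) :
    sg (z u) ≠ 0 ∧ sg (z v) ≠ 0 := by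
  unfold Sp at h
  constructor
  · intro h0; rw [h0] at h; norm_num at h
  · intro h0; rw [h0] at h; norm_num at h

/-- support: the positions that are not neutral -/
noncomputable def sup' {k Q : ℕ} (z : Fin k → Fin Q) : Finset (Fin k) :=
  univ.filter (fun v => sg (z v) ≠ 0)

/-- size of the support -/
noncomputable def ms {k Q : ℕ} (z : Fin k → Fin Q) : ℕ := (sup' z).card

/-- no `y i` with `i ∈ I` separates the pair -/
def Uns {k Q : ℕ} {ι : Type} (I : Finset ι) (y : ι → Fin k → Fin Q) (p : Fin k × Fin k) : Prop :=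
  ∀ i ∈ I, ¬ Sp (y i) p.1 p.2

/-- **Tensor trick.** -/
lemma tensor {k Q : ℕ} {ι : Type} (I : Finset ι) (y : ι → Fin k → Fin Q) (K' : Finset (Fin k))
    (D : ℕ) (hD : ∀ v ∈ K', (I.filter (fun i => sg (y i v) ≠ 0)).card ≤ D) :
    K'.card ^ 2 ≤ 2 ^ D * ((K' ×ˢ K').filter (fun p => Uns I y p)).card := by
  have h1 : ∀ u v, (∏ i ∈ I, (1 + sg (y i u) * sg (y i v)) : ℤ) =
      ∑ T ∈ I.powerset, (∏ i ∈ T, sg (y i u)) * (∏ i ∈ T, sg (y i v)) := by
    intro u v
    rw [prod_one_add]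
    refine sum_congr rfl fun T _ => ?_
    rw [prod_mul_distrib]
  have h2 : ∑ u ∈ K', ∑ v ∈ K', (∏ i ∈ I, (1 + sg (y i u) * sg (y i v)) : ℤ) =
      ∑ T ∈ I.powerset, (∑ u ∈ K', ∏ i ∈ T, sg (y i u)) ^ 2 := by
    calc ∑ u ∈ K', ∑ v ∈ K', (∏ i ∈ I, (1 + sg (y i u) * sg (y i v)) : ℤ)
        = ∑ u ∈ K', ∑ v ∈ K', ∑ T ∈ I.powerset,
            (∏ i ∈ T, sg (y i u)) * (∏ i ∈ T, sg (y i v)) := by
          refine sum_congr rfl fun u _ => sum_congr rfl fun v _ => h1 u v
      _ = ∑ u ∈ K', ∑ T ∈ I.powerset, ∑ v ∈ K',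
            (∏ i ∈ T, sg (y i u)) * (∏ i ∈ T, sg (y i v)) := sum_congr rfl fun u _ => sum_comm
      _ = ∑ T ∈ I.powerset, ∑ u ∈ K', ∑ v ∈ K',
            (∏ i ∈ T, sg (y i u)) * (∏ i ∈ T, sg (y i v)) := sum_comm
      _ = _ := by
          refine sum_congr rfl fun T _ => ?_
          rw [sq, sum_mul_sum]
  have h3 : (K'.card : ℤ) ^ 2 ≤ ∑ T ∈ I.powerset, (∑ u ∈ K', ∏ i ∈ T, sg (y i u)) ^ 2 := by
    have h4 : (K'.card : ℤ) ^ 2 = (∑ u ∈ K', ∏ i ∈ (∅ : Finset ι), sg (y i u)) ^ 2 := by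
      simp
    rw [h4]
    exact single_le_sum (f := fun T => (∑ u ∈ K', ∏ i ∈ T, sg (y i u)) ^ 2)
      (fun T _ => sq_nonneg _) (empty_mem_powerset I)
  have h5 : ∑ u ∈ K', ∑ v ∈ K', (∏ i ∈ I, (1 + sg (y i u) * sg (y i v)) : ℤ) ≤
      ((2 ^ D * ((K' ×ˢ K').filter (fun p => Uns I y p)).card : ℕ) : ℤ) := by
    rw [← sum_product']
    rw [card_filter]
    push_cast
    rw [mul_sum]
    refine sum_le_sum fun p hp => ?_
    rw [mem_product] at hp
    unfold Uns
    split_ifs with h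
    · rw [mul_one]
      have h6 : ∀ i ∈ I, (1 + sg (y i p.1) * sg (y i p.2) : ℤ) ≤
          if sg (y i p.1) ≠ 0 then 2 else 1 := by
        intro i _
        rcases sg_cases (y i p.1) with e1 | e1 | e1 <;>
          rcases sg_cases (y i p.2) with e2 | e2 | e2 <;> rw [e1, e2] <;> norm_num
      have h7 : ∀ i ∈ I, (0 : ℤ) ≤ 1 + sg (y i p.1) * sg (y i p.2) := by
        intro i _
        rcases sg_cases (y i p.1) with e1 | e1 | e1 <;>
          rcases sg_cases (y i p.2) with e2 | e2 | e2 <;> rw [e1, e2] <;> norm_num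
      calc (∏ i ∈ I, (1 + sg (y i p.1) * sg (y i p.2)) : ℤ) ≤
            ∏ i ∈ I, (if sg (y i p.1) ≠ 0 then 2 else 1) := prod_le_prod h7 h6
        _ = 2 ^ (I.filter (fun i => sg (y i p.1) ≠ 0)).card := by
            rw [prod_ite, prod_const, prod_const_one, mul_one]
        _ ≤ 2 ^ D := pow_le_pow_right₀ (by norm_num) (hD p.1 hp.1)
    · push Not at h
      obtain ⟨i, hi, hs⟩ := h
      rw [mul_zero]
      apply le_of_eq
      apply prod_eq_zero hi
      unfold Sp at hs
      rw [hs]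
      norm_num
  have h6 : ((K'.card ^ 2 : ℕ) : ℤ) ≤
      ((2 ^ D * ((K' ×ˢ K').filter (fun p => Uns I y p)).card : ℕ) : ℤ) := by
    rw [Nat.cast_pow]
    exact h3.trans (h2 ▸ h5)
  exact_mod_cast h6

/-- pairs `u < v` that are not separated by the `y i` with support of size at least three -/
noncomputable def Un {k Q t : ℕ} (y : Fin t → Fin k → Fin Q) : Finset (Fin k × Fin k) :=
  univ.filter (fun p => p.1 < p.2 ∧ ∀ i, 3 ≤ ms (y i) → ¬ Sp (y i) p.1 p.2)

/-- total excess -/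
noncomputable def Xc {k Q t : ℕ} (y : Fin t → Fin k → Fin Q) : ℕ := ∑ i, (ms (y i) - 2)

/-- **Many pairs are not separated.** -/
lemma many_unsep {k Q t : ℕ} (y : Fin t → Fin k → Fin Q) {m0 D r x0 : ℕ} (hm0 : 3 ≤ m0)
    (hX : Xc y ≤ x0) (hr : m0 * x0 ≤ (m0 - 2) * ((D + 1) * r)) :
    (k - r) ^ 2 ≤ 2 ^ D * (2 * (Un y).card + k + 2 * m0 ^ 2 * x0) := by
  set big : Finset (Fin t) := univ.filter (fun i => m0 ≤ ms (y i)) with hbig
  set med : Finset (Fin t) := univ.filter (fun i => 3 ≤ ms (y i) ∧ ms (y i) < m0) with hmed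
  set d : Fin k → ℕ := fun v => (big.filter (fun i => sg (y i v) ≠ 0)).card with hd
  -- sum of the degrees
  have hsum : ∑ v, d v = ∑ i ∈ big, ms (y i) := by
    have h := sum_card_bipartiteAbove_eq_sum_card_bipartiteBelow
      (s := (univ : Finset (Fin k))) (t := big) (fun (v : Fin k) (i : Fin t) => sg (y i v) ≠ 0)
    unfold bipartiteAbove bipartiteBelow at h
    exact h
  have hbigX : (m0 - 2) * ∑ i ∈ big, ms (y i) ≤ m0 * x0 := by
    calc (m0 - 2) * ∑ i ∈ big, ms (y i) = ∑ i ∈ big, (m0 - 2) * ms (y i) := by rw [mul_sum]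
      _ ≤ ∑ i ∈ big, m0 * (ms (y i) - 2) := by
          refine sum_le_sum fun i hi => ?_
          have h1 : m0 ≤ ms (y i) := (mem_filter.1 hi).2
          obtain ⟨a, ha⟩ : ∃ a, m0 = a + 2 := ⟨m0 - 2, by omega⟩
          obtain ⟨b, hb⟩ : ∃ b, ms (y i) = b + 2 := ⟨ms (y i) - 2, by omega⟩
          rw [ha, hb]
          simp only [Nat.add_sub_cancel]
          have : a ≤ b := by omega
          nlinarith
      _ = m0 * ∑ i ∈ big, (ms (y i) - 2) := by rw [mul_sum]
      _ ≤ m0 * Xc y := Nat.mul_le_mul_left _ (sum_le_sum_of_subset (filter_subset _ _))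
      _ ≤ m0 * x0 := Nat.mul_le_mul_left _ hX
  set K' : Finset (Fin k) := univ.filter (fun v => d v ≤ D) with hK'
  set L' : Finset (Fin k) := univ.filter (fun v => ¬ d v ≤ D) with hL'
  have hKL : K'.card + L'.card = k := by
    rw [hK', hL', card_filter_add_card_filter_not, card_univ, Fintype.card_fin]
  have hLr : L'.card ≤ r := by
    have h1 : (D + 1) * L'.card ≤ ∑ v, d v := by
      calc (D + 1) * L'.card = ∑ _v ∈ L', (D + 1) := by rw [sum_const, smul_eq_mul, mul_comm]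
        _ ≤ ∑ v ∈ L', d v := sum_le_sum fun v hv => by
            have := (mem_filter.1 hv).2
            omega
        _ ≤ ∑ v, d v := sum_le_sum_of_subset (filter_subset _ _)
    rw [hsum] at h1
    have h2 : (m0 - 2) * ((D + 1) * L'.card) ≤ (m0 - 2) * ((D + 1) * r) :=
      (Nat.mul_le_mul_left _ h1).trans (hbigX.trans hr)
    have h3 : (D + 1) * L'.card ≤ (D + 1) * r :=
      Nat.le_of_mul_le_mul_left h2 (by omega)
    exact Nat.le_of_mul_le_mul_left h3 (by omega)
  have hK'k : k - r ≤ K'.card := by omega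
  have ht := tensor big y K' D (fun v hv => (mem_filter.1 hv).2)
  -- pairs separated by medium ones
  set MM : Finset (Fin k × Fin k) := med.biUnion (fun i => sup' (y i) ×ˢ sup' (y i)) with hMM
  have hmedc : med.card ≤ x0 := by
    calc med.card = ∑ _i ∈ med, 1 := by rw [sum_const, smul_eq_mul, mul_one]
      _ ≤ ∑ i ∈ med, (ms (y i) - 2) := sum_le_sum fun i hi => by
          have := (mem_filter.1 hi).2
          omega
      _ ≤ Xc y := sum_le_sum_of_subset (filter_subset _ _)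
      _ ≤ x0 := hX
  have hMMc : MM.card ≤ m0 ^ 2 * x0 := by
    calc MM.card ≤ ∑ i ∈ med, (sup' (y i) ×ˢ sup' (y i)).card := card_biUnion_le
      _ ≤ ∑ _i ∈ med, m0 ^ 2 := by
          refine sum_le_sum fun i hi => ?_
          rw [card_product]
          have h1 : ms (y i) < m0 := (mem_filter.1 hi).2.2
          unfold ms at h1
          rw [sq]
          exact Nat.mul_le_mul h1.le h1.le
      _ = med.card * m0 ^ 2 := by rw [sum_const, smul_eq_mul]
      _ ≤ x0 * m0 ^ 2 := Nat.mul_le_mul_right _ hmedc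
      _ = _ := by ring
  -- the unseparated ordered pairs
  have hsub : (K' ×ˢ K').filter (fun p => Uns big y p) ⊆
      (((Un y) ∪ (Un y).image Prod.swap) ∪ univ.image (fun v : Fin k => (v, v))) ∪ MM := by
    rintro ⟨u, v⟩ hp
    rw [mem_filter] at hp
    obtain ⟨-, hp⟩ := hp
    by_cases hmm : (u, v) ∈ MM
    · exact mem_union_right _ hmm
    apply mem_union_left
    have hun : ∀ i, 3 ≤ ms (y i) → ¬ Sp (y i) u v := by
      intro i hi
      by_cases hb : m0 ≤ ms (y i)
      · exact hp i (mem_filter.2 ⟨mem_univ _, hb⟩)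
      · intro hs
        apply hmm
        rw [hMM, mem_biUnion]
        refine ⟨i, mem_filter.2 ⟨mem_univ _, hi, by omega⟩, ?_⟩
        rw [mem_product]
        exact ⟨mem_filter.2 ⟨mem_univ _, (Sp_ne hs).1⟩, mem_filter.2 ⟨mem_univ _, (Sp_ne hs).2⟩⟩
    rcases lt_trichotomy u v with h | h | h
    · apply mem_union_left
      apply mem_union_left
      exact mem_filter.2 ⟨mem_univ _, h, hun⟩
    · apply mem_union_right
      rw [mem_image]
      exact ⟨u, mem_univ _, by rw [h]⟩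
    · apply mem_union_left
      apply mem_union_right
      rw [mem_image]
      exact ⟨(v, u), mem_filter.2 ⟨mem_univ _, h, fun i hi hs => hun i hi (Sp_symm hs)⟩, rfl⟩
  have hc2 : ((((Un y) ∪ (Un y).image Prod.swap) ∪ univ.image (fun v : Fin k => (v, v))) ∪ MM).card
      ≤ 2 * (Un y).card + k + m0 ^ 2 * x0 := by
    refine (card_union_le _ _).trans ?_
    have e1 := card_union_le ((Un y) ∪ (Un y).image Prod.swap)
      (univ.image (fun v : Fin k => (v, v)))
    have e2 := card_union_le (Un y) ((Un y).image Prod.swap)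
    have e3 : ((Un y).image Prod.swap).card ≤ (Un y).card := card_image_le
    have e4 : (univ.image (fun v : Fin k => (v, v))).card ≤ k := by
      refine card_image_le.trans ?_
      rw [card_univ, Fintype.card_fin]
    omega
  have hc3 : 2 * (Un y).card + k + m0 ^ 2 * x0 ≤ 2 * (Un y).card + k + 2 * m0 ^ 2 * x0 := by
    have : 0 ≤ m0 ^ 2 * x0 := Nat.zero_le _
    nlinarith
  calc (k - r) ^ 2 ≤ K'.card ^ 2 := Nat.pow_le_pow_left hK'k 2
    _ ≤ _ := ht
    _ ≤ 2 ^ D * (2 * (Un y).card + k + 2 * m0 ^ 2 * x0) :=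
        Nat.mul_le_mul_left _ ((card_le_card hsub).trans (hc2.trans hc3))

end Pool.Agent.X79.BC
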