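import Pool.Agent.X79.BC2

/-!
# Bicliques covering the edges of a complete graph: counting
-/

namespace Pool.Agent.X79.BC

open Finset Classical

set_option linter.unusedSectionVars false

lemma sum_prod {α : Type} [Fintype α] {t : ℕ} (f : Fin t → α → ℕ) :
    ∑ z : Fin t → α, ∏ v, f v (z v) = ∏ v, ∑ q, f v q := by
  rw [Finset.prod_univ_sum, Fintype.piFinset_univ]

lemma sg_zero {Q : ℕ} : sg (0 : Fin (Q + 2)) = 1 := by simp [sg]

lemma sg_one {Q : ℕ} : sg (1 : Fin (Q + 2)) = -1 := by simp [sg]

lemma sg_succ {Q : ℕ} (q : Fin Q) : sg (q.succ.succ : Fin (Q + 2)) = 0 := by simp [sg]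

/-- summation over the symbols -/
lemma sum_sym {Q : ℕ} (a b : ℕ) :
    ∑ q : Fin (Q + 2), (if sg q ≠ 0 then a else b) = 2 * a + Q * b := by
  rw [Fin.sum_univ_succ, Fin.sum_univ_succ]
  have h1 : sg (Fin.succ 0 : Fin (Q + 2)) = -1 := by simp [sg]
  simp only [sg_zero, h1, sg_succ]
  norm_num
  ring

lemma pow_ms {k Q : ℕ} (z : Fin k → Fin Q) (s : ℕ) :
    s ^ ms z = ∏ v, (if sg (z v) ≠ 0 then s else 1) := by
  unfold ms sup'
  rw [prod_ite, prod_const, prod_const_one, mul_one]

/-- large supports are rare, weighted version -/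
lemma large_supp {k Q s : ℕ} :
    ∑ z : Fin k → Fin (Q + 2), (if 3 ≤ ms z then s ^ ms z else 0) ≤
      k ^ 3 * ((2 * s) ^ 3 * (2 * s + Q) ^ (k - 3)) := by
  set g : Finset (Fin k) → Fin k → Fin (Q + 2) → ℕ := fun T v q =>
    if sg q ≠ 0 then s else (if v ∈ T then 0 else 1) with hg
  have h1 : ∀ z : Fin k → Fin (Q + 2), (if 3 ≤ ms z then s ^ ms z else 0) ≤
      ∑ T ∈ powersetCard 3 univ, ∏ v, g T v (z v) := by
    intro z
    split_ifs with h
    · obtain ⟨T, hT, hTc⟩ := exists_subset_card_eq h
      have h2 : s ^ ms z = ∏ v, g T v (z v) := by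
        rw [pow_ms]
        refine prod_congr rfl fun v _ => ?_
        rw [hg]
        dsimp only
        by_cases hv : sg (z v) ≠ 0
        · rw [if_pos hv, if_pos hv]
        · rw [if_neg hv, if_neg hv]
          have : v ∉ T := fun hvT => hv (mem_filter.1 (hT hvT)).2
          rw [if_neg this]
      rw [h2]
      exact single_le_sum (f := fun T => ∏ v, g T v (z v)) (fun _ _ => Nat.zero_le _)
        (mem_powersetCard.2 ⟨subset_univ _, hTc⟩)
    · exact Nat.zero_le _
  refine (sum_le_sum fun z _ => h1 z).trans ?_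
  rw [sum_comm]
  have h3 : ∀ T ∈ powersetCard 3 (univ : Finset (Fin k)),
      ∑ z : Fin k → Fin (Q + 2), ∏ v, g T v (z v) = (2 * s) ^ 3 * (2 * s + Q) ^ (k - 3) := by
    intro T hT
    rw [mem_powersetCard] at hT
    rw [sum_prod]
    have h4 : ∀ v, ∑ q, g T v q = if v ∈ T then 2 * s else 2 * s + Q := by
      intro v
      rw [hg]
      dsimp only
      rw [sum_sym]
      split_ifs <;> simp
    simp_rw [h4]
    rw [prod_ite, prod_const, prod_const]
    have e1 : (univ.filter (fun v => v ∈ T)).card = 3 := by
      rw [← hT.2]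
      congr 1
      ext v
      simp
    have e2 : (univ.filter (fun v => ¬ v ∈ T)).card = k - 3 := by
      have := card_filter_add_card_filter_not (s := (univ : Finset (Fin k))) (fun v => v ∈ T)
      rw [card_univ, Fintype.card_fin] at this
      omega
    rw [e1, e2]
  rw [sum_congr rfl h3, sum_const, smul_eq_mul, card_powersetCard, card_univ, Fintype.card_fin]
  refine Nat.mul_le_mul_right _ ?_
  exact Nat.choose_le_pow k 3

lemma few_large {k Q : ℕ} :
    (univ.filter (fun z : Fin k → Fin (Q + 2) => 3 ≤ ms z)).card ≤ 8 * k ^ 3 * (Q + 2) ^ (k - 3) := by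
  have h := large_supp (k := k) (Q := Q) (s := 1)
  rw [card_filter]
  simp only [one_pow] at h
  calc _ ≤ _ := h
    _ = _ := by
      rw [mul_one, add_comm 2 Q]
      ring

lemma prod_two {k : ℕ} {a b : Fin k} (hab : a ≠ b) (c : ℕ) :
    ∏ v : Fin k, (if v = a then 1 else if v = b then 1 else c) = c ^ (k - 2) := by
  have h1 : ∀ v : Fin k, (if v = a then 1 else if v = b then 1 else c) =
      if v ∈ ({a, b} : Finset (Fin k)) then 1 else c := by
    intro v
    by_cases h1 : v = a
    · simp [h1]
    · by_cases h2 : v = b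
      · simp [h2]
      · simp [h1, h2]
  simp_rw [h1]
  rw [prod_ite, prod_const_one, one_mul, prod_const]
  congr 1
  have h2 := card_filter_add_card_filter_not (s := (univ : Finset (Fin k)))
    (fun v => v ∈ ({a, b} : Finset (Fin k)))
  rw [card_univ, Fintype.card_fin] at h2
  have h3 : (univ.filter (fun v => v ∈ ({a, b} : Finset (Fin k)))).card = 2 := by
    rw [← card_pair hab]
    congr 1
    ext v
    simp
  omega

/-- patterns separating exactly a given pair -/
noncomputable def Ex {k Q : ℕ} (p : Fin k × Fin k) : Finset (Fin k → Fin (Q + 2)) :=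
  Fintype.piFinset (fun v => if v = p.1 then {0} else if v = p.2 then {1} else
    univ.filter (fun q => sg q = 0))

lemma card_Ex {k Q : ℕ} {p : Fin k × Fin k} (hp : p.1 ≠ p.2) :
    (Ex (Q := Q) p).card = Q ^ (k - 2) := by
  unfold Ex
  rw [Fintype.card_piFinset, ← prod_two hp Q]
  refine prod_congr rfl fun v _ => ?_
  split_ifs
  · simp
  · simp
  · have h := sum_sym (Q := Q) 0 1
    rw [mul_zero, zero_add, mul_one] at h
    rw [card_filter]
    refine Eq.trans (sum_congr rfl fun (q : Fin (Q + 2)) _ => ?_) h
    by_cases hq : sg q = 0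
    · simp [hq]
    · simp [hq]

lemma mem_Ex {k Q : ℕ} {p : Fin k × Fin k} {z : Fin k → Fin (Q + 2)} (hz : z ∈ Ex p)
    (hp : p.1 ≠ p.2) : z p.1 = 0 ∧ z p.2 = 1 ∧ ∀ v, v ≠ p.1 → v ≠ p.2 → sg (z v) = 0 := by
  unfold Ex at hz
  rw [Fintype.mem_piFinset] at hz
  refine ⟨?_, ?_, ?_⟩
  · have := hz p.1
    rw [if_pos rfl, mem_singleton] at this
    exact this
  · have := hz p.2
    rw [if_neg hp.symm, if_pos rfl, mem_singleton] at this
    exact this
  · intro v h1 h2
    have := hz v
    rw [if_neg h1, if_neg h2, mem_filter] at this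
    exact this.2

/-- patterns separating no pair -/
lemma blue_one {k Q : ℕ} : (univ.filter (fun z : Fin k → Fin (Q + 2) => ∀ u v, ¬ Sp z u v)).card +
    k * (k - 1) * Q ^ (k - 2) ≤ (Q + 2) ^ k := by
  set P : Finset (Fin k × Fin k) := (univ : Finset (Fin k)).offDiag with hP
  have hPc : P.card = k * (k - 1) := by
    rw [hP, offDiag_card, card_univ, Fintype.card_fin]
    cases k with
    | zero => simp
    | succ k =>
      rw [Nat.add_sub_cancel]
      have : (k + 1) * (k + 1) = (k + 1) * k + (k + 1) := by ring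
      omega
  have hdisj : ∀ p ∈ P, ∀ p' ∈ P, p ≠ p' → Disjoint (Ex (Q := Q) p) (Ex p') := by
    intro p hp p' hp' hne
    rw [disjoint_left]
    intro z hz hz'
    apply hne
    have h1 := mem_Ex hz (mem_offDiag.1 hp).2.2
    have h2 := mem_Ex hz' (mem_offDiag.1 hp').2.2
    have e1 : p.1 = p'.1 := by
      by_contra hne1
      by_cases h : p.1 = p'.2
      · rw [h, h2.2.1] at h1
        exact absurd h1.1 (by simp)
      · have := h2.2.2 p.1 hne1 h
        rw [h1.1, sg_zero] at this
        norm_num at this
    have e2 : p.2 = p'.2 := by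
      by_contra hne1
      by_cases h : p.2 = p'.1
      · rw [h, h2.1] at h1
        exact absurd h1.2.1 (by simp)
      · have := h2.2.2 p.2 h hne1
        rw [h1.2.1, sg_one] at this
        norm_num at this
    exact Prod.ext e1 e2
  have h1 : (P.biUnion (Ex (Q := Q))).card = k * (k - 1) * Q ^ (k - 2) := by
    rw [card_biUnion hdisj, sum_congr rfl (fun p hp => card_Ex (Q := Q) (mem_offDiag.1 hp).2.2),
      sum_const, hPc, smul_eq_mul]
  rw [← h1, ← card_union_of_disjoint]
  · refine (card_le_univ _).trans ?_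
    rw [Fintype.card_fun, Fintype.card_fin, Fintype.card_fin]
  · rw [disjoint_left]
    intro z hz hz'
    rw [mem_filter] at hz
    rw [mem_biUnion] at hz'
    obtain ⟨p, hp, hzp⟩ := hz'
    have h2 := mem_Ex hzp (mem_offDiag.1 hp).2.2
    apply hz.2 p.1 p.2
    unfold Sp
    rw [h2.1, h2.2.1, sg_zero, sg_one]
    norm_num

/-- patterns separating a given pair -/
lemma card_Sp {k Q : ℕ} (u v : Fin k) :
    (univ.filter (fun z : Fin k → Fin (Q + 2) => Sp z u v)).card ≤ 2 * (Q + 2) ^ (k - 2) := by
  by_cases huv : u = v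
  · subst huv
    rw [filter_false_of_mem (fun z _ => Sp_irrefl), card_empty]
    exact Nat.zero_le _
  have hsub : univ.filter (fun z : Fin k → Fin (Q + 2) => Sp z u v) ⊆
      (Fintype.piFinset (fun w => if w = u then {0} else if w = v then {1} else
        (univ : Finset (Fin (Q + 2))))) ∪
      (Fintype.piFinset (fun w => if w = u then {1} else if w = v then {0} else
        (univ : Finset (Fin (Q + 2))))) := by
    intro z hz
    rw [mem_filter] at hz
    have hz := hz.2
    unfold Sp at hz
    have key : ∀ q : Fin (Q + 2), (sg q = 1 → q = 0) ∧ (sg q = -1 → q = 1) := by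
      intro q
      unfold sg
      constructor
      · split_ifs with h1 h2
        · intro _; exact Fin.ext h1
        · intro h; norm_num at h
        · intro h; norm_num at h
      · split_ifs with h1 h2
        · intro h; norm_num at h
        · intro _; exact Fin.ext (by rw [h2]; simp)
        · intro h; norm_num at h
    rw [mem_union, Fintype.mem_piFinset, Fintype.mem_piFinset]
    rcases sg_cases (z u) with e1 | e1 | e1 <;> rcases sg_cases (z v) with e2 | e2 | e2 <;>
      rw [e1, e2] at hz <;> norm_num at hz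
    · left
      intro w
      split_ifs with h1 h2
      · rw [h1, mem_singleton]; exact (key _).1 e1
      · rw [h2, mem_singleton]; exact (key _).2 e2
      · exact mem_univ _
    · right
      intro w
      split_ifs with h1 h2
      · rw [h1, mem_singleton]; exact (key _).2 e1
      · rw [h2, mem_singleton]; exact (key _).1 e2
      · exact mem_univ _
  refine (card_le_card hsub).trans ((card_union_le _ _).trans ?_)
  have e : ∀ a b : Fin (Q + 2), (Fintype.piFinset (fun w : Fin k => if w = u then {a} else
      if w = v then {b} else (univ : Finset (Fin (Q + 2))))).card = (Q + 2) ^ (k - 2) := by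
    intro a b
    rw [Fintype.card_piFinset, ← prod_two huv (Q + 2)]
    refine prod_congr rfl fun w _ => ?_
    split_ifs <;> simp
  rw [e, e]
  omega

end Pool.Agent.X79.BC
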