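import Pool.Agent.X79.BC3

/-!
# Bicliques covering the edges of a complete graph: counting, second part
-/

namespace Pool.Agent.X79.BC

open Finset Classical

set_option linter.unusedSectionVars false

/-- exponential moment of the excess -/
lemma excess {k Q t s x0 : ℕ} (hs : 1 ≤ s) :
    (univ.filter (fun y : Fin t → Fin k → Fin (Q + 2) => x0 ≤ Xc y)).card * s ^ x0 ≤
      (∑ z : Fin k → Fin (Q + 2), s ^ (ms z - 2)) ^ t := by
  calc (univ.filter (fun y : Fin t → Fin k → Fin (Q + 2) => x0 ≤ Xc y)).card * s ^ x0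
      = ∑ _y ∈ univ.filter (fun y : Fin t → Fin k → Fin (Q + 2) => x0 ≤ Xc y), s ^ x0 := by
        rw [sum_const, smul_eq_mul]
    _ ≤ ∑ y ∈ univ.filter (fun y : Fin t → Fin k → Fin (Q + 2) => x0 ≤ Xc y), s ^ Xc y :=
        sum_le_sum fun y hy => Nat.pow_le_pow_right hs (mem_filter.1 hy).2
    _ ≤ ∑ y : Fin t → Fin k → Fin (Q + 2), s ^ Xc y :=
        sum_le_sum_of_subset (filter_subset _ _)
    _ = ∑ y : Fin t → Fin k → Fin (Q + 2), ∏ i, s ^ (ms (y i) - 2) := by
        refine sum_congr rfl fun y _ => ?_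
        unfold Xc
        rw [prod_pow_eq_pow_sum]
    _ = (∑ z : Fin k → Fin (Q + 2), s ^ (ms z - 2)) ^ t := by
        rw [sum_prod (fun _ z => s ^ (ms z - 2)), prod_const, card_univ, Fintype.card_fin]

lemma moment {k Q s : ℕ} (hs : 1 ≤ s) :
    s ^ 2 * ∑ z : Fin k → Fin (Q + 2), s ^ (ms z - 2) ≤
      s ^ 2 * (Q + 2) ^ k + k ^ 3 * ((2 * s) ^ 3 * (2 * s + Q) ^ (k - 3)) := by
  calc s ^ 2 * ∑ z : Fin k → Fin (Q + 2), s ^ (ms z - 2)
      = ∑ z : Fin k → Fin (Q + 2), s ^ 2 * s ^ (ms z - 2) := by rw [mul_sum]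
    _ ≤ ∑ z : Fin k → Fin (Q + 2), (s ^ 2 + if 3 ≤ ms z then s ^ ms z else 0) := by
        refine sum_le_sum fun z _ => ?_
        split_ifs with h
        · rw [← pow_add, show 2 + (ms z - 2) = ms z by omega]
          exact Nat.le_add_left _ _
        · rw [show ms z - 2 = 0 by omega]
          simp
    _ = s ^ 2 * (Q + 2) ^ k + ∑ z : Fin k → Fin (Q + 2), (if 3 ≤ ms z then s ^ ms z else 0) := by
        rw [sum_add_distrib, sum_const, card_univ, Fintype.card_fun, Fintype.card_fin,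
          Fintype.card_fin, smul_eq_mul, mul_comm]
    _ ≤ _ := Nat.add_le_add_left large_supp _

/-- all pairs are separated -/
def Comp {k Q t : ℕ} (y : Fin t → Fin k → Fin Q) : Prop := ∀ u v, u < v → ∃ i, Sp (y i) u v

lemma sep_unique {k Q : ℕ} {z : Fin k → Fin Q} (h : ms z ≤ 2) {a b c d : Fin k}
    (h1 : Sp z a b) (h2 : Sp z c d) (hab : a < b) (hcd : c < d) : a = c ∧ b = d := by
  have key : ∀ a b : Fin k, Sp z a b → a < b → ({a, b} : Finset (Fin k)) = sup' z := by
    intro a b hs hab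
    apply eq_of_subset_of_card_le
    · intro w hw
      rw [mem_insert, mem_singleton] at hw
      have := Sp_ne hs
      rcases hw with rfl | rfl
      · exact mem_filter.2 ⟨mem_univ _, this.1⟩
      · exact mem_filter.2 ⟨mem_univ _, this.2⟩
    · rw [card_pair hab.ne]
      exact h
  have e : ({a, b} : Finset (Fin k)) = {c, d} := (key a b h1 hab).trans (key c d h2 hcd).symm
  have hc : c ∈ ({a, b} : Finset (Fin k)) := by rw [e]; simp
  have hd : d ∈ ({a, b} : Finset (Fin k)) := by rw [e]; simp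
  rw [mem_insert, mem_singleton] at hc hd
  rcases hc with rfl | rfl <;> rcases hd with rfl | rfl
  · exact absurd hcd (lt_irrefl _)
  · exact ⟨rfl, rfl⟩
  · exact absurd (hab.trans hcd) (lt_irrefl _)
  · exact absurd hcd (lt_irrefl _)

/-- **Counting complete patterns of small excess.** -/
lemma red {k Q t x0 u0 : ℕ} (hk : 2 ≤ k) (ht : 1 ≤ t)
    (hU : ∀ y : Fin t → Fin k → Fin (Q + 2), Xc y ≤ x0 → u0 ≤ (Un y).card) :
    (univ.filter (fun y : Fin t → Fin k → Fin (Q + 2) => Comp y ∧ Xc y ≤ x0)).card *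
      (univ.filter (fun z : Fin k → Fin (Q + 2) => ms z ≤ 2)).card ^ u0 ≤
      ((Q + 2) ^ k) ^ t * (t * (2 * (Q + 2) ^ (k - 2))) ^ u0 := by
  have hE : ∀ S : Finset (Fin k × Fin k), ∃ f : Fin u0 → Fin k × Fin k,
      u0 ≤ S.card → (Function.Injective f ∧ ∀ j, f j ∈ S) := by
    intro S
    by_cases h : u0 ≤ S.card
    · refine ⟨fun j => (S.equivFin.symm (Fin.castLE h j)).1, fun _ => ⟨?_, fun j => ?_⟩⟩
      · intro i j hij
        have h1 := S.equivFin.symm.injective (Subtype.ext hij)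
        exact Fin.castLE_injective h h1
      · exact (S.equivFin.symm (Fin.castLE h j)).2
    · exact ⟨fun _ => (⟨0, by omega⟩, ⟨0, by omega⟩), fun h' => absurd h' h⟩
  choose E hE using hE
  have hidx : ∀ y : Fin t → Fin k → Fin (Q + 2), ∃ f : Fin u0 → Fin t,
      (Comp y ∧ Xc y ≤ x0) → ∀ j, Sp (y (f j)) (E (Un y) j).1 (E (Un y) j).2 ∧
        ms (y (f j)) ≤ 2 := by
    intro y
    by_cases h : Comp y ∧ Xc y ≤ x0
    · have h1 := (hE (Un y) (hU y h.2)).2
      have h2 : ∀ j, ∃ i, Sp (y i) (E (Un y) j).1 (E (Un y) j).2 ∧ ms (y i) ≤ 2 := by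
        intro j
        have h3 := (mem_filter.1 (h1 j)).2
        obtain ⟨i, hi⟩ := h.1 _ _ h3.1
        refine ⟨i, hi, ?_⟩
        by_contra hlt
        exact h3.2 i (by omega) hi
      choose f hf using h2
      exact ⟨f, fun _ => hf⟩
    · exact ⟨fun _ => ⟨0, by omega⟩, fun h' => absurd h' h⟩
  choose idx hidx using hidx
  have hinj : ∀ y, (Comp y ∧ Xc y ≤ x0) → Function.Injective (idx y) := by
    intro y hy j j' hjj
    have h1 := hidx y hy j
    have h2 := hidx y hy j'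
    rw [← hjj] at h2
    have h3 := (mem_filter.1 ((hE (Un y) (hU y hy.2)).2 j)).2
    have h4 := (mem_filter.1 ((hE (Un y) (hU y hy.2)).2 j')).2
    have h5 := sep_unique h1.2 h1.1 h2.1 h3.1 h4.1
    exact (hE (Un y) (hU y hy.2)).1 (Prod.ext h5.1 h5.2)
  set y2 : (Fin t → Fin k → Fin (Q + 2)) → (Fin u0 → Fin k → Fin (Q + 2)) →
      (Fin t → Fin k → Fin (Q + 2)) := fun y ζ i =>
    if h : ∃ j, idx y j = i then ζ h.choose else y i with hy2
  have hy2a : ∀ y ζ, (Comp y ∧ Xc y ≤ x0) → ∀ j, y2 y ζ (idx y j) = ζ j := by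
    intro y ζ hy j
    have h : ∃ j', idx y j' = idx y j := ⟨j, rfl⟩
    rw [hy2]
    dsimp only
    rw [dif_pos h]
    congr 1
    exact hinj y hy h.choose_spec
  have hy2b : ∀ y ζ i, (¬ ∃ j, idx y j = i) → y2 y ζ i = y i := by
    intro y ζ i h
    rw [hy2]
    dsimp only
    rw [dif_neg h]
  have hUn : ∀ y ζ, (Comp y ∧ Xc y ≤ x0) → (∀ j, ms (ζ j) ≤ 2) → Un (y2 y ζ) = Un y := by
    intro y ζ hy hζ
    unfold Un
    ext p
    simp only [mem_filter, mem_univ, true_and]
    refine and_congr_right fun _ => forall_congr' fun i => ?_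
    by_cases h : ∃ j, idx y j = i
    · obtain ⟨j, rfl⟩ := h
      rw [hy2a y ζ hy j]
      have h1 := hζ j
      have h2 := (hidx y hy j).2
      constructor
      · intro _ h3; omega
      · intro _ h3; omega
    · rw [hy2b y ζ i h]
  set src : Finset ((Fin t → Fin k → Fin (Q + 2)) × (Fin u0 → Fin k → Fin (Q + 2))) :=
    (univ.filter (fun y : Fin t → Fin k → Fin (Q + 2) => Comp y ∧ Xc y ≤ x0)) ×ˢ
    (Fintype.piFinset (fun _ : Fin u0 =>
      univ.filter (fun z : Fin k → Fin (Q + 2) => ms z ≤ 2))) with hsrc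
  have hsrcc : src.card = (univ.filter (fun y : Fin t → Fin k → Fin (Q + 2) =>
      Comp y ∧ Xc y ≤ x0)).card *
      (univ.filter (fun z : Fin k → Fin (Q + 2) => ms z ≤ 2)).card ^ u0 := by
    rw [hsrc, card_product, Fintype.card_piFinset, prod_const, card_univ, Fintype.card_fin]
  rw [← hsrcc]
  set tgt : Finset ((Fin t → Fin k → Fin (Q + 2)) × (Fin u0 → Fin t) ×
      (Fin u0 → Fin k → Fin (Q + 2))) :=
    (univ ×ˢ univ).sigma (fun q : (Fin t → Fin k → Fin (Q + 2)) × (Fin u0 → Fin t) =>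
      Fintype.piFinset (fun j => univ.filter (fun z : Fin k → Fin (Q + 2) =>
        Sp z (E (Un q.1) j).1 (E (Un q.1) j).2))) |>.image (fun r => (r.1.1, r.1.2, r.2))
    with htgt
  have htgtc : tgt.card ≤ ((Q + 2) ^ k) ^ t * (t * (2 * (Q + 2) ^ (k - 2))) ^ u0 := by
    rw [htgt]
    refine card_image_le.trans ?_
    rw [card_sigma]
    calc _ ≤ ∑ _q ∈ ((univ ×ˢ univ) : Finset ((Fin t → Fin k → Fin (Q + 2)) ×
          (Fin u0 → Fin t))), (2 * (Q + 2) ^ (k - 2)) ^ u0 := by
          refine sum_le_sum fun q _ => ?_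
          rw [Fintype.card_piFinset]
          calc _ ≤ ∏ _j : Fin u0, (2 * (Q + 2) ^ (k - 2)) :=
                prod_le_prod (fun _ _ => Nat.zero_le _) fun j _ => card_Sp _ _
            _ = _ := by rw [prod_const, card_univ, Fintype.card_fin]
      _ = _ := by
          rw [sum_const, card_product, card_univ, card_univ, Fintype.card_fun, Fintype.card_fun,
            Fintype.card_fun, Fintype.card_fin, Fintype.card_fin, Fintype.card_fin,
            Fintype.card_fin, smul_eq_mul, mul_pow, mul_pow]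
          ring
  refine le_trans ?_ htgtc
  refine card_le_card_of_injOn (fun q => (y2 q.1 q.2, idx q.1, fun j => q.1 (idx q.1 j))) ?_ ?_
  · rintro ⟨y, ζ⟩ hq
    rw [mem_coe, hsrc, mem_product, mem_filter, Fintype.mem_piFinset] at hq
    obtain ⟨⟨-, hy⟩, hζ⟩ := hq
    have hζ' : ∀ j, ms (ζ j) ≤ 2 := fun j => (mem_filter.1 (hζ j)).2
    rw [mem_coe, htgt, mem_image]
    refine ⟨⟨(y2 y ζ, idx y), fun j => y (idx y j)⟩, ?_, rfl⟩
    rw [mem_sigma]
    refine ⟨by simp, ?_⟩
    rw [Fintype.mem_piFinset]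
    intro j
    rw [mem_filter]
    refine ⟨mem_univ _, ?_⟩
    dsimp only
    rw [hUn y ζ hy hζ']
    exact (hidx y hy j).1
  · rintro ⟨y, ζ⟩ hq ⟨y', ζ'⟩ hq' heq
    rw [mem_coe, hsrc, mem_product, mem_filter, Fintype.mem_piFinset] at hq hq'
    obtain ⟨⟨-, hy⟩, -⟩ := hq
    obtain ⟨⟨-, hy'⟩, -⟩ := hq'
    simp only [Prod.mk.injEq] at heq
    obtain ⟨e1, e2, e3⟩ := heq
    dsimp only at hy hy'
    have e4 : y = y' := by
      funext i
      by_cases h : ∃ j, idx y j = i
      · obtain ⟨j, rfl⟩ := h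
        have := congrFun e3 j
        rw [← e2] at this
        exact this
      · have h' : ¬ ∃ j, idx y' j = i := by rwa [← e2]
        rw [← hy2b y ζ i h, ← hy2b y' ζ' i h', e1]
    subst e4
    have e5 : ζ = ζ' := by
      funext j
      rw [← hy2a y ζ hy j, ← hy2a y ζ' hy j, e1]
    rw [e5]

/-- patterns separating no pair -/
lemma blue {k Q t : ℕ} :
    (univ.filter (fun y : Fin t → Fin k → Fin (Q + 2) => ∀ i u v, ¬ Sp (y i) u v)).card =
      (univ.filter (fun z : Fin k → Fin (Q + 2) => ∀ u v, ¬ Sp z u v)).card ^ t := by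
  have h : univ.filter (fun y : Fin t → Fin k → Fin (Q + 2) => ∀ i u v, ¬ Sp (y i) u v) =
      Fintype.piFinset (fun _ : Fin t =>
        univ.filter (fun z : Fin k → Fin (Q + 2) => ∀ u v, ¬ Sp z u v)) := by
    ext y
    simp [Fintype.mem_piFinset]
  rw [h, Fintype.card_piFinset, prod_const, card_univ, Fintype.card_fin]

end Pool.Agent.X79.BC
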