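import Pool.Agent.X79.BC4

/-!
# Random unions of bicliques
-/

namespace Pool.Agent.X79.BC

open Finset Classical

set_option linter.unusedSectionVars false

/-- the union of the bicliques given by `x` -/
def Gx {n Q t : ℕ} (x : Fin t → Fin n → Fin Q) : SimpleGraph (Fin n) where
  Adj u v := ∃ i, sg (x i u) * sg (x i v) = -1
  symm := ⟨fun u v ⟨i, h⟩ => ⟨i, by rw [mul_comm]; exact h⟩⟩
  loopless := ⟨fun u ⟨i, h⟩ => by
    rcases sg_cases (x i u) with e | e | e <;> rw [e] at h <;> norm_num at h⟩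

lemma Gx_adj {n Q t : ℕ} (x : Fin t → Fin n → Fin Q) (u v : Fin n) :
    (Gx x).Adj u v ↔ ∃ i, (u ∈ univ.filter (fun w => sg (x i w) = 1) ∧
      v ∈ univ.filter (fun w => sg (x i w) = -1)) ∨
      (u ∈ univ.filter (fun w => sg (x i w) = -1) ∧
        v ∈ univ.filter (fun w => sg (x i w) = 1)) := by
  simp only [mem_filter, mem_univ, true_and]
  change (∃ i, sg (x i u) * sg (x i v) = -1) ↔ _
  refine exists_congr fun i => ?_
  rcases sg_cases (x i u) with e | e | e <;> rcases sg_cases (x i v) with e' | e' | e' <;>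
    rw [e, e'] <;> norm_num

/-- the restriction lies in `W` -/
def InW {α : Type} {n k t : ℕ} (e : Fin k ↪ Fin n) (W : Finset (Fin t → Fin k → α))
    (x : Fin t → Fin n → α) : Prop := (fun i a => x i (e a)) ∈ W

/-- restriction -/
lemma restrict {α : Type} [Fintype α] {n k t : ℕ} (e : Fin k ↪ Fin n)
    (W : Finset (Fin t → Fin k → α)) :
    (univ.filter (fun x : Fin t → Fin n → α => InW e W x)).card ≤
      W.card * ((Fintype.card α) ^ (n - k)) ^ t := by
  have hc : Fintype.card {v : Fin n // v ∉ Set.range e} = n - k := by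
    have h := Fintype.card_subtype_compl (fun v : Fin n => v ∈ Set.range e)
    rw [Fintype.card_fin] at h
    have h2 : Fintype.card {v : Fin n // v ∈ Set.range e} = k := by
      have : Fintype.card {v : Fin n // v ∈ Set.range e} = Fintype.card (Fin k) :=
        (Fintype.card_congr (Equiv.ofInjective e e.injective)).symm
      rw [this, Fintype.card_fin]
    rw [h2] at h
    convert h
  have hT : (W ×ˢ (univ : Finset (Fin t → {v : Fin n // v ∉ Set.range e} → α))).card =
      W.card * ((Fintype.card α) ^ (n - k)) ^ t := by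
    rw [card_product, card_univ, Fintype.card_fun, Fintype.card_fun, Fintype.card_fin, hc]
  rw [← hT]
  refine card_le_card_of_injOn (fun x => ((fun i a => x i (e a)), fun i v => x i v.1)) ?_ ?_
  · intro x hx
    rw [mem_coe, mem_filter] at hx
    rw [mem_coe, mem_product]
    exact ⟨hx.2, mem_univ _⟩
  · intro x _ x' _ h
    simp only [Prod.mk.injEq] at h
    funext i v
    by_cases hv : v ∈ Set.range e
    · obtain ⟨a, rfl⟩ := hv
      exact congrFun (congrFun h.1 i) a
    · exact congrFun (congrFun h.2 i) ⟨v, hv⟩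

/-- **Union bound.** -/
lemma exists_good {n k Q t : ℕ} (hkn : k ≤ n)
    (h : n.choose k * ((univ.filter (fun y : Fin t → Fin k → Fin (Q + 2) => Comp y)).card +
      (univ.filter (fun y : Fin t → Fin k → Fin (Q + 2) => ∀ i u v, ¬ Sp (y i) u v)).card) <
      ((Q + 2) ^ k) ^ t) :
    ∃ x : Fin t → Fin n → Fin (Q + 2), (Gx x).CliqueFree k ∧ (Gx x)ᶜ.CliqueFree k := by
  by_contra hcon
  push Not at hcon
  set W := univ.filter (fun y : Fin t → Fin k → Fin (Q + 2) =>
    Comp y ∨ ∀ i u v, ¬ Sp (y i) u v) with hW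
  have hWc : W.card ≤ (univ.filter (fun y : Fin t → Fin k → Fin (Q + 2) => Comp y)).card +
      (univ.filter (fun y : Fin t → Fin k → Fin (Q + 2) => ∀ i u v, ¬ Sp (y i) u v)).card := by
    rw [hW, filter_or]
    exact card_union_le _ _
  have hemb : ∀ S : {S : Finset (Fin n) // S.card = k}, ∃ e : Fin k ↪ Fin n, ∀ a, e a ∈ S.1 :=
    fun S => ⟨(S.1.orderEmbOfFin S.2).toEmbedding, fun a => orderEmbOfFin_mem S.1 S.2 a⟩
  choose e he using hemb
  have hcover : (univ : Finset (Fin t → Fin n → Fin (Q + 2))) ⊆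
      (univ : Finset {S : Finset (Fin n) // S.card = k}).biUnion (fun S =>
        univ.filter (fun x : Fin t → Fin n → Fin (Q + 2) => InW (e S) W x)) := by
    intro x _
    rw [mem_biUnion]
    have hx : ∃ S : Finset (Fin n), (Gx x).IsNClique k S ∨ (Gx x)ᶜ.IsNClique k S := by
      by_cases h1 : (Gx x).CliqueFree k
      · have h2 := hcon x h1
        unfold SimpleGraph.CliqueFree at h2
        push Not at h2
        obtain ⟨S, hS⟩ := h2
        exact ⟨S, Or.inr hS⟩
      · unfold SimpleGraph.CliqueFree at h1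
        push Not at h1
        obtain ⟨S, hS⟩ := h1
        exact ⟨S, Or.inl hS⟩
    obtain ⟨S, hS⟩ := hx
    have hSc : S.card = k := by
      rcases hS with hS | hS
      · exact hS.card_eq
      · exact hS.card_eq
    refine ⟨⟨S, hSc⟩, mem_univ _, ?_⟩
    rw [mem_filter]
    refine ⟨mem_univ _, ?_⟩
    unfold InW
    rw [hW, mem_filter]
    refine ⟨mem_univ _, ?_⟩
    have hmem : ∀ a, e ⟨S, hSc⟩ a ∈ S := he ⟨S, hSc⟩
    have hne : ∀ u v, u ≠ v → e ⟨S, hSc⟩ u ≠ e ⟨S, hSc⟩ v :=
      fun u v h h' => h ((e ⟨S, hSc⟩).injective h')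
    rcases hS with hS | hS
    · left
      intro u v huv
      have h1 := hS.isClique (mem_coe.2 (hmem u)) (mem_coe.2 (hmem v)) (hne u v huv.ne)
      obtain ⟨i, hi⟩ := h1
      exact ⟨i, hi⟩
    · right
      intro i u v hs
      have huv : u ≠ v := by
        rintro rfl
        exact Sp_irrefl hs
      have h1 := hS.isClique (mem_coe.2 (hmem u)) (mem_coe.2 (hmem v)) (hne u v huv)
      rw [SimpleGraph.compl_adj] at h1
      have hs' : sg (x i (e ⟨S, hSc⟩ u)) * sg (x i (e ⟨S, hSc⟩ v)) = -1 := hs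
      exact h1.2 ⟨i, hs'⟩
  have h1 := card_le_card hcover
  have h2 : ((univ : Finset {S : Finset (Fin n) // S.card = k}).biUnion (fun S =>
        univ.filter (fun x : Fin t → Fin n → Fin (Q + 2) => InW (e S) W x))).card ≤
      n.choose k * (W.card * (((Q + 2)) ^ (n - k)) ^ t) := by
    have hb : ∀ S ∈ (univ : Finset {S : Finset (Fin n) // S.card = k}),
        (univ.filter (fun x : Fin t → Fin n → Fin (Q + 2) => InW (e S) W x)).card ≤ W.card * (((Q + 2)) ^ (n - k)) ^ t := by
      intro S _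
      have h5 := restrict (e S) W
      rw [Fintype.card_fin] at h5
      exact h5
    refine (card_biUnion_le_card_mul _ _ _ hb).trans ?_
    rw [card_univ, Fintype.card_finset_len, Fintype.card_fin]
  have h3 : (univ : Finset (Fin t → Fin n → Fin (Q + 2))).card =
      ((Q + 2) ^ k) ^ t * ((Q + 2) ^ (n - k)) ^ t := by
    rw [card_univ, Fintype.card_fun, Fintype.card_fun, Fintype.card_fin, Fintype.card_fin,
      Fintype.card_fin, ← mul_pow, ← pow_add, Nat.add_sub_cancel' hkn]
  rw [h3] at h1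
  have h4 : n.choose k * (W.card * (((Q + 2)) ^ (n - k)) ^ t) <
      ((Q + 2) ^ k) ^ t * ((Q + 2) ^ (n - k)) ^ t := by
    have h5 : 0 < ((Q + 2) ^ (n - k)) ^ t := by positivity
    calc n.choose k * (W.card * (((Q + 2)) ^ (n - k)) ^ t)
        = (n.choose k * W.card) * ((Q + 2) ^ (n - k)) ^ t := by ring
      _ < ((Q + 2) ^ k) ^ t * ((Q + 2) ^ (n - k)) ^ t := by
          refine Nat.mul_lt_mul_of_pos_right (lt_of_le_of_lt ?_ h) h5
          exact Nat.mul_le_mul_left _ hWc
  omega

end Pool.Agent.X79.BC
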