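import Pool.Agent.X79.BC5

/-!
# Random unions of bicliques: estimates
-/

namespace Pool.Agent.X79.BC

open Finset Classical

set_option linter.unusedSectionVars false

lemma exp_one_le : Real.exp 1 ≤ 3 := by
  have := Real.exp_one_lt_d9
  linarith

lemma excess_real {k Q t s x0 : ℕ} (hk : 3 ≤ k) (hs : 1 ≤ s) (hQ : 16 * k ^ 3 * s ≤ Q + 2)
    (ht : t ≤ (Q + 2) ^ 2) :
    ((univ.filter (fun y : Fin t → Fin k → Fin (Q + 2) => x0 ≤ Xc y)).card : ℝ) ≤
      3 * ((((Q + 2 : ℕ) : ℝ) ^ k) ^ t) / (s : ℝ) ^ x0 := by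
  set q : ℝ := ((Q + 2 : ℕ) : ℝ) with hq
  have hq0 : 0 < q := by rw [hq]; positivity
  have hs0 : (0 : ℝ) < s := by exact_mod_cast hs
  have hk3 : (3 : ℝ) ≤ k := by exact_mod_cast hk
  have hQ' : 16 * (k : ℝ) ^ 3 * s ≤ q := by rw [hq]; exact_mod_cast hQ
  have h1 := excess (k := k) (Q := Q) (t := t) (x0 := x0) hs
  have h2 := moment (k := k) (Q := Q) hs
  set Sg := ∑ z : Fin k → Fin (Q + 2), s ^ (ms z - 2) with hSg
  have h2' : (s : ℝ) ^ 2 * (Sg : ℝ) ≤ (s : ℝ) ^ 2 * q ^ k +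
      (k : ℝ) ^ 3 * ((2 * s) ^ 3 * (2 * s + Q) ^ (k - 3)) := by
    rw [hq]
    exact_mod_cast h2
  have h3 : (2 * (s : ℝ) + Q) ^ (k - 3) ≤ 2 * q ^ (k - 3) := by
    have e1 : 2 * (s : ℝ) + Q ≤ q * (1 + 2 * s / q) := by
      rw [mul_add, mul_one, mul_div_cancel₀ _ hq0.ne', hq]
      push_cast
      linarith
    have e2 : (1 + 2 * (s : ℝ) / q) ^ (k - 3) ≤ 2 := by
      calc (1 + 2 * (s : ℝ) / q) ^ (k - 3) ≤ (Real.exp (2 * s / q)) ^ (k - 3) := by
            refine pow_le_pow_left₀ (by positivity) ?_ _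
            linarith [Real.add_one_le_exp (2 * (s : ℝ) / q)]
        _ = Real.exp (((k - 3 : ℕ) : ℝ) * (2 * s / q)) := by rw [← Real.exp_nat_mul]
        _ ≤ Real.exp (1 / 2) := by
            apply Real.exp_le_exp.2
            have e3 : ((k - 3 : ℕ) : ℝ) ≤ k := by exact_mod_cast Nat.sub_le k 3
            have e4 : (k : ℝ) * (2 * s) ≤ q / 2 := by
              have e5 : (k : ℝ) ≤ (k : ℝ) ^ 3 := by nlinarith [sq_nonneg (k : ℝ)]
              have e6 : (k : ℝ) * s ≤ (k : ℝ) ^ 3 * s := mul_le_mul_of_nonneg_right e5 hs0.le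
              nlinarith
            calc ((k - 3 : ℕ) : ℝ) * (2 * s / q) ≤ k * (2 * s / q) := by gcongr
              _ = (k * (2 * s)) / q := by ring
              _ ≤ (q / 2) / q := by gcongr
              _ = 1 / 2 := by field_simp
        _ ≤ 2 := by
            have e3 : Real.exp (1 / 2) ^ 2 ≤ 4 := by
              rw [← Real.exp_nat_mul]
              have : ((2 : ℕ) : ℝ) * (1 / 2) = 1 := by norm_num
              rw [this]
              linarith [exp_one_le]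
            nlinarith [Real.exp_pos (1 / 2 : ℝ)]
    calc (2 * (s : ℝ) + Q) ^ (k - 3) ≤ (q * (1 + 2 * s / q)) ^ (k - 3) :=
          pow_le_pow_left₀ (by positivity) e1 _
      _ = q ^ (k - 3) * (1 + 2 * s / q) ^ (k - 3) := by rw [mul_pow]
      _ ≤ q ^ (k - 3) * 2 := mul_le_mul_of_nonneg_left e2 (by positivity)
      _ = _ := by ring
  have hqk : q ^ k = q ^ (k - 3) * q ^ 3 := by
    rw [← pow_add]
    congr 1
    omega
  have h4 : (Sg : ℝ) ≤ q ^ k * (1 + 1 / q ^ 2) := by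
    have e1 : (s : ℝ) ^ 2 * (Sg : ℝ) ≤ (s : ℝ) ^ 2 * (q ^ k * (1 + 1 / q ^ 2)) := by
      refine h2'.trans ?_
      have e2 : (k : ℝ) ^ 3 * ((2 * s) ^ 3 * (2 * s + Q) ^ (k - 3)) ≤
          (s : ℝ) ^ 2 * (q ^ (k - 3) * q) := by
        calc (k : ℝ) ^ 3 * ((2 * s) ^ 3 * (2 * s + Q) ^ (k - 3))
            ≤ (k : ℝ) ^ 3 * ((2 * s) ^ 3 * (2 * q ^ (k - 3))) := by gcongr
          _ = (s : ℝ) ^ 2 * (q ^ (k - 3) * (16 * (k : ℝ) ^ 3 * s)) := by ring
          _ ≤ (s : ℝ) ^ 2 * (q ^ (k - 3) * q) := by gcongr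
      have e3 : q ^ k * (1 + 1 / q ^ 2) = q ^ k + q ^ (k - 3) * q := by
        rw [hqk]
        field_simp
      rw [e3, mul_add]
      linarith
    exact le_of_mul_le_mul_left e1 (by positivity)
  have h5 : ((Sg : ℝ)) ^ t ≤ 3 * (q ^ k) ^ t := by
    calc ((Sg : ℝ)) ^ t ≤ (q ^ k * (1 + 1 / q ^ 2)) ^ t :=
          pow_le_pow_left₀ (Nat.cast_nonneg _) h4 _
      _ = (q ^ k) ^ t * (1 + 1 / q ^ 2) ^ t := by rw [mul_pow]
      _ ≤ (q ^ k) ^ t * 3 := by
          refine mul_le_mul_of_nonneg_left ?_ (by positivity)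
          calc (1 + 1 / q ^ 2) ^ t ≤ (Real.exp (1 / q ^ 2)) ^ t := by
                refine pow_le_pow_left₀ (by positivity) ?_ _
                linarith [Real.add_one_le_exp (1 / q ^ 2)]
            _ = Real.exp ((t : ℝ) * (1 / q ^ 2)) := by rw [← Real.exp_nat_mul]
            _ ≤ Real.exp 1 := by
                apply Real.exp_le_exp.2
                rw [mul_one_div, div_le_one (by positivity), hq]
                exact_mod_cast ht
            _ ≤ 3 := exp_one_le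
      _ = _ := by ring
  rw [le_div_iff₀ (by positivity)]
  refine le_trans ?_ h5
  exact_mod_cast h1

lemma red_real {k Q t s x0 u0 : ℕ} (hk : 3 ≤ k) (hs : 1 ≤ s) (ht1 : 1 ≤ t)
    (hQ : 16 * k ^ 3 * s ≤ Q + 2)
    (hU : ∀ y : Fin t → Fin k → Fin (Q + 2), Xc y ≤ x0 → u0 ≤ (Un y).card) :
    ((univ.filter (fun y : Fin t → Fin k → Fin (Q + 2) => Comp y ∧ Xc y ≤ x0)).card : ℝ) ≤
      ((((Q + 2 : ℕ) : ℝ) ^ k) ^ t) * (4 * t / ((Q + 2 : ℕ) : ℝ) ^ 2) ^ u0 := by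
  set q : ℝ := ((Q + 2 : ℕ) : ℝ) with hq
  have hq0 : 0 < q := by rw [hq]; positivity
  have hQ1 : 16 * k ^ 3 ≤ Q + 2 := le_trans (Nat.le_mul_of_pos_right _ hs) hQ
  have hN2 : q ^ k / 2 ≤ ((univ.filter (fun z : Fin k → Fin (Q + 2) => ms z ≤ 2)).card : ℝ) := by
    have h1 := few_large (k := k) (Q := Q)
    have h2 : (univ.filter (fun z : Fin k → Fin (Q + 2) => 3 ≤ ms z)).card +
        (univ.filter (fun z : Fin k → Fin (Q + 2) => ¬ 3 ≤ ms z)).card = (Q + 2) ^ k := by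
      rw [card_filter_add_card_filter_not, card_univ, Fintype.card_fun, Fintype.card_fin,
        Fintype.card_fin]
    have h3 : univ.filter (fun z : Fin k → Fin (Q + 2) => ¬ 3 ≤ ms z) =
        univ.filter (fun z : Fin k → Fin (Q + 2) => ms z ≤ 2) := by
      apply filter_congr
      intro z _
      omega
    rw [h3] at h2
    have h4 : 2 * (8 * k ^ 3 * (Q + 2) ^ (k - 3)) ≤ (Q + 2) ^ k := by
      have e1 : (Q + 2) ^ k = (Q + 2) ^ (k - 3) * (Q + 2) ^ 3 := by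
        rw [← pow_add]; congr 1; omega
      have e2 : Q + 2 ≤ (Q + 2) ^ 3 := Nat.le_self_pow (by norm_num) _
      calc 2 * (8 * k ^ 3 * (Q + 2) ^ (k - 3)) = (Q + 2) ^ (k - 3) * (16 * k ^ 3) := by ring
        _ ≤ (Q + 2) ^ (k - 3) * (Q + 2) ^ 3 := Nat.mul_le_mul_left _ (hQ1.trans e2)
        _ = _ := e1.symm
    have h5 : (Q + 2) ^ k ≤
        2 * (univ.filter (fun z : Fin k → Fin (Q + 2) => ms z ≤ 2)).card := by omega
    rw [div_le_iff₀ (by norm_num)]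
    have h6 : q ^ k ≤ 2 * ((univ.filter (fun z : Fin k → Fin (Q + 2) => ms z ≤ 2)).card : ℝ) := by
      rw [hq]
      exact_mod_cast h5
    linarith
  have h1 := red (k := k) (Q := Q) (t := t) (x0 := x0) (u0 := u0) (by omega) ht1 hU
  have h2 : ((univ.filter (fun y : Fin t → Fin k → Fin (Q + 2) => Comp y ∧ Xc y ≤ x0)).card : ℝ) *
      (q ^ k / 2) ^ u0 ≤ (q ^ k) ^ t * (t * (2 * q ^ (k - 2))) ^ u0 := by
    calc _ ≤ ((univ.filter (fun y : Fin t → Fin k → Fin (Q + 2) =>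
            Comp y ∧ Xc y ≤ x0)).card : ℝ) *
          ((univ.filter (fun z : Fin k → Fin (Q + 2) => ms z ≤ 2)).card : ℝ) ^ u0 := by
          refine mul_le_mul_of_nonneg_left ?_ (Nat.cast_nonneg _)
          exact pow_le_pow_left₀ (by positivity) hN2 _
      _ ≤ _ := by
          rw [hq]
          exact_mod_cast h1
  have hqk : q ^ k = q ^ (k - 2) * q ^ 2 := by
    rw [← pow_add]
    congr 1
    omega
  have h3 : (t * (2 * q ^ (k - 2))) = (q ^ k / 2) * (4 * t / q ^ 2) := by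
    rw [hqk]
    field_simp
    ring
  rw [h3, mul_pow] at h2
  have h4 : 0 < (q ^ k / 2) ^ u0 := by positivity
  have h5 : ((univ.filter (fun y : Fin t → Fin k → Fin (Q + 2) => Comp y ∧ Xc y ≤ x0)).card : ℝ) *
      (q ^ k / 2) ^ u0 ≤ ((q ^ k) ^ t * (4 * t / q ^ 2) ^ u0) * (q ^ k / 2) ^ u0 := by
    refine h2.trans (le_of_eq ?_)
    ring
  exact le_of_mul_le_mul_right h5 h4

lemma blue_real {k Q t : ℕ} (hk : 3 ≤ k) (hQ : 4 * k ≤ Q + 2) :
    ((univ.filter (fun y : Fin t → Fin k → Fin (Q + 2) => ∀ i u v, ¬ Sp (y i) u v)).card : ℝ) ≤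
      ((((Q + 2 : ℕ) : ℝ) ^ k) ^ t) *
        Real.exp (-(t * (k * (k - 1)) / (2 * ((Q + 2 : ℕ) : ℝ) ^ 2))) := by
  set q : ℝ := ((Q + 2 : ℕ) : ℝ) with hq
  have hq0 : 0 < q := by rw [hq]; positivity
  have hk3 : (3 : ℝ) ≤ k := by exact_mod_cast hk
  have hQ' : 4 * (k : ℝ) ≤ q := by rw [hq]; exact_mod_cast hQ
  rw [blue]
  push_cast
  have h1 := blue_one (k := k) (Q := Q)
  have h1' : ((univ.filter (fun z : Fin k → Fin (Q + 2) => ∀ u v, ¬ Sp z u v)).card : ℝ) +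
      k * (k - 1) * (Q : ℝ) ^ (k - 2) ≤ q ^ k := by
    have e : ((k - 1 : ℕ) : ℝ) = (k : ℝ) - 1 := by
      rw [Nat.cast_sub (by omega)]
      simp
    rw [← e, hq]
    exact_mod_cast h1
  have hQq : (Q : ℝ) = q * (1 - 2 / q) := by
    rw [mul_sub, mul_one, mul_div_cancel₀ _ hq0.ne', hq]
    push_cast
    ring
  have h2 : q ^ (k - 2) / 2 ≤ (Q : ℝ) ^ (k - 2) := by
    rw [hQq, mul_pow]
    have e1 : (1 : ℝ) / 2 ≤ (1 - 2 / q) ^ (k - 2) := by
      have e2 := one_add_mul_le_pow (a := -(2 / q)) (by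
        have : 2 / q ≤ 1 := by
          rw [div_le_one hq0]
          linarith
        linarith) (k - 2)
      have e3 : ((k - 2 : ℕ) : ℝ) ≤ k := by exact_mod_cast Nat.sub_le k 2
      have e4 : (k : ℝ) * (2 / q) ≤ 1 / 2 := by
        rw [← mul_div_assoc, div_le_iff₀ hq0]
        linarith
      have e5 : ((k - 2 : ℕ) : ℝ) * (2 / q) ≤ k * (2 / q) := by gcongr
      have e6 : (1 : ℝ) - 2 / q = 1 + -(2 / q) := by ring
      rw [e6]
      refine le_trans ?_ e2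
      nlinarith
    calc q ^ (k - 2) / 2 = q ^ (k - 2) * (1 / 2) := by ring
      _ ≤ _ := mul_le_mul_of_nonneg_left e1 (by positivity)
  have hqk : q ^ k = q ^ (k - 2) * q ^ 2 := by
    rw [← pow_add]
    congr 1
    omega
  have h3 : ((univ.filter (fun z : Fin k → Fin (Q + 2) => ∀ u v, ¬ Sp z u v)).card : ℝ) ≤
      q ^ k * Real.exp (-(k * (k - 1) / (2 * q ^ 2))) := by
    have hkk : (0 : ℝ) ≤ k * (k - 1) := by nlinarith
    have e1 : (k : ℝ) * (k - 1) * (q ^ (k - 2) / 2) ≤ k * (k - 1) * (Q : ℝ) ^ (k - 2) :=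
      mul_le_mul_of_nonneg_left h2 hkk
    have e2 : q ^ k * (1 - k * (k - 1) / (2 * q ^ 2)) = q ^ k - k * (k - 1) * (q ^ (k - 2) / 2) := by
      rw [hqk]
      field_simp
    calc _ ≤ q ^ k * (1 - k * (k - 1) / (2 * q ^ 2)) := by
          rw [e2]
          linarith
      _ ≤ _ := by
          refine mul_le_mul_of_nonneg_left ?_ (by positivity)
          linarith [Real.add_one_le_exp (-((k : ℝ) * (k - 1) / (2 * q ^ 2)))]
  calc _ ≤ (q ^ k * Real.exp (-(k * (k - 1) / (2 * q ^ 2)))) ^ t :=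
        pow_le_pow_left₀ (Nat.cast_nonneg _) h3 _
    _ = (q ^ k) ^ t * Real.exp (-(t * (k * (k - 1)) / (2 * q ^ 2))) := by
        rw [mul_pow, ← Real.exp_nat_mul]
        congr 2
        ring

/-- **Existence.** -/
theorem exists_real {n k Q t s x0 u0 : ℕ} (hkn : k ≤ n) (hk : 3 ≤ k) (hs : 1 ≤ s) (ht1 : 1 ≤ t)
    (hQ : 16 * k ^ 3 * s ≤ Q + 2) (ht : t ≤ (Q + 2) ^ 2)
    (hU : ∀ y : Fin t → Fin k → Fin (Q + 2), Xc y ≤ x0 → u0 ≤ (Un y).card)
    (h1 : (n : ℝ) ^ k * (3 / (s : ℝ) ^ (x0 + 1)) < 1 / 3)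
    (h2 : (n : ℝ) ^ k * (4 * t / ((Q + 2 : ℕ) : ℝ) ^ 2) ^ u0 < 1 / 3)
    (h3 : (n : ℝ) ^ k * Real.exp (-(t * (k * (k - 1)) / (2 * ((Q + 2 : ℕ) : ℝ) ^ 2))) < 1 / 3) :
    ∃ x : Fin t → Fin n → Fin (Q + 2), (Gx x).CliqueFree k ∧ (Gx x)ᶜ.CliqueFree k := by
  apply exists_good hkn
  set q : ℝ := ((Q + 2 : ℕ) : ℝ) with hq
  have hq0 : 0 < q := by rw [hq]; positivity
  have e1 := excess_real (x0 := x0 + 1) hk hs hQ ht
  have e2 := red_real hk hs ht1 hQ hU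
  have e3 := blue_real (t := t) hk (show 4 * k ≤ Q + 2 by
    have : 4 * k ≤ 16 * k ^ 3 * s := by
      have h4 : k ≤ k ^ 3 := Nat.le_self_pow (by norm_num) _
      have h5 : k ^ 3 ≤ k ^ 3 * s := Nat.le_mul_of_pos_right _ hs
      nlinarith
    omega)
  rw [← hq] at e1 e2 e3
  have e4 : (univ.filter (fun y : Fin t → Fin k → Fin (Q + 2) => Comp y)).card ≤
      (univ.filter (fun y : Fin t → Fin k → Fin (Q + 2) => Comp y ∧ Xc y ≤ x0)).card +
      (univ.filter (fun y : Fin t → Fin k → Fin (Q + 2) => x0 + 1 ≤ Xc y)).card := by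
    refine le_trans (card_le_card ?_) (card_union_le _ _)
    intro y hy
    rw [mem_filter] at hy
    rw [mem_union, mem_filter, mem_filter]
    by_cases h : Xc y ≤ x0
    · exact Or.inl ⟨mem_univ _, hy.2, h⟩
    · exact Or.inr ⟨mem_univ _, by omega⟩
  have e4' : ((univ.filter (fun y : Fin t → Fin k → Fin (Q + 2) => Comp y)).card : ℝ) ≤
      ((univ.filter (fun y : Fin t → Fin k → Fin (Q + 2) => Comp y ∧ Xc y ≤ x0)).card : ℝ) +
      ((univ.filter (fun y : Fin t → Fin k → Fin (Q + 2) => x0 + 1 ≤ Xc y)).card : ℝ) := by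
    exact_mod_cast e4
  have hT : 0 < (q ^ k) ^ t := by positivity
  have hnk : ((n.choose k : ℕ) : ℝ) ≤ (n : ℝ) ^ k := by exact_mod_cast Nat.choose_le_pow n k
  have hfin : ((n.choose k : ℕ) : ℝ) *
      (((univ.filter (fun y : Fin t → Fin k → Fin (Q + 2) => Comp y)).card : ℝ) +
      ((univ.filter (fun y : Fin t → Fin k → Fin (Q + 2) => ∀ i u v, ¬ Sp (y i) u v)).card : ℝ)) <
      (q ^ k) ^ t := by
    calc _ ≤ (n : ℝ) ^ k * ((q ^ k) ^ t * (3 / (s : ℝ) ^ (x0 + 1)) +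
          (q ^ k) ^ t * (4 * t / q ^ 2) ^ u0 +
          (q ^ k) ^ t * Real.exp (-(t * (k * (k - 1)) / (2 * q ^ 2)))) := by
          refine mul_le_mul hnk ?_ (by positivity) (by positivity)
          have e5 : 3 * (q ^ k) ^ t / (s : ℝ) ^ (x0 + 1) =
              (q ^ k) ^ t * (3 / (s : ℝ) ^ (x0 + 1)) := by ring
          rw [e5] at e1
          linarith
      _ = (q ^ k) ^ t * ((n : ℝ) ^ k * (3 / (s : ℝ) ^ (x0 + 1)) +
          (n : ℝ) ^ k * (4 * t / q ^ 2) ^ u0 +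
          (n : ℝ) ^ k * Real.exp (-(t * (k * (k - 1)) / (2 * q ^ 2)))) := by ring
      _ < (q ^ k) ^ t * 1 := by
          refine mul_lt_mul_of_pos_left ?_ hT
          linarith
      _ = _ := mul_one _
  rw [hq] at hfin
  exact_mod_cast hfin

end Pool.Agent.X79.BC
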