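import Pool.Agent.X79.CU3

/-!
# Counting universality: parameters
-/

namespace Pool.Agent.X79.CU

open Finset Classical

set_option linter.unusedSectionVars false

lemma Mw_mul_le {x : ℝ} (hx : 0 < x) (hx1 : x ≤ 1) {k w : ℕ} (hw : w ≤ k) :
    (Mw k w : ℝ) * x ^ w ≤ (1 + x) ^ k := by
  unfold Mw
  push_cast
  rw [sum_mul]
  calc ∑ i ∈ range (w + 1), (k.choose i : ℝ) * x ^ w
      ≤ ∑ i ∈ range (w + 1), x ^ i * 1 ^ (k - i) * (k.choose i : ℝ) := by
        refine sum_le_sum fun i hi => ?_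
        rw [mem_range] at hi
        have h1 : x ^ w ≤ x ^ i := pow_le_pow_of_le_one hx.le hx1 (by omega)
        rw [one_pow, mul_one, mul_comm]
        exact mul_le_mul_of_nonneg_right h1 (Nat.cast_nonneg _)
    _ ≤ ∑ i ∈ range (k + 1), x ^ i * 1 ^ (k - i) * (k.choose i : ℝ) := by
        refine sum_le_sum_of_subset_of_nonneg ?_ fun i _ _ => by positivity
        intro i hi
        rw [mem_range] at hi ⊢
        omega
    _ = (1 + x) ^ k := by rw [← add_pow, add_comm]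

lemma ch_mul_le {x : ℝ} (hx : 0 < x) {k w : ℕ} :
    (((k - 1 + w).choose (k - 1) : ℕ) : ℝ) * x ^ w ≤ (1 + x) ^ (k - 1 + w) := by
  have h1 : (k - 1 + w).choose (k - 1) = (k - 1 + w).choose w := by
    rw [Nat.choose_symm_add]
  rw [h1, add_comm 1 x, add_pow]
  refine le_trans (le_of_eq ?_) (single_le_sum (f := fun i => x ^ i * 1 ^ (k - 1 + w - i) *
    ((k - 1 + w).choose i : ℝ)) (fun i _ => by positivity) (mem_range.2 (by omega : w < _)))
  simp only [one_pow, mul_one]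
  ring

lemma numeric (η : ℝ) (hη : 0 < η) : ∃ β : ℝ, 0 < β ∧ β ≤ 1 ∧ ∀ k w : ℕ, (w : ℝ) ≤ β * k →
    ((Mw k w * (k - 1 + w).choose (k - 1) : ℕ) : ℝ) ≤ Real.exp (η * k) := by
  set x : ℝ := min (η / 6) (1 / 2) with hx
  have hx0 : 0 < x := by rw [hx]; positivity
  have hx6 : x ≤ η / 6 := min_le_left _ _
  have hx2 : x ≤ 1 / 2 := min_le_right _ _
  have hlog : Real.log x < 0 := Real.log_neg hx0 (by linarith)
  set β : ℝ := min 1 (η / (4 * (-Real.log x))) with hβ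
  have hβ0 : 0 < β := by
    rw [hβ]
    have : 0 < 4 * (-Real.log x) := by linarith
    positivity
  have hβ1 : β ≤ 1 := min_le_left _ _
  have hβ2 : β * (4 * (-Real.log x)) ≤ η := by
    have h1 : β ≤ η / (4 * (-Real.log x)) := min_le_right _ _
    rwa [le_div_iff₀ (by linarith)] at h1
  refine ⟨β, hβ0, hβ1, fun k w hw => ?_⟩
  have hk0 : (0 : ℝ) ≤ k := Nat.cast_nonneg _
  have hwk : w ≤ k := by
    have : (w : ℝ) ≤ k := by nlinarith
    exact_mod_cast this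
  have h1 := Mw_mul_le hx0 (by linarith) hwk
  have h2 := ch_mul_le hx0 (k := k) (w := w)
  have hxw : 0 < x ^ w := by positivity
  have h3 : ((Mw k w * (k - 1 + w).choose (k - 1) : ℕ) : ℝ) * (x ^ w * x ^ w) ≤
      (1 + x) ^ k * (1 + x) ^ (k - 1 + w) := by
    push_cast
    calc (Mw k w : ℝ) * ((k - 1 + w).choose (k - 1) : ℕ) * (x ^ w * x ^ w)
        = ((Mw k w : ℝ) * x ^ w) * ((((k - 1 + w).choose (k - 1) : ℕ) : ℝ) * x ^ w) := by ring
      _ ≤ _ := mul_le_mul h1 h2 (by positivity) (by positivity)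
  have h4 : (1 + x) ^ k * (1 + x) ^ (k - 1 + w) ≤ Real.exp (x * (3 * k)) := by
    rw [← pow_add]
    calc (1 + x) ^ (k + (k - 1 + w)) ≤ (Real.exp x) ^ (k + (k - 1 + w)) := by
          refine pow_le_pow_left₀ (by linarith) ?_ _
          linarith [Real.add_one_le_exp x]
      _ = Real.exp (x * ((k + (k - 1 + w) : ℕ) : ℝ)) := by
          rw [← Real.exp_nat_mul, mul_comm]
      _ ≤ _ := by
          apply Real.exp_le_exp.2
          refine mul_le_mul_of_nonneg_left ?_ hx0.le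
          have : k + (k - 1 + w) ≤ 3 * k := by omega
          exact_mod_cast this
  have h5 : x ^ w * x ^ w = Real.exp (2 * w * Real.log x) := by
    rw [← pow_add, ← Real.rpow_natCast, Real.rpow_def_of_pos hx0]
    congr 1
    push_cast
    ring
  have h6 : Real.exp (2 * w * Real.log x) * Real.exp (-(2 * w * Real.log x)) = 1 := by
    rw [← Real.exp_add]; simp
  calc ((Mw k w * (k - 1 + w).choose (k - 1) : ℕ) : ℝ)
      = ((Mw k w * (k - 1 + w).choose (k - 1) : ℕ) : ℝ) * (x ^ w * x ^ w) *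
        Real.exp (-(2 * w * Real.log x)) := by
        rw [h5, mul_assoc, h6, mul_one]
    _ ≤ Real.exp (x * (3 * k)) * Real.exp (-(2 * w * Real.log x)) :=
        mul_le_mul_of_nonneg_right (h3.trans h4) (Real.exp_pos _).le
    _ = Real.exp (x * (3 * k) + -(2 * w * Real.log x)) := by rw [Real.exp_add]
    _ ≤ Real.exp (η * k) := by
        apply Real.exp_le_exp.2
        have e1 : x * (3 * k) ≤ η / 2 * k := by nlinarith
        have e2 : -(2 * w * Real.log x) ≤ η / 2 * k := by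
          have e3 : (w : ℝ) * (-Real.log x) ≤ β * k * (-Real.log x) :=
            mul_le_mul_of_nonneg_right hw (by linarith)
          nlinarith
        linarith

lemma growth {a C : ℝ} (ha : 0 < a) (hC : 0 ≤ C) : ∃ K : ℕ, 1 ≤ K ∧ ∀ k : ℕ, K ≤ k →
    C * ((k : ℝ) ^ 2 + 1) ≤ Real.exp (a * k) := by
  obtain ⟨K, hK⟩ := exists_nat_ge (12 * C / a ^ 3)
  refine ⟨max K 1, le_max_right _ _, fun k hk => ?_⟩
  have hk1 : 1 ≤ k := (le_max_right _ _).trans hk
  have hkK : K ≤ k := (le_max_left _ _).trans hk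
  have h1 : 12 * C / a ^ 3 ≤ k := hK.trans (by exact_mod_cast hkK)
  rw [div_le_iff₀ (by positivity)] at h1
  have hk1' : (1 : ℝ) ≤ k := by exact_mod_cast hk1
  have h2 := Real.pow_div_factorial_le_exp (x := a * k) (by positivity) 3
  have h3 : ((Nat.factorial 3 : ℕ) : ℝ) = 6 := by norm_num [Nat.factorial]
  rw [h3] at h2
  refine le_trans ?_ h2
  rw [le_div_iff₀ (by norm_num)]
  have h4 : (k : ℝ) ^ 2 + 1 ≤ 2 * (k : ℝ) ^ 2 := by nlinarith
  calc C * ((k : ℝ) ^ 2 + 1) * 6 ≤ C * (2 * (k : ℝ) ^ 2) * 6 := by gcongr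
    _ = (12 * C) * (k : ℝ) ^ 2 := by ring
    _ ≤ (k * a ^ 3) * (k : ℝ) ^ 2 := by gcongr
    _ = (a * k) ^ 3 := by ring

/-- **Counting universality.** -/
theorem universal (θ δ : ℝ) (hθ : 0 < θ) (hδ : 0 < δ) (hδ1 : δ ≤ 1) :
    ∃ c : ℝ, 0 < c ∧ ∃ K : ℕ, ∀ k : ℕ, K ≤ k → ∀ (n : ℕ) (G : SimpleGraph (Fin n)),
      Real.exp (θ * k) ≤ n → G.CliqueFree k → Gᶜ.CliqueFree k →
      ∀ m : ℕ, 1 ≤ m → (m : ℝ) ≤ c * k → ∀ H : SimpleGraph (Fin m),
        (n : ℝ) ^ ((1 - δ) * m) ≤ (Nat.card (H ↪g G) : ℝ) := by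
  obtain ⟨β, hβ0, hβ1, hβ⟩ := numeric (θ / 4) (by positivity)
  obtain ⟨h, hh⟩ := exists_pow_lt_of_lt_one (show (0 : ℝ) < β / 16 by positivity)
    (show (1 / 2 : ℝ) < 1 by norm_num)
  set δ' : ℝ := δ / (8 * (h + 1)) with hδ'
  have hδ'0 : 0 < δ' := by rw [hδ']; positivity
  have hδ'1 : 2 * h * δ' ≤ δ / 4 := by
    rw [hδ']
    have : 2 * (h : ℝ) * (δ / (8 * (h + 1))) = δ / 4 * (h / (h + 1)) := by
      field_simp
      ring
    rw [this]
    have h1 : (h : ℝ) / (h + 1) ≤ 1 := by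
      rw [div_le_one (by positivity)]
      linarith
    nlinarith
  have hδ'2 : δ' ≤ δ / 8 := by
    rw [hδ', div_le_div_iff₀ (by positivity) (by norm_num)]
    have : (0 : ℝ) ≤ h := Nat.cast_nonneg _
    nlinarith
  set ε : ℝ := β / 32 with hε
  have hε0 : 0 < ε := by rw [hε]; positivity
  have hε1 : ε ≤ 1 := by rw [hε]; linarith
  have hlogε : Real.log ε < 0 := Real.log_neg hε0 (by rw [hε]; linarith)
  set c : ℝ := δ' * θ / (2 * (-Real.log ε)) with hc
  have hc0 : 0 < c := by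
    rw [hc]
    have : 0 < 2 * (-Real.log ε) := by linarith
    positivity
  obtain ⟨K1, hK1, hg1⟩ := growth (a := θ * δ / 4) (C := 16 ^ h) (by positivity) (by positivity)
  obtain ⟨K2, hK2, hg2⟩ := growth (a := θ / 4) (C := 16) (by positivity) (by positivity)
  obtain ⟨K3, hK3, hg3⟩ := growth (a := δ' * θ / 2) (C := 4 * c ^ 2) (by positivity)
    (by positivity)
  refine ⟨c, hc0, max K1 (max K2 K3), fun k hk n G hn h1 h2 m hm hmc H => ?_⟩
  have hkK1 : K1 ≤ k := (le_max_left _ _).trans hk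
  have hkK2 : K2 ≤ k := ((le_max_left _ _).trans (le_max_right _ _)).trans hk
  have hkK3 : K3 ≤ k := ((le_max_right _ _).trans (le_max_right _ _)).trans hk
  have g1 := hg1 k hkK1
  have g2 := hg2 k hkK2
  have g3 := hg3 k hkK3
  have hk1 : 1 ≤ k := hK1.trans hkK1
  have hk1' : (1 : ℝ) ≤ k := by exact_mod_cast hk1
  have hn0 : (0 : ℝ) < n := (Real.exp_pos _).trans_le hn
  have hn1 : (1 : ℝ) ≤ n := (Real.one_le_exp (by positivity)).trans hn
  have hlogn : θ * k ≤ Real.log n := by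
    rw [Real.le_log_iff_exp_le hn0]
    exact hn
  -- powers of n
  have hpow : ∀ a : ℝ, 0 ≤ a → Real.exp (a * (θ * k)) ≤ (n : ℝ) ^ a := by
    intro a ha
    rw [Real.rpow_def_of_pos hn0]
    apply Real.exp_le_exp.2
    nlinarith
  set w : ℕ := ⌊β * k⌋₊ with hw
  have hw1 : (w : ℝ) ≤ β * k := Nat.floor_le (by positivity)
  have hw2 : β * k < (w : ℝ) + 1 := Nat.lt_floor_add_one _
  set l : ℕ := 8 * (Mw k w * (k - 1 + w).choose (k - 1)) + 8 * k with hl
  set Q : ℝ := (n : ℝ) ^ δ' with hQ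
  have hQ1 : 1 ≤ Q := Real.one_le_rpow hn1 hδ'0.le
  have hQ0 : 0 < Q := by linarith
  have hQh : (4 * Q) ^ (2 * h) ≤ (n : ℝ) ^ (δ / 2) := by
    have e1 : (4 * Q) ^ (2 * h) = 16 ^ h * (n : ℝ) ^ (2 * h * δ') := by
      rw [mul_pow, pow_mul]
      congr 1
      · norm_num
      · rw [hQ, ← Real.rpow_natCast, ← Real.rpow_mul hn0.le]
        congr 1
        push_cast
        ring
    rw [e1]
    have e2 : (16 : ℝ) ^ h ≤ (n : ℝ) ^ (δ / 4) := by
      calc (16 : ℝ) ^ h ≤ 16 ^ h * ((k : ℝ) ^ 2 + 1) := by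
            have : (0 : ℝ) < 16 ^ h := by positivity
            nlinarith [sq_nonneg (k : ℝ)]
        _ ≤ Real.exp (θ * δ / 4 * k) := g1
        _ = Real.exp (δ / 4 * (θ * k)) := by ring_nf
        _ ≤ _ := hpow _ (by positivity)
    calc (16 : ℝ) ^ h * (n : ℝ) ^ (2 * h * δ') ≤ (n : ℝ) ^ (δ / 4) * (n : ℝ) ^ (δ / 4) := by
          refine mul_le_mul e2 (Real.rpow_le_rpow_of_exponent_le hn1 hδ'1) (by positivity)
            (by positivity)
      _ = (n : ℝ) ^ (δ / 2) := by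
          rw [← Real.rpow_add hn0]
          congr 1
          ring
  set N0 : ℝ := n / (4 * Q) ^ (2 * h) with hN0
  have hN0n : (n : ℝ) ^ (1 - δ / 2) ≤ N0 := by
    rw [hN0, le_div_iff₀ (by positivity)]
    calc (n : ℝ) ^ (1 - δ / 2) * (4 * Q) ^ (2 * h) ≤ (n : ℝ) ^ (1 - δ / 2) * (n : ℝ) ^ (δ / 2) :=
          mul_le_mul_of_nonneg_left hQh (by positivity)
      _ = n := by
          rw [← Real.rpow_add hn0]
          simp
  have hN0l : (l : ℝ) ≤ N0 := by
    refine le_trans ?_ hN0n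
    refine le_trans ?_ (hpow _ (by linarith))
    have e1 := hβ k w hw1
    have e2 : (l : ℝ) ≤ 8 * Real.exp (θ / 4 * k) + 8 * k := by
      rw [hl]
      push_cast at e1 ⊢
      linarith
    refine e2.trans ?_
    have e3 : Real.exp (θ / 4 * k) * Real.exp (θ / 4 * k) ≤ Real.exp ((1 - δ / 2) * (θ * k)) := by
      rw [← Real.exp_add]
      apply Real.exp_le_exp.2
      have : 0 ≤ θ * k := by positivity
      nlinarith
    refine le_trans ?_ e3
    have e4 : 16 + 16 * (k : ℝ) ≤ 16 * ((k : ℝ) ^ 2 + 1) := by nlinarith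
    have e5 : (1 : ℝ) ≤ Real.exp (θ / 4 * k) := Real.one_le_exp (by positivity)
    nlinarith
  obtain ⟨S, hS, hnt⟩ := dich G (w := w) (h := h) (l := l) (ε' := β / 16) (Q := Q) (N0 := N0)
    hk1 h1 h2 hN0l hQ1 (by positivity) le_rfl (by
      have e1 : 1 / (2 : ℝ) ^ h = (1 / 2) ^ h := by rw [one_div, one_div, inv_pow]
      rw [e1]
      have e2 : 8 * (k : ℝ) * ((1 / 2) ^ h + β / 16) ≤ 8 * k * (β / 16 + β / 16) := by
        gcongr
      linarith) (by
      rw [Fintype.card_fin, hN0, div_mul_cancel₀]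
      positivity)
  have hεε : β / 16 / 2 = ε := by rw [hε]; ring
  rw [hεε] at hnt
  -- `ε ^ m`
  have hεm : (n : ℝ) ^ (-(δ' / 2)) ≤ ε ^ m := by
    rw [← Real.rpow_natCast, Real.rpow_def_of_pos hn0, Real.rpow_def_of_pos hε0]
    apply Real.exp_le_exp.2
    have e1 : (m : ℝ) * (2 * (-Real.log ε)) ≤ δ' * θ * k := by
      calc (m : ℝ) * (2 * (-Real.log ε)) ≤ c * k * (2 * (-Real.log ε)) :=
            mul_le_mul_of_nonneg_right hmc (by linarith)
        _ = δ' * θ * k := by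
            have hne : Real.log ε ≠ 0 := hlogε.ne
            rw [hc]
            field_simp
    nlinarith
  have hm4 : 4 * (m : ℝ) ^ 2 ≤ (n : ℝ) ^ (δ' / 2) := by
    calc 4 * (m : ℝ) ^ 2 ≤ 4 * (c * k) ^ 2 := by gcongr
      _ ≤ 4 * c ^ 2 * ((k : ℝ) ^ 2 + 1) := by nlinarith [sq_nonneg c]
      _ ≤ Real.exp (δ' * θ / 2 * k) := g3
      _ = Real.exp (δ' / 2 * (θ * k)) := by ring_nf
      _ ≤ _ := hpow _ (by positivity)
  have hm1 : (1 : ℝ) ≤ m := by exact_mod_cast hm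
  have hSn : (n : ℝ) ^ (1 - δ / 2) ≤ S.card := hN0n.trans hS
  have hcnt := count G hε0 hε1 hQ0 hnt hm (by
    have e1 : (n : ℝ) ^ (δ' / 2) ≤ (n : ℝ) ^ (1 - δ / 2) :=
      Real.rpow_le_rpow_of_exponent_le hn1 (by linarith)
    have e2 : 2 * (m : ℝ) ≤ S.card := by nlinarith
    exact_mod_cast e2) (by
    calc 4 * (m : ℝ) ^ 2 ≤ (n : ℝ) ^ (δ' / 2) := hm4
      _ = (n : ℝ) ^ (-(δ' / 2)) * Q := by
          rw [hQ, ← Real.rpow_add hn0]
          congr 1
          ring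
      _ ≤ ε ^ m * Q := mul_le_mul_of_nonneg_right hεm hQ0.le) H
  refine le_trans ?_ hcnt
  rw [Real.rpow_mul hn0.le, Real.rpow_natCast]
  refine pow_le_pow_left₀ (by positivity) ?_ m
  rw [le_div_iff₀ (by positivity)]
  have e1 : 4 * (m : ℝ) ≤ (n : ℝ) ^ (δ' / 2) := by nlinarith
  calc (n : ℝ) ^ (1 - δ) * (4 * m) ≤ (n : ℝ) ^ (1 - δ) * (n : ℝ) ^ (δ' / 2) :=
        mul_le_mul_of_nonneg_left e1 (by positivity)
    _ = (n : ℝ) ^ (1 - δ + δ' / 2) := by rw [Real.rpow_add hn0]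
    _ ≤ (n : ℝ) ^ (-(δ' / 2) + (1 - δ / 2)) :=
        Real.rpow_le_rpow_of_exponent_le hn1 (by linarith)
    _ = (n : ℝ) ^ (-(δ' / 2)) * (n : ℝ) ^ (1 - δ / 2) := by rw [Real.rpow_add hn0]
    _ ≤ ε ^ m * S.card := mul_le_mul hεm hSn (by positivity) (by positivity)

end Pool.Agent.X79.CU
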