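import Pool.Agent.X79.BC1
import Pool.Agent.X79.CU4

/-!
# Red graphs that are unions of few bicliques: logarithmic form of the upper bound
-/

namespace Pool.Agent.X79.BC

open Finset Classical

set_option linter.unusedSectionVars false

/-- `log (16 k) ≤ η k` for large `k` -/
lemma log_small {η : ℝ} (hη : 0 < η) : ∃ K : ℕ, 1 ≤ K ∧ ∀ k : ℕ, K ≤ k →
    Real.log (16 * k) ≤ η * k := by
  obtain ⟨K, hK1, hK⟩ := CU.growth (a := η) (C := 16) hη (by norm_num)
  refine ⟨K, hK1, fun k hk => ?_⟩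
  have hk1 : (1 : ℝ) ≤ k := by exact_mod_cast hK1.trans hk
  rw [Real.log_le_iff_le_exp (by positivity)]
  refine le_trans ?_ (hK k hk)
  nlinarith

/-- logarithmic form of the upper bound -/
theorem upper_log {n k t : ℕ} (F : SimpleGraph (Fin n)) {β γ : ℝ} (hβ0 : 0 < β)
    (hβ : β ≤ 1 / 2) (hk : 2 ≤ k) (hn : 1 ≤ n) (ht : 1 ≤ t) (hγ : (t : ℝ) ≤ Real.exp (γ * k))
    (h1 : F.CliqueFree k) (h2 : Fᶜ.CliqueFree k) (A B : Fin t → Finset (Fin n))
    (hc : ∀ x y, F.Adj x y ↔ ∃ i, (x ∈ A i ∧ y ∈ B i) ∨ (x ∈ B i ∧ y ∈ A i)) :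
    Real.log n ≤ k * (2 * β + β * Real.log (1 / β) + γ / Real.log 4 * Real.log (4 / β)) +
      (Real.log (1 / β) + Real.log (16 * k) + Real.log (16 * k) / Real.log 4 *
        Real.log (4 / β)) := by
  have hk2 : (2 : ℝ) ≤ k := by exact_mod_cast hk
  have hk0 : (0 : ℝ) < k := by linarith
  have ht0 : (0 : ℝ) < t := by exact_mod_cast ht
  have hn0 : (0 : ℝ) < n := by exact_mod_cast hn
  have hl4 : 0 < Real.log 4 := Real.log_pos (by norm_num)
  have hlβ : 0 ≤ Real.log (1 / β) := Real.log_nonneg (by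
    rw [le_div_iff₀ hβ0]; linarith)
  have hl4β : 0 ≤ Real.log (4 / β) := Real.log_nonneg (by
    rw [le_div_iff₀ hβ0]; linarith)
  set a0 := ⌈β * k⌉₊ with ha0
  have ha1 : 1 ≤ a0 := Nat.one_le_ceil_iff.2 (by positivity)
  have ha2 : β * k ≤ a0 := Nat.le_ceil _
  have ha3 : (a0 : ℝ) < β * k + 1 := Nat.ceil_lt_add_one (by positivity)
  have ha4 : a0 ≤ k := by
    have : (a0 : ℝ) < k + 1 := by nlinarith
    have : a0 < k + 1 := by exact_mod_cast this
    omega
  have ha1' : (1 : ℝ) ≤ a0 := by exact_mod_cast ha1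
  have hup := upper F (by omega : 1 ≤ k) ht ha1 ha4 h1 h2 A B hc
  rw [Fintype.card_fin] at hup
  set Cb : ℝ := (((a0 + (k - 1)).choose a0 : ℕ) : ℝ) with hCb
  have hCb1 : 1 ≤ Cb := by
    rw [hCb]
    have : 0 < (a0 + (k - 1)).choose a0 := Nat.choose_pos (by omega)
    exact_mod_cast this
  -- bound on the binomial coefficient
  have hC2 : Cb ≤ Real.exp (2 * β * k + (β * k + 1) * Real.log (1 / β)) := by
    have e1 := CU.ch_mul_le hβ0 (k := k) (w := a0)
    have e2 : (k - 1 + a0).choose (k - 1) = (a0 + (k - 1)).choose a0 := by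
      rw [add_comm (k - 1) a0, Nat.choose_symm_add]
    rw [e2, ← hCb] at e1
    have e3 : (1 + β) ^ (k - 1 + a0) ≤ Real.exp (2 * β * k) := by
      calc (1 + β) ^ (k - 1 + a0) ≤ (Real.exp β) ^ (k - 1 + a0) := by
            refine pow_le_pow_left₀ (by linarith) ?_ _
            linarith [Real.add_one_le_exp β]
        _ = Real.exp (((k - 1 + a0 : ℕ) : ℝ) * β) := by rw [← Real.exp_nat_mul]
        _ ≤ _ := by
            apply Real.exp_le_exp.2
            have : k - 1 + a0 ≤ 2 * k := by omega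
            have : ((k - 1 + a0 : ℕ) : ℝ) ≤ 2 * k := by exact_mod_cast this
            nlinarith
    have e4 : (1 : ℝ) ≤ β ^ a0 * Real.exp ((β * k + 1) * Real.log (1 / β)) := by
      have e5 : β ^ a0 = Real.exp (-(a0 * Real.log (1 / β))) := by
        rw [one_div, Real.log_inv, ← Real.rpow_natCast, Real.rpow_def_of_pos hβ0]
        congr 1
        ring
      rw [e5, ← Real.exp_add]
      apply Real.one_le_exp
      nlinarith
    calc Cb = Cb * 1 := (mul_one _).symm
      _ ≤ Cb * (β ^ a0 * Real.exp ((β * k + 1) * Real.log (1 / β))) :=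
          mul_le_mul_of_nonneg_left e4 (by linarith)
      _ = (Cb * β ^ a0) * Real.exp ((β * k + 1) * Real.log (1 / β)) := by ring
      _ ≤ Real.exp (2 * β * k) * Real.exp ((β * k + 1) * Real.log (1 / β)) :=
          mul_le_mul_of_nonneg_right (e1.trans e3) (Real.exp_pos _).le
      _ = _ := by rw [← Real.exp_add]
  have hM : (((a0 + (k - 1)).choose a0 + 4 * k : ℕ) : ℝ) ≤
      Real.exp (2 * β * k + (β * k + 1) * Real.log (1 / β)) * (16 * k) := by
    push_cast
    rw [← hCb]
    have e1 : Cb + 4 * k ≤ Cb * (16 * k) := by nlinarith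
    exact e1.trans (mul_le_mul_of_nonneg_right hC2 (by positivity))
  have hP : (4 * (k : ℝ) / a0) ^ (Real.logb 4 ((16 * k * t : ℕ) : ℝ)) ≤
      Real.exp ((γ * k + Real.log (16 * k)) / Real.log 4 * Real.log (4 / β)) := by
    have hq1 : (1 : ℝ) ≤ ((16 * k * t : ℕ) : ℝ) := by
      have : 0 < 16 * k * t := by positivity
      exact_mod_cast this
    have e1 : 4 * (k : ℝ) / a0 ≤ 4 / β := by
      rw [div_le_div_iff₀ (by linarith) hβ0]
      nlinarith
    have e2 : Real.logb 4 ((16 * k * t : ℕ) : ℝ) ≤ (γ * k + Real.log (16 * k)) / Real.log 4 := by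
      unfold Real.logb
      refine div_le_div_of_nonneg_right ?_ hl4.le
      push_cast
      rw [Real.log_mul (by positivity) (by positivity)]
      have : Real.log t ≤ γ * k := by
        rw [Real.log_le_iff_le_exp ht0]
        exact hγ
      linarith
    calc (4 * (k : ℝ) / a0) ^ (Real.logb 4 ((16 * k * t : ℕ) : ℝ))
        ≤ (4 / β) ^ (Real.logb 4 ((16 * k * t : ℕ) : ℝ)) :=
          Real.rpow_le_rpow (by positivity) e1 (Real.logb_nonneg (by norm_num) hq1)
      _ ≤ (4 / β) ^ ((γ * k + Real.log (16 * k)) / Real.log 4) := by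
          refine Real.rpow_le_rpow_of_exponent_le ?_ e2
          rw [le_div_iff₀ hβ0]
          linarith
      _ = _ := by
          rw [Real.rpow_def_of_pos (by positivity)]
          congr 1
          ring
  have hfin : (n : ℝ) ≤ Real.exp (2 * β * k + (β * k + 1) * Real.log (1 / β)) * (16 * k) *
      Real.exp ((γ * k + Real.log (16 * k)) / Real.log 4 * Real.log (4 / β)) := by
    refine hup.trans (mul_le_mul hM hP (by positivity) (by positivity))
  have hlog := Real.log_le_log hn0 hfin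
  rw [Real.log_mul (by positivity) (by positivity), Real.log_mul (by positivity) (by positivity),
    Real.log_exp, Real.log_exp] at hlog
  refine hlog.trans (le_of_eq ?_)
  ring

/-- the error terms -/
lemma err_small (β η : ℝ) (hβ0 : 0 < β) (hβ : β ≤ 1 / 2) (hη : 0 < η) :
    ∃ K : ℕ, 2 ≤ K ∧ ∀ k : ℕ, K ≤ k →
      Real.log (1 / β) + Real.log (16 * k) + Real.log (16 * k) / Real.log 4 *
        Real.log (4 / β) ≤ η * k := by
  have hl4 : 0 < Real.log 4 := Real.log_pos (by norm_num)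
  have hlβ : 0 ≤ Real.log (1 / β) := Real.log_nonneg (by
    rw [le_div_iff₀ hβ0]; linarith)
  have hl4β : 0 ≤ Real.log (4 / β) := Real.log_nonneg (by
    rw [le_div_iff₀ hβ0]; linarith)
  set c : ℝ := 1 + Real.log (4 / β) / Real.log 4 with hc
  have hc1 : 1 ≤ c := by
    have : 0 ≤ Real.log (4 / β) / Real.log 4 := by positivity
    linarith
  obtain ⟨K1, hK1, h1⟩ := log_small (η := η / (2 * c)) (by positivity)
  obtain ⟨K2, hK2⟩ := exists_nat_ge (2 * Real.log (1 / β) / η)
  refine ⟨max 2 (max K1 K2), le_max_left _ _, fun k hk => ?_⟩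
  have hk1 : K1 ≤ k := ((le_max_left _ _).trans (le_max_right _ _)).trans hk
  have hk2 : K2 ≤ k := ((le_max_right _ _).trans (le_max_right _ _)).trans hk
  have e1 := h1 k hk1
  have e2 : 2 * Real.log (1 / β) / η ≤ k := hK2.trans (by exact_mod_cast hk2)
  rw [div_le_iff₀ hη] at e2
  have e3 : Real.log (16 * k) + Real.log (16 * k) / Real.log 4 * Real.log (4 / β) =
      c * Real.log (16 * k) := by
    rw [hc]
    field_simp
  have e4 : c * Real.log (16 * k) ≤ η / 2 * k := by
    calc c * Real.log (16 * k) ≤ c * (η / (2 * c) * k) :=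
          mul_le_mul_of_nonneg_left e1 (by linarith)
      _ = η / 2 * k := by field_simp
  linarith

/-- **Upper bound for the growth rate.** -/
theorem rate_upper (ε : ℝ) (hε : 0 < ε) : ∃ γ₀ : ℝ, 0 < γ₀ ∧ ∀ γ : ℝ, 0 < γ → γ < γ₀ →
    ∃ K : ℕ, ∀ k : ℕ, K ≤ k → ∀ (n t : ℕ) (F : SimpleGraph (Fin n))
      (A B : Fin t → Finset (Fin n)), 1 ≤ n → 1 ≤ t → (t : ℝ) ≤ Real.exp (γ * k) →
      F.CliqueFree k → Fᶜ.CliqueFree k →
      (∀ x y, F.Adj x y ↔ ∃ i, (x ∈ A i ∧ y ∈ B i) ∨ (x ∈ B i ∧ y ∈ A i)) →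
      Real.log n ≤ (1 + ε) * (γ / 2 * Real.logb 2 (1 / γ)) * k := by
  -- `λ ≥ Λ`
  set Λ : ℝ := max 4 ((40 / ε) ^ 2) with hΛ
  have hΛ4 : 4 ≤ Λ := le_max_left _ _
  refine ⟨(2 : ℝ) ^ (-Λ), by positivity, fun γ hγ0 hγ => ?_⟩
  have hl2 : 0 < Real.log 2 := Real.log_pos (by norm_num)
  have hl2a := Real.log_two_gt_d9
  have hl2b := Real.log_two_lt_d9
  set lam : ℝ := Real.logb 2 (1 / γ) with hlam
  have hlamΛ : Λ < lam := by
    rw [hlam, one_div, Real.logb_inv]
    have := Real.logb_lt_logb (b := 2) (by norm_num) hγ0 hγ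
    rw [Real.logb_rpow (by norm_num) (by norm_num)] at this
    linarith
  have hlam4 : 4 < lam := hΛ4.trans_lt hlamΛ
  have hlam0 : 0 < lam := by linarith
  have hlog : Real.log (1 / γ) = lam * Real.log 2 := by
    rw [hlam]
    unfold Real.logb
    field_simp
  have hγ16 : γ < 1 / 16 := by
    refine hγ.trans_le ?_
    calc (2 : ℝ) ^ (-Λ) ≤ (2 : ℝ) ^ (-4 : ℝ) :=
          Real.rpow_le_rpow_of_exponent_le (by norm_num) (by linarith)
      _ = 1 / 16 := by
          rw [show (-4 : ℝ) = ((-4 : ℤ) : ℝ) by norm_num, Real.rpow_intCast]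
          norm_num
  set β : ℝ := γ / lam with hβ
  have hβ0 : 0 < β := by positivity
  have hβ2 : β ≤ 1 / 2 := by
    rw [hβ, div_le_iff₀ hlam0]
    linarith
  set η : ℝ := ε * γ * lam / 8 with hη
  have hη0 : 0 < η := by positivity
  obtain ⟨K, hK2, hK⟩ := err_small β η hβ0 hβ2 hη0
  refine ⟨K, fun k hk n t F A B hn ht hγk h1 h2 hc => ?_⟩
  have h3 := upper_log F hβ0 hβ2 (hK2.trans hk) hn ht hγk h1 h2 A B hc
  have h4 := hK k hk
  have hk0 : (0 : ℝ) ≤ k := Nat.cast_nonneg _
  refine h3.trans ?_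
  -- the main terms
  set sl : ℝ := Real.sqrt lam with hsl
  have hsl0 : 0 < sl := Real.sqrt_pos.2 hlam0
  have hsl2 : sl * sl = lam := Real.mul_self_sqrt hlam0.le
  have hloglam : Real.log lam ≤ 2 * sl := by
    have e1 : Real.log lam = 2 * Real.log sl := by
      rw [← hsl2, Real.log_mul hsl0.ne' hsl0.ne']
      ring
    have e2 := Real.log_le_sub_one_of_pos hsl0
    linarith
  have hloglam0 : 0 ≤ Real.log lam := Real.log_nonneg (by linarith)
  have hlogβ : Real.log (1 / β) = lam * Real.log 2 + Real.log lam := by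
    rw [hβ, one_div_div, Real.log_div hlam0.ne' hγ0.ne', ← hlog, one_div, Real.log_inv]
    ring
  have hlog4β : Real.log (4 / β) = 2 * Real.log 2 + lam * Real.log 2 + Real.log lam := by
    have e1 : 4 / β = 2 * 2 * (1 / β) := by ring
    rw [e1, Real.log_mul (by norm_num) (by positivity), Real.log_mul (by norm_num) (by norm_num),
      hlogβ]
    ring
  have hlog4 : Real.log 4 = 2 * Real.log 2 := by
    rw [show (4 : ℝ) = 2 * 2 by norm_num, Real.log_mul (by norm_num) (by norm_num)]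
    ring
  have hsl40 : 40 ≤ ε * sl := by
    have e1 : (40 / ε) ^ 2 ≤ sl ^ 2 := by
      rw [sq sl, hsl2]
      exact ((le_max_right _ _).trans_eq hΛ.symm).trans hlamΛ.le
    have e2 : 40 / ε ≤ sl := le_of_sq_le_sq e1 hsl0.le
    rw [div_le_iff₀ hε] at e2
    linarith
  have hsl2' : 2 ≤ sl := by nlinarith
  have hmain : 2 * β + β * Real.log (1 / β) + γ / Real.log 4 * Real.log (4 / β) ≤
      (1 + ε / 2) * (γ / 2 * lam) := by
    rw [hlogβ, hlog4β, hlog4]
    have hβlam : β * lam = γ := by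
      rw [hβ]
      field_simp
    have e1 : 2 * β + β * (lam * Real.log 2 + Real.log lam) ≤ γ * (3 + sl) := by
      have e2 : β ≤ γ := by
        rw [hβ, div_le_iff₀ hlam0]
        nlinarith
      have e3 : β * (lam * Real.log 2) = γ * Real.log 2 := by
        rw [← mul_assoc, hβlam]
      have e4 : β * Real.log lam ≤ γ * sl := by
        have e5 : Real.log lam ≤ lam * sl := by nlinarith
        calc β * Real.log lam ≤ β * (lam * sl) := mul_le_mul_of_nonneg_left e5 hβ0.le
          _ = γ * sl := by rw [← mul_assoc, hβlam]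
      nlinarith
    have e6 : γ / (2 * Real.log 2) * (2 * Real.log 2 + lam * Real.log 2 + Real.log lam) ≤
        γ * (1 + 2 * sl) + γ / 2 * lam := by
      have e7 : γ / (2 * Real.log 2) * (2 * Real.log 2 + lam * Real.log 2 + Real.log lam) =
          γ + γ / 2 * lam + γ * (Real.log lam / (2 * Real.log 2)) := by
        field_simp
      rw [e7]
      have e8 : Real.log lam / (2 * Real.log 2) ≤ 2 * sl := by
        rw [div_le_iff₀ (by positivity)]
        nlinarith
      have e9 := mul_le_mul_of_nonneg_left e8 hγ0.le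
      linarith
    have e10 : γ * (3 + sl) + (γ * (1 + 2 * sl)) ≤ ε / 2 * (γ / 2 * lam) := by
      rw [← hsl2]
      have e11 : 4 + 3 * sl ≤ ε / 4 * (sl * sl) := by nlinarith
      nlinarith
    linarith
  have h5 := mul_le_mul_of_nonneg_left hmain hk0
  have h6 : η * k = ε / 4 * (γ / 2 * lam) * k := by
    rw [hη]
    ring
  have h7 : 0 ≤ ε / 4 * (γ / 2 * lam) * k := by positivity
  nlinarith

end Pool.Agent.X79.BC
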