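import Pool.Agent.X79.BC6

/-!
# Random unions of bicliques: parameters
-/

namespace Pool.Agent.X79.BC

open Finset Classical

set_option linter.unusedSectionVars false

lemma growth3 {a C : ℝ} (ha : 0 < a) (hC : 0 ≤ C) : ∃ K : ℕ, 1 ≤ K ∧ ∀ k : ℕ, K ≤ k →
    C * (k : ℝ) ^ 3 ≤ Real.exp (a * k) := by
  obtain ⟨K, hK⟩ := exists_nat_ge (24 * C / a ^ 4)
  refine ⟨max K 1, le_max_right _ _, fun k hk => ?_⟩
  have hk1 : 1 ≤ k := (le_max_right _ _).trans hk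
  have hkK : K ≤ k := (le_max_left _ _).trans hk
  have h1 : 24 * C / a ^ 4 ≤ k := hK.trans (by exact_mod_cast hkK)
  rw [div_le_iff₀ (by positivity)] at h1
  have hk0 : (0 : ℝ) ≤ k := Nat.cast_nonneg _
  have h2 := Real.pow_div_factorial_le_exp (x := a * k) (by positivity) 4
  have h3 : ((Nat.factorial 4 : ℕ) : ℝ) = 24 := by norm_num [Nat.factorial]
  rw [h3] at h2
  refine le_trans ?_ h2
  rw [le_div_iff₀ (by norm_num)]
  calc C * (k : ℝ) ^ 3 * 24 = (24 * C) * (k : ℝ) ^ 3 := by ring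
    _ ≤ (k * a ^ 4) * (k : ℝ) ^ 3 := by gcongr
    _ = (a * k) ^ 4 := by ring

lemma a1 {k : ℝ} (hk : 3 ≤ k) : k ≤ k ^ 3 := by
  have h1 : 1 ≤ k ^ 2 := by nlinarith
  calc k = k * 1 := (mul_one _).symm
    _ ≤ k * k ^ 2 := by gcongr
    _ = k ^ 3 := by ring

lemma a2 {k s : ℝ} (hk : 3 ≤ k) (hs : 1 ≤ s) : k ≤ 16 * k ^ 3 * s := by
  have h1 := a1 hk
  have h2 : 0 ≤ k ^ 3 := by positivity
  have h3 : k ^ 3 * 1 ≤ k ^ 3 * s := mul_le_mul_of_nonneg_left hs h2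
  have h4 : 0 ≤ k ^ 3 * s := by positivity
  linarith

lemma a3 {θ k : ℝ} (h : 6 ≤ k * θ) (hk : 3 ≤ k) : 6 * k ≤ θ * k ^ 2 := by
  calc 6 * k ≤ (k * θ) * k := by gcongr
    _ = θ * k ^ 2 := by ring

lemma a4 {θ k q : ℝ} (h : 6 ≤ k * θ) (hk : 3 ≤ k) (hθ : 0 < θ) (hkq : k ≤ q) :
    2 ≤ 8 * θ * q ^ 2 := by
  have h1 := a3 h hk
  have h2 : k ^ 2 ≤ q ^ 2 := pow_le_pow_left₀ (by linarith) hkq 2
  have h3 : θ * k ^ 2 ≤ θ * q ^ 2 := mul_le_mul_of_nonneg_left h2 hθ.le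
  linarith

lemma a5 {E N : ℝ} (h1 : 1 ≤ E) (h2 : N < E + 1) : N ≤ E * Real.exp 1 := by
  have h3 := Real.exp_one_gt_d9
  have h4 : E * 2 ≤ E * Real.exp 1 := mul_le_mul_of_nonneg_left (by linarith) (by linarith)
  linarith

lemma a6 {θ q : ℝ} (hθ : 96 * θ ≤ 1) : 8 * θ * q ^ 2 ≤ q ^ 2 := by
  have : 8 * θ * q ^ 2 ≤ 1 * q ^ 2 := mul_le_mul_of_nonneg_right (by linarith) (sq_nonneg q)
  linarith

lemma a7 {ε k r : ℝ} (hε : 0 < ε) (hk : 0 < k) (hr : r < (1 - ε / 16) * k + 1) : r < k + 1 := by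
  have : 0 < ε / 16 * k := by positivity
  have : (1 - ε / 16) * k = k - ε / 16 * k := by ring
  linarith

lemma a8 {ε : ℝ} (hε : 0 < ε) : (1 + ε / 16) * (1 - ε / 2) ≤ (1 - ε / 4) * (1 - ε / 16) := by
  nlinarith [sq_nonneg ε]

lemma a9 {ε k r : ℝ} (h4 : 64 ≤ k * ε) (hr : r < (1 - ε / 16) * k + 1) : ε / 32 * k ≤ k - r := by
  linarith

lemma a10 {ε γ lam : ℝ} (hε0 : 0 < ε) (hε1 : ε < 1) (hγ0 : 0 < γ) (hlam : 1 ≤ lam) :
    (1 - ε) * (γ / 2 * lam) + ε * γ * lam / 8 ≤ (γ / 2 - ε * γ / 16) * ((1 - ε / 2) * lam) := by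
  have h1 : 0 < ε * γ * lam := by positivity
  have h2 : 0 < ε * (ε * γ * lam) := by positivity
  have h3 : (γ / 2 - ε * γ / 16) * ((1 - ε / 2) * lam) - ((1 - ε) * (γ / 2 * lam) +
      ε * γ * lam / 8) = 1 / 16 * (ε * γ * lam) + 1 / 32 * (ε * (ε * γ * lam)) := by ring
  linarith

lemma a11 {c k : ℝ} (h : 32 ≤ k * c) (hk : 3 ≤ k) : k + 4 ≤ c / 8 * k ^ 2 := by
  have h1 : 32 * k ≤ (k * c) * k := by gcongr
  have h2 : (k * c) * k = 8 * (c / 8 * k ^ 2) := by ring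
  linarith

lemma a12 : (9 : ℝ) < Real.exp 4 := by
  have e9 := Real.exp_one_gt_d9
  have e10 : Real.exp 4 = (Real.exp 1 * Real.exp 1) * (Real.exp 1 * Real.exp 1) := by
    rw [← Real.exp_add, ← Real.exp_add]; norm_num
  rw [e10]
  have e11 : 4 < Real.exp 1 * Real.exp 1 := by nlinarith
  nlinarith

lemma a13 : Real.exp (-2) < (1 : ℝ) / 3 := by
  have e1 := Real.exp_one_gt_d9
  have e2 : Real.exp (-2) * Real.exp 2 = 1 := by rw [← Real.exp_add]; simp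
  have e3 : Real.exp 2 = Real.exp 1 * Real.exp 1 := by rw [← Real.exp_add]; norm_num
  have e4 : 4 < Real.exp 2 := by rw [e3]; nlinarith
  by_contra hcon
  push Not at hcon
  nlinarith

lemma a14 : (1 : ℝ) / 3 ≤ Real.exp (-1) := by
  have e3 := Real.exp_one_lt_d9
  have e4 : Real.exp (-1) * Real.exp 1 = 1 := by rw [← Real.exp_add]; simp
  by_contra hcon
  push Not at hcon
  nlinarith [Real.exp_pos (-1 : ℝ)]

lemma a15 {θ k : ℝ} (hθ : 96 * θ ≤ 1) (hk : 3 ≤ k) (h : 6 * k ≤ θ * k ^ 2) :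
    θ * k ^ 2 + k + -(2 * θ * (k * (k - 1))) ≤ -2 := by
  have h1 : 2 * θ * k ≤ 1 * k := mul_le_mul_of_nonneg_right (by linarith) (by linarith)
  have h2 : θ * k ^ 2 + k + -(2 * θ * (k * (k - 1))) = -(θ * k ^ 2) + k + 2 * θ * k := by ring
  linarith

lemma a16 {a b e : ℝ} (h1 : a * e ≤ b) (he : 9 < e) (ha : 0 < a) : a * 3 < 1 / 3 * b := by
  nlinarith

/-- the main estimate, with all conditions on the parameters explicit -/
theorem lower_aux {ε γ lam : ℝ} (hε0 : 0 < ε) (hε1 : ε < 1) (hγ0 : 0 < γ) (hlam1 : 1 ≤ lam)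
    (hlam : (2 : ℝ) ^ (-lam) = γ) (hsmall : 4 * lam * γ ^ (ε / 4) < ε ^ 2 / 2048)
    (hθ' : 48 * (γ * lam) ≤ 1) :
    ∃ K : ℕ, ∀ k : ℕ, K ≤ k → ∃ (n t Q : ℕ) (x : Fin t → Fin n → Fin Q), 1 ≤ t ∧
      (t : ℝ) ≤ Real.exp (γ * k) ∧ (Gx x).CliqueFree k ∧ (Gx x)ᶜ.CliqueFree k ∧
      Real.exp ((1 - ε) * (γ / 2 * lam) * k) ≤ n := by
  set θ : ℝ := (1 - ε) * (γ / 2 * lam) with hθ
  have hε1' : 0 < 1 - ε := by linarith
  have hθ0 : 0 < θ := by rw [hθ]; positivity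
  have hθ96 : 96 * θ ≤ 1 := by
    rw [hθ]
    have : (1 - ε) * (γ / 2 * lam) ≤ γ / 2 * lam := by nlinarith [mul_pos hγ0 (by linarith : 0 < lam)]
    linarith
  set μ : ℝ := (1 - ε / 2) * lam with hμ
  set ν : ℝ := (1 - ε / 4) * lam with hν
  have hμ0 : 0 < μ := by rw [hμ]; nlinarith
  have hν0 : 0 < ν := by rw [hν]; nlinarith
  set D : ℕ := ⌈ν⌉₊ with hD
  have hD1 : ν ≤ D := Nat.le_ceil _
  have hD2 : (D : ℝ) < ν + 1 := Nat.ceil_lt_add_one hν0.le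
  set m0 : ℕ := ⌈32 / ε⌉₊ + 2 with hm0
  have hm0a : 32 / ε ≤ (⌈32 / ε⌉₊ : ℝ) := Nat.le_ceil _
  have hm03 : 3 ≤ m0 := by
    have h1 : (1 : ℝ) ≤ 32 / ε := by rw [le_div_iff₀ hε0]; linarith
    have h2 : 1 ≤ ⌈32 / ε⌉₊ := by
      have : (1 : ℝ) ≤ (⌈32 / ε⌉₊ : ℝ) := h1.trans hm0a
      exact_mod_cast this
    omega
  -- `2 ^ D`
  have h2D : (2 : ℝ) ^ D * (4 * θ) ≤ ε ^ 2 / 2048 := by
    have e1 : (2 : ℝ) ^ D ≤ 2 * (2 : ℝ) ^ ν := by
      rw [← Real.rpow_natCast]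
      calc (2 : ℝ) ^ (D : ℝ) ≤ (2 : ℝ) ^ (ν + 1) :=
            Real.rpow_le_rpow_of_exponent_le (by norm_num) hD2.le
        _ = 2 * (2 : ℝ) ^ ν := by rw [Real.rpow_add (by norm_num), Real.rpow_one, mul_comm]
    have e2 : (2 : ℝ) ^ ν * γ = γ ^ (ε / 4) := by
      rw [← hlam, ← Real.rpow_mul (by norm_num), ← Real.rpow_add (by norm_num), hν]
      congr 1
      ring
    calc (2 : ℝ) ^ D * (4 * θ) ≤ (2 * (2 : ℝ) ^ ν) * (4 * θ) := by gcongr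
      _ ≤ (2 * (2 : ℝ) ^ ν) * (4 * (γ / 2 * lam)) := by
          have : θ ≤ γ / 2 * lam := by
            rw [hθ]
            nlinarith [mul_pos hγ0 (by linarith : 0 < lam)]
          gcongr
      _ = 4 * lam * ((2 : ℝ) ^ ν * γ) := by ring
      _ = 4 * lam * γ ^ (ε / 4) := by rw [e2]
      _ ≤ _ := hsmall.le
  set a : ℝ := ε * γ / 16 with ha
  have ha0 : 0 < a := by positivity
  obtain ⟨K1, -, g1⟩ := growth3 (a := a) (C := 32) ha0 (by norm_num)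
  obtain ⟨K2, -, g2⟩ := growth3 (a := γ / 2) (C := 16) (by positivity) (by norm_num)
  obtain ⟨K3, -, g3⟩ := growth3 (a := θ) (C := 1) hθ0 (by norm_num)
  obtain ⟨K4, hK4⟩ := exists_nat_ge (64 / ε)
  obtain ⟨K5, hK5⟩ := exists_nat_gt ((2 : ℝ) ^ D * (1 + 2 * (m0 : ℝ) ^ 2 * μ) * 2048 / ε ^ 2)
  obtain ⟨K6, hK6⟩ := exists_nat_ge (6 / θ)
  obtain ⟨K7, hK7⟩ := exists_nat_ge (32 / (ε * γ * lam))
  refine ⟨max (max (max K1 K2) (max K3 K4)) (max (max K5 K6) (max K7 3)), fun k hk => ?_⟩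
  have hk1 : K1 ≤ k := by omega
  have hk2 : K2 ≤ k := by omega
  have hk3 : K3 ≤ k := by omega
  have hk4 : K4 ≤ k := by omega
  have hk5 : K5 ≤ k := by omega
  have hk6 : K6 ≤ k := by omega
  have hk7 : K7 ≤ k := by omega
  have hk8 : 3 ≤ k := by omega
  have hk8' : (3 : ℝ) ≤ k := by exact_mod_cast hk8
  have hk0 : (0 : ℝ) < k := by linarith
  have c1 := g1 k hk1
  have c2 := g2 k hk2
  have c3 := g3 k hk3
  have c4 : 64 / ε ≤ k := hK4.trans (by exact_mod_cast hk4)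
  have c5 : (2 : ℝ) ^ D * (1 + 2 * (m0 : ℝ) ^ 2 * μ) * 2048 / ε ^ 2 < k :=
    hK5.trans_le (by exact_mod_cast hk5)
  have c6 : 6 / θ ≤ k := hK6.trans (by exact_mod_cast hk6)
  have c7 : 32 / (ε * γ * lam) ≤ k := hK7.trans (by exact_mod_cast hk7)
  rw [div_le_iff₀ hε0] at c4
  rw [div_lt_iff₀ (by positivity)] at c5
  rw [div_le_iff₀ hθ0] at c6
  rw [div_le_iff₀ (by positivity)] at c7
  -- the numbers
  set s : ℕ := ⌊Real.exp (γ / 2 * k) / (16 * (k : ℝ) ^ 3)⌋₊ with hs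
  have hk3pos : (0 : ℝ) < 16 * (k : ℝ) ^ 3 := by positivity
  have hsr1 : (1 : ℝ) ≤ Real.exp (γ / 2 * k) / (16 * (k : ℝ) ^ 3) := by
    rw [le_div_iff₀ hk3pos, one_mul]
    exact c2
  have hs1 : 1 ≤ s := Nat.one_le_floor_iff _ |>.2 hsr1
  have hs2 : (s : ℝ) ≤ Real.exp (γ / 2 * k) / (16 * (k : ℝ) ^ 3) := Nat.floor_le (by positivity)
  have hs3 : Real.exp (γ / 2 * k) / (16 * (k : ℝ) ^ 3) < s + 1 := Nat.lt_floor_add_one _
  have hs1' : (1 : ℝ) ≤ s := by exact_mod_cast hs1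
  have hs4 : Real.exp ((γ / 2 - a) * k) ≤ s := by
    have e1 : Real.exp (γ / 2 * k) / (32 * (k : ℝ) ^ 3) ≤ s := by
      have : Real.exp (γ / 2 * k) / (16 * (k : ℝ) ^ 3) ≤ 2 * s := by linarith
      have e2 : Real.exp (γ / 2 * k) / (32 * (k : ℝ) ^ 3) =
          Real.exp (γ / 2 * k) / (16 * (k : ℝ) ^ 3) / 2 := by
        field_simp
        norm_num
      rw [e2]
      linarith
    refine le_trans ?_ e1
    rw [le_div_iff₀ (by positivity)]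
    calc Real.exp ((γ / 2 - a) * k) * (32 * (k : ℝ) ^ 3) ≤
          Real.exp ((γ / 2 - a) * k) * Real.exp (a * k) :=
          mul_le_mul_of_nonneg_left c1 (Real.exp_pos _).le
      _ = Real.exp (γ / 2 * k) := by
          rw [← Real.exp_add]
          congr 1
          ring
  obtain ⟨Q, hQ⟩ : ∃ Q, 16 * k ^ 3 * s = Q + 2 := by
    refine ⟨16 * k ^ 3 * s - 2, ?_⟩
    have : 1 ≤ k ^ 3 * s := by
      have : 0 < k ^ 3 * s := by positivity
      omega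
    have e : 16 * k ^ 3 * s = 16 * (k ^ 3 * s) := by ring
    omega
  set q : ℝ := ((Q + 2 : ℕ) : ℝ) with hq
  have hqe : q = 16 * (k : ℝ) ^ 3 * s := by
    rw [hq, ← hQ]
    push_cast
    ring
  have hq0 : 0 < q := by rw [hqe]; positivity
  have hqle : q ≤ Real.exp (γ / 2 * k) := by
    rw [hqe]
    calc 16 * (k : ℝ) ^ 3 * s ≤ 16 * (k : ℝ) ^ 3 * (Real.exp (γ / 2 * k) / (16 * (k : ℝ) ^ 3)) :=
          mul_le_mul_of_nonneg_left hs2 hk3pos.le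
      _ = _ := by field_simp
  have hqk : (k : ℝ) ≤ q := by
    rw [hqe]
    exact a2 hk8' hs1'
  set t : ℕ := ⌊8 * θ * q ^ 2⌋₊ with ht
  have ht1 : (t : ℝ) ≤ 8 * θ * q ^ 2 := Nat.floor_le (by positivity)
  have ht2 : 8 * θ * q ^ 2 < t + 1 := Nat.lt_floor_add_one _
  have hθq : 2 ≤ 8 * θ * q ^ 2 := a4 c6 hk8' hθ0 hqk
  have htq : (t : ℝ) ≤ q ^ 2 := ht1.trans (a6 hθ96)
  have ht3 : 4 * θ * q ^ 2 ≤ t := by linarith
  have ht4 : 1 ≤ t := by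
    have : (1 : ℝ) ≤ t := by linarith
    exact_mod_cast this
  have ht5 : t ≤ (Q + 2) ^ 2 := by
    have := htq
    rw [hq] at this
    exact_mod_cast this
  have ht6 : (t : ℝ) ≤ Real.exp (γ * k) := by
    have e2 : q ^ 2 ≤ Real.exp (γ / 2 * k) ^ 2 := pow_le_pow_left₀ hq0.le hqle 2
    have e3 : Real.exp (γ / 2 * k) ^ 2 = Real.exp (γ * k) := by
      rw [← Real.exp_nat_mul]
      congr 1
      push_cast
      ring
    linarith
  set n : ℕ := ⌈Real.exp (θ * k)⌉₊ with hn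
  have hn1 : Real.exp (θ * k) ≤ n := Nat.le_ceil _
  have hn2 : (n : ℝ) < Real.exp (θ * k) + 1 := Nat.ceil_lt_add_one (Real.exp_pos _).le
  have hexp1 : 1 ≤ Real.exp (θ * k) := Real.one_le_exp (by positivity)
  have hkn : k ≤ n := by
    have e1 : (k : ℝ) ≤ (k : ℝ) ^ 3 := a1 hk8'
    have : (k : ℝ) ≤ n := by linarith
    exact_mod_cast this
  have hnk : (n : ℝ) ^ k ≤ Real.exp (θ * k ^ 2 + k) := by
    have e1 : (n : ℝ) ≤ Real.exp (θ * k + 1) := by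
      rw [Real.exp_add]
      exact a5 hexp1 hn2
    calc (n : ℝ) ^ k ≤ (Real.exp (θ * k + 1)) ^ k := pow_le_pow_left₀ (Nat.cast_nonneg _) e1 _
      _ = Real.exp (k * (θ * k + 1)) := by rw [← Real.exp_nat_mul]
      _ = _ := by congr 1; ring
  set x0 : ℕ := ⌊μ * k⌋₊ with hx0
  have hx01 : (x0 : ℝ) ≤ μ * k := Nat.floor_le (by positivity)
  have hx02 : μ * k < x0 + 1 := Nat.lt_floor_add_one _
  set r : ℕ := ⌈(1 - ε / 16) * k⌉₊ with hr
  have hr1 : (1 - ε / 16) * k ≤ r := Nat.le_ceil _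
  have hr2 : (r : ℝ) < (1 - ε / 16) * k + 1 := Nat.ceil_lt_add_one (by
    have : 0 < 1 - ε / 16 := by linarith
    positivity)
  have hrle : r ≤ k := by
    have : (r : ℝ) < k + 1 := a7 hε0 hk0 hr2
    have : r < k + 1 := by exact_mod_cast this
    omega
  set u0 : ℕ := ⌊2 * θ * (k : ℝ) ^ 2⌋₊ with hu0
  have hu01 : (u0 : ℝ) ≤ 2 * θ * (k : ℝ) ^ 2 := Nat.floor_le (by positivity)
  have hu02 : 2 * θ * (k : ℝ) ^ 2 < u0 + 1 := Nat.lt_floor_add_one _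
  have hθk2 : 6 * (k : ℝ) ≤ θ * (k : ℝ) ^ 2 := a3 c6 hk8'
  -- the unseparated pairs
  have hcond : m0 * x0 ≤ (m0 - 2) * ((D + 1) * r) := by
    have e0 : m0 - 2 = ⌈32 / ε⌉₊ := by omega
    have e1 : (m0 : ℝ) = ⌈32 / ε⌉₊ + 2 := by rw [hm0]; push_cast; ring
    set M : ℝ := (⌈32 / ε⌉₊ : ℝ) with hM
    have hMpos : 0 < M := lt_of_lt_of_le (by positivity) hm0a
    have e2 : (m0 : ℝ) ≤ (1 + ε / 16) * M := by
      rw [e1]
      have : 32 ≤ M * ε := by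
        have := mul_le_mul_of_nonneg_right hm0a hε0.le
        rwa [div_mul_cancel₀ _ hε0.ne'] at this
      linarith
    have e3 : (m0 : ℝ) * x0 ≤ M * ((D + 1) * r) := by
      calc (m0 : ℝ) * x0 ≤ ((1 + ε / 16) * M) * (μ * k) :=
            mul_le_mul e2 hx01 (Nat.cast_nonneg _) (by positivity)
        _ = M * (((1 + ε / 16) * (1 - ε / 2)) * (lam * k)) := by rw [hμ]; ring
        _ ≤ M * (((1 - ε / 4) * (1 - ε / 16)) * (lam * k)) := by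
            have h5 : 0 ≤ lam * (k : ℝ) := by positivity
            have h6 : ((1 + ε / 16) * (1 - ε / 2)) * (lam * k) ≤
                ((1 - ε / 4) * (1 - ε / 16)) * (lam * k) :=
              mul_le_mul_of_nonneg_right (a8 hε0) h5
            exact mul_le_mul_of_nonneg_left h6 hMpos.le
        _ = M * (ν * ((1 - ε / 16) * k)) := by rw [hν]; ring
        _ ≤ M * ((D + 1) * r) := by
            have h5 : 0 < 1 - ε / 16 := by linarith
            have h6 : ν * ((1 - ε / 16) * k) ≤ (D + 1) * r :=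
              mul_le_mul (by linarith) hr1 (by positivity) (by positivity)
            exact mul_le_mul_of_nonneg_left h6 hMpos.le
    rw [e0]
    rw [hM] at e3
    exact_mod_cast e3
  have hU : ∀ y : Fin t → Fin k → Fin (Q + 2), Xc y ≤ x0 → u0 ≤ (Un y).card := by
    intro y hy
    by_contra hlt
    push Not at hlt
    have h5 := many_unsep y hm03 hy hcond
    have h5' : ((k : ℝ) - r) ^ 2 ≤ (2 : ℝ) ^ D * (2 * (Un y).card + k + 2 * (m0 : ℝ) ^ 2 * x0) := by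
      have e : ((k - r : ℕ) : ℝ) = (k : ℝ) - r := Nat.cast_sub hrle
      rw [← e]
      exact_mod_cast h5
    have h6 : ((Un y).card : ℝ) ≤ 2 * θ * (k : ℝ) ^ 2 := by
      have : ((Un y).card : ℝ) ≤ u0 := by exact_mod_cast hlt.le
      linarith
    have h7 : ε / 32 * k ≤ (k : ℝ) - r := a9 c4 hr2
    have h8 : (ε / 32 * k) ^ 2 ≤ ((k : ℝ) - r) ^ 2 := by
      apply pow_le_pow_left₀ (by positivity) h7
    have h9 : (2 : ℝ) ^ D * (2 * (Un y).card + k + 2 * (m0 : ℝ) ^ 2 * x0) ≤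
        (2 : ℝ) ^ D * (4 * θ) * (k : ℝ) ^ 2 + (2 : ℝ) ^ D * (1 + 2 * (m0 : ℝ) ^ 2 * μ) * k := by
      have e1 : 2 * ((Un y).card : ℝ) + k + 2 * (m0 : ℝ) ^ 2 * x0 ≤
          4 * θ * (k : ℝ) ^ 2 + (1 + 2 * (m0 : ℝ) ^ 2 * μ) * k := by
        have e2 : 2 * (m0 : ℝ) ^ 2 * x0 ≤ 2 * (m0 : ℝ) ^ 2 * (μ * k) := by gcongr
        linarith
      calc _ ≤ (2 : ℝ) ^ D * (4 * θ * (k : ℝ) ^ 2 + (1 + 2 * (m0 : ℝ) ^ 2 * μ) * k) := by gcongr
        _ = _ := by ring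
    have h10 : (2 : ℝ) ^ D * (4 * θ) * (k : ℝ) ^ 2 ≤ ε ^ 2 / 2048 * (k : ℝ) ^ 2 := by gcongr
    have h11 : (2 : ℝ) ^ D * (1 + 2 * (m0 : ℝ) ^ 2 * μ) * k < ε ^ 2 / 2048 * (k : ℝ) ^ 2 := by
      have e1 : (2 : ℝ) ^ D * (1 + 2 * (m0 : ℝ) ^ 2 * μ) < ε ^ 2 / 2048 * k := by linarith
      calc _ < (ε ^ 2 / 2048 * k) * k := mul_lt_mul_of_pos_right e1 hk0
        _ = _ := by ring
    have h12 : (ε / 32 * k) ^ 2 = ε ^ 2 / 1024 * (k : ℝ) ^ 2 := by ring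
    linarith
  have hlog3 := a13
  have ha2 : 0 < γ / 2 - a := by
    have : ε * γ < 1 * γ := mul_lt_mul_of_pos_right hε1 hγ0
    rw [ha]
    linarith
  obtain ⟨x, hx1, hx2⟩ := exists_real (n := n) (k := k) (Q := Q) (t := t) (s := s) (x0 := x0)
    (u0 := u0) hkn hk8 hs1 ht4 hQ.le ht5 hU (by
      -- first condition
      have e1 : Real.exp ((γ / 2 - a) * k * (μ * k)) ≤ (s : ℝ) ^ (x0 + 1) := by
        calc Real.exp ((γ / 2 - a) * k * (μ * k))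
            ≤ Real.exp ((γ / 2 - a) * k * ((x0 + 1 : ℕ) : ℝ)) := by
              apply Real.exp_le_exp.2
              push_cast
              gcongr
          _ = (Real.exp ((γ / 2 - a) * k)) ^ (x0 + 1) := by
              rw [← Real.exp_nat_mul]
              congr 1
              ring
          _ ≤ _ := pow_le_pow_left₀ (Real.exp_pos _).le hs4 _
      have e2 : θ * (k : ℝ) ^ 2 + k + 4 ≤ (γ / 2 - a) * k * (μ * k) := by
        have e3 : θ + ε * γ * lam / 8 ≤ (γ / 2 - a) * μ := a10 hε0 hε1 hγ0 hlam1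
        have e4 : (k : ℝ) + 4 ≤ ε * γ * lam / 8 * (k : ℝ) ^ 2 := a11 c7 hk8'
        have e5 : (γ / 2 - a) * k * (μ * k) = ((γ / 2 - a) * μ) * (k : ℝ) ^ 2 := by ring
        rw [e5]
        have e6 : (θ + ε * γ * lam / 8) * (k : ℝ) ^ 2 ≤ ((γ / 2 - a) * μ) * (k : ℝ) ^ 2 :=
          mul_le_mul_of_nonneg_right e3 (sq_nonneg _)
        have e7 : (θ + ε * γ * lam / 8) * (k : ℝ) ^ 2 =
            θ * (k : ℝ) ^ 2 + ε * γ * lam / 8 * (k : ℝ) ^ 2 := by ring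
        linarith
      have hsx : 0 < (s : ℝ) ^ (x0 + 1) := by positivity
      have e7 : (n : ℝ) ^ k * Real.exp 4 ≤ (s : ℝ) ^ (x0 + 1) := by
        calc (n : ℝ) ^ k * Real.exp 4 ≤ Real.exp (θ * k ^ 2 + k) * Real.exp 4 := by gcongr
          _ = Real.exp (θ * k ^ 2 + k + 4) := by rw [← Real.exp_add]
          _ ≤ Real.exp ((γ / 2 - a) * k * (μ * k)) := Real.exp_le_exp.2 e2
          _ ≤ _ := e1
      rw [mul_div_assoc', div_lt_iff₀ hsx]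
      have hnk0 : 0 < (n : ℝ) ^ k := by
        have : (0 : ℝ) < n := by linarith
        positivity
      exact a16 e7 a12 hnk0) (by
      -- second condition
      have e1 : 4 * (t : ℝ) / ((Q + 2 : ℕ) : ℝ) ^ 2 ≤ Real.exp (-1) := by
        rw [← hq]
        have e2 : 4 * (t : ℝ) / q ^ 2 ≤ 32 * θ := by
          rw [div_le_iff₀ (by positivity)]
          linarith
        have e5 := a14
        linarith
      have e2 : (4 * (t : ℝ) / ((Q + 2 : ℕ) : ℝ) ^ 2) ^ u0 ≤ Real.exp (-(u0 : ℝ)) := by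
        calc _ ≤ (Real.exp (-1)) ^ u0 := pow_le_pow_left₀ (by positivity) e1 _
          _ = Real.exp (-(u0 : ℝ)) := by
              rw [← Real.exp_nat_mul]
              congr 1
              ring
      calc (n : ℝ) ^ k * (4 * (t : ℝ) / ((Q + 2 : ℕ) : ℝ) ^ 2) ^ u0
          ≤ Real.exp (θ * k ^ 2 + k) * Real.exp (-(u0 : ℝ)) := by gcongr
        _ = Real.exp (θ * k ^ 2 + k + -(u0 : ℝ)) := by rw [← Real.exp_add]
        _ ≤ Real.exp (-2) := by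
            apply Real.exp_le_exp.2
            linarith
        _ < 1 / 3 := hlog3) (by
      -- third condition
      have e1 : 2 * θ * (k * ((k : ℝ) - 1)) ≤
          (t : ℝ) * (k * ((k : ℝ) - 1)) / (2 * ((Q + 2 : ℕ) : ℝ) ^ 2) := by
        rw [← hq, le_div_iff₀ (by positivity)]
        have e2 : 0 ≤ (k : ℝ) * ((k : ℝ) - 1) := mul_nonneg hk0.le (by linarith)
        calc 2 * θ * (k * ((k : ℝ) - 1)) * (2 * q ^ 2) = (4 * θ * q ^ 2) * (k * ((k : ℝ) - 1)) := by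
              ring
          _ ≤ t * (k * ((k : ℝ) - 1)) := mul_le_mul_of_nonneg_right ht3 e2
      calc (n : ℝ) ^ k * Real.exp (-((t : ℝ) * (k * ((k : ℝ) - 1)) / (2 * ((Q + 2 : ℕ) : ℝ) ^ 2)))
          ≤ Real.exp (θ * k ^ 2 + k) * Real.exp (-(2 * θ * (k * ((k : ℝ) - 1)))) := by gcongr
        _ = Real.exp (θ * k ^ 2 + k + -(2 * θ * (k * ((k : ℝ) - 1)))) := by rw [← Real.exp_add]
        _ ≤ Real.exp (-2) := by
            exact Real.exp_le_exp.2 (a15 hθ96 hk8' hθk2)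
        _ < 1 / 3 := hlog3)
  exact ⟨n, t, Q + 2, x, ht4, ht6, hx1, hx2, hn1⟩

end Pool.Agent.X79.BC
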