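import Mathlib

/-!
# Colourings without large monochromatic cliques: sparse sets are small
-/

namespace Pool.Agent.X79.CU

open Finset Classical

set_option linter.unusedSectionVars false

variable {V : Type} [Fintype V]

/-- **Erdős–Szekeres.** -/
lemma es (G : SimpleGraph V) : ∀ (N a b : ℕ), a + b = N → ∀ X : Finset V,
    (a + b).choose a ≤ X.card →
    (∃ T ⊆ X, G.IsNClique (a + 1) T) ∨ (∃ T ⊆ X, Gᶜ.IsNClique (b + 1) T) := by
  intro N
  induction N with
  | zero =>
    intro a b hab X hX
    obtain ⟨rfl, rfl⟩ : a = 0 ∧ b = 0 := by omega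
    simp only [add_zero, Nat.choose_self] at hX
    obtain ⟨x, hx⟩ : X.Nonempty := by rw [← card_pos]; omega
    left
    exact ⟨{x}, by simpa using hx, by simp [SimpleGraph.isNClique_iff]⟩
  | succ N ih =>
    intro a b hab X hX
    have hpos : 0 < (a + b).choose a := Nat.choose_pos (by omega)
    obtain ⟨x, hx⟩ : X.Nonempty := by rw [← card_pos]; omega
    by_cases ha : a = 0
    · subst ha
      left
      exact ⟨{x}, by simpa using hx, by simp [SimpleGraph.isNClique_iff]⟩
    by_cases hb : b = 0
    · subst hb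
      right
      exact ⟨{x}, by simpa using hx, by simp [SimpleGraph.isNClique_iff]⟩
    obtain ⟨a', rfl⟩ : ∃ a', a = a' + 1 := ⟨a - 1, by omega⟩
    obtain ⟨b', rfl⟩ : ∃ b', b = b' + 1 := ⟨b - 1, by omega⟩
    have hch : (a' + 1 + (b' + 1)).choose (a' + 1) =
        (a' + (b' + 1)).choose a' + (a' + 1 + b').choose (a' + 1) := by
      have e1 : a' + 1 + (b' + 1) = (a' + b' + 1) + 1 := by ring
      have e2 : a' + (b' + 1) = a' + b' + 1 := by ring
      have e3 : a' + 1 + b' = a' + b' + 1 := by ring
      rw [e1, e2, e3, Nat.choose_succ_succ]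
    set R := (X.erase x).filter (fun y => G.Adj x y) with hR
    set B := (X.erase x).filter (fun y => ¬ G.Adj x y) with hB
    have hsum : R.card + B.card = X.card - 1 := by
      rw [hR, hB, card_filter_add_card_filter_not, card_erase_of_mem hx]
    by_cases hRc : (a' + (b' + 1)).choose a' ≤ R.card
    · rcases ih a' (b' + 1) (by omega) R hRc with ⟨T, hT, hTc⟩ | ⟨T, hT, hTc⟩
      · left
        refine ⟨insert x T, ?_, ?_⟩
        · intro z hz
          rcases mem_insert.1 hz with rfl | hz
          · exact hx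
          · exact mem_of_mem_erase (mem_filter.1 (hT hz)).1
        · exact hTc.insert (fun z hz => (mem_filter.1 (hT hz)).2)
      · right
        exact ⟨T, fun z hz => mem_of_mem_erase (mem_filter.1 (hT hz)).1, hTc⟩
    · have hBc : (a' + 1 + b').choose (a' + 1) ≤ B.card := by omega
      rcases ih (a' + 1) b' (by omega) B hBc with ⟨T, hT, hTc⟩ | ⟨T, hT, hTc⟩
      · left
        exact ⟨T, fun z hz => mem_of_mem_erase (mem_filter.1 (hT hz)).1, hTc⟩
      · right
        refine ⟨insert x T, ?_, ?_⟩
        · intro z hz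
          rcases mem_insert.1 hz with rfl | hz
          · exact hx
          · exact mem_of_mem_erase (mem_filter.1 (hT hz)).1
        · refine hTc.insert (fun z hz => ?_)
          have h1 := mem_filter.1 (hT hz)
          rw [SimpleGraph.compl_adj]
          exact ⟨(ne_of_mem_erase h1.1).symm, h1.2⟩

/-- number of subsets with at most `w` elements -/
def Mw (k w : ℕ) : ℕ := ∑ i ∈ range (w + 1), k.choose i

lemma Mw_pos (k w : ℕ) : 0 < Mw k w := by
  unfold Mw
  refine sum_pos' (fun _ _ => Nat.zero_le _) ⟨0, by simp, by simp⟩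

/-- **Erdős–Szemerédi type lemma.** If `G` has no clique with `k` vertices and no independent
set with `k` vertices, then a set `U` in which all degrees are at most `D`, `2 k D ≤ (w + 1) |U|`,
has fewer than `4 (Mw k w) C(k - 1 + w, w) + 4 k` elements. -/
lemma sparse (G : SimpleGraph V) (k w : ℕ) (hk : 1 ≤ k) (h1 : G.CliqueFree k)
    (h2 : Gᶜ.CliqueFree k) (U : Finset V) (D : ℝ)
    (hD : ∀ x ∈ U, ((U.filter (fun y => G.Adj x y)).card : ℝ) ≤ D)
    (hDw : 2 * k * D ≤ (w + 1) * U.card) :
    U.card < 4 * (Mw k w * (k - 1 + w).choose (k - 1)) + 4 * k := by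
  by_contra hge
  push Not at hge
  -- a maximum independent set in `U`
  obtain ⟨I, hIU, hI, hmax⟩ : ∃ I ⊆ U, Gᶜ.IsClique (I : Set V) ∧
      ∀ J ⊆ U, Gᶜ.IsClique (J : Set V) → J.card ≤ I.card := by
    obtain ⟨I, hI, hmax⟩ := exists_max_image (U.powerset.filter
      (fun I : Finset V => Gᶜ.IsClique (I : Set V))) (fun I : Finset V => I.card)
      ⟨∅, by simp⟩
    rw [mem_filter, mem_powerset] at hI
    refine ⟨I, hI.1, hI.2, fun J hJ hJc => hmax J ?_⟩
    rw [mem_filter, mem_powerset]
    exact ⟨hJ, hJc⟩
  have hIk : I.card < k := by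
    by_contra hge'
    push Not at hge'
    obtain ⟨J, hJ, hJc⟩ := exists_subset_card_eq hge'
    exact h2 J ⟨hI.subset (by exact_mod_cast hJ), hJc⟩
  -- double counting
  have hdc : ∑ v ∈ U, (I.filter (fun x => G.Adj v x)).card =
      ∑ x ∈ I, (U.filter (fun v => G.Adj x v)).card := by
    have h := sum_card_bipartiteAbove_eq_sum_card_bipartiteBelow
      (s := U) (t := I) (fun (v x : V) => G.Adj v x)
    unfold bipartiteAbove bipartiteBelow at h
    rw [h]
    refine sum_congr rfl fun x _ => ?_
    congr 1
    ext v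
    simp only [mem_filter, G.adj_comm]
  set bad := U.filter (fun v => w < (I.filter (fun x => G.Adj v x)).card) with hbad
  set good := U.filter (fun v => ¬ w < (I.filter (fun x => G.Adj v x)).card) with hgood
  have hbg : bad.card + good.card = U.card := by
    rw [hbad, hgood, card_filter_add_card_filter_not]
  have hbadc : ((w : ℝ) + 1) * bad.card ≤ k * D := by
    have e1 : (w + 1) * bad.card ≤ ∑ v ∈ U, (I.filter (fun x => G.Adj v x)).card := by
      calc (w + 1) * bad.card = ∑ _v ∈ bad, (w + 1) := by rw [sum_const, smul_eq_mul, mul_comm]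
        _ ≤ ∑ v ∈ bad, (I.filter (fun x => G.Adj v x)).card :=
            sum_le_sum fun v hv => (mem_filter.1 hv).2
        _ ≤ ∑ v ∈ U, (I.filter (fun x => G.Adj v x)).card :=
            sum_le_sum_of_subset (filter_subset _ _)
    rw [hdc] at e1
    have e2 : ((∑ x ∈ I, (U.filter (fun v => G.Adj x v)).card : ℕ) : ℝ) ≤ I.card * D := by
      push_cast
      calc ∑ x ∈ I, ((U.filter (fun v => G.Adj x v)).card : ℝ) ≤ ∑ _x ∈ I, D :=
            sum_le_sum fun x hx => hD x (hIU hx)
        _ = I.card * D := by rw [sum_const, nsmul_eq_mul]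
    have e3 : ((w : ℝ) + 1) * bad.card ≤
        ((∑ x ∈ I, (U.filter (fun v => G.Adj x v)).card : ℕ) : ℝ) := by exact_mod_cast e1
    have hD0 : 0 ≤ D ∨ I.card = 0 := by
      by_cases hI0 : I.card = 0
      · exact Or.inr hI0
      · obtain ⟨x, hx⟩ : I.Nonempty := by rw [← card_pos]; omega
        exact Or.inl ((Nat.cast_nonneg _).trans (hD x (hIU hx)))
    rcases hD0 with hD0 | hI0
    · have e4 : (I.card : ℝ) * D ≤ k * D :=
        mul_le_mul_of_nonneg_right (by exact_mod_cast hIk.le) hD0
      linarith
    · -- then `U` is empty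
      exfalso
      have hU : U.Nonempty := by rw [← card_pos]; omega
      obtain ⟨x, hx⟩ := hU
      have := hmax {x} (by simpa using hx) (by simp)
      rw [card_singleton, hI0] at this
      omega
  have hgoodc : U.card ≤ 2 * good.card := by
    have hw : (0 : ℝ) < (w : ℝ) + 1 := by positivity
    have e1 : ((w : ℝ) + 1) * (2 * bad.card) ≤ ((w : ℝ) + 1) * U.card := by nlinarith
    have e2 : (2 : ℝ) * bad.card ≤ U.card := le_of_mul_le_mul_left e1 hw
    have e3 : 2 * bad.card ≤ U.card := by exact_mod_cast e2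
    omega
  -- patterns
  set g' := good \ I with hg'
  have hg'c : 2 * (Mw k w * (k - 1 + w).choose (k - 1)) ≤ g'.card := by
    have e1 : good.card - I.card ≤ g'.card := le_card_sdiff _ _
    omega
  have hmaps : ∀ v ∈ g', (I.filter (fun x => G.Adj v x)) ∈
      (I.powerset.filter (fun P => P.card ≤ w)) := by
    intro v hv
    rw [mem_filter, mem_powerset]
    refine ⟨filter_subset _ _, ?_⟩
    have := (mem_filter.1 (mem_sdiff.1 hv).1).2
    omega
  have hpat : (I.powerset.filter (fun P => P.card ≤ w)).card ≤ Mw k w := by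
    have e1 : (I.powerset.filter (fun P => P.card ≤ w)) ⊆
        (range (w + 1)).biUnion (fun i => powersetCard i I) := by
      intro P hP
      rw [mem_filter, mem_powerset] at hP
      rw [mem_biUnion]
      exact ⟨P.card, by rw [mem_range]; omega, by rw [mem_powersetCard]; exact ⟨hP.1, rfl⟩⟩
    refine (card_le_card e1).trans (card_biUnion_le.trans ?_)
    unfold Mw
    refine sum_le_sum fun i _ => ?_
    rw [card_powersetCard]
    exact Nat.choose_le_choose i hIk.le
  have hne : (I.powerset.filter (fun P => P.card ≤ w)).Nonempty := ⟨∅, by simp⟩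
  obtain ⟨P, hP, hPc⟩ := exists_le_card_fiber_of_mul_le_card_of_maps_to hmaps hne
    (n := (k - 1 + w).choose (k - 1)) (by
      calc (I.powerset.filter (fun P => P.card ≤ w)).card * (k - 1 + w).choose (k - 1)
          ≤ Mw k w * (k - 1 + w).choose (k - 1) := Nat.mul_le_mul_right _ hpat
        _ ≤ g'.card := by omega)
  rw [mem_filter, mem_powerset] at hP
  rcases es G (k - 1 + w) (k - 1) w rfl _ hPc with ⟨T, -, hTc⟩ | ⟨T, hT, hTc⟩
  · exact h1 T (by rwa [Nat.sub_add_cancel hk] at hTc)
  · -- enlarge the independent set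
    have hTI : Disjoint (I \ P) T := by
      rw [disjoint_left]
      intro z hz hzT
      have h3 := (mem_filter.1 (hT hzT)).1
      exact (mem_sdiff.1 h3).2 (mem_sdiff.1 hz).1
    have hTU : T ⊆ U := by
      intro z hz
      have h3 := (mem_filter.1 (hT hz)).1
      exact (mem_filter.1 (mem_sdiff.1 h3).1).1
    have hcl : Gᶜ.IsClique (((I \ P) ∪ T : Finset V) : Set V) := by
      intro u hu v hv huv
      rw [mem_coe, mem_union] at hu hv
      have key : ∀ u v, u ∈ I \ P → v ∈ T → ¬ G.Adj u v := by
        intro u v hu hv hadj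
        have h3 := (mem_filter.1 (hT hv)).2
        have h4 : u ∈ I.filter (fun x => G.Adj v x) := by
          rw [mem_filter]
          exact ⟨(mem_sdiff.1 hu).1, hadj.symm⟩
        rw [h3] at h4
        exact (mem_sdiff.1 hu).2 h4
      rcases hu with hu | hu <;> rcases hv with hv | hv
      · exact hI (mem_sdiff.1 hu).1 (mem_sdiff.1 hv).1 huv
      · rw [SimpleGraph.compl_adj]
        exact ⟨huv, key u v hu hv⟩
      · rw [SimpleGraph.compl_adj]
        exact ⟨huv, fun h => key v u hv hu h.symm⟩
      · exact hTc.isClique hu hv huv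
    have hcard := hmax ((I \ P) ∪ T) (union_subset (sdiff_subset.trans hIU) hTU) hcl
    rw [card_union_of_disjoint hTI, hTc.card_eq] at hcard
    have h5 := card_sdiff_add_card_eq_card hP.1
    omega

end Pool.Agent.X79.CU
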