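import Pool.Agent.X79.CU1

/-!
# Colourings without large monochromatic cliques: sets without thin pairs
-/

namespace Pool.Agent.X79.CU

open Finset Classical

set_option linter.unusedSectionVars false

variable {V : Type} [Fintype V]

/-- colour class of the colour `b` -/
noncomputable def col (G : SimpleGraph V) (b : Bool) : SimpleGraph V := if b then G else Gᶜ

/-- number of neighbours of `x` in `B` -/
noncomputable def dg (F : SimpleGraph V) (x : V) (B : Finset V) : ℕ :=
  (B.filter (fun y => F.Adj x y)).card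

/-- number of pairs in `A × B` that are edges -/
noncomputable def ee (F : SimpleGraph V) (A B : Finset V) : ℕ := ∑ x ∈ A, dg F x B

lemma ee_comm (F : SimpleGraph V) (A B : Finset V) : ee F A B = ee F B A := by
  have h := sum_card_bipartiteAbove_eq_sum_card_bipartiteBelow
    (s := A) (t := B) (fun (v x : V) => F.Adj v x)
  unfold bipartiteAbove bipartiteBelow at h
  unfold ee dg
  rw [h]
  refine sum_congr rfl fun x _ => ?_
  congr 1
  ext v
  simp only [mem_filter, F.adj_comm]

lemma dg_union (F : SimpleGraph V) (x : V) {A B : Finset V} (h : Disjoint A B) :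
    dg F x (A ∪ B) = dg F x A + dg F x B := by
  unfold dg
  rw [filter_union, card_union_of_disjoint]
  exact disjoint_filter_filter h

lemma ee_union_left (F : SimpleGraph V) {A B : Finset V} (C : Finset V) (h : Disjoint A B) :
    ee F (A ∪ B) C = ee F A C + ee F B C := by
  unfold ee
  rw [sum_union h]

lemma ee_union (F : SimpleGraph V) {A B : Finset V} (h : Disjoint A B) :
    ee F (A ∪ B) (A ∪ B) = ee F A A + ee F B B + 2 * ee F B A := by
  rw [ee_union_left F _ h, ee_comm F A (A ∪ B), ee_comm F B (A ∪ B), ee_union_left F _ h,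
    ee_union_left F _ h, ee_comm F A B]
  ring

lemma dg_le (F : SimpleGraph V) (x : V) (B : Finset V) : dg F x B ≤ B.card :=
  card_filter_le _ _

lemma dg_mono (F : SimpleGraph V) (x : V) {A B : Finset V} (h : A ⊆ B) : dg F x A ≤ dg F x B :=
  card_le_card (filter_subset_filter _ h)

lemma ee_le (F : SimpleGraph V) (A B : Finset V) : ee F A B ≤ A.card * B.card := by
  unfold ee
  calc ∑ x ∈ A, dg F x B ≤ ∑ _x ∈ A, B.card := sum_le_sum fun x _ => dg_le F x B
    _ = A.card * B.card := by rw [sum_const, smul_eq_mul]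

lemma ee_le_mul (F : SimpleGraph V) (A B : Finset V) (D : ℝ)
    (h : ∀ x ∈ A, (dg F x B : ℝ) ≤ D) : (ee F A B : ℝ) ≤ A.card * D := by
  unfold ee
  push_cast
  calc ∑ x ∈ A, (dg F x B : ℝ) ≤ ∑ _x ∈ A, D := sum_le_sum h
    _ = A.card * D := by rw [sum_const, nsmul_eq_mul]

/-- few vertices have a large degree -/
lemma few_bad (F : SimpleGraph V) (A B : Finset V) (D : ℝ) :
    D * ((A.filter (fun x => D < (dg F x B : ℝ))).card : ℝ) ≤ ee F A B := by
  unfold ee
  push_cast
  calc D * ((A.filter (fun x => D < (dg F x B : ℝ))).card : ℝ)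
      = ∑ _x ∈ A.filter (fun x => D < (dg F x B : ℝ)), D := by
        rw [sum_const, nsmul_eq_mul, mul_comm]
    _ ≤ ∑ x ∈ A.filter (fun x => D < (dg F x B : ℝ)), (dg F x B : ℝ) :=
        sum_le_sum fun x hx => (mem_filter.1 hx).2.le
    _ ≤ ∑ x ∈ A, (dg F x B : ℝ) :=
        sum_le_sum_of_subset_of_nonneg (filter_subset _ _) fun _ _ _ => Nat.cast_nonneg _

/-- `S` contains a pair of disjoint sets with at least `t` elements, such that in one of the two
colours all vertices of the first set have density at most `ε` to the second -/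
def HasThin (G : SimpleGraph V) (ε t : ℝ) (S : Finset V) : Prop :=
  ∃ b : Bool, ∃ A ⊆ S, ∃ B ⊆ S, Disjoint A B ∧ t ≤ A.card ∧ t ≤ B.card ∧
    ∀ x ∈ A, (dg (col G b) x B : ℝ) ≤ ε * B.card

/-- cleaning -/
lemma clean (F : SimpleGraph V) {ε' : ℝ} (hε : 0 < ε') {A B : Finset V} (hA : 0 < A.card)
    (h : ∀ x ∈ A, (dg F x B : ℝ) ≤ ε' / 2 * B.card) :
    (B.card : ℝ) / 2 ≤ ((B.filter (fun y => ¬ ε' * A.card < (dg F y A : ℝ))).card : ℝ) := by
  have h1 := few_bad F B A (ε' * A.card)
  have h2 := ee_le_mul F A B _ h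
  rw [ee_comm] at h2
  have hA' : (0 : ℝ) < A.card := by exact_mod_cast hA
  have h3 : (ε' * A.card) * ((B.filter (fun x => ε' * A.card < (dg F x A : ℝ))).card : ℝ) ≤
      (ε' * A.card) * ((B.card : ℝ) / 2) := by
    calc _ ≤ (ee F B A : ℝ) := h1
      _ ≤ _ := h2
      _ = _ := by ring
  have h4 := le_of_mul_le_mul_left h3 (by positivity)
  have h5 : (B.filter (fun x => ε' * A.card < (dg F x A : ℝ))).card +
      (B.filter (fun x => ¬ ε' * A.card < (dg F x A : ℝ))).card = B.card :=
    card_filter_add_card_filter_not _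
  have h6 : ((B.filter (fun x => ε' * A.card < (dg F x A : ℝ))).card : ℝ) +
      ((B.filter (fun x => ¬ ε' * A.card < (dg F x A : ℝ))).card : ℝ) = B.card := by
    exact_mod_cast h5
  linarith

/-- the recursion -/
lemma recur (G : SimpleGraph V) {ε' Q N0 : ℝ} {l : ℕ} (hl : 1 ≤ l) (hlN : (l : ℝ) ≤ N0)
    (hQ : 1 ≤ Q) (hε : 0 < ε')
    (hthin : ∀ S : Finset V, N0 ≤ S.card → HasThin G (ε' / 2) (S.card / Q) S) :
    ∀ (j : ℕ) (S : Finset V), N0 * (4 * Q) ^ j ≤ S.card →
      ∃ (U : Bool → Finset V) (s : Bool → ℕ), (∀ b, U b ⊆ S) ∧ (∀ b, (U b).card = s b * l) ∧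
        (∀ b, 2 ^ j ≤ s b * s (!b)) ∧
        ∀ b, (ee (col G b) (U b) (U b) : ℝ) ≤ l * (U b).card + ε' * (U b).card ^ 2 := by
  have hN0 : 0 ≤ N0 := (Nat.cast_nonneg _).trans hlN
  intro j
  induction j with
  | zero =>
    intro S hS
    rw [pow_zero, mul_one] at hS
    have h1 : l ≤ S.card := by exact_mod_cast hlN.trans hS
    obtain ⟨T, hT, hTc⟩ := exists_subset_card_eq h1
    refine ⟨fun _ => T, fun _ => 1, fun _ => hT, fun _ => by rw [hTc, one_mul],
      fun _ => by simp, fun b => ?_⟩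
    have h2 : (ee (col G b) T T : ℝ) ≤ T.card * T.card := by exact_mod_cast ee_le (col G b) T T
    rw [hTc] at h2 ⊢
    have h3 : 0 ≤ ε' * (l : ℝ) ^ 2 := by positivity
    linarith
  | succ j ih =>
    intro S hS
    have hQ4 : 1 ≤ 4 * Q := by linarith
    have hpow : (1 : ℝ) ≤ (4 * Q) ^ (j + 1) := one_le_pow₀ hQ4
    have hS0 : N0 ≤ S.card := by
      calc N0 = N0 * 1 := (mul_one _).symm
        _ ≤ N0 * (4 * Q) ^ (j + 1) := mul_le_mul_of_nonneg_left hpow hN0
        _ ≤ _ := hS
    obtain ⟨b, A, hA, B, hB, hAB, hAc, hBc, hthinAB⟩ := hthin S hS0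
    have hQ0 : 0 < Q := by linarith
    have hSQ : 4 * (N0 * (4 * Q) ^ j) ≤ S.card / Q := by
      rw [le_div_iff₀ hQ0]
      calc 4 * (N0 * (4 * Q) ^ j) * Q = N0 * (4 * Q) ^ (j + 1) := by ring
        _ ≤ _ := hS
    have hNj : 0 ≤ N0 * (4 * Q) ^ j := by positivity
    obtain ⟨UA, sA, hUA, hUAc, hUAs, hUAe⟩ := ih A (by linarith)
    have hXpos : 0 < (UA b).card := by
      rw [hUAc b]
      have h1 := hUAs b
      have h2 : 0 < 2 ^ j := by positivity
      have h3 : 0 < sA b := by
        rcases Nat.eq_zero_or_pos (sA b) with h | h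
        · rw [h, zero_mul] at h1; omega
        · exact h
      positivity
    have hcl := clean (col G b) hε hXpos (B := B) (fun x hx => hthinAB x (hUA b hx))
    set B1 := B.filter (fun y => ¬ ε' * (UA b).card < (dg (col G b) y (UA b) : ℝ)) with hB1
    have hB1B : B1 ⊆ B := filter_subset _ _
    obtain ⟨UB, sB, hUB, hUBc, hUBs, hUBe⟩ := ih B1 (by linarith)
    have hdisj : Disjoint (UA b) (UB b) :=
      disjoint_of_subset_left (hUA b) (disjoint_of_subset_right ((hUB b).trans hB1B) hAB)
    have hcross : (ee (col G b) (UB b) (UA b) : ℝ) ≤ (UB b).card * (ε' * (UA b).card) := by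
      refine ee_le_mul _ _ _ _ fun y hy => ?_
      have := (mem_filter.1 (hUB b hy)).2
      exact not_lt.1 this
    refine ⟨fun c => if c = b then UA c ∪ UB c else (if sB c ≤ sA c then UA c else UB c),
      fun c => if c = b then sA c + sB c else (if sB c ≤ sA c then sA c else sB c), ?_, ?_, ?_, ?_⟩
    · intro c
      dsimp only
      have e1 : UA c ⊆ S := (hUA c).trans hA
      have e2 : UB c ⊆ S := ((hUB c).trans hB1B).trans hB
      split_ifs
      · exact union_subset e1 e2
      · exact e1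
      · exact e2
    · intro c
      dsimp only
      split_ifs with h1 h2
      · subst h1
        rw [card_union_of_disjoint hdisj, hUAc, hUBc]
        ring
      · exact hUAc c
      · exact hUBc c
    · have key : 2 ^ (j + 1) ≤ (sA b + sB b) * (if sB (!b) ≤ sA (!b) then sA (!b) else sB (!b)) := by
        have e1 := hUAs b
        have e2 := hUBs b
        rw [pow_succ]
        split_ifs with h
        · nlinarith [Nat.mul_le_mul_left (sB b) h]
        · push Not at h
          nlinarith [Nat.mul_le_mul_left (sA b) h.le]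
      have hbne : (!b) ≠ b := by cases b <;> simp
      intro c
      dsimp only
      by_cases hc : c = b
      · subst hc
        rw [if_pos rfl, if_neg hbne]
        exact key
      · have hc' : c = !b := by
          cases b <;> cases c <;> simp_all
        subst hc'
        rw [Bool.not_not, if_pos rfl, if_neg hbne, mul_comm]
        exact key
    · intro c
      dsimp only
      split_ifs with h1 h2
      · subst h1
        rw [ee_union _ hdisj, card_union_of_disjoint hdisj]
        push_cast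
        have e1 := hUAe c
        have e2 := hUBe c
        nlinarith
      · exact hUAe c
      · exact hUBe c

lemma cliqueFree_col {G : SimpleGraph V} {k : ℕ} (h1 : G.CliqueFree k) (h2 : Gᶜ.CliqueFree k)
    (b : Bool) : (col G b).CliqueFree k ∧ (col G b)ᶜ.CliqueFree k := by
  unfold col
  cases b
  · simp only [Bool.false_eq_true, ↓reduceIte, compl_compl]
    exact ⟨h2, h1⟩
  · simp only [↓reduceIte]
    exact ⟨h1, h2⟩

/-- a large set of small average degree is impossible -/
lemma average (F : SimpleGraph V) {k w l s : ℕ} (hk : 1 ≤ k) (h1 : F.CliqueFree k)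
    (h2 : Fᶜ.CliqueFree k) {U : Finset V} {ε' s0 : ℝ} (hU : U.card = s * l) (hs0 : 0 < s0)
    (hs : s0 ≤ s) (hε : 0 < ε') (hl : 1 ≤ l)
    (he : (ee F U U : ℝ) ≤ l * U.card + ε' * U.card ^ 2)
    (hw : 8 * k * (1 / s0 + ε') ≤ (w : ℝ) + 1) :
    l < 8 * (Mw k w * (k - 1 + w).choose (k - 1)) + 8 * k := by
  have hs1 : 1 ≤ s := by
    rcases Nat.eq_zero_or_pos s with h | h
    · rw [h, Nat.cast_zero] at hs; linarith
    · exact h
  have hUpos : 0 < U.card := by rw [hU]; positivity
  have hU' : (0 : ℝ) < U.card := by exact_mod_cast hUpos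
  have hlU : (l : ℝ) ≤ 1 / s0 * U.card := by
    rw [hU]
    push_cast
    rw [one_div, ← mul_assoc]
    have h3 : 1 ≤ s0⁻¹ * s := by
      rw [inv_mul_eq_div, le_div_iff₀ hs0, one_mul]
      exact hs
    have h4 : (0 : ℝ) ≤ l := Nat.cast_nonneg _
    nlinarith
  set D : ℝ := 2 * (l + ε' * U.card) with hD
  have hDpos : 0 < D := by positivity
  have h3 := few_bad F U U D
  have h4 : D * ((U.filter (fun x => D < (dg F x U : ℝ))).card : ℝ) ≤ D * ((U.card : ℝ) / 2) := by
    calc _ ≤ (ee F U U : ℝ) := h3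
      _ ≤ _ := he
      _ = _ := by rw [hD]; ring
  have h5 := le_of_mul_le_mul_left h4 hDpos
  set W := U.filter (fun x => ¬ D < (dg F x U : ℝ)) with hW
  have h6 : (U.filter (fun x => D < (dg F x U : ℝ))).card + W.card = U.card :=
    card_filter_add_card_filter_not _
  have h7 : ((U.filter (fun x => D < (dg F x U : ℝ))).card : ℝ) + (W.card : ℝ) = U.card := by
    exact_mod_cast h6
  have h8 : (U.card : ℝ) ≤ 2 * W.card := by linarith
  have h9 := sparse F k w hk h1 h2 W D (by
    intro x hx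
    have h10 := (mem_filter.1 hx).2
    have h11 : ((W.filter (fun y => F.Adj x y)).card : ℝ) ≤ (dg F x U : ℝ) := by
      exact_mod_cast dg_mono F x (filter_subset _ U)
    exact h11.trans (not_lt.1 h10)) (by
    have h12 : D ≤ 2 * ((1 / s0 + ε') * U.card) := by
      rw [hD]
      nlinarith
    have h13 : 0 < 1 / s0 + ε' := by positivity
    have hk0 : (0 : ℝ) ≤ k := Nat.cast_nonneg _
    calc 2 * (k : ℝ) * D ≤ 2 * k * (2 * ((1 / s0 + ε') * U.card)) :=
          mul_le_mul_of_nonneg_left h12 (by positivity)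
      _ ≤ 2 * k * (2 * ((1 / s0 + ε') * (2 * W.card))) := by gcongr
      _ = (8 * k * (1 / s0 + ε')) * W.card := by ring
      _ ≤ _ := mul_le_mul_of_nonneg_right hw (Nat.cast_nonneg _))
  have h10 : U.card ≤ 2 * W.card := by exact_mod_cast h8
  have h11 : l ≤ U.card := by rw [hU]; exact Nat.le_mul_of_pos_left _ hs1
  omega

/-- **Dichotomy.** -/
lemma dich (G : SimpleGraph V) {k w l h : ℕ} (hk : 1 ≤ k) (h1 : G.CliqueFree k)
    (h2 : Gᶜ.CliqueFree k) {ε' Q N0 : ℝ} (hlN : (l : ℝ) ≤ N0) (hQ : 1 ≤ Q) (hε : 0 < ε')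
    (hl : 8 * (Mw k w * (k - 1 + w).choose (k - 1)) + 8 * k ≤ l)
    (hw : 8 * k * (1 / (2 : ℝ) ^ h + ε') ≤ (w : ℝ) + 1)
    (hn : N0 * (4 * Q) ^ (2 * h) ≤ Fintype.card V) :
    ∃ S : Finset V, N0 ≤ S.card ∧ ¬ HasThin G (ε' / 2) (S.card / Q) S := by
  by_contra hcon
  push Not at hcon
  have hl1 : 1 ≤ l := by omega
  obtain ⟨U, s, -, hU, hs, he⟩ := recur G hl1 hlN hQ hε hcon (2 * h) univ (by
    rwa [card_univ])
  have h3 := hs true
  have h4 : ∃ b, 2 ^ h ≤ s b := by
    by_contra hlt
    push Not at hlt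
    have e1 := hlt true
    have e2 := hlt false
    rw [Bool.not_true, two_mul, pow_add] at h3
    have e3 : s true * s false < 2 ^ h * 2 ^ h := Nat.mul_lt_mul'' e1 e2
    omega
  obtain ⟨b, hb⟩ := h4
  obtain ⟨c1, c2⟩ := cliqueFree_col h1 h2 b
  have h5 := average (col G b) (w := w) (s0 := (2 : ℝ) ^ h) hk c1 c2 (hU b) (by positivity)
    (by exact_mod_cast hb) hε hl1 (he b) hw
  omega

end Pool.Agent.X79.CU
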