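import Pool.Agent.X79.CU2

/-!
# Counting induced copies in sets without thin pairs
-/

namespace Pool.Agent.X79.CU

open Finset Classical

set_option linter.unusedSectionVars false

variable {V : Type} [Fintype V]

lemma col_adj (G : SimpleGraph V) (P : Prop) {x y : V} (hxy : x ≠ y) :
    (col G (decide P)).Adj x y ↔ (G.Adj x y ↔ P) := by
  unfold col
  by_cases h : P
  · simp [h]
  · simp [h, SimpleGraph.compl_adj, hxy]

/-- the tuples with prescribed adjacencies -/
noncomputable def tup (G : SimpleGraph V) (m : ℕ) (H : Fin m → Fin m → Prop)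
    (X : Fin m → Finset V) : Finset (Fin m → V) :=
  univ.filter (fun f : Fin m → V => (∀ i, f i ∈ X i) ∧
    ∀ i j, i < j → (G.Adj (f i) (f j) ↔ H i j))

lemma emb (G : SimpleGraph V) {ε t : ℝ} (hε0 : 0 < ε) (hε1 : ε ≤ 1) (ht : 0 ≤ t)
    {S : Finset V} (hS : ¬ HasThin G ε t S) :
    ∀ (m : ℕ) (H : Fin m → Fin m → Prop) (L : ℝ) (X : Fin m → Finset V), (∀ i, X i ⊆ S) →
      (∀ i j, i ≠ j → Disjoint (X i) (X j)) → (∀ i, L ≤ (X i).card) →
      2 * m * t ≤ ε ^ m * L → 0 ≤ L →
      ∏ i ∈ range m, (ε ^ i * L / 2) ≤ ((tup G m H X).card : ℝ) := by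
  intro m
  induction m with
  | zero =>
    intro H L X _ _ _ _ _
    have : (tup G 0 H X).card = 1 := by
      rw [card_eq_one]
      refine ⟨Fin.elim0, ?_⟩
      ext f
      unfold tup
      rw [mem_filter, mem_singleton]
      constructor
      · intro _
        exact funext fun i => i.elim0
      · intro _
        exact ⟨mem_univ _, fun i => i.elim0, fun i => i.elim0⟩
    rw [this, range_zero, prod_empty]
    simp
  | succ m ih =>
    intro H L X hX hd hL hm hL0
    have hεm : ε ^ (m + 1) ≤ 1 := pow_le_one₀ hε0.le hε1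
    have hLt : 2 * ((m : ℝ) + 1) * t ≤ L := by
      have h1 : ε ^ (m + 1) * L ≤ 1 * L := mul_le_mul_of_nonneg_right hεm hL0
      push_cast at hm
      linarith
    have htL : t ≤ L := by
      have : (0 : ℝ) ≤ m := Nat.cast_nonneg _
      nlinarith
    have hmt : 2 * ((m : ℝ) * t) ≤ L := by nlinarith
    set bad : Fin m → Finset V := fun j => (X 0).filter
      (fun v => (dg (col G (decide (H 0 j.succ))) v (X j.succ) : ℝ) ≤ ε * (X j.succ).card)
      with hbad
    have hbadc : ∀ j, ((bad j).card : ℝ) ≤ t := by
      intro j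
      by_contra hlt
      push Not at hlt
      apply hS
      refine ⟨decide (H 0 j.succ), bad j, (filter_subset _ _).trans (hX 0), X j.succ,
        hX _, ?_, hlt.le, htL.trans (hL _), fun x hx => (mem_filter.1 hx).2⟩
      exact disjoint_of_subset_left (filter_subset _ _) (hd 0 j.succ (Fin.succ_ne_zero j).symm)
    set good : Finset V := (X 0) \ (univ.biUnion bad) with hgood
    have hgoodc : L / 2 ≤ (good.card : ℝ) := by
      have h1 : (X 0).card - (univ.biUnion bad).card ≤ good.card := le_card_sdiff _ _
      have h2 : (X 0).card ≤ good.card + (univ.biUnion bad).card := by omega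
      have h3 : ((univ.biUnion bad).card : ℝ) ≤ m * t := by
        calc ((univ.biUnion bad).card : ℝ) ≤ ((∑ j, (bad j).card : ℕ) : ℝ) := by
              exact_mod_cast card_biUnion_le
          _ = ∑ j, ((bad j).card : ℝ) := by push_cast; rfl
          _ ≤ ∑ _j : Fin m, t := sum_le_sum fun j _ => hbadc j
          _ = m * t := by rw [sum_const, card_univ, Fintype.card_fin, nsmul_eq_mul]
      have h4 : ((X 0).card : ℝ) ≤ good.card + (univ.biUnion bad).card := by exact_mod_cast h2
      have h5 := hL 0
      linarith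
    set X' : V → Fin m → Finset V := fun v j => (X j.succ).filter
      (fun y => G.Adj v y ↔ H 0 j.succ) with hX'
    have hcount : ∀ v ∈ good, ∏ i ∈ range m, (ε ^ i * (ε * L) / 2) ≤
        ((tup G m (fun i j => H i.succ j.succ) (X' v)).card : ℝ) := by
      intro v hv
      have hv0 : v ∈ X 0 := (mem_sdiff.1 hv).1
      refine ih _ _ _ (fun j => (filter_subset _ _).trans (hX _)) (fun i j hij => ?_)
        (fun j => ?_) ?_ (by positivity)
      · refine disjoint_of_subset_left (filter_subset _ _) (disjoint_of_subset_right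
          (filter_subset _ _) (hd _ _ ?_))
        exact fun h => hij (Fin.succ_injective _ h)
      · have h1 : v ∉ bad j := fun h => (mem_sdiff.1 hv).2 (mem_biUnion.2 ⟨j, mem_univ _, h⟩)
        have h2 : ε * (X j.succ).card < (dg (col G (decide (H 0 j.succ))) v (X j.succ) : ℝ) := by
          by_contra hle
          exact h1 (mem_filter.2 ⟨hv0, not_lt.1 hle⟩)
        have h3 : dg (col G (decide (H 0 j.succ))) v (X j.succ) = (X' v j).card := by
          unfold dg
          rw [hX']
          congr 1
          apply filter_congr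
          intro y hy
          apply col_adj
          rintro rfl
          exact disjoint_left.1 (hd 0 j.succ (Fin.succ_ne_zero j).symm) hv0 hy
        rw [h3] at h2
        have h4 := hL j.succ
        nlinarith
      · push_cast at hm
        have h1 : ε ^ m * (ε * L) = ε ^ (m + 1) * L := by ring
        rw [h1]
        nlinarith
    have hle : ∑ v ∈ good, (tup G m (fun i j => H i.succ j.succ) (X' v)).card ≤
        (tup G (m + 1) H X).card := by
      rw [← card_sigma]
      refine card_le_card_of_injOn (fun p => Fin.cons p.1 p.2) ?_ ?_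
      · rintro ⟨v, f⟩ hp
        simp only [coe_sigma, Set.mem_sigma_iff, mem_coe] at hp
        obtain ⟨hv, hf⟩ := hp
        unfold tup at hf ⊢
        rw [mem_filter] at hf
        obtain ⟨-, hf1, hf2⟩ := hf
        simp only [coe_filter, mem_univ, true_and, Set.mem_ofPred_eq]
        refine ⟨fun i => ?_, fun i j hij => ?_⟩
        · refine Fin.cases ?_ (fun i => ?_) i
          · rw [Fin.cons_zero]
            exact (mem_sdiff.1 hv).1
          · rw [Fin.cons_succ]
            exact (mem_filter.1 (hf1 i)).1
        · revert hij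
          refine Fin.cases ?_ (fun j => ?_) j
          · intro hij
            exact absurd hij (Fin.not_lt_zero _)
          · refine Fin.cases ?_ (fun i => ?_) i
            · intro _
              rw [Fin.cons_zero, Fin.cons_succ]
              exact (mem_filter.1 (hf1 j)).2
            · intro hij
              rw [Fin.cons_succ, Fin.cons_succ]
              exact hf2 i j (Fin.succ_lt_succ_iff.1 hij)
      · rintro ⟨v, f⟩ - ⟨v', f'⟩ - h
        simp only at h
        have h1 : v = v' := by
          have := congrFun h 0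
          rwa [Fin.cons_zero, Fin.cons_zero] at this
        have h2 : f = f' := by
          funext i
          have := congrFun h i.succ
          rwa [Fin.cons_succ, Fin.cons_succ] at this
        rw [h1, h2]
    have hP : 0 ≤ ∏ i ∈ range m, (ε ^ i * (ε * L) / 2) := prod_nonneg fun i _ => by positivity
    calc ∏ i ∈ range (m + 1), (ε ^ i * L / 2)
        = (∏ i ∈ range m, (ε ^ i * (ε * L) / 2)) * (L / 2) := by
          rw [prod_range_succ']
          congr 1
          · refine prod_congr rfl fun i _ => ?_
            ring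
          · ring
      _ ≤ (∏ i ∈ range m, (ε ^ i * (ε * L) / 2)) * good.card :=
          mul_le_mul_of_nonneg_left hgoodc hP
      _ = ∑ _v ∈ good, ∏ i ∈ range m, (ε ^ i * (ε * L) / 2) := by
          rw [sum_const, nsmul_eq_mul, mul_comm]
      _ ≤ ∑ v ∈ good, ((tup G m (fun i j => H i.succ j.succ) (X' v)).card : ℝ) :=
          sum_le_sum hcount
      _ = ((∑ v ∈ good, (tup G m (fun i j => H i.succ j.succ) (X' v)).card : ℕ) : ℝ) := by
          push_cast; rfl
      _ ≤ _ := by exact_mod_cast hle

lemma tup_le (G : SimpleGraph V) {m : ℕ} (H : SimpleGraph (Fin m)) (X : Fin m → Finset V)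
    (hd : ∀ i j, i ≠ j → Disjoint (X i) (X j)) :
    (tup G m H.Adj X).card ≤ Nat.card (H ↪g G) := by
  have hfin : Finite (H ↪g G) :=
    Finite.of_injective (fun f : H ↪g G => (f : Fin m → V)) DFunLike.coe_injective
  have key : ∀ f : {f // f ∈ tup G m H.Adj X}, ∃ g : H ↪g G, (g : Fin m → V) = f.1 := by
    rintro ⟨f, hf⟩
    unfold tup at hf
    rw [mem_filter] at hf
    obtain ⟨-, hf1, hf2⟩ := hf
    have hinj : Function.Injective f := by
      intro i j hij
      by_contra hne
      exact disjoint_left.1 (hd i j hne) (hf1 i) (hij ▸ hf1 j)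
    refine ⟨⟨⟨f, hinj⟩, ?_⟩, rfl⟩
    intro i j
    change G.Adj (f i) (f j) ↔ H.Adj i j
    rcases lt_trichotomy i j with h | h | h
    · exact hf2 i j h
    · subst h; simp
    · rw [G.adj_comm, H.adj_comm]
      exact hf2 j i h
  choose g hg using key
  have hginj : Function.Injective g := by
    intro a b hab
    apply Subtype.ext
    rw [← hg a, ← hg b, hab]
  have := Nat.card_le_card_of_injective g hginj
  rwa [Nat.card_eq_fintype_card, Fintype.card_coe] at this

/-- disjoint subsets of equal size -/
lemma parts (L : ℕ) : ∀ (m : ℕ) (S : Finset V), m * L ≤ S.card →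
    ∃ X : Fin m → Finset V, (∀ i, X i ⊆ S) ∧ (∀ i j, i ≠ j → Disjoint (X i) (X j)) ∧
      ∀ i, (X i).card = L := by
  intro m
  induction m with
  | zero => exact fun S _ => ⟨fun i => i.elim0, fun i => i.elim0, fun i => i.elim0,
      fun i => i.elim0⟩
  | succ m ih =>
    intro S hS
    have h1 : L ≤ S.card := by nlinarith
    obtain ⟨T, hT, hTc⟩ := exists_subset_card_eq h1
    obtain ⟨X, hX, hd, hc⟩ := ih (S \ T) (by
      have := le_card_sdiff T S
      have h3 : (m + 1) * L = m * L + L := by ring
      omega)
    refine ⟨Fin.cons T X, ?_, ?_, ?_⟩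
    · intro i
      refine Fin.cases ?_ (fun i => ?_) i
      · rw [Fin.cons_zero]; exact hT
      · rw [Fin.cons_succ]; exact (hX i).trans sdiff_subset
    · have key : ∀ i, Disjoint T (X i) := fun i =>
        disjoint_of_subset_right (hX i) disjoint_sdiff
      intro i j
      refine Fin.cases ?_ (fun i => ?_) i <;> refine Fin.cases ?_ (fun j => ?_) j
      · intro h; exact absurd rfl h
      · intro _; rw [Fin.cons_zero, Fin.cons_succ]; exact key j
      · intro _; rw [Fin.cons_zero, Fin.cons_succ]; exact (key i).symm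
      · intro h
        rw [Fin.cons_succ, Fin.cons_succ]
        exact hd i j fun e => h (by rw [e])
    · intro i
      refine Fin.cases ?_ (fun i => ?_) i
      · rw [Fin.cons_zero]; exact hTc
      · rw [Fin.cons_succ]; exact hc i

/-- counting in a set without thin pairs -/
lemma count (G : SimpleGraph V) {ε Q : ℝ} (hε0 : 0 < ε) (hε1 : ε ≤ 1) (hQ : 0 < Q)
    {S : Finset V} (hS : ¬ HasThin G ε (S.card / Q) S) {m : ℕ} (hm : 1 ≤ m)
    (hmS : 2 * m ≤ S.card) (hmQ : 4 * (m : ℝ) ^ 2 ≤ ε ^ m * Q) (H : SimpleGraph (Fin m)) :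
    (ε ^ m * S.card / (4 * m)) ^ m ≤ (Nat.card (H ↪g G) : ℝ) := by
  set L := S.card / m with hLdef
  have hmL : m * L ≤ S.card := Nat.mul_div_le _ _
  have hL2 : (S.card : ℝ) / (2 * m) ≤ L := by
    have h1 : S.card < m * (L + 1) := by
      rw [hLdef]
      exact Nat.lt_mul_div_succ _ (by omega)
    have h2 : 2 ≤ L := by
      rw [hLdef, Nat.le_div_iff_mul_le (by omega)]
      exact hmS
    have hm0 : (0 : ℝ) < m := by exact_mod_cast hm
    rw [div_le_iff₀ (by positivity)]
    have h3 : (S.card : ℝ) < m * (L + 1) := by exact_mod_cast h1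
    have h4 : (2 : ℝ) ≤ L := by exact_mod_cast h2
    nlinarith
  obtain ⟨X, hX, hd, hc⟩ := parts L m S hmL
  have hm0 : (0 : ℝ) < m := by exact_mod_cast hm
  have hεm : 0 < ε ^ m := by positivity
  have hS0 : (0 : ℝ) < S.card := by
    have : 0 < S.card := by omega
    exact_mod_cast this
  have h1 := emb G hε0 hε1 (t := S.card / Q) (by positivity) hS m H.Adj L X hX hd
    (fun i => by rw [hc]) (by
      have h2 : 2 * (m : ℝ) * (S.card / Q) ≤ ε ^ m * (S.card / (2 * m)) := by
        rw [← sub_nonneg]
        have : ε ^ m * ((S.card : ℝ) / (2 * m)) - 2 * m * (S.card / Q) =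
            (S.card : ℝ) * (ε ^ m * Q - 4 * m ^ 2) / (2 * m * Q) := by
          field_simp
          ring
        rw [this]
        have : 0 ≤ ε ^ m * Q - 4 * (m : ℝ) ^ 2 := by linarith
        positivity
      exact h2.trans (mul_le_mul_of_nonneg_left hL2 hεm.le)) (Nat.cast_nonneg _)
  have h2 : ((tup G m H.Adj X).card : ℝ) ≤ (Nat.card (H ↪g G) : ℝ) := by
    exact_mod_cast tup_le G H X hd
  refine le_trans ?_ (h1.trans h2)
  calc (ε ^ m * S.card / (4 * m)) ^ m = ∏ _i ∈ range m, (ε ^ m * S.card / (4 * m)) := by
        rw [prod_const, card_range]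
    _ ≤ ∏ i ∈ range m, (ε ^ i * L / 2) := by
        refine prod_le_prod (fun i _ => by positivity) fun i hi => ?_
        rw [mem_range] at hi
        have h3 : ε ^ m ≤ ε ^ i := pow_le_pow_of_le_one hε0.le hε1 hi.le
        calc ε ^ m * S.card / (4 * m) = ε ^ m * (S.card / (2 * m)) / 2 := by
              field_simp
              ring
          _ ≤ ε ^ m * L / 2 := by gcongr
          _ ≤ ε ^ i * L / 2 := by gcongr

end Pool.Agent.X79.CU
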