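import Mathlib

/-!
# Large totally isotropic subsets for alternating matrices over `F_2`
-/

namespace Pool.Agent.X79.MR

open Finset Matrix

abbrev F2 : Type := ZMod 2

lemma F2_cases (a : F2) : a = 0 ∨ a = 1 := by
  revert a; decide

lemma F2_add_self (a : F2) : a + a = 0 := by
  revert a; decide

set_option linter.unusedSectionVars false

variable {V : Type} [Fintype V] [DecidableEq V]

/-- dimension of the kernel -/
noncomputable def kd (A : Matrix V V F2) : ℕ := Module.finrank F2 (LinearMap.ker A.mulVecLin)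

lemma mem_ker {A : Matrix V V F2} {c : V → F2} :
    c ∈ LinearMap.ker A.mulVecLin ↔ A *ᵥ c = 0 := by
  rw [LinearMap.mem_ker, mulVecLin_apply]

lemma kd_le (A : Matrix V V F2) : kd A ≤ Fintype.card V := by
  have := Submodule.finrank_le (LinearMap.ker A.mulVecLin)
  rwa [Module.finrank_fintype_fun_eq_card] at this

/-- alternating matrices -/
def Alt (A : Matrix V V F2) : Prop := A.IsSymm ∧ ∀ x, A x x = 0

lemma alt_quad {A : Matrix V V F2} (hA : Alt A) (c : V → F2) : c ⬝ᵥ (A *ᵥ c) = 0 := by
  have h1 : c ⬝ᵥ (A *ᵥ c) = ∑ x, ∑ y, c x * (A x y * c y) := by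
    simp only [dotProduct, mulVec, mul_sum]
  rw [h1]
  -- pair up
  have h2 : ∀ (s : Finset V), ∑ x ∈ s, ∑ y ∈ s, c x * (A x y * c y) = 0 := by
    intro s
    induction s using Finset.induction_on with
    | empty => simp
    | insert a s ha ih =>
      rw [sum_insert ha, sum_insert ha]
      have h3 : ∀ x ∈ s, ∑ y ∈ insert a s, c x * (A x y * c y) =
          c x * (A x a * c a) + ∑ y ∈ s, c x * (A x y * c y) := fun x _ => sum_insert ha
      rw [sum_congr rfl h3, sum_add_distrib, ih, hA.2 a]
      have h4 : ∑ y ∈ s, c a * (A a y * c y) = ∑ x ∈ s, c x * (A x a * c a) := by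
        refine sum_congr rfl fun y _ => ?_
        rw [hA.1.apply y a]
        ring
      rw [h4]
      simp only [zero_mul, mul_zero, zero_add, add_zero]
      exact F2_add_self _
  exact h2 univ

/-- the reduced matrix -/
def red (A : Matrix V V F2) (a : V → F2) (y : V) : Matrix V V F2 :=
  fun u v => A u v + a u * A y v + A y u * a v

lemma red_alt {A : Matrix V V F2} (hA : Alt A) (a : V → F2) (y : V) : Alt (red A a y) := by
  constructor
  · ext u v
    simp only [transpose_apply, red]
    rw [hA.1.apply u v]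
    ring
  · intro x
    simp only [red]
    rw [hA.2 x, zero_add, mul_comm (A y x)]
    exact F2_add_self _

lemma red_mulVec (A : Matrix V V F2) (a z : V → F2) (y : V) :
    (red A a y) *ᵥ z = fun u => (A *ᵥ z) u + a u * (A *ᵥ z) y + A y u * (a ⬝ᵥ z) := by
  funext u
  simp only [mulVec, dotProduct, red, mul_sum, ← sum_add_distrib]
  refine sum_congr rfl fun v _ => ?_
  ring

lemma red_kd {A : Matrix V V F2} (hA : Alt A) (c : V → F2) (y : V) (hy : (A *ᵥ c) y = 1) :
    kd A + 2 ≤ kd (red A (A *ᵥ c) y) := by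
  set a := A *ᵥ c with ha
  set K := LinearMap.ker A.mulVecLin with hK
  set K' := LinearMap.ker (red A a y).mulVecLin with hK'
  have hsymm : ∀ z : V → F2, a ⬝ᵥ z = c ⬝ᵥ (A *ᵥ z) := by
    intro z
    rw [ha, dotProduct_mulVec, ← mulVec_transpose, hA.1]
  have h1 : K ≤ K' := by
    intro z hz
    rw [hK, mem_ker] at hz
    rw [hK', mem_ker, red_mulVec, hsymm, hz]
    funext u
    simp
  have hc : c ∈ K' := by
    rw [hK', mem_ker, red_mulVec, hsymm, alt_quad hA c, ← ha]
    funext u
    rw [hy]
    simp only [mul_one, mul_zero, add_zero, Pi.zero_apply]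
    exact F2_add_self _
  have hcol : ∀ u, (A *ᵥ (Pi.single y 1)) u = A y u := by
    intro u
    rw [mulVec_single_one]
    exact hA.1.apply y u
  have hey : (Pi.single y 1 : V → F2) ∈ K' := by
    rw [hK', mem_ker, red_mulVec]
    funext u
    rw [hcol u, hcol y, hA.2 y, dotProduct_single, hy]
    simp only [mul_zero, add_zero, mul_one, Pi.zero_apply]
    exact F2_add_self _
  have hcK : c ∉ K := by
    intro h
    rw [hK, mem_ker] at h
    rw [← ha] at h
    rw [h] at hy
    simp at hy
  have heK : (Pi.single y 1 : V → F2) ∉ K ⊔ Submodule.span F2 {c} := by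
    intro h
    rw [Submodule.mem_sup] at h
    obtain ⟨z, hz, w, hw, hzw⟩ := h
    rw [Submodule.mem_span_singleton] at hw
    obtain ⟨t, rfl⟩ := hw
    rw [hK, mem_ker] at hz
    have h2 : A *ᵥ (Pi.single y 1) = t • a := by
      rw [← hzw, mulVec_add, hz, zero_add, mulVec_smul]
    have h3 := congrFun h2 y
    rw [hcol y, hA.2 y, Pi.smul_apply, hy, smul_eq_mul, mul_one] at h3
    rw [← h3, zero_smul] at h2
    -- row y is zero
    have h4 : a y = 0 := by
      rw [ha]
      unfold mulVec dotProduct
      apply sum_eq_zero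
      intro v _
      have h5 := congrFun h2 v
      rw [hcol v] at h5
      have h6 : A y v = 0 := h5
      change A y v * c v = 0
      rw [h6, zero_mul]
    rw [hy] at h4
    exact one_ne_zero h4
  have l1 : K < K ⊔ Submodule.span F2 {c} := by
    refine lt_of_le_of_ne le_sup_left fun h => hcK ?_
    rw [h]
    exact Submodule.mem_sup_right (Submodule.mem_span_singleton_self c)
  have l2 : K ⊔ Submodule.span F2 {c} < (K ⊔ Submodule.span F2 {c}) ⊔
      Submodule.span F2 {(Pi.single y 1 : V → F2)} := by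
    refine lt_of_le_of_ne le_sup_left fun h => heK ?_
    rw [h]
    exact Submodule.mem_sup_right (Submodule.mem_span_singleton_self _)
  have l3 : (K ⊔ Submodule.span F2 {c}) ⊔ Submodule.span F2 {(Pi.single y 1 : V → F2)} ≤ K' := by
    refine sup_le (sup_le h1 ?_) ?_
    · rw [Submodule.span_singleton_le_iff_mem]; exact hc
    · rw [Submodule.span_singleton_le_iff_mem]; exact hey
  have f1 := Submodule.finrank_lt_finrank_of_lt l1
  have f2 := Submodule.finrank_lt_finrank_of_lt l2
  have f3 := Submodule.finrank_mono l3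
  unfold kd
  rw [← hK, ← hK']
  omega

/-- averaging over `c` -/
lemma exists_c (A : Matrix V V F2) (S : Finset V) (r : ℕ) (hr : kd A + r = Fintype.card V)
    (hr1 : 1 ≤ r) : ∃ c : V → F2, A *ᵥ c ≠ 0 ∧
      S.card * (2 ^ r - 2) ≤ 2 * (S.filter (fun x => (A *ᵥ c) x = 0)).card * (2 ^ r - 1) := by
  classical
  set κ : ℕ := 2 ^ kd A with hκ
  have hcardF : Fintype.card (V → F2) = 2 ^ r * κ := by
    rw [Fintype.card_fun, ZMod.card, ← hr, pow_add, mul_comm]
  set Kf : Finset (V → F2) := univ.filter (fun c => A *ᵥ c = 0) with hKf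
  have hKcard : Kf.card = κ := by
    have h1 : Nat.card (LinearMap.ker A.mulVecLin) = 2 ^ kd A := by
      have := Module.natCard_eq_pow_finrank (K := F2) (V := LinearMap.ker A.mulVecLin)
      rw [this, Nat.card_zmod]
      rfl
    rw [hκ, ← h1, hKf, Nat.card_eq_fintype_card, Fintype.card_subtype]
    congr 1
    ext c
    simp
  -- half of the vectors
  have hhalf : ∀ x : V, 2 ^ r * κ ≤ 2 * (univ.filter (fun c : V → F2 => (A *ᵥ c) x = 0)).card := by
    intro x
    by_cases h : ∃ c0 : V → F2, (A *ᵥ c0) x = 1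
    · obtain ⟨c0, hc0⟩ := h
      have h1 : (univ.filter (fun c : V → F2 => ¬ (A *ᵥ c) x = 0)).card =
          (univ.filter (fun c : V → F2 => (A *ᵥ c) x = 0)).card := by
        apply card_bij (fun c _ => c + c0)
        · intro c hc
          rw [mem_filter] at hc ⊢
          refine ⟨mem_univ _, ?_⟩
          rw [mulVec_add, Pi.add_apply, hc0]
          rcases F2_cases ((A *ᵥ c) x) with h | h
          · exact absurd h hc.2
          · rw [h]; decide
        · intro c _ c' _ h
          exact add_right_cancel h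
        · intro c hc
          rw [mem_filter] at hc
          refine ⟨c + c0, ?_, ?_⟩
          · rw [mem_filter]
            refine ⟨mem_univ _, ?_⟩
            rw [mulVec_add, Pi.add_apply, hc0, hc.2]
            decide
          · funext z
            simp only [Pi.add_apply]
            rw [add_assoc, F2_add_self, add_zero]
      have h2 := card_filter_add_card_filter_not (s := (univ : Finset (V → F2)))
        (fun c : V → F2 => (A *ᵥ c) x = 0)
      rw [h1, card_univ, hcardF] at h2
      omega
    · push Not at h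
      have h1 : (univ.filter (fun c : V → F2 => (A *ᵥ c) x = 0)) = univ := by
        rw [filter_eq_self]
        intro c _
        rcases F2_cases ((A *ᵥ c) x) with h' | h'
        · exact h'
        · exact absurd h' (h c)
      rw [h1, card_univ, hcardF]
      omega
  have hhalf' : ∀ x : V, (2 ^ r - 2) * κ ≤
      2 * (univ.filter (fun c : V → F2 => ¬ A *ᵥ c = 0 ∧ (A *ᵥ c) x = 0)).card := by
    intro x
    have h1 : (univ.filter (fun c : V → F2 => (A *ᵥ c) x = 0)).card =
        Kf.card + (univ.filter (fun c : V → F2 => ¬ A *ᵥ c = 0 ∧ (A *ᵥ c) x = 0)).card := by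
      rw [hKf, ← card_union_of_disjoint]
      · congr 1
        ext c
        simp only [mem_filter, mem_univ, true_and, mem_union]
        constructor
        · intro h
          by_cases h2 : A *ᵥ c = 0
          · exact Or.inl h2
          · exact Or.inr ⟨h2, h⟩
        · rintro (h | h)
          · rw [h]; rfl
          · exact h.2
      · rw [disjoint_filter]
        rintro c - h1 ⟨h2, -⟩
        exact h2 h1
    have h2 := hhalf x
    rw [h1, hKcard] at h2
    rw [Nat.sub_mul]
    omega
  by_contra hcon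
  push Not at hcon
  -- sum over the c outside the kernel
  have hN : (univ.filter (fun c : V → F2 => ¬ A *ᵥ c = 0)).card = (2 ^ r - 1) * κ := by
    have h2 := card_filter_add_card_filter_not (s := (univ : Finset (V → F2)))
      (fun c : V → F2 => A *ᵥ c = 0)
    rw [card_univ, hcardF, ← hKf, hKcard] at h2
    rw [Nat.sub_mul, one_mul]
    omega
  have hκpos : 0 < κ := by rw [hκ]; positivity
  have hr2 : 2 ≤ 2 ^ r := by
    calc 2 = 2 ^ 1 := (pow_one 2).symm
      _ ≤ 2 ^ r := Nat.pow_le_pow_right (by norm_num) hr1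
  have hne : (univ.filter (fun c : V → F2 => ¬ A *ᵥ c = 0)).Nonempty := by
    rw [← card_pos, hN]
    exact Nat.mul_pos (by omega) hκpos
  have hlt : ∑ c ∈ univ.filter (fun c : V → F2 => ¬ A *ᵥ c = 0),
      (2 * (S.filter (fun x => (A *ᵥ c) x = 0)).card * (2 ^ r - 1)) <
      ∑ _c ∈ univ.filter (fun c : V → F2 => ¬ A *ᵥ c = 0), (S.card * (2 ^ r - 2)) := by
    apply sum_lt_sum_of_nonempty hne
    intro c hc
    rw [mem_filter] at hc
    exact hcon c hc.2
  rw [sum_const, hN, smul_eq_mul, ← sum_mul, ← mul_sum] at hlt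
  have hdc : ∑ c ∈ univ.filter (fun c : V → F2 => ¬ A *ᵥ c = 0),
      (S.filter (fun x => (A *ᵥ c) x = 0)).card =
      ∑ x ∈ S, (univ.filter (fun c : V → F2 => ¬ A *ᵥ c = 0 ∧ (A *ᵥ c) x = 0)).card := by
    have h := sum_card_bipartiteAbove_eq_sum_card_bipartiteBelow
      (s := univ.filter (fun c : V → F2 => ¬ A *ᵥ c = 0)) (t := S)
      (fun (c : V → F2) (x : V) => (A *ᵥ c) x = 0)
    unfold bipartiteAbove bipartiteBelow at h
    rw [h]
    refine sum_congr rfl fun x _ => ?_
    rw [filter_filter]
  rw [hdc] at hlt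
  have hge : S.card * ((2 ^ r - 2) * κ) ≤
      2 * ∑ x ∈ S, (univ.filter (fun c : V → F2 => ¬ A *ᵥ c = 0 ∧ (A *ᵥ c) x = 0)).card := by
    rw [mul_sum, ← smul_eq_mul, ← sum_const]
    exact sum_le_sum fun x _ => hhalf' x
  have h5 : S.card * ((2 ^ r - 2) * κ) * (2 ^ r - 1) ≤
      2 * (∑ x ∈ S, (univ.filter (fun c : V → F2 => ¬ A *ᵥ c = 0 ∧ (A *ᵥ c) x = 0)).card)
        * (2 ^ r - 1) := Nat.mul_le_mul_right _ hge
  have h6 : S.card * ((2 ^ r - 2) * κ) * (2 ^ r - 1) =
      (2 ^ r - 1) * κ * (S.card * (2 ^ r - 2)) := by ring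
  omega

/-- **Large totally isotropic subsets.** If `A` is alternating of rank at most `2 d + 1` (hence at
most `2 d`), every set `S` of indices contains a set `T` with `A x y = 0` on `T × T` and
`|S| (4 ^ d + 1) ≤ 4 ^ d 2 ^ (d + 1) |T|`. -/
theorem isotropic (d : ℕ) : ∀ (A : Matrix V V F2), Alt A → Fintype.card V ≤ kd A + (2 * d + 1) →
    ∀ S : Finset V, ∃ T ⊆ S, (∀ x ∈ T, ∀ y ∈ T, A x y = 0) ∧
      S.card * (4 ^ d + 1) ≤ 4 ^ d * 2 ^ (d + 1) * T.card := by
  classical
  induction d with
  | zero =>
    intro A hA hr S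
    refine ⟨S, Subset.rfl, fun x _ y _ => ?_, by simp; omega⟩
    by_contra hxy
    have h1 : A x y = 1 := by
      rcases F2_cases (A x y) with h | h
      · exact absurd h hxy
      · exact h
    have h2 : (A *ᵥ (Pi.single y 1)) x = 1 := by
      rw [mulVec_single_one]
      exact h1
    have h3 := red_kd hA (Pi.single y 1) x h2
    have h4 := kd_le (red A (A *ᵥ (Pi.single y 1)) x)
    omega
  | succ d ih =>
    intro A hA hr S
    by_cases hsmall : Fintype.card V ≤ kd A + (2 * d + 1)
    · obtain ⟨T, hT, h1, h2⟩ := ih A hA hsmall S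
      refine ⟨T, hT, h1, ?_⟩
      have h3 : 8 * (S.card * (4 ^ d + 1)) ≤ 8 * (4 ^ d * 2 ^ (d + 1) * T.card) :=
        Nat.mul_le_mul_left 8 h2
      have h4 : 8 * (4 ^ d * 2 ^ (d + 1) * T.card) = 4 ^ (d + 1) * 2 ^ (d + 1 + 1) * T.card := by
        ring
      rw [h4] at h3
      refine le_trans ?_ h3
      have h5 : 8 * (S.card * (4 ^ d + 1)) = S.card * (8 * 4 ^ d + 8) := by ring
      rw [h5, pow_succ]
      apply Nat.mul_le_mul_left
      omega
    · push Not at hsmall
      obtain ⟨r, hrr⟩ : ∃ r, kd A + r = Fintype.card V := ⟨Fintype.card V - kd A, by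
        have := kd_le A
        omega⟩
      obtain ⟨c, hc, hcS⟩ := exists_c A S r hrr (by omega)
      obtain ⟨y, hy⟩ : ∃ y, (A *ᵥ c) y = 1 := by
        by_contra hcon
        push Not at hcon
        apply hc
        funext y
        rcases F2_cases ((A *ᵥ c) y) with h | h
        · exact h
        · exact absurd h (hcon y)
      have hkd := red_kd hA c y hy
      obtain ⟨T, hT, h1, h2⟩ := ih (red A (A *ᵥ c) y) (red_alt hA _ y) (by omega)
        (S.filter (fun x => (A *ᵥ c) x = 0))
      refine ⟨T, hT.trans (filter_subset _ _), ?_, ?_⟩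
      · intro u hu v hv
        have h3 := h1 u hu v hv
        have h4 := (mem_filter.1 (hT hu)).2
        have h5 := (mem_filter.1 (hT hv)).2
        simp only [red] at h3
        rw [h4, h5, zero_mul, mul_zero, add_zero, add_zero] at h3
        exact h3
      · set s := (S.filter (fun x => (A *ᵥ c) x = 0)).card with hs
        set R := 2 ^ r with hR
        have hRd : 4 * 4 ^ d ≤ R := by
          calc 4 * 4 ^ d = 2 ^ (2 * d + 2) := by
                rw [pow_add, pow_mul]; norm_num; ring
            _ ≤ 2 ^ r := Nat.pow_le_pow_right (by norm_num) (by omega)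
        set Q := 4 ^ d with hQ
        have hQ1 : 1 ≤ Q := Nat.one_le_pow _ _ (by norm_num)
        set P := 2 ^ (d + 1) with hP
        set σ := S.card with hσ
        set τ := T.card with hτ
        have h4 : (4 : ℕ) ^ (d + 1) = 4 * Q := by rw [pow_succ]; ring
        have h5 : (2 : ℕ) ^ (d + 1 + 1) = 2 * P := by rw [pow_succ]; ring
        rw [h4, h5]
        -- σ (R - 2) ≤ 2 s (R - 1), s (Q + 1) ≤ Q P τ
        obtain ⟨R', hR'⟩ : ∃ R', R = R' + 2 := ⟨R - 2, by omega⟩
        have e1 : R' + 2 - 2 = R' := by omega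
        have e2 : R' + 2 - 1 = R' + 1 := by omega
        rw [hR', e1, e2] at hcS
        rw [hR'] at hRd
        have h6 : σ * R' * (Q + 1) ≤ 2 * (R' + 1) * (Q * P * τ) := by
          calc σ * R' * (Q + 1) ≤ 2 * s * (R' + 1) * (Q + 1) := Nat.mul_le_mul_right _ hcS
            _ = 2 * (R' + 1) * (s * (Q + 1)) := by ring
            _ ≤ 2 * (R' + 1) * (Q * P * τ) := Nat.mul_le_mul_left _ h2
        have h7 : (4 * Q + 1) * (R' + 1) ≤ 4 * R' * (Q + 1) := by nlinarith
        have h8 : σ * (4 * Q + 1) * (R' + 1) ≤ 4 * Q * (2 * P) * τ * (R' + 1) := by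
          calc σ * (4 * Q + 1) * (R' + 1) = σ * ((4 * Q + 1) * (R' + 1)) := by ring
            _ ≤ σ * (4 * R' * (Q + 1)) := Nat.mul_le_mul_left _ h7
            _ = 4 * (σ * R' * (Q + 1)) := by ring
            _ ≤ 4 * (2 * (R' + 1) * (Q * P * τ)) := Nat.mul_le_mul_left _ h6
            _ = 4 * Q * (2 * P) * τ * (R' + 1) := by ring
        exact Nat.le_of_mul_le_mul_right h8 (by omega)

end Pool.Agent.X79.MR
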