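import Mathlib
import Pool.Agent.X79.MinU

/-!
# The `F_2`-minrank of a colouring without large monochromatic cliques: upper bound for `n`
-/

namespace Pool.Agent.X79.MR

open Finset Matrix

/-- the matrix `M` fits the graph `G` -/
def Fits {V : Type} (G : SimpleGraph V) (M : Matrix V V (ZMod 2)) : Prop :=
  M.IsSymm ∧ ∀ x y, x ≠ y → (M x y = 1 ↔ G.Adj x y)

lemma rank_kd {V : Type} [Fintype V] [DecidableEq V] (A : Matrix V V F2) :
    A.rank + kd A = Fintype.card V := by
  have h := LinearMap.finrank_range_add_finrank_ker A.mulVecLin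
  rw [Module.finrank_fintype_fun_eq_card] at h
  exact h

lemma rank_add_le' {V : Type} [Fintype V] [DecidableEq V] (A B : Matrix V V F2) :
    (A + B).rank ≤ A.rank + B.rank := by
  unfold Matrix.rank
  have h : LinearMap.range (A + B).mulVecLin ≤
      LinearMap.range A.mulVecLin ⊔ LinearMap.range B.mulVecLin := by
    rintro _ ⟨c, rfl⟩
    rw [mulVecLin_apply, add_mulVec]
    exact Submodule.add_mem_sup ⟨c, rfl⟩ ⟨c, rfl⟩
  exact (Submodule.finrank_mono h).trans (Submodule.finrank_add_le_finrank_add_finrank _ _)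

/-- If a symmetric matrix of rank at most `2 d` fits `G`, and `G` has neither a clique nor an
independent set with `k` elements, then `n ≤ 2 ^ (d + 2) k`. -/
theorem upper {V : Type} [Fintype V] [DecidableEq V] (G : SimpleGraph V) (k d : ℕ)
    (h1 : G.CliqueFree k) (h2 : Gᶜ.CliqueFree k) (M : Matrix V V (ZMod 2)) (hM : Fits G M)
    (hr : M.rank ≤ 2 * d) : Fintype.card V ≤ 2 ^ (d + 2) * k := by
  classical
  set δ : V → F2 := fun x => M x x with hδ
  set A : Matrix V V F2 := M + vecMulVec δ δ with hA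
  have hAij : ∀ x y, A x y = M x y + M x x * M y y := by
    intro x y
    rw [hA, Matrix.add_apply, vecMulVec_apply]
  have halt : Alt A := by
    constructor
    · ext x y
      rw [transpose_apply, hAij, hAij, hM.1.apply x y]
      ring
    · intro x
      rw [hAij]
      rcases F2_cases (M x x) with h | h <;> rw [h] <;> decide
  have hrank : A.rank ≤ 2 * d + 1 := by
    have h3 := rank_add_le' M (vecMulVec δ δ)
    have h4 := Matrix.rank_vecMulVec_le δ δ
    rw [← hA] at h3
    omega
  have hkd := rank_kd A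
  obtain ⟨T0, hT0, h3, h4⟩ := isotropic d A halt (by omega) (univ.filter (fun x => M x x = 0))
  obtain ⟨T1, hT1, h5, h6⟩ := isotropic d A halt (by omega) (univ.filter (fun x => ¬ M x x = 0))
  have hc0 : T0.card < k := by
    by_contra hge
    push Not at hge
    obtain ⟨T, hT, hTc⟩ := exists_subset_card_eq hge
    refine h2 T ⟨fun x hx y hy hxy => ?_, hTc⟩
    rw [SimpleGraph.compl_adj]
    refine ⟨hxy, fun hadj => ?_⟩
    have e1 := (hM.2 x y hxy).2 hadj
    have e2 := h3 x (hT hx) y (hT hy)
    have e3 := (mem_filter.1 (hT0 (hT hx))).2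
    rw [hAij, e1, e3, zero_mul, add_zero] at e2
    exact one_ne_zero e2
  have hc1 : T1.card < k := by
    by_contra hge
    push Not at hge
    obtain ⟨T, hT, hTc⟩ := exists_subset_card_eq hge
    refine h1 T ⟨fun x hx y hy hxy => ?_, hTc⟩
    have e2 := h5 x (hT hx) y (hT hy)
    have e3 := (mem_filter.1 (hT1 (hT hx))).2
    have e4 := (mem_filter.1 (hT1 (hT hy))).2
    have e5 : M x x = 1 := (F2_cases _).resolve_left e3
    have e6 : M y y = 1 := (F2_cases _).resolve_left e4
    rw [hAij, e5, e6] at e2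
    rw [← hM.2 x y hxy]
    rcases F2_cases (M x y) with h | h
    · rw [h] at e2
      exact absurd e2 (by decide)
    · exact h
  have hsum := card_filter_add_card_filter_not (s := (univ : Finset V)) (fun x => M x x = 0)
  rw [card_univ] at hsum
  have key : ∀ S : Finset V, ∀ T : Finset V, T.card < k →
      S.card * (4 ^ d + 1) ≤ 4 ^ d * 2 ^ (d + 1) * T.card → S.card ≤ 2 ^ (d + 1) * k := by
    intro S T hT h
    have e1 : S.card * 4 ^ d ≤ (2 ^ (d + 1) * k) * 4 ^ d := by
      calc S.card * 4 ^ d ≤ S.card * (4 ^ d + 1) := Nat.mul_le_mul_left _ (by omega)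
        _ ≤ 4 ^ d * 2 ^ (d + 1) * T.card := h
        _ ≤ 4 ^ d * 2 ^ (d + 1) * k := Nat.mul_le_mul_left _ hT.le
        _ = (2 ^ (d + 1) * k) * 4 ^ d := by ring
    exact Nat.le_of_mul_le_mul_right e1 (by positivity)
  have k0 := key _ T0 hc0 h4
  have k1 := key _ T1 hc1 h6
  calc Fintype.card V ≤ 2 ^ (d + 1) * k + 2 ^ (d + 1) * k := by omega
    _ = 2 ^ (d + 2) * k := by rw [pow_succ 2 (d + 1)]; ring

end Pool.Agent.X79.MR
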