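import Mathlib
import Pool.Agent.X79.MinU2

/-!
# Counting tuples in a symplectic space over `F_2`
-/

namespace Pool.Agent.X79.MR

open Finset Matrix

/-- the symplectic space of dimension `2 d` -/
abbrev W (d : ℕ) : Type := (Fin d → F2) × (Fin d → F2)

/-- the symplectic form -/
def B {d : ℕ} (x y : W d) : F2 := x.1 ⬝ᵥ y.2 + x.2 ⬝ᵥ y.1

lemma B_self {d : ℕ} (x : W d) : B x x = 0 := by
  unfold B
  rw [dotProduct_comm x.2 x.1]
  exact F2_add_self _

lemma B_comm {d : ℕ} (x y : W d) : B x y = B y x := by
  unfold B
  rw [dotProduct_comm x.1 y.2, dotProduct_comm x.2 y.1, add_comm]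

/-- the symplectic form as a bilinear form -/
def Bf (d : ℕ) : LinearMap.BilinForm F2 (W d) :=
  LinearMap.mk₂ F2 B
    (by
      intro x x' y
      simp only [B, Prod.fst_add, Prod.snd_add, add_dotProduct]
      ring)
    (by
      intro c x y
      simp only [B, Prod.smul_fst, Prod.smul_snd, smul_dotProduct, smul_eq_mul]
      ring)
    (by
      intro x y y'
      simp only [B, Prod.fst_add, Prod.snd_add, dotProduct_add]
      ring)
    (by
      intro c x y
      simp only [B, Prod.smul_fst, Prod.smul_snd, dotProduct_smul, smul_eq_mul]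
      ring)

lemma Bf_apply {d : ℕ} (x y : W d) : Bf d x y = B x y := rfl

lemma Bf_refl (d : ℕ) : (Bf d).IsRefl := by
  intro x y h
  rw [Bf_apply, B_comm] at h
  exact h

lemma Bf_nondeg (d : ℕ) : (Bf d).Nondegenerate := by
  have key : ∀ x : W d, (∀ y, B x y = 0) → x = 0 := by
    intro x h
    refine Prod.ext ?_ ?_
    · funext i
      have := h (0, Pi.single i 1)
      simpa [B] using this
    · funext i
      have := h (Pi.single i 1, 0)
      simpa [B] using this
  constructor
  · intro x h
    exact key x h
  · intro x h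
    exact key x (fun y => by rw [B_comm]; exact h y)

lemma card_W (d : ℕ) : Fintype.card (W d) = 2 ^ (2 * d) := by
  rw [Fintype.card_prod, Fintype.card_fun, Fintype.card_fin, ZMod.card, ← pow_add, two_mul]

lemma finrank_W (d : ℕ) : Module.finrank F2 (W d) = 2 * d := by
  rw [Module.finrank_prod, Module.finrank_fintype_fun_eq_card, Fintype.card_fin, two_mul]

open Classical in
lemma card_submodule {d : ℕ} (U : Submodule F2 (W d)) :
    (univ.filter (fun w : W d => w ∈ U)).card = 2 ^ Module.finrank F2 U := by
  have := Module.natCard_eq_pow_finrank (K := F2) (V := U)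
  rw [Nat.card_zmod, Nat.card_eq_fintype_card, Fintype.card_subtype] at this
  exact this

lemma finrank_orth {d : ℕ} (U : Submodule F2 (W d)) :
    Module.finrank F2 ((Bf d).orthogonal U) = 2 * d - Module.finrank F2 U := by
  rw [LinearMap.BilinForm.finrank_orthogonal (Bf_nondeg d) U, finrank_W]

lemma finrank_le' {d : ℕ} (U : Submodule F2 (W d)) : Module.finrank F2 U ≤ 2 * d := by
  have := Submodule.finrank_le U
  rwa [finrank_W] at this

/-- span of a tuple -/
def sp {d k : ℕ} (x : Fin k → W d) : Submodule F2 (W d) := Submodule.span F2 (Set.range x)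

lemma mem_orth {d k : ℕ} (x : Fin k → W d) (w : W d) :
    w ∈ (Bf d).orthogonal (sp x) ↔ ∀ i, B (x i) w = 0 := by
  rw [LinearMap.BilinForm.mem_orthogonal_iff]
  constructor
  · intro h i
    exact h (x i) (Submodule.subset_span ⟨i, rfl⟩)
  · intro h u hu
    rw [Bf_apply]
    unfold sp at hu
    induction hu using Submodule.span_induction with
    | mem u hu =>
      obtain ⟨i, rfl⟩ := hu
      exact h i
    | zero =>
      have := (Bf d).map_zero
      rw [← Bf_apply, this]; rfl
    | add u v _ _ hu hv =>
      rw [← Bf_apply, map_add, LinearMap.add_apply, Bf_apply, Bf_apply, hu, hv, add_zero]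
    | smul c u _ hu =>
      rw [← Bf_apply, map_smul, LinearMap.smul_apply, Bf_apply, hu, smul_zero]

/-- pairwise orthogonal tuples -/
def Orth {d k : ℕ} (x : Fin k → W d) : Prop := ∀ i j, B (x i) (x j) = 0

lemma orth_finrank {d k : ℕ} (x : Fin k → W d) (hx : Orth x) : Module.finrank F2 (sp x) ≤ d := by
  have h1 : sp x ≤ (Bf d).orthogonal (sp x) := by
    unfold sp
    rw [Submodule.span_le]
    rintro _ ⟨j, rfl⟩
    have := (mem_orth x (x j)).2 (fun i => hx i j)
    exact this
  have h2 := Submodule.finrank_mono h1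
  rw [finrank_orth] at h2
  have h3 := finrank_le' (sp x)
  omega

/-- the exponent of the weight -/
def gw (d m : ℕ) : ℕ := (d + 1 - m).choose 2

lemma gw_succ {d m : ℕ} (hm : m ≤ d) : 2 * d - m + gw d (m + 1) = d + gw d m := by
  unfold gw
  obtain ⟨t, rfl⟩ : ∃ t, d = m + t := ⟨d - m, by omega⟩
  have e1 : m + t + 1 - (m + 1) = t := by omega
  have e2 : m + t + 1 - m = t + 1 := by omega
  have e3 : (t + 1).choose 2 = t + t.choose 2 := by
    rw [Nat.choose_succ_succ' t 1, Nat.choose_one_right]
  rw [e1, e2, e3]
  omega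

lemma sum_cons {d k : ℕ} (f : (Fin (k + 1) → W d) → ℕ) :
    ∑ y, f y = ∑ x : Fin k → W d, ∑ w : W d, f (Fin.cons w x) := by
  rw [← (Fin.consEquiv (fun _ : Fin (k + 1) => W d)).sum_comp, Fintype.sum_prod_type_right]
  rfl

lemma sp_cons {d k : ℕ} (w : W d) (x : Fin k → W d) :
    sp (Fin.cons w x : Fin (k + 1) → W d) = Submodule.span F2 {w} ⊔ sp x := by
  unfold sp
  rw [Fin.range_cons, Set.insert_eq, Submodule.span_union]

lemma finrank_cons_mem {d k : ℕ} (w : W d) (x : Fin k → W d) (hw : w ∈ sp x) :
    sp (Fin.cons w x : Fin (k + 1) → W d) = sp x := by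
  rw [sp_cons]
  apply sup_eq_right.2
  rw [Submodule.span_singleton_le_iff_mem]
  exact hw

lemma finrank_cons_notMem {d k : ℕ} (w : W d) (x : Fin k → W d) (hw : w ∉ sp x) :
    Module.finrank F2 (sp (Fin.cons w x : Fin (k + 1) → W d)) =
      Module.finrank F2 (sp x) + 1 := by
  rw [sp_cons]
  apply le_antisymm
  · have h1 := Submodule.finrank_add_le_finrank_add_finrank (Submodule.span F2 {w}) (sp x)
    have h2 : Module.finrank F2 (Submodule.span F2 {w}) ≤ 1 :=
      (finrank_span_le_card ({w} : Set (W d))).trans (by simp)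
    omega
  · have : sp x < Submodule.span F2 {w} ⊔ sp x := by
      refine lt_of_le_of_ne le_sup_right fun h => hw ?_
      rw [h]
      exact Submodule.mem_sup_left (Submodule.mem_span_singleton_self w)
    exact Submodule.finrank_lt_finrank_of_lt this

open Classical in
/-- the weighted number of orthogonal tuples -/
noncomputable def Ph (d k : ℕ) : ℕ :=
  ∑ x : Fin k → W d, if Orth x then 2 ^ gw d (Module.finrank F2 (sp x)) else 0

lemma Ph_succ (d k : ℕ) : Ph d (k + 1) ≤ 2 ^ (d + 1) * Ph d k := by
  classical
  unfold Ph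
  rw [sum_cons, mul_sum]
  refine sum_le_sum fun x _ => ?_
  by_cases hx : Orth x
  · rw [if_pos hx]
    set m := Module.finrank F2 (sp x) with hm
    have hmd : m ≤ d := orth_finrank x hx
    have h1 : ∀ w : W d, (if Orth (Fin.cons w x : Fin (k + 1) → W d) then
        2 ^ gw d (Module.finrank F2 (sp (Fin.cons w x : Fin (k + 1) → W d))) else 0) ≤
        (if w ∈ sp x then 2 ^ gw d m else 0) +
        (if w ∈ (Bf d).orthogonal (sp x) then 2 ^ gw d (m + 1) else 0) := by
      intro w
      by_cases ho : Orth (Fin.cons w x : Fin (k + 1) → W d)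
      · rw [if_pos ho]
        have ho' : w ∈ (Bf d).orthogonal (sp x) := by
          rw [mem_orth]
          intro i
          have := ho i.succ 0
          simpa using this
        rw [if_pos ho']
        by_cases hw : w ∈ sp x
        · rw [if_pos hw, finrank_cons_mem w x hw]
          exact Nat.le_add_right _ _
        · rw [if_neg hw, finrank_cons_notMem w x hw]
          exact Nat.le_add_left _ _
      · rw [if_neg ho]
        exact Nat.zero_le _
    refine (sum_le_sum fun w _ => h1 w).trans ?_
    rw [sum_add_distrib, ← sum_filter, ← sum_filter, sum_const, sum_const, smul_eq_mul,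
      smul_eq_mul, card_submodule, card_submodule, finrank_orth, ← hm]
    have e1 : 2 ^ (2 * d - m) * 2 ^ gw d (m + 1) = 2 ^ d * 2 ^ gw d m := by
      rw [← pow_add, ← pow_add, gw_succ hmd]
    have e2 : 2 ^ m * 2 ^ gw d m ≤ 2 ^ d * 2 ^ gw d m :=
      Nat.mul_le_mul_right _ (Nat.pow_le_pow_right (by norm_num) hmd)
    rw [e1, pow_succ]
    nlinarith
  · have h1 : ∀ w : W d, ¬ Orth (Fin.cons w x : Fin (k + 1) → W d) := by
      intro w h
      apply hx
      intro i j
      have := h i.succ j.succ
      simpa using this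
    simp [h1, hx]

lemma Ph_le (d k : ℕ) : Ph d k ≤ 2 ^ ((d + 1) * k + (d + 1).choose 2) := by
  induction k with
  | zero =>
    unfold Ph
    have h1 : ∀ x : Fin 0 → W d, sp x = ⊥ := by
      intro x
      unfold sp
      rw [Set.range_eq_empty, Submodule.span_empty]
    rw [Fintype.sum_subsingleton _ (fun i => i.elim0), h1, finrank_bot]
    split_ifs
    · simp [gw]
    · simp
  | succ k ih =>
    calc Ph d (k + 1) ≤ 2 ^ (d + 1) * Ph d k := Ph_succ d k
      _ ≤ 2 ^ (d + 1) * 2 ^ ((d + 1) * k + (d + 1).choose 2) := Nat.mul_le_mul_left _ ih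
      _ = 2 ^ ((d + 1) * (k + 1) + (d + 1).choose 2) := by
          rw [← pow_add]
          congr 1
          ring

/-- all products of different entries are equal to `t` -/
def PT {d k : ℕ} (t : F2) (x : Fin k → W d) : Prop := ∀ i j, i ≠ j → B (x i) (x j) = t

open Classical in
/-- number of tuples with all products of different entries equal to `t` -/
noncomputable def cnt (d k : ℕ) (t : F2) : ℕ :=
  (univ.filter (fun x : Fin k → W d => PT t x)).card

lemma cnt_zero (d k : ℕ) : cnt d k 0 ≤ 2 ^ ((d + 1) * k + (d + 1).choose 2) := by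
  classical
  refine le_trans ?_ (Ph_le d k)
  unfold cnt Ph
  rw [card_filter]
  refine sum_le_sum fun x _ => ?_
  by_cases h : PT 0 x
  · have ho : Orth x := by
      intro i j
      by_cases hij : i = j
      · rw [hij]; exact B_self _
      · exact h i j hij
    rw [if_pos h, if_pos ho]
    exact Nat.one_le_two_pow
  · rw [if_neg h]
    exact Nat.zero_le _

lemma indep {d k : ℕ} (x : Fin k → W d) (hx : ∀ i j, i ≠ j → B (x i) (x j) = 1) (w0 : W d)
    (hw : ∀ i, B (x i) w0 = 1) : LinearIndependent F2 x := by
  rw [Fintype.linearIndependent_iff]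
  intro g hg j
  have h1 : ∀ w : W d, ∑ i, g i * B (x i) w = 0 := by
    intro w
    have := congrArg (fun v => Bf d v w) hg
    simp only [map_sum, LinearMap.sum_apply, map_smul, LinearMap.smul_apply,
      map_zero, LinearMap.zero_apply, Bf_apply, smul_eq_mul] at this
    exact this
  have h2 : ∑ i, g i = 0 := by
    have := h1 w0
    simpa [hw] using this
  have h3 : ∑ i, g i * B (x i) (x j) = ∑ i, g i - g j := by
    rw [← sum_erase_eq_sub (mem_univ j), ← add_sum_erase univ _ (mem_univ j), B_self, mul_zero,
      zero_add]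
    refine sum_congr rfl fun i hi => ?_
    rw [hx i j (ne_of_mem_erase hi), mul_one]
  rw [h1 (x j), h2, zero_sub] at h3
  have := neg_eq_zero.1 h3.symm
  exact this

lemma ext_clique {d k : ℕ} (x : Fin k → W d) (hx : ∀ i j, i ≠ j → B (x i) (x j) = 1) :
    (univ.filter (fun w : W d => ∀ i, B (x i) w = 1)).card * 2 ^ k ≤ 2 ^ (2 * d) := by
  classical
  by_cases hne : (univ.filter (fun w : W d => ∀ i, B (x i) w = 1)).Nonempty
  · obtain ⟨w0, hw0⟩ := hne
    have hw0' : ∀ i, B (x i) w0 = 1 := (mem_filter.1 hw0).2
    have hli := indep x hx w0 hw0'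
    have hfr : Module.finrank F2 (sp x) = k := by
      unfold sp
      rw [finrank_span_eq_card hli, Fintype.card_fin]
    have h1 : (univ.filter (fun w : W d => ∀ i, B (x i) w = 1)).card ≤
        (univ.filter (fun w : W d => w ∈ (Bf d).orthogonal (sp x))).card := by
      apply card_le_card_of_injOn (fun w => w - w0)
      · intro w hw
        simp only [coe_filter, mem_univ, true_and, Set.mem_ofPred_eq] at hw ⊢
        rw [mem_orth]
        intro i
        rw [← Bf_apply, map_sub, Bf_apply, Bf_apply, hw i, hw0' i, sub_self]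
      · intro w _ w' _ h
        exact sub_left_injective h
    rw [card_submodule, finrank_orth, hfr] at h1
    have h2 := finrank_le' (sp x)
    rw [hfr] at h2
    calc _ ≤ 2 ^ (2 * d - k) * 2 ^ k := Nat.mul_le_mul_right _ h1
      _ = 2 ^ (2 * d) := by rw [← pow_add]; congr 1; omega
  · rw [not_nonempty_iff_eq_empty] at hne
    rw [hne, card_empty, zero_mul]
    exact Nat.zero_le _

lemma cnt_one (d k : ℕ) : cnt d k 1 * 2 ^ (k.choose 2) ≤ 2 ^ (2 * d * k) := by
  classical
  induction k with
  | zero => 
    unfold cnt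
    refine le_trans (Nat.mul_le_mul_right _ (card_le_univ _)) ?_
    simp
  | succ k ih =>
    have h1 : cnt d (k + 1) 1 ≤ ∑ x ∈ univ.filter (fun x : Fin k → W d => PT 1 x),
        (univ.filter (fun w : W d => ∀ i, B (x i) w = 1)).card := by
      unfold cnt
      rw [card_filter, sum_cons, sum_filter]
      refine sum_le_sum fun x _ => ?_
      by_cases hx : PT 1 x
      · rw [if_pos hx, card_filter]
        refine sum_le_sum fun w _ => ?_
        by_cases hc : PT 1 (Fin.cons w x : Fin (k + 1) → W d)
        · rw [if_pos hc, if_pos]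
          intro i
          have := hc i.succ 0 (Fin.succ_ne_zero i)
          simpa using this
        · rw [if_neg hc]
          exact Nat.zero_le _
      · rw [if_neg hx]
        apply le_of_eq
        apply sum_eq_zero
        intro w _
        rw [if_neg]
        intro hc
        apply hx
        intro i j hij
        have := hc i.succ j.succ (fun h => hij (Fin.succ_injective _ h))
        simpa using this
    have e1 : (k + 1).choose 2 = k + k.choose 2 := by
      rw [Nat.choose_succ_succ' k 1, Nat.choose_one_right]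
    rw [e1, pow_add]
    calc cnt d (k + 1) 1 * (2 ^ k * 2 ^ k.choose 2)
        ≤ (∑ x ∈ univ.filter (fun x : Fin k → W d => PT 1 x),
          (univ.filter (fun w : W d => ∀ i, B (x i) w = 1)).card) * (2 ^ k * 2 ^ k.choose 2) :=
          Nat.mul_le_mul_right _ h1
      _ = (∑ x ∈ univ.filter (fun x : Fin k → W d => PT 1 x),
          (univ.filter (fun w : W d => ∀ i, B (x i) w = 1)).card * 2 ^ k) * 2 ^ k.choose 2 := by
          rw [sum_mul, sum_mul]
          refine sum_congr rfl fun x _ => ?_
          ring
      _ ≤ (∑ x ∈ univ.filter (fun x : Fin k → W d => PT 1 x),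
          2 ^ (2 * d)) * 2 ^ k.choose 2 := by
          apply Nat.mul_le_mul_right
          apply sum_le_sum
          intro x hx
          exact ext_clique x (mem_filter.1 hx).2
      _ = 2 ^ (2 * d) * (cnt d k 1 * 2 ^ k.choose 2) := by
          rw [sum_const, smul_eq_mul]
          unfold cnt
          ring
      _ ≤ 2 ^ (2 * d) * 2 ^ (2 * d * k) := Nat.mul_le_mul_left _ ih
      _ = 2 ^ (2 * d * (k + 1)) := by rw [← pow_add]; congr 1; ring

end Pool.Agent.X79.MR
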