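import Mathlib
import Pool.Agent.X79.MinL

/-!
# Existence of colourings of small `F_2`-rank
-/

namespace Pool.Agent.X79.MR

open Finset Matrix

lemma restrict_card {d n k : ℕ} (S : Finset (Fin n)) (hS : S.card = k) (t : F2) :
    (univ.filter (fun φ : Fin n → W d => ∀ x ∈ S, ∀ y ∈ S, x ≠ y → B (φ x) (φ y) = t)).card ≤
      cnt d k t * (2 ^ (2 * d)) ^ (n - k) := by
  classical
  set e : Fin k ≃ S := (Finset.equivFinOfCardEq hS).symm with he
  have h1 : Fintype.card ((↥(Sᶜ)) → W d) = (2 ^ (2 * d)) ^ (n - k) := by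
    rw [Fintype.card_fun, card_W, Fintype.card_coe, card_compl, Fintype.card_fin, hS]
  rw [← h1, ← card_univ (α := (↥(Sᶜ)) → W d)]
  unfold cnt
  rw [← card_product]
  apply card_le_card_of_injOn (fun φ => ((fun i => φ (e i).1), (fun z : ↥(Sᶜ) => φ z.1)))
  · intro φ hφ
    simp only [coe_filter, mem_univ, true_and, Set.mem_ofPred_eq] at hφ
    rw [mem_coe, mem_product]
    refine ⟨?_, mem_univ _⟩
    rw [mem_filter]
    refine ⟨mem_univ _, ?_⟩
    intro i j hij
    exact hφ _ (e i).2 _ (e j).2 (fun h => hij (e.injective (Subtype.ext h)))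
  · intro φ _ ψ _ h
    rw [Prod.mk.injEq] at h
    funext x
    by_cases hx : x ∈ S
    · have := congrFun h.1 (e.symm ⟨x, hx⟩)
      simpa using this
    · have := congrFun h.2 ⟨x, mem_compl.2 hx⟩
      simpa using this

lemma two_choose_le (n k : ℕ) (hk : 2 ≤ k) : 2 * n.choose k ≤ n ^ k := by
  have h1 := Nat.descFactorial_eq_factorial_mul_choose n k
  have h2 := Nat.descFactorial_le_pow n k
  have h3 : 2 ≤ k.factorial := by
    calc 2 = Nat.factorial 2 := rfl
      _ ≤ k.factorial := Nat.factorial_le hk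
  calc 2 * n.choose k ≤ k.factorial * n.choose k := Nat.mul_le_mul_right _ h3
    _ = n.descFactorial k := h1.symm
    _ ≤ n ^ k := h2

lemma exp_ineq (d k : ℕ) (hk : 2 ≤ k) : d * k < k.choose 2 + (k + (d + 1).choose 2) := by
  have h1 : k.choose 2 * 2 = k * (k - 1) := by
    rw [Nat.choose_two_right]
    exact Nat.div_mul_cancel (Nat.even_mul_pred_self k).two_dvd
  have h2 : (d + 1).choose 2 * 2 = (d + 1) * d := by
    rw [Nat.choose_two_right, Nat.add_sub_cancel]
    exact Nat.div_mul_cancel (by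
      have := (Nat.even_mul_succ_self d).two_dvd
      rwa [mul_comm] at this)
  obtain ⟨j, rfl⟩ : ∃ j, k = j + 1 := ⟨k - 1, by omega⟩
  rw [Nat.add_sub_cancel] at h1
  zify at *
  nlinarith [sq_nonneg ((d : ℤ) - j), sq_nonneg ((d : ℤ) - (j + 1))]

/-- **Existence.** -/
theorem lower (d k n : ℕ) (hk : 2 ≤ k) (hn : n ^ k * 2 ^ (k + (d + 1).choose 2) ≤ 2 ^ (d * k)) :
    ∃ G : SimpleGraph (Fin n), G.CliqueFree k ∧ Gᶜ.CliqueFree k ∧
      ∃ M : Matrix (Fin n) (Fin n) (ZMod 2), Fits G M ∧ (∀ x, M x x = 0) ∧ M.rank ≤ 2 * d := by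
  classical
  obtain ⟨φ, hφ⟩ : ∃ φ : Fin n → W d, ∀ t : F2, ∀ S : Finset (Fin n), S.card = k →
      ¬ ∀ x ∈ S, ∀ y ∈ S, x ≠ y → B (φ x) (φ y) = t := by
    by_cases hnk : n < k
    · refine ⟨fun _ => 0, fun t S hS => ?_⟩
      have := card_le_univ S
      rw [Fintype.card_fin] at this
      omega
    push Not at hnk
    by_contra hcon
    push Not at hcon
    have hcover : (univ : Finset (Fin n → W d)) ⊆
        (powersetCard k (univ : Finset (Fin n))).biUnion (fun S =>
          (univ.filter (fun φ : Fin n → W d => ∀ x ∈ S, ∀ y ∈ S, x ≠ y → B (φ x) (φ y) = 0)) ∪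
          (univ.filter (fun φ : Fin n → W d => ∀ x ∈ S, ∀ y ∈ S, x ≠ y →
            B (φ x) (φ y) = 1))) := by
      intro φ _
      obtain ⟨t, S, hS, h⟩ := hcon φ
      rw [mem_biUnion]
      refine ⟨S, by rw [mem_powersetCard]; exact ⟨subset_univ _, hS⟩, ?_⟩
      rw [mem_union, mem_filter, mem_filter]
      rcases F2_cases t with rfl | rfl
      · exact Or.inl ⟨mem_univ _, h⟩
      · exact Or.inr ⟨mem_univ _, h⟩
    have h1 := (card_le_card hcover).trans card_biUnion_le
    have h2 : ∑ S ∈ powersetCard k (univ : Finset (Fin n)),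
          ((univ.filter (fun φ : Fin n → W d => ∀ x ∈ S, ∀ y ∈ S, x ≠ y → B (φ x) (φ y) = 0)) ∪
          (univ.filter (fun φ : Fin n → W d => ∀ x ∈ S, ∀ y ∈ S, x ≠ y →
            B (φ x) (φ y) = 1))).card ≤
        n.choose k * ((cnt d k 0 + cnt d k 1) * (2 ^ (2 * d)) ^ (n - k)) := by
      have h3 : ∀ S ∈ powersetCard k (univ : Finset (Fin n)),
          ((univ.filter (fun φ : Fin n → W d => ∀ x ∈ S, ∀ y ∈ S, x ≠ y → B (φ x) (φ y) = 0)) ∪
          (univ.filter (fun φ : Fin n → W d => ∀ x ∈ S, ∀ y ∈ S, x ≠ y →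
            B (φ x) (φ y) = 1))).card ≤ (cnt d k 0 + cnt d k 1) * (2 ^ (2 * d)) ^ (n - k) := by
        intro S hS
        have hSk := (mem_powersetCard.1 hS).2
        refine (card_union_le _ _).trans ?_
        rw [add_mul]
        exact add_le_add (restrict_card S hSk 0) (restrict_card S hSk 1)
      refine (sum_le_sum h3).trans ?_
      rw [sum_const, card_powersetCard, card_univ, Fintype.card_fin, smul_eq_mul]
    have h4 := h1.trans h2
    rw [card_univ, Fintype.card_fun, card_W, Fintype.card_fin] at h4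
    have h5 : (2 ^ (2 * d)) ^ n = (2 ^ (2 * d)) ^ k * (2 ^ (2 * d)) ^ (n - k) := by
      rw [← pow_add]
      congr 1
      omega
    rw [h5, ← mul_assoc] at h4
    have h6 := Nat.le_of_mul_le_mul_right h4 (by positivity)
    -- numerics
    have hC := two_choose_le n k hk
    have e0 := cnt_zero d k
    have e1 := cnt_one d k
    have hx := exp_ineq d k hk
    have a0 : 2 * n.choose k * cnt d k 0 ≤ 2 ^ (2 * d * k) := by
      calc 2 * n.choose k * cnt d k 0 ≤ n ^ k * 2 ^ ((d + 1) * k + (d + 1).choose 2) :=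
            Nat.mul_le_mul hC e0
        _ = (n ^ k * 2 ^ (k + (d + 1).choose 2)) * 2 ^ (d * k) := by
            rw [mul_assoc, ← pow_add]
            congr 2
            ring
        _ ≤ 2 ^ (d * k) * 2 ^ (d * k) := Nat.mul_le_mul_right _ hn
        _ = 2 ^ (2 * d * k) := by rw [← pow_add]; congr 1; ring
    have hn2 : n ^ k < 2 ^ k.choose 2 := by
      by_contra hge
      push Not at hge
      have : 2 ^ (k.choose 2) * 2 ^ (k + (d + 1).choose 2) ≤ 2 ^ (d * k) :=
        (Nat.mul_le_mul_right _ hge).trans hn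
      rw [← pow_add] at this
      have := (Nat.pow_le_pow_iff_right (by norm_num : 1 < 2)).1 this
      omega
    have a1 : 2 * n.choose k * cnt d k 1 < 2 ^ (2 * d * k) := by
      have h7 : 2 * n.choose k * cnt d k 1 * 2 ^ k.choose 2 < 2 ^ (2 * d * k) * 2 ^ k.choose 2 := by
        calc 2 * n.choose k * cnt d k 1 * 2 ^ k.choose 2
            = 2 * n.choose k * (cnt d k 1 * 2 ^ k.choose 2) := by ring
          _ ≤ n ^ k * 2 ^ (2 * d * k) := Nat.mul_le_mul hC e1
          _ < 2 ^ k.choose 2 * 2 ^ (2 * d * k) := Nat.mul_lt_mul_of_pos_right hn2 (by positivity)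
          _ = _ := mul_comm _ _
      exact Nat.lt_of_mul_lt_mul_right h7
    have h8 : (2 ^ (2 * d)) ^ k = 2 ^ (2 * d * k) := by rw [← pow_mul]
    rw [h8] at h6
    nlinarith
  -- the graph
  set M : Matrix (Fin n) (Fin n) F2 := fun x y => B (φ x) (φ y) with hM
  have hMs : ∀ x y, M x y = M y x := fun x y => B_comm _ _
  refine ⟨⟨fun x y => x ≠ y ∧ M x y = 1, ⟨fun x y h => ⟨h.1.symm, by rw [hMs]; exact h.2⟩⟩,
    ⟨fun x h => h.1 rfl⟩⟩, ?_, ?_, M, ⟨?_, ?_⟩, fun x => B_self _, ?_⟩
  · intro S hS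
    exact hφ 1 S hS.card_eq (fun x hx y hy hxy => (hS.isClique hx hy hxy).2)
  · intro S hS
    refine hφ 0 S hS.card_eq (fun x hx y hy hxy => ?_)
    have := hS.isClique hx hy hxy
    rw [SimpleGraph.compl_adj] at this
    rcases F2_cases (M x y) with h | h
    · exact h
    · exact absurd ⟨hxy, h⟩ this.2
  · ext x y
    exact hMs y x
  · intro x y hxy
    exact ⟨fun h => ⟨hxy, h⟩, fun h => h.2⟩
  · have h1 : M = (Matrix.of (fun x i => (φ x).1 i)) * (Matrix.of (fun i y => (φ y).2 i)) +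
        (Matrix.of (fun x i => (φ x).2 i)) * (Matrix.of (fun i y => (φ y).1 i)) := by
      ext x y
      rw [Matrix.add_apply, Matrix.mul_apply, Matrix.mul_apply]
      rfl
    rw [h1]
    refine (rank_add_le' _ _).trans ?_
    have r1 := rank_mul_le_left (Matrix.of (fun (x : Fin n) (i : Fin d) => (φ x).1 i))
      (Matrix.of (fun (i : Fin d) (y : Fin n) => (φ y).2 i))
    have r2 := rank_mul_le_left (Matrix.of (fun (x : Fin n) (i : Fin d) => (φ x).2 i))
      (Matrix.of (fun (i : Fin d) (y : Fin n) => (φ y).1 i))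
    have r3 := rank_le_width (Matrix.of (fun (x : Fin n) (i : Fin d) => (φ x).1 i))
    have r4 := rank_le_width (Matrix.of (fun (x : Fin n) (i : Fin d) => (φ x).2 i))
    omega

end Pool.Agent.X79.MR
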