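import Mathlib

set_option autoImplicit false

/-!
A convolution identity for the powers of a symmetric matrix with zero diagonal and of the same
matrix with one row and column replaced by zeros.
-/

namespace Pool.Agent.X79.RW

open Finset Matrix

variable {V : Type} [Fintype V] [DecidableEq V]

/-- the matrix with row and column `v` replaced by zeros -/
def del (A : Matrix V V ℝ) (v : V) : Matrix V V ℝ :=
  fun x y => if x = v ∨ y = v then 0 else A x y

/-- the matrix unit at `(v, v)` -/
def un (v : V) : Matrix V V ℝ := fun x y => if x = v ∧ y = v then 1 else 0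

theorem un_mul_apply (v : V) (M : Matrix V V ℝ) (x y : V) :
    (un v * M) x y = if x = v then M v y else 0 := by
  rw [Matrix.mul_apply]
  by_cases hx : x = v
  · rw [if_pos hx, Finset.sum_eq_single v]
    · simp [un, hx]
    · intro b _ hb; simp [un, hb]
    · intro h; exact absurd (mem_univ v) h
  · rw [if_neg hx]
    apply Finset.sum_eq_zero
    intro b _
    simp [un, hx]

theorem mul_un_apply (v : V) (M : Matrix V V ℝ) (x y : V) :
    (M * un v) x y = if y = v then M x v else 0 := by
  rw [Matrix.mul_apply]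
  by_cases hy : y = v
  · rw [if_pos hy, Finset.sum_eq_single v]
    · simp [un, hy]
    · intro b _ hb; simp [un, hb]
    · intro h; exact absurd (mem_univ v) h
  · rw [if_neg hy]
    apply Finset.sum_eq_zero
    intro b _
    simp [un, hy]

theorem del_eq (A : Matrix V V ℝ) (v : V) (hA : A v v = 0) :
    del A v = A - un v * A - A * un v := by
  ext x y
  rw [Matrix.sub_apply, Matrix.sub_apply, un_mul_apply, mul_un_apply]
  unfold del
  by_cases hx : x = v <;> by_cases hy : y = v <;> simp [hx, hy, hA]

theorem un_mul_del (A : Matrix V V ℝ) (v : V) : un v * del A v = 0 := by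
  ext x y
  rw [un_mul_apply]
  simp [del]

theorem un_mul_un (v : V) : un v * un v = (un v : Matrix V V ℝ) := by
  ext x y
  rw [un_mul_apply]
  simp [un]
  by_cases hx : x = v <;> by_cases hy : y = v <;> simp [hx, hy]

theorem un_mul_del_pow (A : Matrix V V ℝ) (v : V) (k : ℕ) :
    un v * del A v ^ k = if k = 0 then un v else 0 := by
  rcases k with _ | k
  · simp
  · rw [pow_succ', ← mul_assoc, un_mul_del]; simp

theorem un_mul_mul_un (v : V) (M : Matrix V V ℝ) : un v * M * un v = M v v • un v := by
  ext x y
  rw [mul_un_apply, un_mul_apply, Matrix.smul_apply]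
  by_cases hx : x = v <;> by_cases hy : y = v <;> simp [hx, hy, un]

/-- the row parts -/
def gm (A : Matrix V V ℝ) (v : V) : ℕ → Matrix V V ℝ
  | 0 => un v
  | j + 1 => un v * A * del A v ^ j

theorem un_gm (A : Matrix V V ℝ) (v : V) (j : ℕ) : un v * gm A v j = gm A v j := by
  rcases j with _ | j
  · exact un_mul_un v
  · show un v * (un v * A * del A v ^ j) = un v * A * del A v ^ j
    rw [← mul_assoc, ← mul_assoc, un_mul_un]

theorem claim1 (A : Matrix V V ℝ) (v : V) (hA : A v v = 0) (k : ℕ) :
    A ^ k - del A v ^ k + (if k = 0 then un v else 0) =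
      ∑ p ∈ antidiagonal k, A ^ p.1 * gm A v p.2 := by
  induction k with
  | zero => simp [gm]
  | succ k ih =>
    rw [Finset.Nat.sum_antidiagonal_succ]
    have h1 : ∑ p ∈ antidiagonal k, A ^ (p.1 + 1) * gm A v p.2 =
        A * ∑ p ∈ antidiagonal k, A ^ p.1 * gm A v p.2 := by
      rw [Finset.mul_sum]
      apply Finset.sum_congr rfl
      intro p _
      rw [pow_succ', mul_assoc]
    rw [h1, ← ih, if_neg (Nat.succ_ne_zero k)]
    have h2 : del A v ^ (k + 1) = A * del A v ^ k - un v * A * del A v ^ k
        - A * (un v * del A v ^ k) := by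
      rw [pow_succ']
      have h0 : del A v * del A v ^ k = (A - un v * A - A * un v) * del A v ^ k := by
        rw [← del_eq A v hA]
      rw [h0, Matrix.sub_mul, Matrix.sub_mul, mul_assoc A (un v)]
    rw [h2, un_mul_del_pow, pow_succ']
    show A * A ^ k - (A * del A v ^ k - un v * A * del A v ^ k -
      A * (if k = 0 then un v else 0)) + 0 =
      A ^ 0 * (un v * A * del A v ^ k) + A * (A ^ k - del A v ^ k + if k = 0 then un v else 0)
    rw [pow_zero, one_mul, mul_add, mul_sub]
    abel

theorem claim2 (A : Matrix V V ℝ) (v : V) (hA : A v v = 0) (k : ℕ) :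
    un v * A ^ k = ∑ p ∈ antidiagonal k, (A ^ p.1) v v • gm A v p.2 := by
  have h := congrArg (fun M => un v * M) (claim1 A v hA k)
  simp only [mul_add, mul_sub, Finset.mul_sum] at h
  rw [un_mul_del_pow] at h
  have h3 : un v * (if k = 0 then un v else 0) = (if k = 0 then un v else 0 : Matrix V V ℝ) := by
    split_ifs
    · exact un_mul_un v
    · simp
  rw [h3, sub_add_cancel] at h
  rw [h]
  apply Finset.sum_congr rfl
  intro p _
  calc un v * (A ^ p.1 * gm A v p.2) = un v * (A ^ p.1 * (un v * gm A v p.2)) := by rw [un_gm]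
    _ = (un v * A ^ p.1 * un v) * gm A v p.2 := by simp only [mul_assoc]
    _ = (A ^ p.1) v v • gm A v p.2 := by
        rw [un_mul_mul_un, Matrix.smul_mul, un_gm]

/-- the convolution identity -/
theorem conv (A : Matrix V V ℝ) (v : V) (hA : A v v = 0) (k : ℕ) :
    ∑ p ∈ antidiagonal k, (A ^ p.1) v v •
        (A ^ p.2 - del A v ^ p.2 + (if p.2 = 0 then un v else 0)) =
      ∑ p ∈ antidiagonal k, A ^ p.1 * (un v * A ^ p.2) := by
  let RA : PowerSeries (Matrix V V ℝ) := PowerSeries.mk (fun k => A ^ k)
  let GS : PowerSeries (Matrix V V ℝ) := PowerSeries.mk (fun k => gm A v k)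
  let CS : PowerSeries (Matrix V V ℝ) := PowerSeries.mk (fun k => (A ^ k) v v • (1 : Matrix V V ℝ))
  let X1 : PowerSeries (Matrix V V ℝ) :=
    PowerSeries.mk (fun k => A ^ k - del A v ^ k + (if k = 0 then un v else 0))
  let X2 : PowerSeries (Matrix V V ℝ) := PowerSeries.mk (fun k => un v * A ^ k)
  have e1 : X1 = RA * GS := by
    ext1 m
    rw [PowerSeries.coeff_mul]
    simp only [X1, RA, GS, PowerSeries.coeff_mk]
    exact claim1 A v hA m
  have e2 : X2 = CS * GS := by
    ext1 m
    rw [PowerSeries.coeff_mul]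
    simp only [X2, CS, GS, PowerSeries.coeff_mk, Matrix.smul_mul, one_mul]
    exact claim2 A v hA m
  have e3 : CS * RA = RA * CS := by
    ext1 m
    rw [PowerSeries.coeff_mul, PowerSeries.coeff_mul]
    simp only [RA, CS, PowerSeries.coeff_mk, Matrix.smul_mul, one_mul, Matrix.mul_smul, mul_one]
    rw [← Finset.Nat.sum_antidiagonal_swap]
    rfl
  have e4 : CS * X1 = RA * X2 := by
    rw [e1, e2, ← mul_assoc, e3, mul_assoc]
  have e5 := congrArg (PowerSeries.coeff k) e4
  rw [PowerSeries.coeff_mul, PowerSeries.coeff_mul] at e5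
  simp only [RA, CS, X1, X2, PowerSeries.coeff_mk, Matrix.smul_mul, one_mul] at e5
  exact e5

end Pool.Agent.X79.RW
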