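import Pool.Agent.X79.RW1

set_option autoImplicit false
set_option linter.unusedSectionVars false

/-!
Two symmetric matrices with zero diagonal whose principal submatrices `A - v`, `A' - v` are
permutation similar for every `v` have the same walk numbers, vertex by vertex.
-/

namespace Pool.Agent.X79.RW

open Finset Matrix

variable {V : Type} [Fintype V] [DecidableEq V]

theorem dot_symm (A : Matrix V V ℝ) (hA : A.IsSymm) (f g : V → ℝ) :
    f ⬝ᵥ (A *ᵥ g) = (A *ᵥ f) ⬝ᵥ g := by
  rw [Matrix.dotProduct_mulVec, ← Matrix.mulVec_transpose, hA.eq]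

theorem pow_symm (A : Matrix V V ℝ) (hA : A.IsSymm) (k : ℕ) : (A ^ k).IsSymm := by
  unfold Matrix.IsSymm
  rw [Matrix.transpose_pow, hA.eq]

theorem un_mulVec (v : V) (M : Matrix V V ℝ) (g : V → ℝ) :
    (un v * M) *ᵥ g = Pi.single v ((M *ᵥ g) v) := by
  ext x
  unfold Matrix.mulVec dotProduct
  simp only [un_mul_apply]
  by_cases hx : x = v
  · subst hx; simp
  · simp [hx]

theorem dot_un (A : Matrix V V ℝ) (hA : A.IsSymm) (v : V) (M : Matrix V V ℝ) (f g : V → ℝ) :
    f ⬝ᵥ ((A * (un v * M)) *ᵥ g) = (A *ᵥ f) v * (M *ᵥ g) v := by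
  rw [← Matrix.mulVec_mulVec, un_mulVec, dot_symm A hA]
  rw [dotProduct_single]

theorem conv_bil (A : Matrix V V ℝ) (hs : A.IsSymm) (v : V) (hA : A v v = 0) (f g : V → ℝ)
    (k : ℕ) :
    ∑ p ∈ antidiagonal k, (A ^ p.1) v v *
        (f ⬝ᵥ (A ^ p.2 *ᵥ g) - f ⬝ᵥ (del A v ^ p.2 *ᵥ g) + (if p.2 = 0 then f v * g v else 0)) =
      ∑ p ∈ antidiagonal k, (A ^ p.1 *ᵥ f) v * (A ^ p.2 *ᵥ g) v := by
  have h := congrArg (fun M : Matrix V V ℝ => f ⬝ᵥ (M *ᵥ g)) (conv A v hA k)
  simp only [Matrix.sum_mulVec, dotProduct_sum, Matrix.smul_mulVec, dotProduct_smul,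
    Matrix.add_mulVec, Matrix.sub_mulVec, dotProduct_add, dotProduct_sub, smul_eq_mul] at h
  refine Eq.trans ?_ (Finset.sum_congr rfl
    (fun p _ => dot_un (A ^ p.1) (pow_symm A hs _) v (A ^ p.2) f g))
  rw [← h]
  apply Finset.sum_congr rfl
  intro p _
  congr 2
  split_ifs with h0
  · have := un_mulVec v (1 : Matrix V V ℝ) g
    rw [mul_one, Matrix.one_mulVec] at this
    rw [this, dotProduct_single]
  · simp

theorem conv_tr (A : Matrix V V ℝ) (v : V) (hA : A v v = 0) (k : ℕ) :
    ∑ p ∈ antidiagonal k, (A ^ p.1) v v *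
        (Matrix.trace (A ^ p.2) - Matrix.trace (del A v ^ p.2) + (if p.2 = 0 then 1 else 0)) =
      (k + 1) * (A ^ k) v v := by
  have h := congrArg (fun M : Matrix V V ℝ => Matrix.trace M) (conv A v hA k)
  simp only [Matrix.trace_sum, Matrix.trace_smul, Matrix.trace_add, Matrix.trace_sub,
    smul_eq_mul] at h
  have h1 : ∀ p ∈ antidiagonal k, Matrix.trace (A ^ p.1 * (un v * A ^ p.2)) = (A ^ k) v v := by
    intro p hp
    rw [Matrix.trace_mul_comm, mul_assoc, ← pow_add, add_comm, mem_antidiagonal.mp hp]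
    unfold Matrix.trace
    simp only [Matrix.diag_apply, un_mul_apply]
    simp
  rw [Finset.sum_congr rfl h1] at h
  rw [Finset.sum_const, Finset.Nat.card_antidiagonal, nsmul_eq_mul] at h
  push_cast at h
  rw [← h]
  apply Finset.sum_congr rfl
  intro p _
  congr 2
  split_ifs with h0
  · unfold Matrix.trace
    simp only [Matrix.diag_apply, un]
    simp
  · simp

/-- the principal submatrices of `A` and `A'` are permutation similar -/
structure Pair (A A' : Matrix V V ℝ) (π : V → Equiv.Perm V) : Prop where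
  symm : A.IsSymm
  symm' : A'.IsSymm
  diag : ∀ v, A v v = 0
  diag' : ∀ v, A' v v = 0
  card : ∀ v x y, del A' v (π v x) (π v y) = del A v x y

theorem sum_two {k : ℕ} (hk : 1 ≤ k) (d : ℕ × ℕ → ℝ)
    (h : ∀ p ∈ antidiagonal k, p ≠ (0, k) → p ≠ (k, 0) → d p = 0) :
    ∑ p ∈ antidiagonal k, d p = d (0, k) + d (k, 0) := by
  have hne : ((0, k) : ℕ × ℕ) ≠ (k, 0) := by
    intro e
    have := congrArg Prod.fst e
    simp at this
    omega
  rw [← Finset.sum_pair hne]
  symm
  apply Finset.sum_subset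
  · intro p hp
    rw [mem_insert, mem_singleton] at hp
    rcases hp with rfl | rfl <;> simp
  · intro p hp hp2
    rw [mem_insert, mem_singleton, not_or] at hp2
    exact h p hp hp2.1 hp2.2

namespace Pair

variable {A A' : Matrix V V ℝ} {π : V → Equiv.Perm V}

theorem del_pow (P : Pair A A' π) (v : V) (k : ℕ) (x y : V) :
    (del A' v ^ k) (π v x) (π v y) = (del A v ^ k) x y := by
  induction k generalizing x y with
  | zero =>
    rw [pow_zero, pow_zero, Matrix.one_apply, Matrix.one_apply]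
    simp
  | succ k ih =>
    rw [pow_succ, pow_succ, Matrix.mul_apply, Matrix.mul_apply]
    rw [← Equiv.sum_comp (π v)]
    apply Finset.sum_congr rfl
    intro z _
    rw [ih, P.card]

theorem trace_del (P : Pair A A' π) (v : V) (k : ℕ) :
    Matrix.trace (del A' v ^ k) = Matrix.trace (del A v ^ k) := by
  unfold Matrix.trace
  rw [← Equiv.sum_comp (π v)]
  apply Finset.sum_congr rfl
  intro z _
  rw [Matrix.diag_apply, Matrix.diag_apply, P.del_pow]

/-- functions which do not change under the permutations -/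
def Inv (π : V → Equiv.Perm V) (f : V → ℝ) : Prop := ∀ v x, f (π v x) = f x

theorem del_mulVec (P : Pair A A' π) (v : V) (k : ℕ) (g : V → ℝ) (hg : Inv π g) (x : V) :
    (del A' v ^ k *ᵥ g) (π v x) = (del A v ^ k *ᵥ g) x := by
  unfold Matrix.mulVec dotProduct
  rw [← Equiv.sum_comp (π v)]
  apply Finset.sum_congr rfl
  intro z _
  show (del A' v ^ k) (π v x) (π v z) * g (π v z) = (del A v ^ k) x z * g z
  rw [P.del_pow, hg]

theorem bil_del (P : Pair A A' π) (v : V) (k : ℕ) (f g : V → ℝ) (hf : Inv π f)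
    (hg : Inv π g) : f ⬝ᵥ (del A' v ^ k *ᵥ g) = f ⬝ᵥ (del A v ^ k *ᵥ g) := by
  unfold dotProduct
  rw [← Equiv.sum_comp (π v)]
  apply Finset.sum_congr rfl
  intro z _
  rw [P.del_mulVec v k g hg, hf]

theorem inv_one : Inv π (fun _ => 1) := fun _ _ => rfl

/-- walk numbers and closed walk numbers agree -/
def Eqk (A A' : Matrix V V ℝ) (k : ℕ) : Prop :=
  (∀ v, (A' ^ k) v v = (A ^ k) v v) ∧
    (∀ v, (A' ^ k *ᵥ (fun _ => (1 : ℝ))) v = (A ^ k *ᵥ (fun _ => (1 : ℝ))) v)

theorem tot_eq {k : ℕ} (h : Eqk A A' k) (f : V → ℝ) :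
    f ⬝ᵥ (A' ^ k *ᵥ (fun _ => (1 : ℝ))) = f ⬝ᵥ (A ^ k *ᵥ (fun _ => (1 : ℝ))) := by
  unfold dotProduct
  exact Finset.sum_congr rfl (fun x _ => by rw [h.2 x])

theorem tr_eq {k : ℕ} (h : Eqk A A' k) : Matrix.trace (A' ^ k) = Matrix.trace (A ^ k) := by
  unfold Matrix.trace
  exact Finset.sum_congr rfl (fun x _ => by rw [Matrix.diag_apply, Matrix.diag_apply, h.1 x])

theorem one_dot (f : V → ℝ) : (fun _ => (1 : ℝ)) ⬝ᵥ f = ∑ v, f v := by
  unfold dotProduct
  simp

/-- trace equation -/
theorem step_tr (P : Pair A A' π) {k : ℕ} (hk : 1 ≤ k) (ih : ∀ j, j < k → Eqk A A' j) (v : V) :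
    Matrix.trace (A' ^ k) - Matrix.trace (A ^ k) = k * ((A' ^ k) v v - (A ^ k) v v) := by
  have h1 := conv_tr A' v (P.diag' v) k
  have h2 := conv_tr A v (P.diag v) k
  have h3 := congrArg₂ (fun a b : ℝ => a - b) h1 h2
  simp only [← Finset.sum_sub_distrib] at h3
  rw [sum_two hk] at h3
  · have e0 : Matrix.trace (A' ^ 0) = Matrix.trace (A ^ 0) := by rw [pow_zero, pow_zero]
    have e1 : Matrix.trace (del A v ^ 0) = Matrix.trace (A ^ 0) := by rw [pow_zero, pow_zero]
    simp only [P.trace_del] at h3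
    rw [e0, e1] at h3
    rw [if_neg (by omega : k ≠ 0)] at h3
    simp only [pow_zero, Matrix.one_apply_eq, if_true, sub_self] at h3
    linarith
  · intro p hp h0 h1
    have hp' := mem_antidiagonal.mp hp
    have a1 : p.1 < k := by
      rcases Nat.lt_or_ge p.1 k with h | h
      · exact h
      · exfalso; apply h1; ext <;> simp <;> omega
    have a2 : p.2 < k := by
      rcases Nat.lt_or_ge p.2 k with h | h
      · exact h
      · exfalso; apply h0; ext <;> simp <;> omega
    rw [P.trace_del, tr_eq (ih _ a2), (ih _ a1).1 v]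
    ring

/-- walk equation -/
theorem step_walk (P : Pair A A' π) {k : ℕ} (hk : 1 ≤ k) (ih : ∀ j, j < k → Eqk A A' j)
    (v : V) :
    ((∑ x, (A' ^ k *ᵥ (fun _ => (1 : ℝ))) x) - ∑ x, (A ^ k *ᵥ (fun _ => (1 : ℝ))) x) +
      ((A' ^ k) v v - (A ^ k) v v) =
    2 * ((A' ^ k *ᵥ (fun _ => (1 : ℝ))) v - (A ^ k *ᵥ (fun _ => (1 : ℝ))) v) := by
  have h1 := conv_bil A' P.symm' v (P.diag' v) (fun _ => 1) (fun _ => 1) k
  have h2 := conv_bil A P.symm v (P.diag v) (fun _ => 1) (fun _ => 1) k
  have h3 := congrArg₂ (fun a b : ℝ => a - b) h1 h2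
  simp only [← Finset.sum_sub_distrib] at h3
  rw [sum_two hk, sum_two hk] at h3
  · simp only [P.bil_del v _ _ _ inv_one inv_one] at h3
    rw [if_neg (by omega : k ≠ 0)] at h3
    simp only [pow_zero, Matrix.one_apply_eq, if_true, sub_self, Matrix.one_mulVec] at h3
    simp only [one_dot] at h3
    linarith
  · intro p hp h0 h1
    have hp' := mem_antidiagonal.mp hp
    have a1 : p.1 < k := by
      rcases Nat.lt_or_ge p.1 k with h | h
      · exact h
      · exfalso; apply h1; ext <;> simp <;> omega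
    have a2 : p.2 < k := by
      rcases Nat.lt_or_ge p.2 k with h | h
      · exact h
      · exfalso; apply h0; ext <;> simp <;> omega
    rw [(ih _ a1).2 v, (ih _ a2).2 v]
    ring
  · intro p hp h0 h1
    have hp' := mem_antidiagonal.mp hp
    have a1 : p.1 < k := by
      rcases Nat.lt_or_ge p.1 k with h | h
      · exact h
      · exfalso; apply h1; ext <;> simp <;> omega
    have a2 : p.2 < k := by
      rcases Nat.lt_or_ge p.2 k with h | h
      · exact h
      · exfalso; apply h0; ext <;> simp <;> omega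
    rw [P.bil_del v _ _ _ inv_one inv_one, tot_eq (ih _ a2), (ih _ a1).1 v]
    ring

/-- all walk numbers and closed walk numbers agree -/
theorem eqk (P : Pair A A' π) (hn : 3 ≤ Fintype.card V) (k : ℕ) : Eqk A A' k := by
  induction k using Nat.strong_induction_on with
  | _ k ih =>
    rcases Nat.eq_zero_or_pos k with rfl | hk
    · exact ⟨fun v => by rw [pow_zero, pow_zero], fun v => by rw [pow_zero, pow_zero]⟩
    · have hT := P.step_tr hk ih
      have hW := P.step_walk hk ih
      -- sum over v of the walk equation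
      have hS := Finset.sum_congr rfl (fun v (_ : v ∈ (univ : Finset V)) => hW v)
      rw [Finset.sum_add_distrib, Finset.sum_const, ← Finset.mul_sum, Finset.sum_sub_distrib,
        Finset.sum_sub_distrib, Finset.card_univ, nsmul_eq_mul] at hS
      have htr : ∀ M : Matrix V V ℝ, ∑ x, M x x = Matrix.trace M := fun M => rfl
      rw [htr (A' ^ k), htr (A ^ k)] at hS
      have hn' : (3 : ℝ) ≤ (Fintype.card V : ℝ) := by exact_mod_cast hn
      -- the total number of walks
      have hs : (∑ x, (A' ^ k *ᵥ (fun _ => (1 : ℝ))) x) =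
          ∑ x, (A ^ k *ᵥ (fun _ => (1 : ℝ))) x := by
        rcases Nat.lt_or_ge 1 k with h2 | h2
        · obtain ⟨m, rfl⟩ : ∃ m, k = 1 + m := ⟨k - 1, by omega⟩
          have e : ∀ M : Matrix V V ℝ, M.IsSymm → (∑ x, (M ^ (1 + m) *ᵥ (fun _ => (1 : ℝ))) x) =
              (M ^ 1 *ᵥ (fun _ => (1 : ℝ))) ⬝ᵥ (M ^ m *ᵥ (fun _ => (1 : ℝ))) := by
            intro M hM
            rw [← one_dot, pow_add, ← Matrix.mulVec_mulVec, dot_symm _ (pow_symm M hM 1)]
          rw [e A' P.symm', e A P.symm]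
          unfold dotProduct
          apply Finset.sum_congr rfl
          intro x _
          rw [(ih 1 (by omega)).2 x, (ih m (by omega)).2 x]
        · have hk1 : k = 1 := by omega
          subst hk1
          have t1 : Matrix.trace (A' ^ 1) = 0 := by
            rw [pow_one]
            exact Finset.sum_eq_zero (fun x _ => P.diag' x)
          have t2 : Matrix.trace (A ^ 1) = 0 := by
            rw [pow_one]
            exact Finset.sum_eq_zero (fun x _ => P.diag x)
          rw [t1, t2] at hS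
          nlinarith
      rw [hs] at hS
      have hTr : Matrix.trace (A' ^ k) - Matrix.trace (A ^ k) = 0 := by linarith
      have hc : ∀ v, (A' ^ k) v v = (A ^ k) v v := by
        intro v
        have h := hT v
        rw [hTr] at h
        have hk' : (k : ℝ) ≠ 0 := by exact_mod_cast (by omega : k ≠ 0)
        have := mul_eq_zero.mp h.symm
        rcases this with h' | h'
        · exact absurd h' hk'
        · linarith
      refine ⟨hc, fun v => ?_⟩
      have h := hW v
      rw [hs, hc v] at h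
      linarith

/-- the weighted walk numbers agree -/
theorem walk_eq (P : Pair A A' π) (hn : 3 ≤ Fintype.card V) (f : V → ℝ) (hf : Inv π f) (k : ℕ)
    (v : V) : (A' ^ k *ᵥ f) v = (A ^ k *ᵥ f) v := by
  induction k using Nat.strong_induction_on with
  | _ k ih =>
    have h1 := conv_bil A' P.symm' v (P.diag' v) f (fun _ => 1) k
    have h2 := conv_bil A P.symm v (P.diag v) f (fun _ => 1) k
    have h3 : ∑ p ∈ antidiagonal k, (A' ^ p.1) v v *
        (f ⬝ᵥ (A' ^ p.2 *ᵥ (fun _ => (1 : ℝ))) - f ⬝ᵥ (del A' v ^ p.2 *ᵥ (fun _ => (1 : ℝ))) +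
          (if p.2 = 0 then f v * 1 else 0)) =
        ∑ p ∈ antidiagonal k, (A ^ p.1) v v *
        (f ⬝ᵥ (A ^ p.2 *ᵥ (fun _ => (1 : ℝ))) - f ⬝ᵥ (del A v ^ p.2 *ᵥ (fun _ => (1 : ℝ))) +
          (if p.2 = 0 then f v * 1 else 0)) := by
      apply Finset.sum_congr rfl
      intro p _
      rw [P.bil_del v _ _ _ hf inv_one, tot_eq (P.eqk hn _), (P.eqk hn _).1 v]
    rw [h1, h2] at h3
    have h4 : ∑ p ∈ antidiagonal k, ((A' ^ p.1 *ᵥ f) v - (A ^ p.1 *ᵥ f) v) *
        (A ^ p.2 *ᵥ (fun _ => (1 : ℝ))) v = 0 := by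
      rw [← sub_eq_zero] at h3
      rw [← h3, ← Finset.sum_sub_distrib]
      apply Finset.sum_congr rfl
      intro p _
      rw [(P.eqk hn p.2).2 v]
      ring
    rw [Finset.sum_eq_single (k, 0)] at h4
    · simp only [pow_zero, Matrix.one_mulVec, mul_one] at h4
      linarith
    · intro p hp hne
      have hp' := mem_antidiagonal.mp hp
      have : p.1 < k := by
        rcases Nat.lt_or_ge p.1 k with h | h
        · exact h
        · exfalso; apply hne; ext <;> simp <;> omega
      rw [ih _ this, sub_self, zero_mul]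
    · intro h
      exfalso; apply h; simp

/-- the difference kills the weighted walk vectors -/
theorem kill (P : Pair A A' π) (hn : 3 ≤ Fintype.card V) (f : V → ℝ) (hf : Inv π f) (k : ℕ) :
    (A' - A) *ᵥ (A ^ k *ᵥ f) = 0 := by
  have e : A ^ k *ᵥ f = A' ^ k *ᵥ f := by
    ext v
    exact (P.walk_eq hn f hf k v).symm
  rw [Matrix.sub_mulVec]
  have e1 : A' *ᵥ (A ^ k *ᵥ f) = A' ^ (k + 1) *ᵥ f := by
    rw [e, Matrix.mulVec_mulVec, ← pow_succ']
  have e2 : A *ᵥ (A ^ k *ᵥ f) = A ^ (k + 1) *ᵥ f := by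
    rw [Matrix.mulVec_mulVec, ← pow_succ']
  rw [e1, e2]
  ext v
  rw [Pi.sub_apply, P.walk_eq hn f hf, sub_self]
  rfl

end Pair

end Pool.Agent.X79.RW
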