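import Pool.Agent.X79.RW2
import Pool.Agent.H234RC.T1

set_option autoImplicit false
set_option linter.unusedSectionVars false

/-!
Hypomorphic graphs: recognisable colourings, coloured walk numbers, numbers of neighbours in the
classes of the one-step refinement.
-/

namespace Pool.Agent.X79.RW

open Finset Matrix
open Pool.Agent.H234RC (Hypo TLat SameDeck Reconstructible)

variable {V : Type} [Fintype V] [DecidableEq V]

open Classical in
/-- adjacency matrix -/
noncomputable def adjR (G : SimpleGraph V) : Matrix V V ℝ := fun x y => if G.Adj x y then 1 else 0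

open Classical in
/-- number of neighbours with colour `a` -/
noncomputable def nb (G : SimpleGraph V) (χ : V → ℕ) (a : ℕ) (x : V) : ℕ :=
  (univ.filter (fun y => G.Adj x y ∧ χ y = a)).card

/-- indicator of a colour class -/
def ind (χ : V → ℕ) (a : ℕ) : V → ℝ := fun x => if χ x = a then 1 else 0

theorem adjR_symm (G : SimpleGraph V) : (adjR G).IsSymm := by
  ext x y
  rw [Matrix.transpose_apply]
  unfold adjR
  by_cases h : G.Adj x y
  · rw [if_pos h, if_pos h.symm]
  · rw [if_neg h, if_neg (fun e => h e.symm)]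

theorem adjR_diag (G : SimpleGraph V) (v : V) : adjR G v v = 0 := by
  unfold adjR
  rw [if_neg (G.loopless.irrefl v)]

theorem pair_of_hypo {G H : SimpleGraph V} {π : V → Equiv.Perm V} (h : Hypo G H π) :
    Pair (adjR G) (adjR H) π where
  symm := adjR_symm G
  symm' := adjR_symm H
  diag := adjR_diag G
  diag' := adjR_diag H
  card := by
    intro v x y
    unfold del
    by_cases hx : x = v
    · subst hx
      rw [h.fix]
      simp
    · by_cases hy : y = v
      · subst hy
        rw [h.fix]
        simp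
      · have hx' : π v x ≠ v := fun e => hx ((π v).injective (by rw [e, h.fix]))
        have hy' : π v y ≠ v := fun e => hy ((π v).injective (by rw [e, h.fix]))
        rw [if_neg (by tauto), if_neg (by tauto)]
        unfold adjR
        have := h.adj v x y hx hy
        by_cases hG : G.Adj x y
        · rw [if_pos hG, if_pos (this.2 hG)]
        · rw [if_neg hG, if_neg (fun e => hG (this.1 e))]

theorem adjR_ind (G : SimpleGraph V) (χ : V → ℕ) (a : ℕ) (x : V) :
    (adjR G *ᵥ ind χ a) x = (nb G χ a x : ℝ) := by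
  classical
  show ∑ y, adjR G x y * ind χ a y = _
  unfold nb
  rw [Finset.card_filter]
  push_cast
  apply Finset.sum_congr rfl
  intro y _
  unfold adjR ind
  by_cases h1 : G.Adj x y <;> by_cases h2 : χ y = a <;> simp [h1, h2]

theorem inv_ind {π : V → Equiv.Perm V} {χ : V → ℕ} (h : ∀ v x, χ (π v x) = χ x) (a : ℕ) :
    Pair.Inv π (ind χ a) := by
  intro v x
  unfold ind
  rw [h]

theorem nb_eq {G H : SimpleGraph V} {π : V → Equiv.Perm V} (hh : Hypo G H π)
    (hn : 3 ≤ Fintype.card V) {χ : V → ℕ} (h : ∀ v x, χ (π v x) = χ x) (a : ℕ) (x : V) :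
    nb H χ a x = nb G χ a x := by
  have := (pair_of_hypo hh).walk_eq hn (ind χ a) (inv_ind h a) 1 x
  rw [pow_one, pow_one, adjR_ind, adjR_ind] at this
  exact_mod_cast this

theorem del_ind (G : SimpleGraph V) (χ : V → ℕ) (a : ℕ) (v x : V) (hx : x ≠ v) :
    (del (adjR G) v *ᵥ ind χ a) x = (nb G χ a x : ℝ) - adjR G x v * ind χ a v := by
  rw [← adjR_ind]
  show ∑ y, del (adjR G) v x y * ind χ a y = ∑ y, adjR G x y * ind χ a y - _
  rw [← Finset.sum_erase_add univ _ (mem_univ v), ← Finset.sum_erase_add univ (fun y =>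
    adjR G x y * ind χ a y) (mem_univ v)]
  have h1 : ∑ y ∈ univ.erase v, del (adjR G) v x y * ind χ a y =
      ∑ y ∈ univ.erase v, adjR G x y * ind χ a y := by
    apply Finset.sum_congr rfl
    intro y hy
    rw [mem_erase] at hy
    unfold del
    rw [if_neg (by tauto)]
  rw [h1]
  have h2 : del (adjR G) v x v = 0 := by
    unfold del
    simp
  rw [h2]
  ring

/-- the basic relation between `x` and its image in the card -/
theorem card_rel {G H : SimpleGraph V} {π : V → Equiv.Perm V} (hh : Hypo G H π)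
    (hn : 3 ≤ Fintype.card V) {χ : V → ℕ} (h : ∀ v x, χ (π v x) = χ x) (a : ℕ) (v x : V)
    (hx : x ≠ v) :
    (nb G χ a x : ℝ) - adjR G x v * ind χ a v =
      (nb G χ a (π v x) : ℝ) - adjR H (π v x) v * ind χ a v := by
  have hx' : π v x ≠ v := fun e => hx ((π v).injective (by rw [e, hh.fix]))
  have := (pair_of_hypo hh).del_mulVec v 1 (ind χ a) (inv_ind h a) x
  rw [pow_one, pow_one, del_ind _ _ _ _ _ hx', del_ind _ _ _ _ _ hx, nb_eq hh hn h] at this
  exact this.symm

/-- all colourings of the set are preserved by all card isomorphisms of hypomorphic pairs -/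
def Rec (G : SimpleGraph V) (χ : V → ℕ) : Prop :=
  ∀ (H : SimpleGraph V) (π : V → Equiv.Perm V), Hypo G H π → ∀ v x, χ (π v x) = χ x

theorem rec_triv (G : SimpleGraph V) : Rec G (fun _ => 0) := fun _ _ _ _ _ => rfl

theorem rec_refine (G : SimpleGraph V) (hn : 3 ≤ Fintype.card V) (χ ψ : V → ℕ) (hχ : Rec G χ)
    (hs : ∀ x y b, χ x = χ y → (∀ a, a ≠ b → nb G χ a x = nb G χ a y) →
        nb G χ b x ≤ nb G χ b y + 1 → nb G χ b y ≤ nb G χ b x + 1 → ψ x = ψ y) : Rec G ψ := by
  intro H π hh v x
  by_cases hx : x = v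
  · rw [hx, hh.fix]
  · have h := hχ H π hh
    apply hs _ _ (χ v) (h v x)
    · intro a ha
      have := card_rel hh hn h a v x hx
      have h0 : ind χ a v = 0 := by
        unfold ind
        rw [if_neg (Ne.symm ha)]
      rw [h0, mul_zero, mul_zero, sub_zero, sub_zero] at this
      exact_mod_cast this.symm
    all_goals
      have := card_rel hh hn h (χ v) v x hx
      have h0 : ind χ (χ v) v = 1 := by
        unfold ind
        rw [if_pos rfl]
      rw [h0, mul_one, mul_one] at this
      have b1 : adjR G x v = 0 ∨ adjR G x v = 1 := by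
        unfold adjR
        split_ifs <;> simp
      have b2 : adjR H (π v x) v = 0 ∨ adjR H (π v x) v = 1 := by
        unfold adjR
        split_ifs <;> simp
      have e1 : (nb G χ (χ v) (π v x) : ℝ) ≤ (nb G χ (χ v) x : ℝ) + 1 := by
        rcases b1 with b1 | b1 <;> rcases b2 with b2 | b2 <;> rw [b1, b2] at this <;> linarith
      have e2 : (nb G χ (χ v) x : ℝ) ≤ (nb G χ (χ v) (π v x) : ℝ) + 1 := by
        rcases b1 with b1 | b1 <;> rcases b2 with b2 | b2 <;> rw [b1, b2] at this <;> linarith
      first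
        | exact_mod_cast e1
        | exact_mod_cast e2

/-- the vector of the numbers of neighbours -/
noncomputable def nv (G : SimpleGraph V) (χ : V → ℕ) (x : V) : ℕ → ℕ := fun a => nb G χ a x

open Classical in
/-- neighbours of `v` in the graph `K` in a class of the one-step refinement -/
noncomputable def TT (G K : SimpleGraph V) (χ : V → ℕ) (v : V) (c : ℕ) (μ : ℕ → ℕ) : Finset V :=
  univ.filter (fun x => K.Adj v x ∧ χ x = c ∧ nv G χ x = μ)

open Classical in
/-- vertices whose vector in the card is `μ` -/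
noncomputable def SS (G K : SimpleGraph V) (χ : V → ℕ) (v : V) (c : ℕ) (μ : ℕ → ℕ) : Finset V :=
  univ.filter (fun x => x ≠ v ∧ χ x = c ∧ ((¬ K.Adj v x ∧ nv G χ x = μ) ∨
    (K.Adj v x ∧ nv G χ x = Function.update μ (χ v) (μ (χ v) + 1))))

open Classical in
theorem SS_card (G K : SimpleGraph V) (χ : V → ℕ) (v : V) (c : ℕ) (μ : ℕ → ℕ) :
    (SS G K χ v c μ).card + (TT G K χ v c μ).card =
      (univ.filter (fun x => x ≠ v ∧ χ x = c ∧ nv G χ x = μ)).card +
        (TT G K χ v c (Function.update μ (χ v) (μ (χ v) + 1))).card := by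
  have hne : Function.update μ (χ v) (μ (χ v) + 1) ≠ μ := by
    intro e
    have := congrFun e (χ v)
    rw [Function.update_self] at this
    omega
  have h1 : SS G K χ v c μ = (univ.filter (fun x => x ≠ v ∧ χ x = c ∧ nv G χ x = μ) \
      TT G K χ v c μ) ∪ TT G K χ v c (Function.update μ (χ v) (μ (χ v) + 1)) := by
    ext x
    unfold SS TT
    rw [mem_union, mem_sdiff, mem_filter, mem_filter, mem_filter, mem_filter]
    simp only [mem_univ, true_and]
    constructor
    · rintro ⟨a, b, ⟨c1, c2⟩ | ⟨c1, c2⟩⟩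
      · exact Or.inl ⟨⟨a, b, c2⟩, fun h => c1 h.1⟩
      · exact Or.inr ⟨c1, b, c2⟩
    · rintro (⟨⟨a, b, c1⟩, d⟩ | ⟨a, b, c1⟩)
      · exact ⟨a, b, Or.inl ⟨fun h => d ⟨h, b, c1⟩, c1⟩⟩
      · exact ⟨fun e => K.loopless.irrefl v (by rw [e] at a; exact a), b, Or.inr ⟨a, c1⟩⟩
  have h2 : Disjoint (univ.filter (fun x => x ≠ v ∧ χ x = c ∧ nv G χ x = μ) \
      TT G K χ v c μ) (TT G K χ v c (Function.update μ (χ v) (μ (χ v) + 1))) := by
    rw [Finset.disjoint_left]
    intro x hx hx2
    unfold TT at hx2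
    rw [mem_sdiff, mem_filter] at hx
    rw [mem_filter] at hx2
    exact hne (hx2.2.2.2.symm.trans hx.1.2.2.2)
  have h3 : TT G K χ v c μ ⊆ univ.filter (fun x => x ≠ v ∧ χ x = c ∧ nv G χ x = μ) := by
    intro x hx
    unfold TT at hx
    rw [mem_filter] at hx ⊢
    exact ⟨mem_univ _, fun e => K.loopless.irrefl v (by rw [e] at hx; exact hx.2.1), hx.2.2⟩
  rw [h1, Finset.card_union_of_disjoint h2, Finset.card_sdiff_of_subset h3]
  have := Finset.card_le_card h3
  omega

theorem nv_rel {G H : SimpleGraph V} {π : V → Equiv.Perm V} (hh : Hypo G H π)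
    (hn : 3 ≤ Fintype.card V) {χ : V → ℕ} (h : ∀ v x, χ (π v x) = χ x) (v x : V)
    (hx : x ≠ v) :
    (G.Adj v x → H.Adj v (π v x) → nv G χ x = nv G χ (π v x)) ∧
    (¬ G.Adj v x → ¬ H.Adj v (π v x) → nv G χ x = nv G χ (π v x)) ∧
    (G.Adj v x → ¬ H.Adj v (π v x) → nv G χ x =
      Function.update (nv G χ (π v x)) (χ v) (nv G χ (π v x) (χ v) + 1)) ∧
    (¬ G.Adj v x → H.Adj v (π v x) → nv G χ (π v x) =
      Function.update (nv G χ x) (χ v) (nv G χ x (χ v) + 1)) := by
  have key : ∀ a, (nb G χ a x : ℝ) - adjR G x v * ind χ a v =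
      (nb G χ a (π v x) : ℝ) - adjR H (π v x) v * ind χ a v := fun a =>
    card_rel hh hn h a v x hx
  have i1 : ind χ (χ v) v = 1 := by unfold ind; rw [if_pos rfl]
  have i0 : ∀ a, a ≠ χ v → ind χ a v = 0 := by
    intro a ha
    unfold ind
    rw [if_neg (Ne.symm ha)]
  have off : ∀ a, a ≠ χ v → nb G χ a x = nb G χ a (π v x) := by
    intro a ha
    have := key a
    rw [i0 a ha, mul_zero, mul_zero, sub_zero, sub_zero] at this
    exact_mod_cast this
  have on := key (χ v)
  rw [i1, mul_one, mul_one] at on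
  refine ⟨fun g1 g2 => ?_, fun g1 g2 => ?_, fun g1 g2 => ?_, fun g1 g2 => ?_⟩
  · have a1 : adjR G x v = 1 := if_pos g1.symm
    have a2 : adjR H (π v x) v = 1 := if_pos g2.symm
    rw [a1, a2] at on
    have on' : nb G χ (χ v) x = nb G χ (χ v) (π v x) := by
      have : (nb G χ (χ v) x : ℝ) = (nb G χ (χ v) (π v x) : ℝ) := by linarith
      exact_mod_cast this
    funext a
    by_cases ha : a = χ v
    · rw [ha]; exact on'
    · exact off a ha
  · have a1 : adjR G x v = 0 := if_neg (fun e => g1 e.symm)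
    have a2 : adjR H (π v x) v = 0 := if_neg (fun e => g2 e.symm)
    rw [a1, a2] at on
    have on' : nb G χ (χ v) x = nb G χ (χ v) (π v x) := by
      have : (nb G χ (χ v) x : ℝ) = (nb G χ (χ v) (π v x) : ℝ) := by linarith
      exact_mod_cast this
    funext a
    by_cases ha : a = χ v
    · rw [ha]; exact on'
    · exact off a ha
  · have a1 : adjR G x v = 1 := if_pos g1.symm
    have a2 : adjR H (π v x) v = 0 := if_neg (fun e => g2 e.symm)
    rw [a1, a2] at on
    have on' : nb G χ (χ v) x = nb G χ (χ v) (π v x) + 1 := by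
      have : (nb G χ (χ v) x : ℝ) = (nb G χ (χ v) (π v x) : ℝ) + 1 := by linarith
      exact_mod_cast this
    funext a
    by_cases ha : a = χ v
    · rw [ha, Function.update_self]; exact on'
    · rw [Function.update_of_ne ha]; exact off a ha
  · have a1 : adjR G x v = 0 := if_neg (fun e => g1 e.symm)
    have a2 : adjR H (π v x) v = 1 := if_pos g2.symm
    rw [a1, a2] at on
    have on' : nb G χ (χ v) (π v x) = nb G χ (χ v) x + 1 := by
      have : (nb G χ (χ v) (π v x) : ℝ) = (nb G χ (χ v) x : ℝ) + 1 := by linarith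
      exact_mod_cast this
    funext a
    by_cases ha : a = χ v
    · rw [ha, Function.update_self]; exact on'
    · rw [Function.update_of_ne ha]; exact (off a ha).symm

theorem upd_inj {μ ν : ℕ → ℕ} {b : ℕ}
    (h : Function.update μ b (μ b + 1) = Function.update ν b (ν b + 1)) : μ = ν := by
  funext a
  by_cases ha : a = b
  · subst ha
    have := congrFun h a
    rw [Function.update_self, Function.update_self] at this
    omega
  · have := congrFun h a
    rwa [Function.update_of_ne ha, Function.update_of_ne ha] at this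

theorem SS_eq {G H : SimpleGraph V} {π : V → Equiv.Perm V} (hh : Hypo G H π)
    (hn : 3 ≤ Fintype.card V) {χ : V → ℕ} (h : ∀ v x, χ (π v x) = χ x) (v : V) (c : ℕ)
    (μ : ℕ → ℕ) : (SS G G χ v c μ).card = (SS G H χ v c μ).card := by
  classical
  have h1 : (SS G G χ v c μ).map (π v).toEmbedding = SS G H χ v c μ := by
    ext y
    obtain ⟨x, rfl⟩ := (π v).surjective y
    rw [mem_map_equiv, Equiv.symm_apply_apply]
    unfold SS
    rw [mem_filter, mem_filter]
    simp only [mem_univ, true_and]
    by_cases hx : x = v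
    · subst hx
      rw [hh.fix]
      simp
    have hx' : π v x ≠ v := fun e => hx ((π v).injective (by rw [e, hh.fix]))
    obtain ⟨r1, r2, r3, r4⟩ := nv_rel hh hn h v x hx
    rw [h v x]
    by_cases g1 : G.Adj v x <;> by_cases g2 : H.Adj v (π v x)
    · have := r1 g1 g2
      simp only [hx, hx', g1, g2, not_true, false_and, true_and, false_or, this, ne_eq,
        not_false_eq_true]
    · have := r3 g1 g2
      simp only [hx, hx', g1, g2, not_true, false_and, true_and, false_or, or_false, ne_eq,
        not_false_eq_true]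
      rw [this]
      constructor
      · rintro ⟨a, b⟩
        exact ⟨a, upd_inj b⟩
      · rintro ⟨a, b⟩
        exact ⟨a, by rw [b]⟩
    · have := r4 g1 g2
      simp only [hx, hx', g1, g2, not_true, false_and, true_and, false_or, or_false, ne_eq,
        not_false_eq_true]
      rw [this]
      constructor
      · rintro ⟨a, b⟩
        exact ⟨a, by rw [b]⟩
      · rintro ⟨a, b⟩
        exact ⟨a, upd_inj b⟩
    · have := r2 g1 g2
      simp only [hx, hx', g1, g2, false_and, true_and, or_false, this, ne_eq,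
        not_false_eq_true]
  rw [← h1, card_map]

theorem TT_eq {G H : SimpleGraph V} {π : V → Equiv.Perm V} (hh : Hypo G H π)
    (hn : 3 ≤ Fintype.card V) {χ : V → ℕ} (h : ∀ v x, χ (π v x) = χ x) (v : V) (c : ℕ)
    (μ : ℕ → ℕ) : (TT G G χ v c μ).card = (TT G H χ v c μ).card := by
  classical
  obtain ⟨m, hm⟩ : ∃ m, μ (χ v) = m := ⟨_, rfl⟩
  induction m generalizing μ with
  | zero =>
    have e1 : TT G G χ v c μ = ∅ := by
      unfold TT
      rw [Finset.filter_eq_empty_iff]
      rintro x _ ⟨a1, a2, a3⟩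
      have h0 : nb G χ (χ v) x = 0 := by
        rw [← hm, ← a3]; rfl
      unfold nb at h0
      rw [Finset.card_eq_zero, Finset.filter_eq_empty_iff] at h0
      exact h0 (mem_univ v) ⟨a1.symm, rfl⟩
    have e2 : TT G H χ v c μ = ∅ := by
      unfold TT
      rw [Finset.filter_eq_empty_iff]
      rintro x _ ⟨a1, a2, a3⟩
      have h0 : nb H χ (χ v) x = 0 := by
        rw [nb_eq hh hn h, ← hm, ← a3]; rfl
      unfold nb at h0
      rw [Finset.card_eq_zero, Finset.filter_eq_empty_iff] at h0
      exact h0 (mem_univ v) ⟨a1.symm, rfl⟩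
    rw [e1, e2]
  | succ m ih =>
    have hu : Function.update (Function.update μ (χ v) m) (χ v)
        ((Function.update μ (χ v) m) (χ v) + 1) = μ := by
      rw [Function.update_self, Function.update_idem, ← hm, Function.update_eq_self]
    have h1 := SS_card G G χ v c (Function.update μ (χ v) m)
    have h2 := SS_card G H χ v c (Function.update μ (χ v) m)
    have h3 := SS_eq hh hn h v c (Function.update μ (χ v) m)
    have h4 := ih (Function.update μ (χ v) m) (by rw [Function.update_self])
    rw [hu] at h1 h2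
    omega

/-- indicator function of a class of the one-step refinement -/
noncomputable def ind2 (G : SimpleGraph V) (χ : V → ℕ) (x₀ : V) : V → ℝ := by
  classical
  exact fun x => if χ x = χ x₀ ∧ ∀ a, nb G χ a x = nb G χ a x₀ then 1 else 0

theorem adjR_ind2 (G K : SimpleGraph V) (χ : V → ℕ) (x₀ v : V) :
    (adjR K *ᵥ ind2 G χ x₀) v = ((TT G K χ v (χ x₀) (nv G χ x₀)).card : ℝ) := by
  classical
  show ∑ y, adjR K v y * ind2 G χ x₀ y = _
  unfold TT
  rw [Finset.card_filter]
  push_cast
  apply Finset.sum_congr rfl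
  intro y _
  unfold adjR ind2
  have : (nv G χ y = nv G χ x₀) ↔ ∀ a, nb G χ a y = nb G χ a x₀ := by
    constructor
    · intro e a
      exact congrFun e a
    · intro e
      funext a
      exact e a
  by_cases h1 : K.Adj v y <;> by_cases h2 : χ y = χ x₀ <;>
    by_cases h3 : ∀ a, nb G χ a y = nb G χ a x₀ <;> simp [h1, h2, h3, this]

theorem kill2 {G H : SimpleGraph V} {π : V → Equiv.Perm V} (hh : Hypo G H π)
    (hn : 3 ≤ Fintype.card V) {χ : V → ℕ} (h : ∀ v x, χ (π v x) = χ x) (x₀ : V) :
    (adjR H - adjR G) *ᵥ ind2 G χ x₀ = 0 := by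
  ext v
  rw [Matrix.sub_mulVec, Pi.sub_apply, adjR_ind2, adjR_ind2, TT_eq hh hn h, sub_self]
  rfl

/-- the span of the coloured walk vectors -/
noncomputable def wsp (G : SimpleGraph V) (C : Set (V → ℕ)) : Submodule ℝ (V → ℝ) :=
  Submodule.span ℝ {F | ∃ χ ∈ C, ∃ a k, F = adjR G ^ k *ᵥ ind χ a}

/-- the span of the coloured walk vectors and of the indicator functions of the one-step
refinements -/
noncomputable def nsp (G : SimpleGraph V) (C : Set (V → ℕ)) : Submodule ℝ (V → ℝ) :=
  Submodule.span ℝ ({F | ∃ χ ∈ C, ∃ a k, F = adjR G ^ k *ᵥ ind χ a} ∪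
    {F | ∃ χ ∈ C, ∃ x₀, F = ind2 G χ x₀})

theorem kill_nsp {G H : SimpleGraph V} {π : V → Equiv.Perm V} (hh : Hypo G H π)
    (hn : 3 ≤ Fintype.card V) (C : Set (V → ℕ)) (hC : ∀ χ ∈ C, Rec G χ) (F : V → ℝ)
    (hF : F ∈ nsp G C) : (adjR H - adjR G) *ᵥ F = 0 := by
  unfold nsp at hF
  induction hF using Submodule.span_induction with
  | mem F hF =>
    rcases hF with ⟨χ, hχ, a, k, rfl⟩ | ⟨χ, hχ, x₀, rfl⟩
    · exact (pair_of_hypo hh).kill hn _ (inv_ind (hC χ hχ H π hh) a) k
    · exact kill2 hh hn (hC χ hχ H π hh) x₀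
  | zero => rw [Matrix.mulVec_zero]
  | add x y _ _ hx hy => rw [Matrix.mulVec_add, hx, hy, add_zero]
  | smul a x _ hx => rw [Matrix.mulVec_smul, hx, smul_zero]

theorem wsp_le (G : SimpleGraph V) (C : Set (V → ℕ)) : wsp G C ≤ nsp G C :=
  Submodule.span_mono Set.subset_union_left

/-- the walk space is invariant under the adjacency matrix -/
theorem wsp_inv (G : SimpleGraph V) (C : Set (V → ℕ)) (F : V → ℝ) (hF : F ∈ wsp G C) :
    adjR G *ᵥ F ∈ wsp G C := by
  unfold wsp at hF
  induction hF using Submodule.span_induction with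
  | mem F hF =>
    obtain ⟨χ, hχ, a, k, rfl⟩ := hF
    apply Submodule.subset_span
    refine ⟨χ, hχ, a, k + 1, ?_⟩
    rw [Matrix.mulVec_mulVec, ← pow_succ']
  | zero => rw [Matrix.mulVec_zero]; exact Submodule.zero_mem _
  | add x y _ _ hx hy => rw [Matrix.mulVec_add]; exact Submodule.add_mem _ hx hy
  | smul a x _ hx => rw [Matrix.mulVec_smul]; exact Submodule.smul_mem _ _ hx

end Pool.Agent.X79.RW
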