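import Pool.Agent.X79.RW3

set_option autoImplicit false
set_option linter.unusedSectionVars false

/-!
Counting the graphs with the deck of `G` by the codimension of the walk space.
-/

namespace Pool.Agent.X79.RW

open Finset Matrix
open Pool.Agent.H234RC (Hypo TLat TCard SameDeck Reconstructible card_iso whole_iso)

variable {V : Type} [Fintype V] [DecidableEq V]

/-- some set of coordinates is a complement of the subspace -/
theorem exists_coords (S : Submodule ℝ (V → ℝ)) :
    ∃ J : Finset V, J.card = Fintype.card V - Module.finrank ℝ S ∧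
      ∀ x : V → ℝ, ∃ w ∈ S, ∃ y : V → ℝ, (∀ i, i ∉ J → y i = 0) ∧ x = w + y := by
  obtain ⟨f, hf, hspan, hli⟩ := Submodule.exists_fun_fin_finrank_span_eq ℝ
    (Set.range (fun i : V => S.mkQ (Pi.single i 1)))
  choose j hj using hf
  have hjinj : Function.Injective j := by
    intro a b hab
    apply hli.injective
    rw [← hj a, ← hj b, hab]
  have htop : Submodule.span ℝ (Set.range (fun i : V => S.mkQ (Pi.single i (1 : ℝ)))) = ⊤ := by
    have h1 : Submodule.span ℝ (Set.range (fun i : V => (Pi.single i (1 : ℝ) : V → ℝ))) = ⊤ := by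
      have h0 := (Pi.basisFun ℝ V).span_eq
      have e0 : (⇑(Pi.basisFun ℝ V) : V → V → ℝ) = fun i : V => (Pi.single i (1 : ℝ) : V → ℝ) := by
        funext i
        exact Pi.basisFun_apply ℝ V i
      rwa [e0] at h0
    have h2 : Set.range (fun i : V => S.mkQ (Pi.single i (1 : ℝ))) =
        S.mkQ '' (Set.range (fun i : V => (Pi.single i (1 : ℝ) : V → ℝ))) := by
      rw [← Set.range_comp]; rfl
    rw [h2, Submodule.span_image, h1, Submodule.map_top, Submodule.range_mkQ]
  have hcard : Module.finrank ℝ (Submodule.span ℝ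
      (Set.range (fun i : V => S.mkQ (Pi.single i (1 : ℝ))))) =
      Fintype.card V - Module.finrank ℝ S := by
    rw [htop, finrank_top]
    have := Submodule.finrank_quotient_add_finrank S
    rw [Module.finrank_fintype_fun_eq_card] at this
    omega
  refine ⟨univ.image j, ?_, ?_⟩
  · rw [Finset.card_image_of_injective _ hjinj, Finset.card_univ, Fintype.card_fin, hcard]
  · intro x
    have hx : S.mkQ x ∈ Submodule.span ℝ (Set.range f) := by
      rw [hspan, htop]; trivial
    let T : Submodule ℝ (V → ℝ) :=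
      Submodule.span ℝ (Set.range (fun i => (Pi.single (j i) (1 : ℝ) : V → ℝ)))
    have hT : Submodule.map S.mkQ T = Submodule.span ℝ (Set.range f) := by
      rw [Submodule.map_span]
      congr 1
      rw [← Set.range_comp]
      congr 1
      funext i
      exact hj i
    rw [← hT] at hx
    obtain ⟨y, hy, hxy⟩ := hx
    refine ⟨x - y, ?_, y, ?_, by abel⟩
    · rw [← Submodule.ker_mkQ S, LinearMap.mem_ker, map_sub, hxy, sub_self]
    · intro i hi
      have : ∀ z ∈ T, z i = 0 := by
        intro z hz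
        induction hz using Submodule.span_induction with
        | mem z hz =>
          obtain ⟨a, rfl⟩ := hz
          apply Pi.single_eq_of_ne
          intro e
          apply hi
          rw [e]
          exact mem_image_of_mem _ (mem_univ a)
        | zero => rfl
        | add a b _ _ ha hb => rw [Pi.add_apply, ha, hb, add_zero]
        | smul c a _ ha => rw [Pi.smul_apply, ha, smul_zero]
      exact this y hy

/-- a symmetric matrix which kills the subspace and vanishes on the coordinates is zero -/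
theorem eq_zero_of_kill (S : Submodule ℝ (V → ℝ)) (J : Finset V)
    (hJ : ∀ x : V → ℝ, ∃ w ∈ S, ∃ y : V → ℝ, (∀ i, i ∉ J → y i = 0) ∧ x = w + y)
    (D : Matrix V V ℝ) (hD : D.IsSymm) (hk : ∀ w ∈ S, D *ᵥ w = 0)
    (h0 : ∀ x ∈ J, ∀ y ∈ J, D x y = 0) : D = 0 := by
  ext a b
  have e1 : D a b = (Pi.single a (1 : ℝ)) ⬝ᵥ (D *ᵥ (Pi.single b (1 : ℝ))) := by
    rw [Matrix.mulVec_single_one, single_dotProduct, one_mul]
    rfl
  obtain ⟨w, hw, y, hy, h1⟩ := hJ (Pi.single a (1 : ℝ))
  obtain ⟨w', hw', y', hy', h2⟩ := hJ (Pi.single b (1 : ℝ))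
  rw [e1, h1, h2, Matrix.mulVec_add, hk w' hw', zero_add, add_dotProduct, dot_symm D hD w,
    hk w hw, zero_dotProduct, zero_add]
  unfold dotProduct
  apply Finset.sum_eq_zero
  intro i _
  by_cases hi : i ∈ J
  · have : (D *ᵥ y') i = 0 := by
      show ∑ k, D i k * y' k = 0
      apply Finset.sum_eq_zero
      intro k _
      by_cases hk2 : k ∈ J
      · rw [h0 i hi k hk2, zero_mul]
      · rw [hy' k hk2, mul_zero]
    rw [this, mul_zero]
  · rw [hy i hi, zero_mul]

theorem adjR_inj {G H : SimpleGraph V} (h : adjR G = adjR H) : G = H := by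
  ext x y
  have := congrFun (congrFun h x) y
  unfold adjR at this
  by_cases h1 : G.Adj x y <;> by_cases h2 : H.Adj x y <;> simp [h1, h2] at this ⊢

open Classical in
/-- the edges inside `J` -/
noncomputable def inside (J : Finset V) (H : SimpleGraph V) :
    Finset {a : Sym2 {x // x ∈ J} // ¬ a.IsDiag} :=
  univ.filter (fun a => a.1.map Subtype.val ∈ H.edgeSet)

theorem count (G : SimpleGraph V) (hn : 3 ≤ Fintype.card V) (C : Set (V → ℕ))
    (hC : ∀ χ ∈ C, Rec G χ) (ι : Type) [Fintype ι] (H : ι → SimpleGraph V)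
    (hH : ∀ i, ∃ π, Hypo G (H i) π) (hinj : Function.Injective H) :
    Fintype.card ι ≤ 2 ^ ((Fintype.card V - Module.finrank ℝ (nsp G C)) *
      (Fintype.card V - Module.finrank ℝ (nsp G C) - 1) / 2) := by
  classical
  obtain ⟨J, hJc, hJ⟩ := exists_coords (nsp G C)
  rw [← hJc, ← Nat.choose_two_right]
  have hcard : Fintype.card (Finset {a : Sym2 {x // x ∈ J} // ¬ a.IsDiag}) =
      2 ^ (J.card.choose 2) := by
    rw [Fintype.card_finset, Sym2.card_subtype_not_diag, Fintype.card_coe]
  rw [← hcard]
  apply Fintype.card_le_of_injective (fun i => inside J (H i))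
  intro i j hij
  apply hinj
  apply adjR_inj
  rw [← sub_eq_zero]
  obtain ⟨π, hπ⟩ := hH i
  obtain ⟨π', hπ'⟩ := hH j
  apply eq_zero_of_kill (nsp G C) J hJ
  · unfold Matrix.IsSymm
    rw [Matrix.transpose_sub, (adjR_symm _).eq, (adjR_symm _).eq]
  · intro w hw
    have h1 := kill_nsp hπ hn C hC w hw
    have h2 := kill_nsp hπ' hn C hC w hw
    have h3 : adjR (H i) - adjR (H j) = (adjR (H i) - adjR G) - (adjR (H j) - adjR G) := by abel
    rw [h3, Matrix.sub_mulVec, h1, h2, sub_self]
  · intro x hx y hy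
    rw [Matrix.sub_apply]
    by_cases hxy : x = y
    · rw [hxy, adjR_diag, adjR_diag, sub_self]
    · have hnd : ¬ (s((⟨x, hx⟩ : {x // x ∈ J}), ⟨y, hy⟩) : Sym2 {x // x ∈ J}).IsDiag := by
        rw [Sym2.mk_isDiag_iff]
        intro e
        exact hxy (congrArg Subtype.val e)
      have h4 : ((⟨_, hnd⟩ : {a : Sym2 {x // x ∈ J} // ¬ a.IsDiag}) ∈ inside J (H i)) ↔
          ((⟨_, hnd⟩ : {a : Sym2 {x // x ∈ J} // ¬ a.IsDiag}) ∈ inside J (H j)) := by
        have hij' : inside J (H i) = inside J (H j) := hij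
        rw [hij']
      unfold inside at h4
      rw [mem_filter, mem_filter] at h4
      simp only [mem_univ, true_and, Sym2.map_mk, SimpleGraph.mem_edgeSet] at h4
      unfold adjR
      by_cases g1 : (H i).Adj x y
      · rw [if_pos g1, if_pos (h4.1 g1), sub_self]
      · rw [if_neg g1, if_neg (fun e => g1 (h4.2 e)), sub_self]

/-- a graph with the same deck can be moved to the same vertex set -/
theorem hypo_of_sameDeck {W : Type} [Fintype W] (G : SimpleGraph V) (H : SimpleGraph W)
    (h : SameDeck G H) : ∃ (H' : SimpleGraph V) (π : V → Equiv.Perm V), Hypo G H' π ∧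
      ∃ e : V ≃ W, ∀ x y, H.Adj (e x) (e y) ↔ H'.Adj x y := by
  classical
  obtain ⟨f, hf⟩ := h
  have h1 : ∀ v, ∃ σ : Equiv.Perm V, σ v = v ∧ ∀ x y, x ≠ v → y ≠ v →
      (H.Adj (f (σ x)) (f (σ y)) ↔ G.Adj x y) := by
    intro v
    obtain ⟨e, he⟩ := card_iso G H v (f v) (hf v)
    let g : {x : V // x ≠ v} ≃ {x : V // x ≠ v} :=
      e.trans ((f.symm.subtypeEquiv (fun y => by
        constructor
        · intro h h'
          apply h
          rw [← h', Equiv.apply_symm_apply]
        · intro h h'
          apply h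
          rw [h', Equiv.symm_apply_apply])))
    have hg : ∀ x, f (g x : V) = (e x : W) := by
      intro x
      show f (f.symm (e x)) = _
      simp
    let σ : Equiv.Perm V := g.extendSubtype
    refine ⟨σ, ?_, ?_⟩
    · by_contra hne
      have : ¬ (¬ (σ v ≠ v)) := not_not.mpr hne
      exact this (g.extendSubtype_not_mem v (fun h => h rfl))
    · intro x y hx hy
      have ex : σ x = g ⟨x, hx⟩ := g.extendSubtype_apply_of_mem x hx
      have ey : σ y = g ⟨y, hy⟩ := g.extendSubtype_apply_of_mem y hy
      rw [ex, ey, hg, hg]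
      exact he _ _
  choose π hπ1 hπ2 using h1
  exact ⟨H.comap f, π, ⟨hπ1, fun v x y hx hy => hπ2 v x y hx hy⟩, f, fun x y => Iff.rfl⟩

/-- complements of hypomorphic graphs are hypomorphic -/
theorem hypo_compl {G H : SimpleGraph V} {π : V → Equiv.Perm V} (h : Hypo G H π) :
    Hypo Gᶜ Hᶜ π where
  fix := h.fix
  adj := by
    intro v x y hx hy
    rw [SimpleGraph.compl_adj, SimpleGraph.compl_adj, h.adj v x y hx hy]
    rw [(π v).injective.ne_iff]

/-- if every hypomorphic graph on the same vertices is isomorphic to `G`, then `T(G)` and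
`T(Gᶜ)` are reconstructible -/
theorem rec_of_all (G : SimpleGraph V)
    (h : ∀ (H : SimpleGraph V) (π : V → Equiv.Perm V), Hypo G H π →
      ∃ σ : Equiv.Perm V, ∀ x y, H.Adj (σ x) (σ y) ↔ G.Adj x y) :
    Reconstructible G ∧ Reconstructible Gᶜ := by
  constructor
  · intro W _ H hs
    obtain ⟨H', π, hh, e, he⟩ := hypo_of_sameDeck G H hs
    obtain ⟨σ, hσ⟩ := h H' π hh
    exact whole_iso G H (σ.trans e) (fun x y => by
      rw [Equiv.trans_apply, Equiv.trans_apply, he, hσ])
  · intro W _ H hs
    obtain ⟨H', π, hh, e, he⟩ := hypo_of_sameDeck Gᶜ H hs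
    have hc := hypo_compl hh
    rw [compl_compl] at hc
    obtain ⟨σ, hσ⟩ := h H'ᶜ π hc
    refine whole_iso Gᶜ H (σ.trans e) (fun x y => ?_)
    rw [Equiv.trans_apply, Equiv.trans_apply, he]
    have := hσ x y
    rw [SimpleGraph.compl_adj] at this
    rw [SimpleGraph.compl_adj]
    by_cases hxy : x = y
    · subst hxy
      simp
    · have h2 : σ x ≠ σ y := fun e => hxy (σ.injective e)
      constructor
      · intro a
        exact ⟨hxy, fun b => (this.2 b).2 a⟩
      · rintro ⟨_, b⟩
        by_contra a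
        exact b (this.1 ⟨h2, a⟩)

/-- at most `m` isomorphism types of truncated clique lattices have the deck of `T(G)` -/
def AtMost (G : SimpleGraph V) (m : ℕ) : Prop :=
  ∀ (ι : Type) [Fintype ι] (W : ι → Type) [∀ i, Fintype (W i)] (H : ∀ i, SimpleGraph (W i)),
    (∀ i, SameDeck G (H i)) → (∀ i j, i ≠ j → IsEmpty (TLat (H i) ≃o TLat (H j))) →
    Fintype.card ι ≤ m

theorem iso_of_eq {W W' : Type} (H : SimpleGraph W) (H' : SimpleGraph W') (K : SimpleGraph V)
    (e : V ≃ W) (e' : V ≃ W') (he : ∀ x y, H.Adj (e x) (e y) ↔ K.Adj x y)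
    (he' : ∀ x y, H'.Adj (e' x) (e' y) ↔ K.Adj x y) : Nonempty (TLat H ≃o TLat H') := by
  apply whole_iso H H' (e.symm.trans e')
  intro x y
  rw [Equiv.trans_apply, Equiv.trans_apply, he']
  rw [← he, Equiv.apply_symm_apply, Equiv.apply_symm_apply]

theorem atMost_of (G : SimpleGraph V) (m : ℕ)
    (h : ∀ (ι : Type) [Fintype ι] (H : ι → SimpleGraph V), (∀ i, ∃ π, Hypo G (H i) π) →
      Function.Injective H → Fintype.card ι ≤ m) : AtMost G m ∧ AtMost Gᶜ m := by
  constructor
  · intro ι _ W _ H hs hne
    choose H' π hh e he using fun i => hypo_of_sameDeck G (H i) (hs i)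
    apply h ι H' (fun i => ⟨π i, hh i⟩)
    intro i j hij
    by_contra hne2
    have := iso_of_eq (H i) (H j) (H' i) (e i) (e j) (he i) (by rw [hij]; exact he j)
    exact (hne i j hne2).false this.some
  · intro ι _ W _ H hs hne
    choose H' π hh e he using fun i => hypo_of_sameDeck Gᶜ (H i) (hs i)
    apply h ι (fun i => (H' i)ᶜ) (fun i => ⟨π i, by
      have := hypo_compl (hh i)
      rwa [compl_compl] at this⟩)
    intro i j hij
    by_contra hne2
    have hij' : H' i = H' j := compl_injective hij
    have := iso_of_eq (H i) (H j) (H' i) (e i) (e j) (he i) (by rw [hij']; exact he j)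
    exact (hne i j hne2).false this.some

/-- neighbourhood -/
noncomputable def nbh (G : SimpleGraph V) (v : V) : Finset V := by
  classical
  exact univ.filter (fun x => G.Adj v x)

theorem adjR_sum (G : SimpleGraph V) (v : V) (F : V → ℝ) :
    (adjR G *ᵥ F) v = ∑ x ∈ nbh G v, F x := by
  classical
  show ∑ y, adjR G v y * F y = _
  unfold nbh
  rw [Finset.sum_filter]
  apply Finset.sum_congr rfl
  intro y _
  unfold adjR
  by_cases h1 : G.Adj v y <;> simp [h1]

/-- a symmetric matrix with zero row sums and zero diagonal which vanishes outside three indices -/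
theorem three_zero (D : Matrix V V ℝ) (hD : D.IsSymm) (hd : ∀ v, D v v = 0)
    (h1 : ∀ v, ∑ x, D v x = 0) (X : Finset V) (hX : X.card ≤ 3)
    (h0 : ∀ v, v ∉ X → ∀ x, D v x = 0) : D = 0 := by
  classical
  have hs : ∀ x y, D x y = D y x := fun x y => by
    have := congrFun (congrFun hD.eq y) x
    rw [Matrix.transpose_apply] at this
    exact this
  have hrow : ∀ v, ∑ x ∈ X, D v x = 0 := by
    intro v
    rw [← h1 v]
    apply Finset.sum_subset (Finset.subset_univ X)
    intro x _ hx
    rw [hs, h0 x hx]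
  ext x y
  rw [Matrix.zero_apply]
  by_cases hxy : x = y
  · rw [hxy, hd]
  by_cases hx : x ∈ X
  swap
  · exact h0 x hx y
  by_cases hy : y ∈ X
  swap
  · rw [hs]; exact h0 y hy x
  have hyx : y ∈ X.erase x := mem_erase.2 ⟨fun e => hxy e.symm, hy⟩
  have hsum : ∀ v, D v x + (D v y + ∑ z ∈ (X.erase x).erase y, D v z) = 0 := by
    intro v
    rw [← hrow v, ← Finset.add_sum_erase X _ hx, ← Finset.add_sum_erase (X.erase x) _ hyx]
  have hc : ((X.erase x).erase y).card ≤ 1 := by
    rw [card_erase_of_mem hyx, card_erase_of_mem hx]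
    omega
  haveI : Nonempty V := ⟨x⟩
  rcases Finset.card_le_one_iff_subset_singleton.1 hc with ⟨z, hz⟩
  rcases Finset.subset_singleton_iff.1 hz with hz | hz
  · have := hsum x
    rw [hz, Finset.sum_empty, hd] at this
    linarith
  · have a1 := hsum x
    have a2 := hsum y
    have a3 := hsum z
    rw [hz, Finset.sum_singleton, hd] at a1 a2 a3
    have b1 := hs x y
    have b2 := hs x z
    have b3 := hs y z
    linarith

/-- the criterion with at most three exceptional vertices -/
theorem crit (G : SimpleGraph V) (hn : 3 ≤ Fintype.card V) (C : Set (V → ℕ))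
    (hC : ∀ χ ∈ C, Rec G χ) (X : Finset V) (hX : X.card ≤ 3)
    (hS : ∀ v, v ∉ X → ∀ S : Finset V, v ∉ S →
      (∀ F ∈ nsp G C, ∑ x ∈ S, F x = ∑ x ∈ nbh G v, F x) → S = nbh G v)
    (H : SimpleGraph V) (π : V → Equiv.Perm V) (hh : Hypo G H π) : H = G := by
  classical
  apply adjR_inj
  rw [← sub_eq_zero]
  apply three_zero (adjR H - adjR G) ?_ ?_ ?_ X hX ?_
  · unfold Matrix.IsSymm
    rw [Matrix.transpose_sub, (adjR_symm _).eq, (adjR_symm _).eq]
  · intro v
    rw [Matrix.sub_apply, adjR_diag, adjR_diag, sub_self]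
  · intro v
    have := congrFun ((pair_of_hypo hh).kill hn (fun _ => 1) Pair.inv_one 0) v
    rw [pow_zero, Matrix.one_mulVec] at this
    have e : ((adjR H - adjR G) *ᵥ (fun _ => (1 : ℝ))) v = ∑ x, (adjR H - adjR G) v x := by
      show ∑ x, (adjR H - adjR G) v x * 1 = _
      simp
    rw [e] at this
    exact this
  · intro v hv x
    have h1 : nbh H v = nbh G v := by
      apply hS v hv
      · unfold nbh
        rw [mem_filter]
        exact fun e => H.loopless.irrefl v e.2
      · intro F hF
        have := congrFun (kill_nsp hh hn C hC F hF) v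
        rw [Matrix.sub_mulVec, Pi.sub_apply, adjR_sum, adjR_sum] at this
        exact sub_eq_zero.1 this
    have h2 : H.Adj v x ↔ G.Adj v x := by
      have : x ∈ nbh H v ↔ x ∈ nbh G v := by rw [h1]
      unfold nbh at this
      rw [mem_filter, mem_filter] at this
      simpa using this
    rw [Matrix.sub_apply]
    unfold adjR
    by_cases g : G.Adj v x
    · rw [if_pos g, if_pos (h2.2 g), sub_self]
    · rw [if_neg g, if_neg (fun e => g (h2.1 e)), sub_self]

end Pool.Agent.X79.RW
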