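import Pool.Agent.X79.RW4

set_option autoImplicit false
set_option linter.unusedSectionVars false

/-!
Matching lemmas.
-/

namespace Pool.Agent.X79.RW

open Finset Matrix

theorem exists_equiv_of_fiber {α β K : Type} [Fintype α] [Fintype β] (f : α → K) (g : β → K)
    (h : ∀ k, Nat.card {a // f a = k} = Nat.card {b // g b = k}) :
    ∃ e : α ≃ β, ∀ a, g (e a) = f a := by
  classical
  have h1 : ∀ k, Nonempty ({a // f a = k} ≃ {b // g b = k}) := by
    intro k
    apply Fintype.card_eq.1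
    rw [← Nat.card_eq_fintype_card, ← Nat.card_eq_fintype_card]
    exact h k
  let E' : ∀ k, {a // f a = k} ≃ {b // g b = k} := fun k => Classical.choice (h1 k)
  refine ⟨(Equiv.sigmaFiberEquiv f).symm.trans
    ((Equiv.sigmaCongrRight E').trans (Equiv.sigmaFiberEquiv g)), ?_⟩
  intro a
  show g (E' (f a) ⟨a, rfl⟩).1 = f a
  exact (E' (f a) ⟨a, rfl⟩).2

open Classical in
/-- number of points with sign `s` and value `γ` -/
noncomputable def mc {α I : Type} [Fintype α] (Γ : α → I → ℝ) (s : α → ℝ) (t : ℝ) (γ : I → ℝ) :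
    ℕ := (univ.filter (fun x => s x = t ∧ Γ x = γ)).card

open Classical in
theorem mc_three {α I : Type} [Fintype α] (Γ : α → I → ℝ) (s : α → ℝ)
    (hs : ∀ x, s x = -1 ∨ s x = 0 ∨ s x = 1) (γ : I → ℝ) :
    (univ.filter (fun x => Γ x = γ)).card = mc Γ s (-1) γ + mc Γ s 0 γ + mc Γ s 1 γ := by
  unfold mc
  have h1 : univ.filter (fun x => Γ x = γ) = (univ.filter (fun x => s x = -1 ∧ Γ x = γ) ∪
      univ.filter (fun x => s x = 0 ∧ Γ x = γ)) ∪ univ.filter (fun x => s x = 1 ∧ Γ x = γ) := by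
    ext x
    simp only [mem_union, mem_filter, mem_univ, true_and]
    rcases hs x with h | h | h <;> simp [h]
  rw [h1, Finset.card_union_of_disjoint, Finset.card_union_of_disjoint]
  · rw [Finset.disjoint_left]
    intro x hx hy
    rw [mem_filter] at hx hy
    rw [hx.2.1] at hy
    norm_num at hy
  · rw [Finset.disjoint_left]
    intro x hx hy
    rw [mem_union, mem_filter, mem_filter] at hx
    rw [mem_filter] at hy
    rcases hx with hx | hx
    · rw [hx.2.1] at hy
      norm_num at hy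
    · rw [hx.2.1] at hy
      norm_num at hy

theorem mc_shift {α I : Type} [Fintype α] (Γ Γ' : α → I → ℝ) (s : α → ℝ) (h : I → ℝ)
    (hΓ : ∀ x, Γ' x = Γ x - s x • h) (t : ℝ) (γ : I → ℝ) :
    mc Γ' s t γ = mc Γ s t (γ + t • h) := by
  classical
  unfold mc
  congr 1
  ext x
  simp only [mem_filter, mem_univ, true_and]
  constructor
  · rintro ⟨a, b⟩
    refine ⟨a, ?_⟩
    rw [← b, hΓ, a]
    abel
  · rintro ⟨a, b⟩
    refine ⟨a, ?_⟩
    rw [hΓ, a, b]
    abel

open Classical in
theorem match_eq {α I : Type} [Fintype α] (Γ Γ' : α → I → ℝ) (s : α → ℝ) (h : I → ℝ)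
    (hs : ∀ x, s x = -1 ∨ s x = 0 ∨ s x = 1) (hΓ : ∀ x, Γ' x = Γ x - s x • h) (hh : h ≠ 0)
    (e : Equiv.Perm α) (he : ∀ x, Γ' (e x) = Γ x) (γ : I → ℝ) :
    mc Γ s 1 (γ + h) = mc Γ s (-1) γ := by
  have h1 : ∀ γ, (univ.filter (fun x => Γ x = γ)).card = (univ.filter (fun x => Γ' x = γ)).card := by
    intro γ
    have : (univ.filter (fun x => Γ x = γ)).map e.toEmbedding =
        univ.filter (fun x => Γ' x = γ) := by
      ext y
      obtain ⟨x, rfl⟩ := e.surjective y
      rw [mem_map_equiv, Equiv.symm_apply_apply, mem_filter, mem_filter, he]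
      simp
    rw [← this, card_map]
  have h2 : ∀ γ, mc Γ s (-1) γ + mc Γ s 1 γ = mc Γ s (-1) (γ - h) + mc Γ s 1 (γ + h) := by
    intro γ
    have a1 := h1 γ
    rw [mc_three Γ s hs, mc_three Γ' s hs, mc_shift Γ Γ' s h hΓ, mc_shift Γ Γ' s h hΓ,
      mc_shift Γ Γ' s h hΓ, zero_smul, add_zero, one_smul, neg_smul, one_smul,
      ← sub_eq_add_neg] at a1
    omega
  -- the periodic function
  let u : (I → ℝ) → ℤ := fun γ => (mc Γ s 1 (γ + h) : ℤ) - mc Γ s (-1) γ
  have h3 : ∀ γ, u (γ + h) = u γ := by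
    intro γ
    have := h2 (γ + h)
    rw [add_sub_cancel_right] at this
    show (mc Γ s 1 (γ + h + h) : ℤ) - mc Γ s (-1) (γ + h) = (mc Γ s 1 (γ + h) : ℤ) - mc Γ s (-1) γ
    omega
  have h4 : ∀ n : ℕ, u (γ + (n : ℝ) • h) = u γ := by
    intro n
    induction n with
    | zero => rw [Nat.cast_zero, zero_smul, add_zero]
    | succ n ih =>
      rw [Nat.cast_succ, add_smul, one_smul, ← add_assoc, h3, ih]
  have hinj : Function.Injective (fun n : ℕ => γ + (n : ℝ) • h) := by
    intro a b hab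
    have h5 : ((a : ℝ) - b) • h = 0 := by
      rw [sub_smul]
      have := add_left_cancel hab
      rw [this, sub_self]
    rcases smul_eq_zero.1 h5 with h6 | h6
    · have : (a : ℝ) = b := by linarith
      exact_mod_cast this
    · exact absurd h6 hh
  have hfin : Set.Finite {n : ℕ | γ + (n : ℝ) • h ∈ Set.range Γ} := by
    apply Set.Finite.preimage hinj.injOn (Set.finite_range Γ)
  obtain ⟨N, hN⟩ := hfin.bddAbove
  have h7 : ∀ n, N < n → ∀ t, mc Γ s t (γ + (n : ℝ) • h) = 0 := by
    intro n hn t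
    unfold mc
    rw [Finset.card_eq_zero, Finset.filter_eq_empty_iff]
    rintro x _ ⟨_, hx⟩
    have : n ≤ N := hN ⟨x, hx⟩
    omega
  have h8 : u (γ + ((N + 1 : ℕ) : ℝ) • h) = 0 := by
    show (mc Γ s 1 (γ + ((N + 1 : ℕ) : ℝ) • h + h) : ℤ) -
      mc Γ s (-1) (γ + ((N + 1 : ℕ) : ℝ) • h) = 0
    have e1 : γ + ((N + 1 : ℕ) : ℝ) • h + h = γ + ((N + 2 : ℕ) : ℝ) • h := by
      have : ((N + 2 : ℕ) : ℝ) = ((N + 1 : ℕ) : ℝ) + 1 := by push_cast; ring
      rw [this, add_smul, one_smul, add_assoc]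
    rw [e1, h7 (N + 2) (by omega), h7 (N + 1) (by omega)]
    rfl
  rw [h4] at h8
  have : (mc Γ s 1 (γ + h) : ℤ) - mc Γ s (-1) γ = 0 := h8
  omega

/-- the matching permutation -/
theorem exists_theta {α I : Type} [Fintype α] (Γ Γ' : α → I → ℝ) (s : α → ℝ) (h : I → ℝ)
    (hs : ∀ x, s x = -1 ∨ s x = 0 ∨ s x = 1) (hΓ : ∀ x, Γ' x = Γ x - s x • h) (hh : h ≠ 0)
    (e : Equiv.Perm α) (he : ∀ x, Γ' (e x) = Γ x) :
    ∃ θ : Equiv.Perm α, (∀ x, s x = 0 → θ x = x) ∧ (∀ x, Γ' (θ x) = Γ x) ∧
      (∀ x, s (θ x) = - s x) := by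
  classical
  have key : ∀ k : (I → ℝ) × ℝ,
      Nat.card {a : {x // s x ≠ 0} // (Γ a.1, - s a.1) = k} =
        Nat.card {a : {x // s x ≠ 0} // (Γ' a.1, s a.1) = k} := by
    rintro ⟨γ, t⟩
    have e1 : Nat.card {a : {x // s x ≠ 0} // (Γ a.1, - s a.1) = (γ, t)} =
        (univ.filter (fun x => s x ≠ 0 ∧ s x = -t ∧ Γ x = γ)).card := by
      rw [← Nat.card_eq_finsetCard]
      apply Nat.card_congr
      refine ⟨fun a => ⟨a.1.1, ?_⟩, fun b => ⟨⟨b.1, ?_⟩, ?_⟩, fun a => rfl, fun b => rfl⟩
      · have := a.2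
        rw [Prod.mk.injEq] at this
        rw [mem_filter]
        exact ⟨mem_univ _, a.1.2, by linarith [this.2], this.1⟩
      · have := b.2
        rw [mem_filter] at this
        exact this.2.1
      · have := b.2
        rw [mem_filter] at this
        rw [Prod.mk.injEq]
        exact ⟨this.2.2.2, by linarith [this.2.2.1]⟩
    have e2 : Nat.card {a : {x // s x ≠ 0} // (Γ' a.1, s a.1) = (γ, t)} =
        (univ.filter (fun x => s x ≠ 0 ∧ s x = t ∧ Γ' x = γ)).card := by
      rw [← Nat.card_eq_finsetCard]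
      apply Nat.card_congr
      refine ⟨fun a => ⟨a.1.1, ?_⟩, fun b => ⟨⟨b.1, ?_⟩, ?_⟩, fun a => rfl, fun b => rfl⟩
      · have := a.2
        rw [Prod.mk.injEq] at this
        rw [mem_filter]
        exact ⟨mem_univ _, a.1.2, this.2, this.1⟩
      · have := b.2
        rw [mem_filter] at this
        exact this.2.1
      · have := b.2
        rw [mem_filter] at this
        rw [Prod.mk.injEq]
        exact ⟨this.2.2.2, this.2.2.1⟩
    rw [e1, e2]
    by_cases ht : t = 0
    · subst ht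
      congr 1
      ext x
      simp only [mem_filter, mem_univ, true_and]
      constructor
      · rintro ⟨a, b, _⟩
        exact absurd (by linarith) a
      · rintro ⟨a, b, _⟩
        exact absurd b a
    · have f1 : univ.filter (fun x => s x ≠ 0 ∧ s x = -t ∧ Γ x = γ) =
          univ.filter (fun x => s x = -t ∧ Γ x = γ) := by
        ext x
        simp only [mem_filter, mem_univ, true_and]
        constructor
        · rintro ⟨_, b⟩
          exact b
        · rintro ⟨a, b⟩
          exact ⟨by rw [a]; exact neg_ne_zero.2 ht, a, b⟩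
      have f2 : univ.filter (fun x => s x ≠ 0 ∧ s x = t ∧ Γ' x = γ) =
          univ.filter (fun x => s x = t ∧ Γ' x = γ) := by
        ext x
        simp only [mem_filter, mem_univ, true_and]
        constructor
        · rintro ⟨_, b⟩
          exact b
        · rintro ⟨a, b⟩
          exact ⟨by rw [a]; exact ht, a, b⟩
      rw [f1, f2]
      show mc Γ s (-t) γ = mc Γ' s t γ
      rw [mc_shift Γ Γ' s h hΓ]
      by_cases h1 : t = 1
      · subst h1
        rw [one_smul, match_eq Γ Γ' s h hs hΓ hh e he]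
      · by_cases h2 : t = -1
        · subst h2
          rw [neg_smul, one_smul, neg_neg, ← sub_eq_add_neg]
          have := match_eq Γ Γ' s h hs hΓ hh e he (γ - h)
          rwa [sub_add_cancel] at this
        · have z1 : mc Γ s (-t) γ = 0 := by
            unfold mc
            rw [Finset.card_eq_zero, Finset.filter_eq_empty_iff]
            rintro x _ ⟨hx, _⟩
            rcases hs x with h3 | h3 | h3
            · apply h1; linarith
            · apply ht; linarith
            · apply h2; linarith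
          have z2 : mc Γ s t (γ + t • h) = 0 := by
            unfold mc
            rw [Finset.card_eq_zero, Finset.filter_eq_empty_iff]
            rintro x _ ⟨hx, _⟩
            rcases hs x with h3 | h3 | h3
            · apply h2; linarith
            · apply ht; linarith
            · apply h1; linarith
          rw [z1, z2]
  obtain ⟨E, hE⟩ := exists_equiv_of_fiber (fun a : {x // s x ≠ 0} => (Γ a.1, - s a.1))
    (fun a : {x // s x ≠ 0} => (Γ' a.1, s a.1)) key
  refine ⟨Equiv.Perm.ofSubtype E, ?_, ?_, ?_⟩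
  · intro x hx
    exact Equiv.Perm.ofSubtype_apply_of_not_mem E (fun e => e hx)
  · intro x
    by_cases hx : s x = 0
    · rw [Equiv.Perm.ofSubtype_apply_of_not_mem E (fun e => e hx), hΓ, hx, zero_smul, sub_zero]
    · rw [Equiv.Perm.ofSubtype_apply_of_mem E hx]
      exact (Prod.mk.injEq _ _ _ _ ▸ hE ⟨x, hx⟩ : _ ∧ _).1
  · intro x
    by_cases hx : s x = 0
    · rw [Equiv.Perm.ofSubtype_apply_of_not_mem E (fun e => e hx), hx, neg_zero]
    · rw [Equiv.Perm.ofSubtype_apply_of_mem E hx]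
      exact (Prod.mk.injEq _ _ _ _ ▸ hE ⟨x, hx⟩ : _ ∧ _).2

end Pool.Agent.X79.RW
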