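import Pool.Agent.X79.RW5

set_option autoImplicit false
set_option linter.unusedSectionVars false

/-!
The case in which the walk space has codimension at most two.
-/

namespace Pool.Agent.X79.RW

open Finset Matrix
open Pool.Agent.H234RC (Hypo TLat TCard SameDeck Reconstructible card_iso whole_iso)

variable {V : Type} [Fintype V] [DecidableEq V]

/-- vertices of `G - v` with the same value of `Γ` are twins in `G - v` -/
def Twin {I : Type} (G : SimpleGraph V) (v : V) (Γ : V → I → ℝ) : Prop :=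
  ∀ x x', x ≠ v → x' ≠ v → x ≠ x' → Γ x = Γ x' →
    ∀ y, y ≠ v → y ≠ x → y ≠ x' → (G.Adj x y ↔ G.Adj x' y)

theorem twin_perm {I : Type} (G : SimpleGraph V) (v : V) (Γ : V → I → ℝ) (hT : Twin G v Γ)
    (x y x' y' : V) (hx : x ≠ v) (hy : y ≠ v) (hx' : x' ≠ v) (hy' : y' ≠ v) (hxy : x ≠ y)
    (hxy' : x' ≠ y') (h1 : Γ x = Γ x') (h2 : Γ y = Γ y') : G.Adj x y ↔ G.Adj x' y' := by
  have step : ∀ a a' b, a ≠ v → a' ≠ v → b ≠ v → Γ a = Γ a' → b ≠ a → b ≠ a' →
      (G.Adj a b ↔ G.Adj a' b) := by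
    intro a a' b ha ha' hb h hba hba'
    by_cases e : a = a'
    · rw [e]
    · exact hT a a' ha ha' e h b hb hba hba'
  by_cases c1 : y = x'
  · by_cases c2 : x = y'
    · rw [c1, c2, G.adj_comm]
    · have s1 := step y y' x hy hy' hx h2 hxy c2
      have s2 := step x x' y' hx hx' hy' h1 (Ne.symm c2) (Ne.symm hxy')
      rw [G.adj_comm x y, s1, G.adj_comm y' x, s2]
  · have s1 := step x x' y hx hx' hy h1 (Ne.symm hxy) c1
    have s2 := step y y' x' hy hy' hx' h2 (Ne.symm c1) hxy'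
    rw [s1, G.adj_comm x' y, s2, G.adj_comm y' x']

theorem twin_transfer {I : Type} {G H : SimpleGraph V} {π : V → Equiv.Perm V}
    (hh : Hypo G H π) (v : V) (Γ Γ' : V → I → ℝ) (hT : Twin G v Γ)
    (he : ∀ x, Γ' (π v x) = Γ x) : Twin H v Γ' := by
  intro z z' hz hz' hne hzz y hy hyz hyz'
  obtain ⟨x, rfl⟩ := (π v).surjective z
  obtain ⟨x', rfl⟩ := (π v).surjective z'
  obtain ⟨t, rfl⟩ := (π v).surjective y
  have a : x ≠ v := fun e => hz (by rw [e, hh.fix])
  have a' : x' ≠ v := fun e => hz' (by rw [e, hh.fix])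
  have a'' : t ≠ v := fun e => hy (by rw [e, hh.fix])
  rw [hh.adj v x t a a'', hh.adj v x' t a' a'']
  rw [he, he] at hzz
  exact hT x x' a a' (fun e => hne (by rw [e])) hzz t a'' (fun e => hyz (by rw [e]))
    (fun e => hyz' (by rw [e]))

theorem del_symm (A : Matrix V V ℝ) (hA : A.IsSymm) (v : V) : (del A v).IsSymm := by
  ext x y
  rw [Matrix.transpose_apply]
  unfold del
  have : A y x = A x y := by
    have := congrFun (congrFun hA.eq x) y
    rwa [Matrix.transpose_apply] at this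
  rw [this]
  by_cases h1 : x = v <;> by_cases h2 : y = v <;> simp [h1, h2]

theorem del_mulVec_of_zero (A : Matrix V V ℝ) (v : V) (z : V → ℝ) (hz : z v = 0) (x : V) :
    (del A v *ᵥ z) x = if x = v then 0 else (A *ᵥ z) x := by
  by_cases hx : x = v
  · rw [if_pos hx]
    show ∑ y, del A v x y * z y = 0
    apply Finset.sum_eq_zero
    intro y _
    unfold del
    rw [if_pos (Or.inl hx), zero_mul]
  · rw [if_neg hx]
    show ∑ y, del A v x y * z y = ∑ y, A x y * z y
    apply Finset.sum_congr rfl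
    intro y _
    by_cases hy : y = v
    · rw [hy, hz, mul_zero, mul_zero]
    · unfold del
      rw [if_neg (by tauto)]

/-- the setting of a rank two switch -/
structure Sw (G H : SimpleGraph V) (S : Submodule ℝ (V → ℝ)) (σ τ : V → ℝ) : Prop where
  hD : ∀ x y, adjR H x y = adjR G x y + σ x * τ y + τ x * σ y
  hσ : ∀ x, σ x = -1 ∨ σ x = 0 ∨ σ x = 1
  hτ : ∀ x, τ x = -1 ∨ τ x = 0 ∨ τ x = 1
  hστ : ∀ x, σ x * τ x = 0
  hσ0 : ∃ x, σ x ≠ 0
  hτ0 : ∃ x, τ x ≠ 0
  oσ : ∀ w ∈ S, σ ⬝ᵥ w = 0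
  oτ : ∀ w ∈ S, τ ⬝ᵥ w = 0
  span : ∀ z : V → ℝ, (∀ w ∈ S, z ⬝ᵥ w = 0) → ∃ α β : ℝ, z = α • σ + β • τ
  one : (fun _ => (1 : ℝ)) ∈ S
  inv : ∀ w ∈ S, adjR G *ᵥ w ∈ S

namespace Sw

variable {G H : SimpleGraph V} {S : Submodule ℝ (V → ℝ)} {σ τ : V → ℝ}

theorem swap (h : Sw G H S σ τ) : Sw G H S τ σ where
  hD := fun x y => by rw [h.hD]; ring
  hσ := h.hτ
  hτ := h.hσ
  hστ := fun x => by rw [mul_comm]; exact h.hστ x
  hσ0 := h.hτ0
  hτ0 := h.hσ0
  oσ := h.oτ
  oτ := h.oσ
  span := fun z hz => by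
    obtain ⟨α, β, e⟩ := h.span z hz
    exact ⟨β, α, by rw [e, add_comm]⟩
  one := h.one
  inv := h.inv

theorem entry (h : Sw G H S σ τ) (x y : V) (hx : σ x ≠ 0) (hy : τ y ≠ 0) :
    adjR G y x = (1 - σ x * τ y) / 2 ∧ adjR H y x = (1 + σ x * τ y) / 2 := by
  have a1 : σ y = 0 := by
    rcases mul_eq_zero.1 (h.hστ y) with e | e
    · exact e
    · exact absurd e hy
  have a2 : τ x = 0 := by
    rcases mul_eq_zero.1 (h.hστ x) with e | e
    · exact absurd e hx
    · exact e
  have e := h.hD y x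
  rw [a1, a2] at e
  have g1 : adjR G y x = 0 ∨ adjR G y x = 1 := by
    unfold adjR; split_ifs <;> simp
  have g2 : adjR H y x = 0 ∨ adjR H y x = 1 := by
    unfold adjR; split_ifs <;> simp
  have s1 : σ x = -1 ∨ σ x = 1 := by
    rcases h.hσ x with e | e | e
    · exact Or.inl e
    · exact absurd e hx
    · exact Or.inr e
  have s2 : τ y = -1 ∨ τ y = 1 := by
    rcases h.hτ y with e | e | e
    · exact Or.inl e
    · exact absurd e hy
    · exact Or.inr e
  rcases g1 with g1 | g1 <;> rcases g2 with g2 | g2 <;> rcases s1 with s1 | s1 <;>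
    rcases s2 with s2 | s2 <;> rw [g1, g2, s1, s2] at e <;>
    first
      | (exfalso; norm_num at e; done)
      | (rw [g1, g2, s1, s2]; constructor <;> norm_num)

theorem P2_pos (h : Sw G H S σ τ) : 0 < σ ⬝ᵥ σ := by
  obtain ⟨x, hx⟩ := h.hσ0
  unfold dotProduct
  apply Finset.sum_pos' (fun i _ => mul_self_nonneg _)
  exact ⟨x, mem_univ x, mul_self_pos.2 hx⟩

theorem sum_zero (h : Sw G H S σ τ) : ∑ x, σ x = 0 := by
  have := h.oσ _ h.one
  unfold dotProduct at this
  simpa using this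

theorem perp_inv (h : Sw G H S σ τ) (z : V → ℝ) (hz : ∀ w ∈ S, z ⬝ᵥ w = 0) :
    ∀ w ∈ S, (adjR G *ᵥ z) ⬝ᵥ w = 0 := by
  intro w hw
  rw [← dot_symm _ (adjR_symm G)]
  exact hz _ (h.inv w hw)

theorem A_sigma (h : Sw G H S σ τ) :
    ∃ l : ℝ, ∀ x, (adjR G *ᵥ σ) x = l * σ x - (σ ⬝ᵥ σ) / 2 * τ x := by
  obtain ⟨α, β, e⟩ := h.span _ (h.perp_inv σ h.oσ)
  obtain ⟨y, hy⟩ := h.hτ0
  have hσy : σ y = 0 := by
    rcases mul_eq_zero.1 (h.hστ y) with e | e
    · exact e
    · exact absurd e hy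
  have h1 : (adjR G *ᵥ σ) y = β * τ y := by
    rw [e, Pi.add_apply, Pi.smul_apply, Pi.smul_apply, hσy]
    simp
  have h2 : (adjR G *ᵥ σ) y = - (σ ⬝ᵥ σ) / 2 * τ y := by
    show ∑ x, adjR G y x * σ x = _
    have h3 : ∀ x ∈ (univ : Finset V), adjR G y x * σ x = σ x / 2 - (σ x * σ x) * (τ y / 2) := by
      intro x _
      by_cases hx : σ x = 0
      · rw [hx]; ring
      · rw [(h.entry x y hx hy).1]; ring
    rw [Finset.sum_congr rfl h3, Finset.sum_sub_distrib, ← Finset.sum_div, h.sum_zero,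
      ← Finset.sum_mul]
    unfold dotProduct
    ring
  have hβ : β = - (σ ⬝ᵥ σ) / 2 := by
    rw [h1] at h2
    exact mul_right_cancel₀ hy h2
  refine ⟨α, fun x => ?_⟩
  rw [e, hβ, Pi.add_apply, Pi.smul_apply, Pi.smul_apply, smul_eq_mul, smul_eq_mul]
  ring

/-- the reflection -/
noncomputable def sg (σ : V → ℝ) (F : V → ℝ) : V → ℝ :=
  fun x => F x - 2 * (σ ⬝ᵥ F) / (σ ⬝ᵥ σ) * σ x

/-- `τ` with the value at `v` replaced by zero -/
def tz (τ : V → ℝ) (v : V) : V → ℝ := fun x => if x = v then 0 else τ x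

theorem B_sigma (h : Sw G H S σ τ) (v : V) (hv : σ v = 0) :
    ∃ l : ℝ, ∀ x, (del (adjR G) v *ᵥ σ) x = l * σ x - (σ ⬝ᵥ σ) / 2 * tz τ v x := by
  obtain ⟨l, hl⟩ := h.A_sigma
  refine ⟨l, fun x => ?_⟩
  rw [del_mulVec_of_zero _ _ _ hv]
  unfold tz
  by_cases hx : x = v
  · rw [if_pos hx, if_pos hx, hx, hv]; ring
  · rw [if_neg hx, if_neg hx, hl]

theorem B'_mulVec (h : Sw G H S σ τ) (v : V) (hv : σ v = 0) (F : V → ℝ) (x : V) :
    (del (adjR H) v *ᵥ F) x =
      (del (adjR G) v *ᵥ F) x + σ x * (tz τ v ⬝ᵥ F) + tz τ v x * (σ ⬝ᵥ F) := by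
  show ∑ y, del (adjR H) v x y * F y = ∑ y, del (adjR G) v x y * F y + σ x * (∑ y, tz τ v y * F y)
    + tz τ v x * (∑ y, σ y * F y)
  rw [Finset.mul_sum, Finset.mul_sum, ← Finset.sum_add_distrib, ← Finset.sum_add_distrib]
  apply Finset.sum_congr rfl
  intro y _
  unfold del tz
  by_cases hx : x = v
  · simp [hx, hv]
  · by_cases hy : y = v
    · simp [hy, hv]
    · rw [if_neg (by tauto), if_neg (by tauto), if_neg hx, if_neg hy, h.hD]
      ring

theorem tz_sigma (h : Sw G H S σ τ) (v : V) : tz τ v ⬝ᵥ σ = 0 := by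
  unfold dotProduct tz
  apply Finset.sum_eq_zero
  intro x _
  split_ifs
  · rw [zero_mul]
  · rw [mul_comm]; exact h.hστ x

theorem B'_sg (h : Sw G H S σ τ) (v : V) (hv : σ v = 0) (F : V → ℝ) :
    del (adjR H) v *ᵥ (sg σ F) = sg σ (del (adjR G) v *ᵥ F) := by
  obtain ⟨l, hl⟩ := h.B_sigma v hv
  have hP := h.P2_pos
  have e1 : sg σ F = F - (2 * (σ ⬝ᵥ F) / (σ ⬝ᵥ σ)) • σ := by
    funext x
    rw [Pi.sub_apply, Pi.smul_apply, smul_eq_mul]
    rfl
  have e2 : del (adjR G) v *ᵥ σ = l • σ - ((σ ⬝ᵥ σ) / 2) • tz τ v := by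
    funext x
    rw [Pi.sub_apply, Pi.smul_apply, Pi.smul_apply, smul_eq_mul, smul_eq_mul]
    exact hl x
  have e3 : σ ⬝ᵥ (del (adjR G) v *ᵥ F) = l * (σ ⬝ᵥ F) - (σ ⬝ᵥ σ) / 2 * (tz τ v ⬝ᵥ F) := by
    rw [dot_symm _ (del_symm _ (adjR_symm G) v), e2, sub_dotProduct, smul_dotProduct,
      smul_dotProduct, smul_eq_mul, smul_eq_mul]
  funext x
  rw [h.B'_mulVec v hv]
  have e4 : (del (adjR G) v *ᵥ (sg σ F)) x = (del (adjR G) v *ᵥ F) x -
      2 * (σ ⬝ᵥ F) / (σ ⬝ᵥ σ) * (l * σ x - (σ ⬝ᵥ σ) / 2 * tz τ v x) := by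
    rw [e1, Matrix.mulVec_sub, Matrix.mulVec_smul, Pi.sub_apply, Pi.smul_apply, smul_eq_mul, hl]
  have e5 : tz τ v ⬝ᵥ (sg σ F) = tz τ v ⬝ᵥ F := by
    rw [e1, dotProduct_sub, dotProduct_smul, h.tz_sigma, smul_zero, sub_zero]
  have e6 : σ ⬝ᵥ (sg σ F) = - (σ ⬝ᵥ F) := by
    rw [e1, dotProduct_sub, dotProduct_smul, smul_eq_mul]
    field_simp
    ring
  rw [e4, e5, e6]
  show _ = (del (adjR G) v *ᵥ F) x - 2 * (σ ⬝ᵥ (del (adjR G) v *ᵥ F)) / (σ ⬝ᵥ σ) * σ x
  rw [e3]
  field_simp
  ring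

theorem B'_pow (h : Sw G H S σ τ) (v : V) (hv : σ v = 0) (f : V → ℝ) (hf : f ∈ S) (k : ℕ) :
    del (adjR H) v ^ k *ᵥ f = sg σ (del (adjR G) v ^ k *ᵥ f) := by
  induction k with
  | zero =>
    rw [pow_zero, pow_zero, Matrix.one_mulVec]
    funext x
    unfold sg
    rw [h.oσ f hf]
    simp
  | succ k ih =>
    rw [pow_succ', ← Matrix.mulVec_mulVec, ih, h.B'_sg v hv, Matrix.mulVec_mulVec, ← pow_succ']

/-- if both supports avoid `v`, the powers of the card matrix do not see the switch -/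
theorem perp_B (h : Sw G H S σ τ) (v : V) (hv : σ v = 0) (hv' : τ v = 0) (z : V → ℝ)
    (hz : ∀ w ∈ S, z ⬝ᵥ w = 0) : ∀ w ∈ S, (del (adjR G) v *ᵥ z) ⬝ᵥ w = 0 := by
  obtain ⟨α, β, e⟩ := h.span z hz
  have z0 : z v = 0 := by
    rw [e, Pi.add_apply, Pi.smul_apply, Pi.smul_apply, hv, hv']; simp
  have hAz := h.perp_inv z hz
  obtain ⟨α', β', e'⟩ := h.span _ hAz
  have Az0 : (adjR G *ᵥ z) v = 0 := by
    rw [e', Pi.add_apply, Pi.smul_apply, Pi.smul_apply, hv, hv']; simp
  have e2 : del (adjR G) v *ᵥ z = adjR G *ᵥ z := by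
    funext x
    rw [del_mulVec_of_zero _ _ _ z0]
    by_cases hx : x = v
    · rw [if_pos hx, hx, Az0]
    · rw [if_neg hx]
  rw [e2]
  exact hAz

theorem perp_B_pow (h : Sw G H S σ τ) (v : V) (hv : σ v = 0) (hv' : τ v = 0) (k : ℕ) :
    ∀ w ∈ S, (del (adjR G) v ^ k *ᵥ σ) ⬝ᵥ w = 0 := by
  induction k with
  | zero =>
    rw [pow_zero, Matrix.one_mulVec]
    exact h.oσ
  | succ k ih =>
    rw [pow_succ', ← Matrix.mulVec_mulVec]
    exact h.perp_B v hv hv' _ ih

/-- the main step -/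
theorem main (h : Sw G H S σ τ) {π : V → Equiv.Perm V} (hh : Hypo G H π)
    (C : Set (V → ℕ)) (hC : ∀ χ ∈ C, ∀ v x, χ (π v x) = χ x)
    (hS : ∀ χ ∈ C, ∀ a, ind χ a ∈ S) (v : V) (hv : σ v = 0)
    (hT : Twin G v (fun (x : V) (i : {χ // χ ∈ C} × ℕ × ℕ) =>
      (del (adjR G) v ^ i.2.2 *ᵥ ind i.1.1 i.2.1) x)) :
    ∃ θ : Equiv.Perm V, ∀ x y, H.Adj (θ x) (θ y) ↔ G.Adj x y := by
  have hP := h.P2_pos
  let Γ : V → ({χ // χ ∈ C} × ℕ × ℕ) → ℝ := fun x i =>
      (del (adjR G) v ^ i.2.2 *ᵥ ind i.1.1 i.2.1) x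
  let Γ' : V → ({χ // χ ∈ C} × ℕ × ℕ) → ℝ := fun x i =>
      (del (adjR H) v ^ i.2.2 *ᵥ ind i.1.1 i.2.1) x
  let hv0 : ({χ // χ ∈ C} × ℕ × ℕ) → ℝ := fun i =>
      2 * (σ ⬝ᵥ (del (adjR G) v ^ i.2.2 *ᵥ ind i.1.1 i.2.1)) / (σ ⬝ᵥ σ)
  have hΓ : ∀ x, Γ' x = Γ x - σ x • hv0 := by
    intro x
    funext i
    show (del (adjR H) v ^ i.2.2 *ᵥ ind i.1.1 i.2.1) x = _
    rw [h.B'_pow v hv _ (hS _ i.1.2 _), Pi.sub_apply, Pi.smul_apply, smul_eq_mul, mul_comm]
    rfl
  have he : ∀ x, Γ' (π v x) = Γ x := by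
    intro x
    funext i
    exact (pair_of_hypo hh).del_mulVec v _ _ (inv_ind (hC _ i.1.2) _) x
  have hT' : Twin H v Γ' := twin_transfer hh v Γ Γ' hT he
  have hfix : π v v = v := hh.fix v
  have hpne : ∀ x, x ≠ v → π v x ≠ v := fun x hx e => hx ((π v).injective (by rw [e, hfix]))
  by_cases h0 : hv0 = 0
  · exfalso
    have hΓ0 : Γ' = Γ := by
      funext x
      rw [hΓ, h0, smul_zero, sub_zero]
    have hadj : ∀ x y, x ≠ v → y ≠ v → (H.Adj x y ↔ G.Adj x y) := by
      intro x y hx hy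
      by_cases hxy : x = y
      · subst hxy
        exact ⟨fun e => absurd e (H.loopless.irrefl x), fun e => absurd e (G.loopless.irrefl x)⟩
      obtain ⟨a, ha⟩ := (π v).surjective x
      obtain ⟨b, hb⟩ := (π v).surjective y
      have ha' : a ≠ v := fun e => hx (by rw [← ha, e, hfix])
      have hb' : b ≠ v := fun e => hy (by rw [← hb, e, hfix])
      have e1 : Γ a = Γ x := by rw [← he, hΓ0, ha]
      have e2 : Γ b = Γ y := by rw [← he, hΓ0, hb]
      have hab : a ≠ b := fun e => hxy (by rw [← ha, ← hb, e])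
      have := twin_perm G v Γ hT a b x y ha' hb' hx hy hab hxy e1 e2
      rw [← this, ← hh.adj v a b ha' hb', ha, hb]
    obtain ⟨x, hx⟩ := h.hσ0
    have hxv : x ≠ v := fun e => hx (by rw [e, hv])
    have hτx : τ x = 0 := by
      rcases mul_eq_zero.1 (h.hστ x) with e | e
      · exact absurd e hx
      · exact e
    have hτ : ∀ y, y ≠ v → τ y = 0 := by
      intro y hy
      have e := h.hD x y
      have e3 : adjR H x y = adjR G x y := by
        unfold adjR
        have := hadj x y hxv hy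
        by_cases g : G.Adj x y
        · rw [if_pos g, if_pos (this.2 g)]
        · rw [if_neg g, if_neg (fun e => g (this.1 e))]
      rw [e3, hτx, zero_mul] at e
      have : σ x * τ y = 0 := by linarith
      rcases mul_eq_zero.1 this with e | e
      · exact absurd e hx
      · exact e
    have hsum := h.swap.sum_zero
    rw [Finset.sum_eq_single v (fun y _ hy => hτ y hy) (fun e => absurd (mem_univ v) e)] at hsum
    obtain ⟨y, hy⟩ := h.hτ0
    apply hy
    by_cases hyv : y = v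
    · rw [hyv, hsum]
    · exact hτ y hyv
  · have hτv : τ v ≠ 0 := by
      intro e
      apply h0
      funext i
      show 2 * (σ ⬝ᵥ (del (adjR G) v ^ i.2.2 *ᵥ ind i.1.1 i.2.1)) / (σ ⬝ᵥ σ) = 0
      rw [dot_symm _ (pow_symm _ (del_symm _ (adjR_symm G) v) _),
        h.perp_B_pow v hv e _ _ (hS _ i.1.2 _)]
      simp
    obtain ⟨θ, t1, t2, t3⟩ := exists_theta Γ Γ' σ hv0 h.hσ hΓ h0 (π v) he
    have hθv : θ v = v := t1 v hv
    have hθne : ∀ x, x ≠ v → θ x ≠ v := fun x hx e => hx (θ.injective (by rw [e, hθv]))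
    have hv1 : ∀ x, H.Adj v (θ x) ↔ G.Adj v x := by
      intro x
      have e : adjR H v (θ x) = adjR G v x := by
        by_cases hx : σ x = 0
        · rw [t1 x hx, h.hD, hv, hx]; ring
        · have hx' : σ (θ x) ≠ 0 := by rw [t3]; exact neg_ne_zero.2 hx
          rw [(h.entry (θ x) v hx' hτv).2, (h.entry x v hx hτv).1, t3]
          ring
      unfold adjR at e
      by_cases g1 : H.Adj v (θ x) <;> by_cases g2 : G.Adj v x <;> simp [g1, g2] at e ⊢
    refine ⟨θ, fun x y => ?_⟩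
    by_cases hx : x = v
    · rw [hx, hθv]
      exact hv1 y
    by_cases hy : y = v
    · rw [hy, hθv, H.adj_comm, G.adj_comm]
      exact hv1 x
    by_cases hxy : x = y
    · subst hxy
      exact ⟨fun e => absurd e (H.loopless.irrefl _), fun e => absurd e (G.loopless.irrefl x)⟩
    rw [← hh.adj v x y hx hy]
    apply twin_perm H v Γ' hT' (θ x) (θ y) (π v x) (π v y) (hθne x hx) (hθne y hy)
      (hpne x hx) (hpne y hy) (fun e => hxy (θ.injective e)) (fun e => hxy ((π v).injective e))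
    · rw [t2, he]
    · rw [t2, he]

end Sw

/-- graphs with walk space of codimension at most two -/
theorem two (G : SimpleGraph V) (hn : 3 ≤ Fintype.card V) (C : Set (V → ℕ))
    (hC : ∀ χ ∈ C, Rec G χ) (h1 : (fun _ => 0) ∈ C)
    (hc : Fintype.card V ≤ Module.finrank ℝ (wsp G C) + 2) (v : V)
    (hT : Twin G v (fun (x : V) (i : {χ // χ ∈ C} × ℕ × ℕ) =>
      (del (adjR G) v ^ i.2.2 *ᵥ ind i.1.1 i.2.1) x))
    (H : SimpleGraph V) (π : V → Equiv.Perm V) (hh : Hypo G H π) :
    ∃ θ : Equiv.Perm V, ∀ x y, H.Adj (θ x) (θ y) ↔ G.Adj x y := by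
  classical
  by_cases hD0 : adjR H - adjR G = 0
  · have : H = G := adjR_inj (sub_eq_zero.1 hD0)
    exact ⟨Equiv.refl V, fun x y => by rw [this]; rfl⟩
  have hk : ∀ w ∈ wsp G C, (adjR H - adjR G) *ᵥ w = 0 := fun w hw =>
    kill_nsp hh hn C hC w (wsp_le G C hw)
  have hDs : (adjR H - adjR G).IsSymm := by
    unfold Matrix.IsSymm
    rw [Matrix.transpose_sub, (adjR_symm _).eq, (adjR_symm _).eq]
  obtain ⟨D, hDdef⟩ : ∃ D, D = adjR H - adjR G := ⟨_, rfl⟩
  rw [← hDdef] at hD0 hk hDs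
  have hs : ∀ x y, D x y = D y x := fun x y => by
    have := congrFun (congrFun hDs.eq y) x
    rw [Matrix.transpose_apply] at this
    exact this
  have hd : ∀ x, D x x = 0 := by
    intro x
    rw [hDdef, Matrix.sub_apply, adjR_diag, adjR_diag, sub_self]
  have hval : ∀ x y, D x y = -1 ∨ D x y = 0 ∨ D x y = 1 := by
    intro x y
    rw [hDdef, Matrix.sub_apply]
    unfold adjR
    split_ifs <;> norm_num
  obtain ⟨i, j, hij⟩ : ∃ i j, D i j ≠ 0 := by
    by_contra hcon
    push Not at hcon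
    apply hD0
    ext x y
    exact hcon x y
  have hne : i ≠ j := fun e => hij (by rw [e, hd])
  obtain ⟨s, hsdef⟩ : ∃ s, s = D i j := ⟨_, rfl⟩
  have hss : s * s = 1 := by
    rw [hsdef]
    rcases hval i j with e | e | e
    · rw [e]; norm_num
    · exact absurd e hij
    · rw [e]; norm_num
  -- the complement of the walk space is spanned by two coordinate vectors
  have hJ : ∀ x : V → ℝ, ∃ w ∈ wsp G C, ∃ y : V → ℝ, (∀ a, a ∉ ({i, j} : Finset V) → y a = 0) ∧
      x = w + y := by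
    let Φ : (wsp G C × (ℝ × ℝ)) →ₗ[ℝ] (V → ℝ) :=
      (LinearMap.coprod (wsp G C).subtype
        (LinearMap.coprod (LinearMap.toSpanSingleton ℝ (V → ℝ) (Pi.single i 1))
          (LinearMap.toSpanSingleton ℝ (V → ℝ) (Pi.single j 1))))
    have hΦ : ∀ w a b, Φ (w, (a, b)) = w.1 + (a • (Pi.single i (1 : ℝ) : V → ℝ) +
        b • (Pi.single j (1 : ℝ) : V → ℝ)) := by
      intro w a b
      rfl
    have hinj : Function.Injective Φ := by
      rw [← LinearMap.ker_eq_bot, LinearMap.ker_eq_bot']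
      rintro ⟨w, a, b⟩ h0
      rw [hΦ] at h0
      have h2 : D *ᵥ (w.1 + (a • (Pi.single i (1 : ℝ) : V → ℝ) +
          b • (Pi.single j (1 : ℝ) : V → ℝ))) = 0 := by
        rw [h0, Matrix.mulVec_zero]
      rw [Matrix.mulVec_add, hk w.1 w.2, zero_add, Matrix.mulVec_add, Matrix.mulVec_smul,
        Matrix.mulVec_smul, Matrix.mulVec_single_one, Matrix.mulVec_single_one] at h2
      have h3 := congrFun h2 i
      have h4 := congrFun h2 j
      simp only [Pi.add_apply, Pi.smul_apply, smul_eq_mul, Pi.zero_apply, Matrix.col_apply] at h3 h4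
      rw [hd, mul_zero, zero_add] at h3
      rw [hd, mul_zero, add_zero, hs j i] at h4
      have hb : b = 0 := by
        rcases mul_eq_zero.1 h3 with e | e
        · exact e
        · exact absurd e hij
      have ha : a = 0 := by
        rcases mul_eq_zero.1 h4 with e | e
        · exact e
        · exact absurd e hij
      rw [ha, hb, zero_smul, zero_smul, add_zero, add_zero] at h0
      have hw : w = 0 := Subtype.ext h0
      rw [ha, hb, hw]
      rfl
    have hfr : Module.finrank ℝ (wsp G C × (ℝ × ℝ)) = Module.finrank ℝ (V → ℝ) := by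
      apply le_antisymm
      · exact LinearMap.finrank_le_finrank_of_injective hinj
      · rw [Module.finrank_fintype_fun_eq_card, Module.finrank_prod, Module.finrank_prod,
          Module.finrank_self]
        exact hc
    have hsurj : Function.Surjective Φ :=
      (LinearMap.injective_iff_surjective_of_finrank_eq_finrank hfr).1 hinj
    intro x
    obtain ⟨⟨w, a, b⟩, hx⟩ := hsurj x
    rw [hΦ] at hx
    refine ⟨w.1, w.2, _, ?_, hx.symm⟩
    intro c hc2
    rw [mem_insert, mem_singleton, not_or] at hc2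
    rw [Pi.add_apply, Pi.smul_apply, Pi.smul_apply, Pi.single_eq_of_ne hc2.1,
      Pi.single_eq_of_ne hc2.2]
    simp
  -- the rank two form
  have hform : ∀ x y, D x y = s * (D x j * D i y + D x i * D j y) := by
    let M : Matrix V V ℝ := fun x y => D x y - s * (D x j * D i y + D x i * D j y)
    have hM : M = 0 := by
      apply eq_zero_of_kill (wsp G C) {i, j} hJ
      · ext x y
        rw [Matrix.transpose_apply]
        show D y x - s * (D y j * D i x + D y i * D j x) = D x y - s * (D x j * D i y + D x i * D j y)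
        rw [hs y x, hs y j, hs i x, hs y i, hs j x]
        ring
      · intro w hw
        funext x
        show ∑ y, (D x y - s * (D x j * D i y + D x i * D j y)) * w y = 0
        have a1 : ∑ y, D x y * w y = 0 := congrFun (hk w hw) x
        have a2 : ∑ y, D i y * w y = 0 := congrFun (hk w hw) i
        have a3 : ∑ y, D j y * w y = 0 := congrFun (hk w hw) j
        have a4 : ∀ y ∈ (univ : Finset V), (D x y - s * (D x j * D i y + D x i * D j y)) * w y =
            D x y * w y - s * D x j * (D i y * w y) - s * D x i * (D j y * w y) := by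
          intro y _; ring
        rw [Finset.sum_congr rfl a4, Finset.sum_sub_distrib, Finset.sum_sub_distrib,
          ← Finset.mul_sum, ← Finset.mul_sum, a1, a2, a3]
        ring
      · intro x hx y hy
        show D x y - s * (D x j * D i y + D x i * D j y) = 0
        rw [mem_insert, mem_singleton] at hx hy
        have e1 : D j i = s := by rw [hs, hsdef]
        have e2 : D i j = s := hsdef.symm
        rcases hx with rfl | rfl <;> rcases hy with rfl | rfl <;>
          simp only [hd, e1, e2] <;>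
          first
            | linear_combination (-s) * hss
            | ring
    intro x y
    have := congrFun (congrFun hM x) y
    have e : D x y - s * (D x j * D i y + D x i * D j y) = 0 := this
    linarith
  have colw : ∀ a, ∀ w ∈ wsp G C, (fun x => D x a) ⬝ᵥ w = 0 := by
    intro a w hw
    have h' : ∑ x, D a x * w x = 0 := congrFun (hk w hw) a
    show ∑ x, D x a * w x = 0
    rw [← h']
    exact Finset.sum_congr rfl (fun x _ => by rw [hs])
  have colw' : ∀ a, ∀ w ∈ wsp G C, (fun x => s * D x a) ⬝ᵥ w = 0 := by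
    intro a w hw
    have h' := colw a w hw
    have e : (fun x => s * D x a) ⬝ᵥ w = s * ((fun x => D x a) ⬝ᵥ w) := by
      show ∑ x, s * D x a * w x = s * ∑ x, D x a * w x
      rw [Finset.mul_sum]
      exact Finset.sum_congr rfl (fun x _ => by ring)
    rw [e, h', mul_zero]
  have sw : Sw G H (wsp G C) (fun x => D x i) (fun x => s * D x j) := by
    refine ⟨?_, ?_, ?_, ?_, ?_, ?_, ?_, ?_, ?_, ?_, ?_⟩
    · intro x y
      have e1 : adjR H x y = adjR G x y + D x y := by
        rw [hDdef, Matrix.sub_apply]; ring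
      show adjR H x y = adjR G x y + D x i * (s * D y j) + s * D x j * D y i
      rw [e1, hform x y, hs y j, hs y i]
      ring
    · intro x; exact hval x i
    · intro x
      show s * D x j = -1 ∨ s * D x j = 0 ∨ s * D x j = 1
      have hs1 : s = -1 ∨ s = 1 := by
        rcases hval i j with e | e | e
        · exact Or.inl (by rw [hsdef, e])
        · exact absurd e hij
        · exact Or.inr (by rw [hsdef, e])
      rcases hs1 with e | e <;> rcases hval x j with e' | e' | e' <;> rw [e, e'] <;> norm_num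
    · intro x
      show D x i * (s * D x j) = 0
      have := hform x x
      rw [hd, hs i x, hs j x] at this
      linarith
    · exact ⟨j, by show D j i ≠ 0; rw [hs]; exact hij⟩
    · refine ⟨i, ?_⟩
      show s * D i j ≠ 0
      rw [← hsdef, hss]; exact one_ne_zero
    · exact colw i
    · exact colw' j
    · intro z hz
      refine ⟨s * z j, z i, ?_⟩
      have hz' : ∀ w ∈ wsp G C, (z - ((s * z j) • (fun x => D x i) +
          z i • (fun x => s * D x j))) ⬝ᵥ w = 0 := by
        intro w hw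
        rw [sub_dotProduct, add_dotProduct, smul_dotProduct, smul_dotProduct, hz w hw]
        rw [colw i w hw, colw' j w hw]; simp
      rw [← sub_eq_zero]
      have hdot : ∀ x : V → ℝ, (z - ((s * z j) • (fun x => D x i) +
          z i • (fun x => s * D x j))) ⬝ᵥ x = 0 := by
        intro x
        obtain ⟨w, hw, y, hy, rfl⟩ := hJ x
        rw [dotProduct_add, hz' w hw, zero_add]
        unfold dotProduct
        apply Finset.sum_eq_zero
        intro a _
        by_cases ha : a ∈ ({i, j} : Finset V)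
        · rw [mem_insert, mem_singleton] at ha
          have : (z - ((s * z j) • (fun x => D x i) + z i • (fun x => s * D x j))) a = 0 := by
            simp only [Pi.sub_apply, Pi.add_apply, Pi.smul_apply, smul_eq_mul]
            have e1 : D j i = s := by rw [hs, hsdef]
            have e2 : D i j = s := hsdef.symm
            rcases ha with rfl | rfl
            · rw [hd, e2]; linear_combination (-z a) * hss
            · rw [hd, e1]; linear_combination (-z a) * hss
          rw [this, zero_mul]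
        · rw [hy a ha, mul_zero]
      funext a
      have := hdot (Pi.single a 1)
      rw [dotProduct_single, mul_one] at this
      exact this
    · apply Submodule.subset_span
      refine ⟨_, h1, 0, 0, ?_⟩
      rw [pow_zero, Matrix.one_mulVec]
      funext x
      unfold ind
      simp
    · exact fun w hw => wsp_inv G C w hw
  have hCπ : ∀ χ ∈ C, ∀ v x, χ (π v x) = χ x := fun χ hχ => hC χ hχ H π hh
  have hS : ∀ χ ∈ C, ∀ a, ind χ a ∈ wsp G C := by
    intro χ hχ a
    apply Submodule.subset_span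
    exact ⟨χ, hχ, a, 0, by rw [pow_zero, Matrix.one_mulVec]⟩
  rcases mul_eq_zero.1 (sw.hστ v) with e | e
  · exact sw.main hh C hCπ hS v e hT
  · exact sw.swap.main hh C hCπ hS v e hT

end Pool.Agent.X79.RW
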