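import Pool.Agent.X79.RW6

set_option autoImplicit false
set_option linter.unusedSectionVars false

/-!
Reconstruction from a single card and the walk data.
-/

namespace Pool.Agent.X79.RW

open Finset Matrix
open Pool.Agent.H234RC (Hypo TLat TCard SameDeck Reconstructible card_iso whole_iso)

variable {V : Type} [Fintype V] [DecidableEq V]

/-- `G` without the edges at `v` -/
def cutG (G : SimpleGraph V) (v : V) : SimpleGraph V where
  Adj x y := G.Adj x y ∧ x ≠ v ∧ y ≠ v
  symm := ⟨fun _ _ h => ⟨h.1.symm, h.2.2, h.2.1⟩⟩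
  loopless := ⟨fun _ h => h.1.ne rfl⟩

theorem cutG_eq (G : SimpleGraph V) (v : V) : adjR (cutG G v) = del (adjR G) v := by
  classical
  ext x y
  unfold adjR del cutG
  by_cases hx : x = v
  · simp [hx]
  · by_cases hy : y = v
    · simp [hy]
    · by_cases hG : G.Adj x y <;> simp [hx, hy, hG]

/-- if the difference kills all `A^k e_v`, then the walk numbers in the cards at `v` agree -/
theorem card_walks {A A' : Matrix V V ℝ} {π : V → Equiv.Perm V} (P : Pair A A' π)
    (hn : 3 ≤ Fintype.card V) (v : V) (hv : ∀ k, (A' - A) *ᵥ (A ^ k *ᵥ (Pi.single v 1)) = 0)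
    (f : V → ℝ) (hf : Pair.Inv π f) (k : ℕ) (x : V) :
    (del A' v ^ k *ᵥ f) x = (del A v ^ k *ᵥ f) x := by
  have hpow : ∀ k, A' ^ k *ᵥ (Pi.single v (1 : ℝ)) = A ^ k *ᵥ (Pi.single v (1 : ℝ)) := by
    intro k
    induction k with
    | zero => rw [pow_zero, pow_zero]
    | succ k ih =>
      rw [pow_succ', ← Matrix.mulVec_mulVec, ih, pow_succ', ← Matrix.mulVec_mulVec]
      have := hv k
      rw [Matrix.sub_mulVec, sub_eq_zero] at this
      exact this
  have hent : ∀ k, (A' ^ k *ᵥ (Pi.single x (1 : ℝ))) v = (A ^ k *ᵥ (Pi.single x (1 : ℝ))) v := by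
    intro k
    have h1 := congrFun (hpow k) x
    rw [Matrix.mulVec_single_one, Matrix.mulVec_single_one] at h1 ⊢
    simp only [Matrix.col_apply] at h1 ⊢
    have s1 : (A' ^ k) v x = (A' ^ k) x v := by
      have := congrFun (congrFun (pow_symm A' P.symm' k).eq x) v
      rwa [Matrix.transpose_apply] at this
    have s2 : (A ^ k) v x = (A ^ k) x v := by
      have := congrFun (congrFun (pow_symm A P.symm k).eq x) v
      rwa [Matrix.transpose_apply] at this
    rw [s1, s2]
    exact h1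
  have hdot : ∀ (M : Matrix V V ℝ), M.IsSymm → f ⬝ᵥ (M *ᵥ (Pi.single x (1 : ℝ))) =
      (M *ᵥ f) x := by
    intro M hM
    rw [dot_symm M hM, dotProduct_single, mul_one]
  induction k using Nat.strong_induction_on with
  | _ k ih =>
    have h1 := conv_bil A' P.symm' v (P.diag' v) f (Pi.single x 1) k
    have h2 := conv_bil A P.symm v (P.diag v) f (Pi.single x 1) k
    have h3 : ∑ p ∈ antidiagonal k, (A' ^ p.1 *ᵥ f) v * (A' ^ p.2 *ᵥ (Pi.single x (1 : ℝ))) v =
        ∑ p ∈ antidiagonal k, (A ^ p.1 *ᵥ f) v * (A ^ p.2 *ᵥ (Pi.single x (1 : ℝ))) v := by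
      apply Finset.sum_congr rfl
      intro p _
      rw [P.walk_eq hn f hf, hent]
    rw [← h1, ← h2, ← sub_eq_zero, ← Finset.sum_sub_distrib] at h3
    rw [Finset.sum_eq_single (0, k)] at h3
    · simp only [pow_zero, Matrix.one_apply_eq, one_mul] at h3
      rw [hdot _ (pow_symm A' P.symm' k), hdot _ (pow_symm A P.symm k),
        hdot _ (pow_symm _ (del_symm A' P.symm' v) k), hdot _ (pow_symm _ (del_symm A P.symm v) k),
        P.walk_eq hn f hf] at h3
      linarith
    · intro p hp hne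
      have hp' := mem_antidiagonal.mp hp
      have : p.2 < k := by
        rcases Nat.lt_or_ge p.2 k with h | h
        · exact h
        · exfalso; apply hne; ext <;> simp <;> omega
      rw [hdot _ (pow_symm A' P.symm' _), hdot _ (pow_symm A P.symm _),
        hdot _ (pow_symm _ (del_symm A' P.symm' v) _), hdot _ (pow_symm _ (del_symm A P.symm v) _),
        P.walk_eq hn f hf, (P.eqk hn p.1).1 v, ih _ this]
      ring
    · intro h
      exfalso; apply h; simp

/-- a vertex whose walk functions lie in the full space and whose card has the twin property -/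
theorem one_vertex (G : SimpleGraph V) (hn : 3 ≤ Fintype.card V) (C : Set (V → ℕ))
    (hC : ∀ χ ∈ C, Rec G χ) (v : V)
    (hv : ∀ k, adjR G ^ k *ᵥ (Pi.single v 1) ∈ nsp G C)
    (hT : Twin G v (fun (x : V) (i : {χ // χ ∈ C} × ℕ × ℕ) =>
      (del (adjR G) v ^ i.2.2 *ᵥ ind i.1.1 i.2.1) x))
    (H : SimpleGraph V) (π : V → Equiv.Perm V) (hh : Hypo G H π) : H = G := by
  classical
  have P := pair_of_hypo hh
  have hk : ∀ k, (adjR H - adjR G) *ᵥ (adjR G ^ k *ᵥ (Pi.single v 1)) = 0 := fun k =>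
    kill_nsp hh hn C hC _ (hv k)
  have hCπ : ∀ χ ∈ C, ∀ v x, χ (π v x) = χ x := fun χ hχ => hC χ hχ H π hh
  let Γ : V → ({χ // χ ∈ C} × ℕ × ℕ) → ℝ := fun x i =>
      (del (adjR G) v ^ i.2.2 *ᵥ ind i.1.1 i.2.1) x
  have he : ∀ x, Γ (π v x) = Γ x := by
    intro x
    funext i
    show (del (adjR G) v ^ i.2.2 *ᵥ ind i.1.1 i.2.1) (π v x) =
      (del (adjR G) v ^ i.2.2 *ᵥ ind i.1.1 i.2.1) x
    rw [← card_walks P hn v hk _ (inv_ind (hCπ _ i.1.2) _)]
    exact P.del_mulVec v _ _ (inv_ind (hCπ _ i.1.2) _) x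
  have hfix : π v v = v := hh.fix v
  have hadj : ∀ x y, x ≠ v → y ≠ v → (H.Adj x y ↔ G.Adj x y) := by
    intro x y hx hy
    by_cases hxy : x = y
    · subst hxy
      exact ⟨fun e => absurd e (H.loopless.irrefl x), fun e => absurd e (G.loopless.irrefl x)⟩
    obtain ⟨a, ha⟩ := (π v).surjective x
    obtain ⟨b, hb⟩ := (π v).surjective y
    have ha' : a ≠ v := fun e => hx (by rw [← ha, e, hfix])
    have hb' : b ≠ v := fun e => hy (by rw [← hb, e, hfix])
    have e1 : Γ a = Γ x := by rw [← he, ha]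
    have e2 : Γ b = Γ y := by rw [← he, hb]
    have hab : a ≠ b := fun e => hxy (by rw [← ha, ← hb, e])
    have := twin_perm G v Γ hT a b x y ha' hb' hx hy hab hxy e1 e2
    rw [← this, ← hh.adj v a b ha' hb', ha, hb]
  have hv0 : ∀ x, H.Adj x v ↔ G.Adj x v := by
    intro x
    have := congrFun (hk 0) x
    rw [pow_zero, Matrix.one_mulVec, Matrix.mulVec_single_one, Matrix.col_apply,
      Matrix.sub_apply] at this
    have e : adjR H x v - adjR G x v = 0 := this
    unfold adjR at e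
    by_cases g1 : H.Adj x v <;> by_cases g2 : G.Adj x v <;> simp [g1, g2] at e ⊢
  ext x y
  by_cases hy : y = v
  · rw [hy]; exact hv0 x
  by_cases hx : x = v
  · rw [hx, H.adj_comm, G.adj_comm]; exact hv0 y
  exact hadj x y hx hy

/-! ### the graph seen from one card -/

theorem relabel_pow (A' M : Matrix V V ℝ) (σ : Equiv.Perm V) (hM : ∀ x y, M x y = A' (σ x) (σ y))
    (k : ℕ) (x y : V) : (M ^ k) x y = (A' ^ k) (σ x) (σ y) := by
  induction k generalizing x y with
  | zero =>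
    rw [pow_zero, pow_zero, Matrix.one_apply, Matrix.one_apply]
    simp
  | succ k ih =>
    rw [pow_succ, pow_succ, Matrix.mul_apply, Matrix.mul_apply]
    rw [← Equiv.sum_comp σ (fun z => (A' ^ k) (σ x) z * A' z (σ y))]
    apply Finset.sum_congr rfl
    intro z _
    rw [ih, hM]

theorem relabel_mulVec (A' M : Matrix V V ℝ) (σ : Equiv.Perm V)
    (hM : ∀ x y, M x y = A' (σ x) (σ y)) (k : ℕ) (f : V → ℝ) (hf : ∀ x, f (σ x) = f x) (x : V) :
    (M ^ k *ᵥ f) x = (A' ^ k *ᵥ f) (σ x) := by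
  show ∑ y, (M ^ k) x y * f y = ∑ y, (A' ^ k) (σ x) y * f y
  rw [← Equiv.sum_comp σ (fun y => (A' ^ k) (σ x) y * f y)]
  apply Finset.sum_congr rfl
  intro y _
  rw [relabel_pow A' M σ hM, hf]

/-- the graph `H` relabelled such that its card at `v` is the card of `G` -/
def pull (H : SimpleGraph V) (σ : Equiv.Perm V) : SimpleGraph V := H.comap σ

theorem pull_adj (H : SimpleGraph V) (σ : Equiv.Perm V) (x y : V) :
    (pull H σ).Adj x y ↔ H.Adj (σ x) (σ y) := Iff.rfl

theorem pull_adjR (H : SimpleGraph V) (σ : Equiv.Perm V) (x y : V) :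
    adjR (pull H σ) x y = adjR H (σ x) (σ y) := by
  unfold adjR
  by_cases h : H.Adj (σ x) (σ y)
  · rw [if_pos h, if_pos ((pull_adj H σ x y).2 h)]
  · rw [if_neg h, if_neg (fun e => h ((pull_adj H σ x y).1 e))]

/-- number of neighbours of `x` in a class of the one-step refinement -/
noncomputable def nc (K : SimpleGraph V) (χ : V → ℕ) (x : V) (c : ℕ) (μ : ℕ → ℕ) : ℕ := by
  classical
  exact (univ.filter (fun y => K.Adj x y ∧ χ y = c ∧ ∀ a, nb K χ a y = μ a)).card

theorem nb_pull {G H : SimpleGraph V} {π : V → Equiv.Perm V} (hh : Hypo G H π)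
    (hn : 3 ≤ Fintype.card V) {χ : V → ℕ} (h : ∀ v x, χ (π v x) = χ x) (v : V) (a : ℕ) (x : V) :
    nb (pull H (π v)) χ a x = nb G χ a (π v x) := by
  rw [← nb_eq hh hn h]
  have h1 := relabel_mulVec (adjR H) (adjR (pull H (π v))) (π v)
    (pull_adjR H (π v)) 1 (ind χ a) (fun x => inv_ind h a v x) x
  rw [pow_one, pow_one, adjR_ind, adjR_ind] at h1
  exact_mod_cast h1

theorem nc_pull {G H : SimpleGraph V} {π : V → Equiv.Perm V} (hh : Hypo G H π)
    (hn : 3 ≤ Fintype.card V) {χ : V → ℕ} (h : ∀ v x, χ (π v x) = χ x) (v : V) (x : V) (c : ℕ)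
    (μ : ℕ → ℕ) : nc (pull H (π v)) χ x c μ = nc G χ (π v x) c μ := by
  classical
  have e1 : nc G χ (π v x) c μ = (TT G G χ (π v x) c μ).card := by
    unfold nc TT
    congr 1
    ext y
    simp only [mem_filter, mem_univ, true_and]
    have : nv G χ y = μ ↔ ∀ a, nb G χ a y = μ a := by
      constructor
      · intro e a; exact congrFun e a
      · intro e; funext a; exact e a
    rw [this]
  have e2 : nc (pull H (π v)) χ x c μ = (TT G H χ (π v x) c μ).card := by
    unfold nc TT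
    rw [← card_map (π v).toEmbedding]
    congr 1
    ext y
    obtain ⟨z, rfl⟩ := (π v).surjective y
    rw [mem_map_equiv, Equiv.symm_apply_apply]
    simp only [mem_filter, mem_univ, true_and]
    rw [pull_adj, h v z]
    have : nv G χ (π v z) = μ ↔ ∀ a, nb (pull H (π v)) χ a z = μ a := by
      constructor
      · intro e a
        rw [nb_pull hh hn h]
        exact congrFun e a
      · intro e
        funext a
        rw [← e a, nb_pull hh hn h]
        rfl
    rw [this]
  rw [e1, e2, TT_eq hh hn h]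

/-- walk-equivalent graphs -/
def WEq (G G' : SimpleGraph V) (C : Set (V → ℕ)) (v : V) : Prop :=
  ∃ κ : Equiv.Perm V, κ v = v ∧
    (∀ χ ∈ C, ∀ x, χ (κ x) = χ x) ∧
    (∀ χ ∈ C, ∀ a k x, (adjR G' ^ k *ᵥ ind χ a) (κ x) = (adjR G ^ k *ᵥ ind χ a) x) ∧
    (∀ k x, (adjR G' ^ k) (κ x) (κ x) = (adjR G ^ k) x x) ∧
    (∀ χ ∈ C, ∀ c μ x, nc G' χ (κ x) c μ = nc G χ x c μ)

theorem weq_pull {G H : SimpleGraph V} {π : V → Equiv.Perm V} (hh : Hypo G H π)
    (hn : 3 ≤ Fintype.card V) (C : Set (V → ℕ)) (hC : ∀ χ ∈ C, Rec G χ) (v : V) :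
    WEq G (pull H (π v)) C v := by
  have P := pair_of_hypo hh
  have hCπ : ∀ χ ∈ C, ∀ v x, χ (π v x) = χ x := fun χ hχ => hC χ hχ H π hh
  refine ⟨(π v).symm, ?_, ?_, ?_, ?_, ?_⟩
  · rw [Equiv.symm_apply_eq, hh.fix]
  · intro χ hχ x
    have := hCπ χ hχ v ((π v).symm x)
    rw [Equiv.apply_symm_apply] at this
    exact this.symm
  · intro χ hχ a k x
    rw [relabel_mulVec (adjR H) (adjR (pull H (π v))) (π v) (pull_adjR H (π v)) k (ind χ a)
      (fun x => inv_ind (hCπ χ hχ) a v x), Equiv.apply_symm_apply,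
      P.walk_eq hn _ (inv_ind (hCπ χ hχ) a)]
  · intro k x
    rw [relabel_pow (adjR H) (adjR (pull H (π v))) (π v) (pull_adjR H (π v)),
      Equiv.apply_symm_apply, (P.eqk hn k).1]
  · intro χ hχ c μ x
    rw [nc_pull hh hn (hCπ χ hχ), Equiv.apply_symm_apply]

/-- all walk-equivalent graphs with the same card at `v` are isomorphic to `G` -/
theorem one_card (G : SimpleGraph V) (hn : 3 ≤ Fintype.card V) (C : Set (V → ℕ))
    (hC : ∀ χ ∈ C, Rec G χ) (v : V)
    (hG : ∀ G' : SimpleGraph V, (∀ x y, x ≠ v → y ≠ v → (G'.Adj x y ↔ G.Adj x y)) →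
      WEq G G' C v → ∃ θ : Equiv.Perm V, ∀ x y, G'.Adj (θ x) (θ y) ↔ G.Adj x y)
    (H : SimpleGraph V) (π : V → Equiv.Perm V) (hh : Hypo G H π) :
    ∃ θ : Equiv.Perm V, ∀ x y, H.Adj (θ x) (θ y) ↔ G.Adj x y := by
  obtain ⟨θ, hθ⟩ := hG (pull H (π v)) (fun x y hx hy => hh.adj v x y hx hy)
    (weq_pull hh hn C hC v)
  refine ⟨θ.trans (π v), fun x y => ?_⟩
  rw [Equiv.trans_apply, Equiv.trans_apply, ← hθ x y]
  exact Iff.rfl

end Pool.Agent.X79.RW
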