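import Pool.Agent.X79.RW7

set_option autoImplicit false
set_option linter.unusedSectionVars false

/-!
Counting the graphs with the deck of `G` by the codimension of the walk space of a card.
-/

namespace Pool.Agent.X79.RW

open Finset Matrix
open Pool.Agent.H234RC (Hypo TLat TCard SameDeck Reconstructible card_iso whole_iso)

variable {V : Type} [Fintype V] [DecidableEq V]

theorem walk_dec (A : Matrix V V ℝ) (v : V) (hA : A v v = 0) (f : V → ℝ) (k : ℕ) :
    (A ^ k *ᵥ f) v = ∑ p ∈ antidiagonal k, (A ^ p.1) v v * (gm A v p.2 *ᵥ f) v := by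
  have h := congrArg (fun M : Matrix V V ℝ => (M *ᵥ f) v) (claim2 A v hA k)
  simp only [Matrix.sum_mulVec, Matrix.smul_mulVec, un_mulVec, Pi.single_eq_same,
    Finset.sum_apply, Pi.smul_apply, smul_eq_mul] at h
  exact h

theorem gm_succ (A : Matrix V V ℝ) (v : V) (f : V → ℝ) (j : ℕ) :
    (gm A v (j + 1) *ᵥ f) v = (A *ᵥ (del A v ^ j *ᵥ f)) v := by
  show ((un v * A * del A v ^ j) *ᵥ f) v = _
  rw [mul_assoc, un_mulVec, Pi.single_eq_same, Matrix.mulVec_mulVec]

theorem gm_eq {A A' : Matrix V V ℝ} {π : V → Equiv.Perm V} (P : Pair A A' π)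
    (hn : 3 ≤ Fintype.card V) (v : V) (f : V → ℝ) (hf : Pair.Inv π f) (j : ℕ) :
    (gm A' v j *ᵥ f) v = (gm A v j *ᵥ f) v := by
  induction j using Nat.strong_induction_on with
  | _ j ih =>
    have h1 := walk_dec A' v (P.diag' v) f j
    have h2 := walk_dec A v (P.diag v) f j
    rw [P.walk_eq hn f hf, h2, ← sub_eq_zero, ← Finset.sum_sub_distrib,
      Finset.sum_eq_single (0, j)] at h1
    · simp only [pow_zero, Matrix.one_apply_eq, one_mul] at h1
      linarith
    · intro p hp hne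
      have hp' := mem_antidiagonal.mp hp
      have : p.2 < j := by
        rcases Nat.lt_or_ge p.2 j with h | h
        · exact h
        · exfalso; apply hne; ext <;> simp <;> omega
      rw [(P.eqk hn p.1).1 v, ih _ this]
      ring
    · intro h
      exfalso; apply h; simp

/-- sums of the walk functions of the card over the neighbourhood of `v` -/
theorem sum_walk {G H : SimpleGraph V} {π : V → Equiv.Perm V} (hh : Hypo G H π)
    (hn : 3 ≤ Fintype.card V) (v : V) (f : V → ℝ) (hf : Pair.Inv π f) (k : ℕ) :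
    (adjR (pull H (π v)) *ᵥ (del (adjR G) v ^ k *ᵥ f)) v =
      (adjR G *ᵥ (del (adjR G) v ^ k *ᵥ f)) v := by
  have P := pair_of_hypo hh
  have h1 := gm_eq P hn v f hf (k + 1)
  rw [gm_succ, gm_succ] at h1
  rw [← h1]
  show ∑ x, adjR (pull H (π v)) v x * (del (adjR G) v ^ k *ᵥ f) x =
    ∑ x, adjR H v x * (del (adjR H) v ^ k *ᵥ f) x
  rw [← Equiv.sum_comp (π v) (fun x => adjR H v x * (del (adjR H) v ^ k *ᵥ f) x)]
  apply Finset.sum_congr rfl
  intro x _
  rw [pull_adjR, hh.fix, P.del_mulVec v k f hf]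

theorem nb_cut (G : SimpleGraph V) (χ : V → ℕ) (a : ℕ) (v x : V) (hx : x ≠ v) :
    (nb (cutG G v) χ a x : ℝ) = (nb G χ a x : ℝ) - adjR G x v * ind χ a v := by
  rw [← del_ind G χ a v x hx, ← cutG_eq, adjR_ind]

theorem nv_up {G K : SimpleGraph V} {χ : V → ℕ} {v x y : V} (hyv : K.Adj v y)
    (hr : ∀ a, (nb (cutG G v) χ a x : ℝ) = (nb G χ a y : ℝ) - adjR K y v * ind χ a v) :
    nv G χ y = Function.update (nv (cutG G v) χ x) (χ v) (nv (cutG G v) χ x (χ v) + 1) := by
  have h1 : adjR K y v = 1 := if_pos hyv.symm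
  funext a
  have h2 := hr a
  rw [h1, one_mul] at h2
  by_cases ha : a = χ v
  · rw [ha, Function.update_self]
    have i1 : ind χ (χ v) v = 1 := by unfold ind; rw [if_pos rfl]
    rw [ha, i1] at h2
    show nb G χ (χ v) y = nb (cutG G v) χ (χ v) x + 1
    have : (nb G χ (χ v) y : ℝ) = (nb (cutG G v) χ (χ v) x : ℝ) + 1 := by linarith
    exact_mod_cast this
  · rw [Function.update_of_ne ha]
    have i0 : ind χ a v = 0 := by unfold ind; rw [if_neg (Ne.symm ha)]
    rw [i0, sub_zero] at h2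
    show nb G χ a y = nb (cutG G v) χ a x
    exact_mod_cast h2.symm

theorem sum_class {G H : SimpleGraph V} {π : V → Equiv.Perm V} (hh : Hypo G H π)
    (hn : 3 ≤ Fintype.card V) (v : V) (χ : V → ℕ) (h : ∀ v x, χ (π v x) = χ x) (x₀ : V) :
    (adjR (pull H (π v)) *ᵥ ind2 (cutG G v) χ x₀) v = (adjR G *ᵥ ind2 (cutG G v) χ x₀) v := by
  classical
  rw [adjR_ind2, adjR_ind2]
  obtain ⟨μ, hμ⟩ : ∃ μ, μ = nv (cutG G v) χ x₀ := ⟨_, rfl⟩
  rw [← hμ]
  have e1 : (TT (cutG G v) G χ v (χ x₀) μ) =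
      TT G G χ v (χ x₀) (Function.update μ (χ v) (μ (χ v) + 1)) := by
    unfold TT
    ext x
    simp only [mem_filter, mem_univ, true_and]
    constructor
    · rintro ⟨a, b, c⟩
      have := nv_up (x := x) a (fun a' => nb_cut G χ a' v x a.ne')
      rw [c] at this
      exact ⟨a, b, this⟩
    · rintro ⟨a, b, c⟩
      have := nv_up (x := x) a (fun a' => nb_cut G χ a' v x a.ne')
      rw [this] at c
      exact ⟨a, b, upd_inj c⟩
  have e2 : (TT (cutG G v) (pull H (π v)) χ v (χ x₀) μ).card =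
      (TT G H χ v (χ x₀) (Function.update μ (χ v) (μ (χ v) + 1))).card := by
    rw [← card_map (π v).toEmbedding]
    congr 1
    ext y
    obtain ⟨x, rfl⟩ := (π v).surjective y
    rw [mem_map_equiv, Equiv.symm_apply_apply]
    unfold TT
    simp only [mem_filter, mem_univ, true_and]
    rw [pull_adj, hh.fix, h v x]
    have hrel : x ≠ v → ∀ a, (nb (cutG G v) χ a x : ℝ) =
        (nb G χ a (π v x) : ℝ) - adjR H (π v x) v * ind χ a v := by
      intro hx a
      rw [nb_cut G χ a v x hx, card_rel hh hn h a v x hx]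
    constructor
    · rintro ⟨a, b, c⟩
      have hx : x ≠ v := by
        intro e
        rw [e, hh.fix] at a
        exact H.loopless.irrefl v a
      have := nv_up (x := x) a (hrel hx)
      rw [c] at this
      exact ⟨a, b, this⟩
    · rintro ⟨a, b, c⟩
      have hx : x ≠ v := by
        intro e
        rw [e, hh.fix] at a
        exact H.loopless.irrefl v a
      have := nv_up (x := x) a (hrel hx)
      rw [this] at c
      exact ⟨a, b, upd_inj c⟩
  rw [e1, e2, TT_eq hh hn h]

/-- the space of a card -/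
noncomputable def csp (G : SimpleGraph V) (C : Set (V → ℕ)) (v : V) : Submodule ℝ (V → ℝ) :=
  Submodule.span ℝ (({F | ∃ χ ∈ C, ∃ a k, F = del (adjR G) v ^ k *ᵥ ind χ a} ∪
    {F | ∃ χ ∈ C, ∃ x₀, F = ind2 (cutG G v) χ x₀}) ∪ {Pi.single v 1})

theorem csp_sum {G H : SimpleGraph V} {π : V → Equiv.Perm V} (hh : Hypo G H π)
    (hn : 3 ≤ Fintype.card V) (C : Set (V → ℕ)) (hC : ∀ χ ∈ C, Rec G χ) (v : V) (F : V → ℝ)
    (hF : F ∈ csp G C v) : (adjR (pull H (π v)) *ᵥ F) v = (adjR G *ᵥ F) v := by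
  unfold csp at hF
  induction hF using Submodule.span_induction with
  | mem F hF =>
    rcases hF with (⟨χ, hχ, a, k, rfl⟩ | ⟨χ, hχ, x₀, rfl⟩) | hF
    · exact sum_walk hh hn v _ (inv_ind (hC χ hχ H π hh) a) k
    · exact sum_class hh hn v χ (hC χ hχ H π hh) x₀
    · rw [Set.mem_singleton_iff] at hF
      rw [hF, Matrix.mulVec_single_one, Matrix.mulVec_single_one, Matrix.col_apply,
        Matrix.col_apply, adjR_diag, adjR_diag]
  | zero => rw [Matrix.mulVec_zero, Matrix.mulVec_zero]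
  | add x y _ _ hx hy =>
    rw [Matrix.mulVec_add, Matrix.mulVec_add, Pi.add_apply, Pi.add_apply, hx, hy]
  | smul a x _ hx =>
    rw [Matrix.mulVec_smul, Matrix.mulVec_smul, Pi.smul_apply, Pi.smul_apply, hx]

theorem iso_symm {K K' : SimpleGraph V} (h : ∃ σ : Equiv.Perm V, ∀ x y, K'.Adj (σ x) (σ y) ↔
    K.Adj x y) : ∃ σ : Equiv.Perm V, ∀ x y, K.Adj (σ x) (σ y) ↔ K'.Adj x y := by
  obtain ⟨σ, hσ⟩ := h
  exact ⟨σ.symm, fun x y => by rw [← hσ, Equiv.apply_symm_apply, Equiv.apply_symm_apply]⟩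

theorem atMost_of' (G : SimpleGraph V) (m : ℕ)
    (h : ∀ (ι : Type) [Fintype ι] (H : ι → SimpleGraph V), (∀ i, ∃ π, Hypo G (H i) π) →
      (∀ i j, i ≠ j → ¬ ∃ σ : Equiv.Perm V, ∀ x y, (H j).Adj (σ x) (σ y) ↔ (H i).Adj x y) →
      Fintype.card ι ≤ m) : AtMost G m ∧ AtMost Gᶜ m := by
  constructor
  · intro ι _ W _ H hs hne
    choose H' π hh e he using fun i => hypo_of_sameDeck G (H i) (hs i)
    apply h ι H' (fun i => ⟨π i, hh i⟩)
    rintro i j hij ⟨σ, hσ⟩
    have := iso_of_eq (H i) (H j) (H' i) (e i) (σ.trans (e j)) (he i) (fun x y => by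
      rw [Equiv.trans_apply, Equiv.trans_apply, he j, hσ])
    exact (hne i j hij).false this.some
  · intro ι _ W _ H hs hne
    choose H' π hh e he using fun i => hypo_of_sameDeck Gᶜ (H i) (hs i)
    apply h ι (fun i => (H' i)ᶜ) (fun i => ⟨π i, by
      have := hypo_compl (hh i)
      rwa [compl_compl] at this⟩)
    rintro i j hij ⟨σ, hσ⟩
    have hσ' : ∀ x y, (H' j).Adj (σ x) (σ y) ↔ (H' i).Adj x y := by
      intro x y
      have h1 := hσ x y
      rw [SimpleGraph.compl_adj, SimpleGraph.compl_adj] at h1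
      by_cases hxy : x = y
      · subst hxy
        exact ⟨fun e => absurd e ((H' j).loopless.irrefl _),
          fun e => absurd e ((H' i).loopless.irrefl _)⟩
      · have h2 : σ x ≠ σ y := fun e => hxy (σ.injective e)
        constructor
        · intro a
          by_contra b
          exact (h1.2 ⟨hxy, b⟩).2 a
        · intro a
          by_contra b
          exact (h1.1 ⟨h2, b⟩).2 a
    have := iso_of_eq (H i) (H j) (H' i) (e i) (σ.trans (e j)) (he i) (fun x y => by
      rw [Equiv.trans_apply, Equiv.trans_apply, he j, hσ'])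
    exact (hne i j hij).false this.some

open Classical in
/-- neighbours of `v` in `J` -/
noncomputable def nJ (K : SimpleGraph V) (J : Finset V) (v : V) : Finset {x // x ∈ J} :=
  univ.filter (fun x => K.Adj v x.1)

theorem count_card (G : SimpleGraph V) (hn : 3 ≤ Fintype.card V) (C : Set (V → ℕ))
    (hC : ∀ χ ∈ C, Rec G χ) (v : V) (ι : Type) [Fintype ι] (H : ι → SimpleGraph V)
    (hH : ∀ i, ∃ π, Hypo G (H i) π)
    (hne : ∀ i j, i ≠ j → ¬ ∃ σ : Equiv.Perm V, ∀ x y, (H j).Adj (σ x) (σ y) ↔ (H i).Adj x y) :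
    Fintype.card ι ≤ 2 ^ (Fintype.card V - Module.finrank ℝ (csp G C v)) := by
  classical
  obtain ⟨J, hJc, hJ⟩ := exists_coords (csp G C v)
  choose π hπ using hH
  have hcard : Fintype.card (Finset {x // x ∈ J}) = 2 ^ J.card := by
    rw [Fintype.card_finset, Fintype.card_coe]
  rw [← hJc, ← hcard]
  apply Fintype.card_le_of_injective (fun i => nJ (pull (H i) (π i v)) J v)
  intro i j hij
  by_contra hij2
  apply hne i j hij2
  have hij' : nJ (pull (H i) (π i v)) J v = nJ (pull (H j) (π j v)) J v := hij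
  -- the two rows agree
  let z : V → ℝ := fun x => adjR (pull (H i) (π i v)) v x - adjR (pull (H j) (π j v)) v x
  have hz : ∀ F ∈ csp G C v, z ⬝ᵥ F = 0 := by
    intro F hF
    have h1 := csp_sum (hπ i) hn C hC v F hF
    have h2 := csp_sum (hπ j) hn C hC v F hF
    have h3 : z ⬝ᵥ F = (adjR (pull (H i) (π i v)) *ᵥ F) v -
        (adjR (pull (H j) (π j v)) *ᵥ F) v := by
      show ∑ x, (adjR (pull (H i) (π i v)) v x - adjR (pull (H j) (π j v)) v x) * F x =
        ∑ x, adjR (pull (H i) (π i v)) v x * F x - ∑ x, adjR (pull (H j) (π j v)) v x * F x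
      rw [← Finset.sum_sub_distrib]
      exact Finset.sum_congr rfl (fun x _ => by ring)
    rw [h3, h1, h2, sub_self]
  have hzJ : ∀ x ∈ J, z x = 0 := by
    intro x hx
    have h4 : ((⟨x, hx⟩ : {x // x ∈ J}) ∈ nJ (pull (H i) (π i v)) J v) ↔
        ((⟨x, hx⟩ : {x // x ∈ J}) ∈ nJ (pull (H j) (π j v)) J v) := by rw [hij']
    unfold nJ at h4
    rw [mem_filter, mem_filter] at h4
    simp only [mem_univ, true_and] at h4
    show adjR (pull (H i) (π i v)) v x - adjR (pull (H j) (π j v)) v x = 0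
    unfold adjR
    by_cases g : (pull (H i) (π i v)).Adj v x
    · rw [if_pos g, if_pos (h4.1 g), sub_self]
    · rw [if_neg g, if_neg (fun e => g (h4.2 e)), sub_self]
  have hz0 : ∀ x, z x = 0 := by
    intro x
    obtain ⟨w, hw, y, hy, e⟩ := hJ (Pi.single x 1)
    have h5 : z ⬝ᵥ (Pi.single x (1 : ℝ)) = z x := by rw [dotProduct_single, mul_one]
    rw [← h5, e, dotProduct_add, hz w hw, zero_add]
    unfold dotProduct
    apply Finset.sum_eq_zero
    intro a _
    by_cases ha : a ∈ J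
    · rw [hzJ a ha, zero_mul]
    · rw [hy a ha, mul_zero]
  have hrow : ∀ x, (pull (H i) (π i v)).Adj v x ↔ (pull (H j) (π j v)).Adj v x := by
    intro x
    have e : adjR (pull (H i) (π i v)) v x - adjR (pull (H j) (π j v)) v x = 0 := hz0 x
    unfold adjR at e
    by_cases g1 : (pull (H i) (π i v)).Adj v x <;>
      by_cases g2 : (pull (H j) (π j v)).Adj v x <;> simp [g1, g2] at e ⊢
  have hall : ∀ x y, (pull (H i) (π i v)).Adj x y ↔ (pull (H j) (π j v)).Adj x y := by
    intro x y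
    by_cases hx : x = v
    · rw [hx]; exact hrow y
    by_cases hy : y = v
    · rw [hy, SimpleGraph.adj_comm, SimpleGraph.adj_comm (pull (H j) (π j v))]; exact hrow x
    rw [pull_adj, pull_adj, (hπ i).adj v x y hx hy, (hπ j).adj v x y hx hy]
  refine ⟨(π i v).symm.trans (π j v), fun x y => ?_⟩
  rw [Equiv.trans_apply, Equiv.trans_apply, ← pull_adj, ← hall, pull_adj,
    Equiv.apply_symm_apply, Equiv.apply_symm_apply]

end Pool.Agent.X79.RW
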